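import Pool.Agent.RAY.Graph
import Mathlib.Analysis.Subadditive

/-!
# The action on the ray graph is by isometries; orbits of zero translation length
-/

namespace Pool.Agent.RAY

open Set Topology Filter unitInterval

section action

variable {C : Set ℂ}

theorem symm_image {f : ℂ ≃ₜ ℂ} (hf : f '' C = C) : f.symm '' C = C := by
  conv_lhs => rw [← hf]
  rw [← Set.image_comp]
  simp

theorem onePointCongr_symm_apply (f : ℂ ≃ₜ ℂ) (z : OnePoint ℂ) :
    f.symm.onePointCongr (f.onePointCongr z) = z := by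
  induction z using OnePoint.rec with
  | infty => rfl
  | coe z =>
    show ((f.symm (f z) : ℂ) : OnePoint ℂ) = z
    rw [f.symm_apply_apply]

theorem actRay_symm (f : ℂ ≃ₜ ℂ) (hf : f '' C = C) (γ : Ray C) :
    actRay f.symm (symm_image hf) (actRay f hf γ) = γ := by
  apply Subtype.ext
  funext t
  exact onePointCongr_symm_apply f (γ.1 t)

theorem act_mk (f : ℂ ≃ₜ ℂ) (hf : f '' C = C) (γ : Ray C) :
    act f hf (Quotient.mk _ γ) = Quotient.mk _ (actRay f hf γ) := rfl

theorem act_symm (f : ℂ ≃ₜ ℂ) (hf : f '' C = C) (a : Vertex C) :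
    act f.symm (symm_image hf) (act f hf a) = a := by
  induction a using Quotient.inductionOn with
  | h γ => rw [act_mk, act_mk, actRay_symm]

theorem act_injective (f : ℂ ≃ₜ ℂ) (hf : f '' C = C) : Function.Injective (act f hf) :=
  Function.LeftInverse.injective (act_symm f hf)

theorem act_adj {f : ℂ ≃ₜ ℂ} (hf : f '' C = C) {a b : Vertex C} (h : (rayGraph C).Adj a b) :
    (rayGraph C).Adj (act f hf a) (act f hf b) := by
  obtain ⟨hne, γ, γ', rfl, rfl, hd⟩ := h
  refine ⟨fun e => hne (act_injective f hf e), actRay f hf γ, actRay f hf γ', rfl, rfl, ?_⟩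
  intro s t hs hs' ht ht' e
  exact hd s t hs hs' ht ht' (f.onePointCongr.injective e)

/-- The action as a graph homomorphism. -/
noncomputable def actHom (f : ℂ ≃ₜ ℂ) (hf : f '' C = C) : rayGraph C →g rayGraph C where
  toFun := act f hf
  map_rel' := act_adj hf

theorem edist_act_le (f : ℂ ≃ₜ ℂ) (hf : f '' C = C) (a b : Vertex C) :
    (rayGraph C).edist (act f hf a) (act f hf b) ≤ (rayGraph C).edist a b := by
  by_cases h : (rayGraph C).edist a b = ⊤
  · rw [h]; exact le_top
  · have hr : (rayGraph C).Reachable a b := by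
      rwa [← (rayGraph C).edist_ne_top_iff_reachable]
    obtain ⟨p, hp⟩ := hr.exists_walk_length_eq_edist
    rw [← hp, ← SimpleGraph.Walk.length_map (actHom f hf) p]
    exact SimpleGraph.edist_le (p.map (actHom f hf))

theorem edist_act (f : ℂ ≃ₜ ℂ) (hf : f '' C = C) (a b : Vertex C) :
    (rayGraph C).edist (act f hf a) (act f hf b) = (rayGraph C).edist a b := by
  refine le_antisymm (edist_act_le f hf a b) ?_
  have h := edist_act_le f.symm (symm_image hf) (act f hf a) (act f hf b)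
  rwa [act_symm, act_symm] at h

/-- Iterates of the action. -/
theorem act_iterate_mk (f : ℂ ≃ₜ ℂ) (hf : f '' C = C) (γ : Ray C) (n : ℕ) :
    ∃ γ' : Ray C, (act f hf)^[n] (Quotient.mk _ γ) = Quotient.mk _ γ' ∧
      ∀ t, γ'.1 t = f.onePointCongr^[n] (γ.1 t) := by
  induction n with
  | zero => exact ⟨γ, rfl, fun t => rfl⟩
  | succ n ih =>
    obtain ⟨γ', h1, h2⟩ := ih
    refine ⟨actRay f hf γ', ?_, fun t => ?_⟩
    · rw [Function.iterate_succ_apply', h1]; rfl
    · rw [Function.iterate_succ_apply']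
      show f.onePointCongr (γ'.1 t) = _
      rw [h2]

end action

section abstract_graph

variable {V : Type} (G : SimpleGraph V) (φ : V → V)

/-- Orbits which are slowly displaced along a sequence of vertices `X k` at distance `≤ k`, at one
time `N k ≥ (k + 1)²` only. -/
theorem tau_zero_sub (hφ : ∀ a b, G.edist (φ a) (φ b) = G.edist a b) (x : V) (X : ℕ → V)
    (N : ℕ → ℕ) (h1 : G.edist x (φ x) ≠ ⊤)
    (hX : ∀ k, G.edist x (X k) ≤ k)
    (hN : ∀ k, G.edist (X k) (φ^[N k] (X k)) ≤ 1)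
    (hbig : ∀ k, (k + 1) ^ 2 ≤ N k) :
    (∀ n : ℕ, G.edist x (φ^[n] x) ≠ ⊤) ∧
      Tendsto (fun n : ℕ => ((G.edist x (φ^[n] x)).toNat : ℝ) / n) atTop (𝓝 0) := by
  have htri : ∀ m n : ℕ, G.edist x (φ^[m + n] x) ≤ G.edist x (φ^[m] x) + G.edist x (φ^[n] x) := by
    intro m n
    calc G.edist x (φ^[m + n] x) ≤ G.edist x (φ^[m] x) + G.edist (φ^[m] x) (φ^[m + n] x) :=
          G.edist_triangle
      _ = _ := by rw [Function.iterate_add_apply, edist_iterate G φ hφ]
  have hne : ∀ n : ℕ, G.edist x (φ^[n] x) ≠ ⊤ := by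
    intro n
    induction n with
    | zero => simp
    | succ n ih =>
      refine ne_top_of_le_ne_top ?_ (htri n 1)
      exact WithTop.add_ne_top.2 ⟨ih, h1⟩
  refine ⟨hne, ?_⟩
  let a : ℕ → ℝ := fun n => ((G.edist x (φ^[n] x)).toNat : ℝ)
  have hsub : Subadditive a := by
    intro m n
    have h := htri m n
    have h2 : (G.edist x (φ^[m + n] x)).toNat ≤
        (G.edist x (φ^[m] x)).toNat + (G.edist x (φ^[n] x)).toNat := by
      rw [← ENat.toNat_add (hne m) (hne n)]
      exact ENat.toNat_le_toNat h (WithTop.add_ne_top.2 ⟨hne m, hne n⟩)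
    show ((G.edist x (φ^[m + n] x)).toNat : ℝ) ≤ ((G.edist x (φ^[m] x)).toNat : ℝ) +
      ((G.edist x (φ^[n] x)).toNat : ℝ)
    exact_mod_cast h2
  have hbdd : BddBelow (range fun n => a n / n) := by
    refine ⟨0, ?_⟩
    rintro _ ⟨n, rfl⟩
    show (0 : ℝ) ≤ ((G.edist x (φ^[n] x)).toNat : ℝ) / n
    positivity
  have hlim := hsub.tendsto_lim hbdd
  have hle : ∀ k : ℕ, (G.edist x (φ^[N k] x)).toNat ≤ 2 * k + 1 := fun k =>
    ENat.toNat_le_of_le_natCast (edist_orbit_le G φ hφ x (X k) k (N k) (hX k) (hN k))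
  have hNtop : Tendsto N atTop atTop := by
    refine tendsto_atTop_mono (fun k => ?_) tendsto_id
    have := hbig k
    show k ≤ N k
    nlinarith
  have hsubseq : Tendsto (fun k : ℕ => a (N k) / (N k : ℕ)) atTop (𝓝 hsub.lim) :=
    hlim.comp hNtop
  have hz : Tendsto (fun k : ℕ => a (N k) / (N k : ℕ)) atTop (𝓝 0) := by
    refine squeeze_zero (g := fun k : ℕ => 2 * (1 / ((k : ℝ) + 1))) (fun k => ?_) (fun k => ?_) ?_
    · show (0 : ℝ) ≤ ((G.edist x (φ^[N k] x)).toNat : ℝ) / (N k : ℕ)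
      positivity
    · have h3 : a (N k) ≤ 2 * k + 1 := by
        have := hle k
        show ((G.edist x (φ^[N k] x)).toNat : ℝ) ≤ _
        exact_mod_cast this
      have h4 : ((k : ℝ) + 1) ^ 2 ≤ (N k : ℝ) := by exact_mod_cast hbig k
      have h5 : (0 : ℝ) < (k : ℝ) + 1 := by positivity
      calc a (N k) / (N k : ℕ) ≤ (2 * (k + 1)) / ((k : ℝ) + 1) ^ 2 := by
            refine div_le_div₀ (by positivity) (by linarith) (by positivity) h4
        _ = 2 * (1 / ((k : ℝ) + 1)) := by field_simp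
    · have := tendsto_one_div_add_atTop_nhds_zero_nat (𝕜 := ℝ)
      simpa using this.const_mul 2
  have : hsub.lim = 0 := tendsto_nhds_unique hsubseq hz
  rw [this] at hlim
  exact hlim

end abstract_graph

end Pool.Agent.RAY
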