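import Mathlib

/-!
# RAY: the group `HH` of homeomorphisms of the cylinder (problem MP_5d2250_gt)

`Pl = ℝ × ℝ` is the universal cover of the cylinder `(ℝ/ℤ) × ℝ`.  `HH` is the group of all
homeomorphisms of `Pl` which commute with `(x, y) ↦ (x + 1, y)` and move the height `y` by a bounded
amount.  It acts on the complex plane through `ex (x, y) = exp (2 π (y + i x))`, fixing `0`.
-/

set_option autoImplicit false

open Complex Topology Filter

namespace Pool.Agent.RAY

/-- The cover of the cylinder. -/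
abbrev Pl := ℝ × ℝ

/-- The group of homeomorphisms of the cylinder, as a subgroup. -/
def HHs : Subgroup (Pl ≃ₜ Pl) where
  carrier := {f | (∀ z : Pl, f (z.1 + 1, z.2) = ((f z).1 + 1, (f z).2)) ∧
    ∃ B : ℝ, ∀ z : Pl, |(f z).2 - z.2| ≤ B}
  one_mem' := by
    refine ⟨fun z => rfl, 0, fun z => ?_⟩
    simp
  mul_mem' := by
    rintro f g ⟨hf, Bf, hBf⟩ ⟨hg, Bg, hBg⟩
    refine ⟨fun z => ?_, Bf + Bg, fun z => ?_⟩
    · simp only [Homeomorph.mul_apply]
      rw [hg z, hf (g z)]
    · simp only [Homeomorph.mul_apply]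
      have h1 := hBf (g z)
      have h2 := hBg z
      calc |(f (g z)).2 - z.2| = |((f (g z)).2 - (g z).2) + ((g z).2 - z.2)| := by ring_nf
        _ ≤ |(f (g z)).2 - (g z).2| + |(g z).2 - z.2| := abs_add_le _ _
        _ ≤ Bf + Bg := add_le_add h1 h2
  inv_mem' := by
    rintro f ⟨hf, B, hB⟩
    refine ⟨fun z => ?_, B, fun z => ?_⟩
    · apply f.injective
      have h1 : f (f⁻¹ (z.1 + 1, z.2)) = (z.1 + 1, z.2) := f.apply_symm_apply _
      have h2 : f (f⁻¹ z) = z := f.apply_symm_apply _
      rw [h1, hf (f⁻¹ z), h2]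
    · have h2 : f (f⁻¹ z) = z := f.apply_symm_apply _
      have h3 := hB (f⁻¹ z)
      rw [h2] at h3
      rwa [abs_sub_comm]

/-- The group of homeomorphisms of the cylinder. -/
abbrev HH : Type := HHs

instance : CoeFun HH (fun _ => Pl → Pl) := ⟨fun f => (f.1 : Pl ≃ₜ Pl)⟩

namespace HH

theorem turn (f : HH) (z : Pl) : f (z.1 + 1, z.2) = ((f z).1 + 1, (f z).2) := f.2.1 z

theorem exists_bound (f : HH) : ∃ B : ℝ, 0 ≤ B ∧ ∀ z : Pl, |(f z).2 - z.2| ≤ B := by
  obtain ⟨B, hB⟩ := f.2.2
  exact ⟨B, le_trans (abs_nonneg _) (hB (0, 0)), hB⟩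

@[simp] theorem one_apply (z : Pl) : (1 : HH) z = z := rfl

@[simp] theorem mul_apply (f g : HH) (z : Pl) : (f * g) z = f (g z) := rfl

@[simp] theorem inv_apply_self (f : HH) (z : Pl) : f⁻¹ (f z) = z :=
  f.1.symm_apply_apply z

@[simp] theorem apply_inv_self (f : HH) (z : Pl) : f (f⁻¹ z) = z :=
  f.1.apply_symm_apply z

theorem continuous (f : HH) : Continuous f := f.1.continuous

theorem injective (f : HH) : Function.Injective f := f.1.injective

theorem surjective (f : HH) : Function.Surjective f := f.1.surjective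

theorem ext' {f g : HH} (h : ∀ z, f z = g z) : f = g :=
  Subtype.ext (Homeomorph.ext h)

theorem turn_int (f : HH) (z : Pl) (n : ℤ) : f (z.1 + n, z.2) = ((f z).1 + n, (f z).2) := by
  have hnat : ∀ (n : ℕ) (z : Pl), f (z.1 + n, z.2) = ((f z).1 + n, (f z).2) := by
    intro n
    induction n with
    | zero => intro z; simp
    | succ n ih =>
      intro z
      have h1 := ih (z.1 + 1, z.2)
      simp only at h1
      rw [f.turn z] at h1
      push_cast
      rw [show z.1 + ((n : ℝ) + 1) = z.1 + 1 + n by ring, h1]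
      ext
      · simp; ring
      · rfl
  rcases Int.eq_nat_or_neg n with ⟨m, rfl | rfl⟩
  · exact_mod_cast hnat m z
  · have h1 := hnat m (z.1 - m, z.2)
    simp only [sub_add_cancel] at h1
    have h2 : z.1 + ((-(m : ℤ) : ℤ) : ℝ) = z.1 - m := by push_cast; ring
    rw [h2]
    have h3 : f z = ((f (z.1 - m, z.2)).1 + m, (f (z.1 - m, z.2)).2) := h1
    ext
    · have := congrArg Prod.fst h3
      simp only at this
      push_cast
      linarith
    · have := congrArg Prod.snd h3
      simp only at this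
      simp only
      linarith

end HH

/-- The exponential map of the cylinder to the plane. -/
noncomputable def ex (z : Pl) : ℂ := Complex.exp (2 * Real.pi * (z.2 + z.1 * I))

theorem ex_ne_zero (z : Pl) : ex z ≠ 0 := Complex.exp_ne_zero _

theorem continuous_ex : Continuous ex := by unfold ex; fun_prop

theorem norm_ex (z : Pl) : ‖ex z‖ = Real.exp (2 * Real.pi * z.2) := by
  unfold ex
  rw [Complex.norm_exp]
  congr 1
  simp

theorem ex_eq_iff {z w : Pl} : ex z = ex w ↔ ∃ n : ℤ, z = (w.1 + n, w.2) := by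
  unfold ex
  rw [Complex.exp_eq_exp_iff_exists_int]
  have hpi : (Real.pi : ℂ) ≠ 0 := by exact_mod_cast Real.pi_ne_zero
  constructor
  · rintro ⟨n, hn⟩
    refine ⟨n, ?_⟩
    have h1 : (z.2 : ℂ) + z.1 * I = (w.2 : ℂ) + (w.1 + n) * I := by
      have h2 : (2 * (Real.pi : ℂ)) * ((z.2 : ℂ) + z.1 * I)
          = (2 * (Real.pi : ℂ)) * ((w.2 : ℂ) + (w.1 + n) * I) := by
        rw [hn]; ring
      exact mul_left_cancel₀ (by simp) h2
    have h3 := congrArg Complex.re h1
    have h4 := congrArg Complex.im h1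
    simp at h3 h4
    exact Prod.ext h4 h3
  · rintro ⟨n, hn⟩
    refine ⟨n, ?_⟩
    rw [hn]
    push_cast
    ring

theorem ex_turn (z : Pl) (n : ℤ) : ex (z.1 + n, z.2) = ex z := ex_eq_iff.2 ⟨n, rfl⟩

/-- The inverse branch. -/
noncomputable def lg (w : ℂ) : Pl := ((Complex.log w).im / (2 * Real.pi), (Complex.log w).re / (2 * Real.pi))

theorem ex_lg {w : ℂ} (hw : w ≠ 0) : ex (lg w) = w := by
  unfold ex lg
  have hpi : (Real.pi : ℂ) ≠ 0 := by exact_mod_cast Real.pi_ne_zero
  have h : (2 * Real.pi * ((((Complex.log w).re / (2 * Real.pi) : ℝ) : ℂ)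
      + (((Complex.log w).im / (2 * Real.pi) : ℝ) : ℂ) * I)) = Complex.log w := by
    push_cast
    field_simp
    rw [Complex.re_add_im]
  simp only
  rw [h, Complex.exp_log hw]

namespace HH

/-- The action on points of the plane. -/
noncomputable def act (f : HH) (w : ℂ) : ℂ := if w = 0 then 0 else ex (f (lg w))

@[simp] theorem act_zero (f : HH) : f.act 0 = 0 := by simp [act]

@[simp] theorem act_ex (f : HH) (z : Pl) : f.act (ex z) = ex (f z) := by
  unfold act
  rw [if_neg (ex_ne_zero z)]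
  obtain ⟨n, hn⟩ := ex_eq_iff.1 (ex_lg (ex_ne_zero z))
  rw [hn, f.turn_int, ex_turn]

theorem act_ne_zero (f : HH) {w : ℂ} (hw : w ≠ 0) : f.act w ≠ 0 := by
  rw [← ex_lg hw, act_ex]; exact ex_ne_zero _

theorem act_mul (f g : HH) (w : ℂ) : (f * g).act w = f.act (g.act w) := by
  by_cases hw : w = 0
  · simp [hw]
  · rw [← ex_lg hw]; simp

theorem act_one (w : ℂ) : act 1 w = w := by
  by_cases hw : w = 0
  · simp [hw]
  · rw [← ex_lg hw]; simp

/-- local continuous inverse branch around a point. -/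
theorem continuousAt_act (f : HH) (w : ℂ) : ContinuousAt f.act w := by
  by_cases hw : w = 0
  · subst hw
    obtain ⟨B, hB0, hB⟩ := f.exists_bound
    rw [ContinuousAt, act_zero, tendsto_zero_iff_norm_tendsto_zero]
    have hb : ∀ w : ℂ, ‖f.act w‖ ≤ Real.exp (2 * Real.pi * B) * ‖w‖ := by
      intro w
      by_cases hw : w = 0
      · simp [hw]
      · rw [← ex_lg hw, act_ex, norm_ex, norm_ex, ← Real.exp_add]
        apply Real.exp_le_exp.2
        have h1 := (abs_le.1 (hB (lg w))).2
        have h2 := Real.pi_pos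
        nlinarith
    refine squeeze_zero (fun w => norm_nonneg _) hb ?_
    have : Tendsto (fun w : ℂ => Real.exp (2 * Real.pi * B) * ‖w‖) (𝓝 0)
        (𝓝 (Real.exp (2 * Real.pi * B) * ‖(0 : ℂ)‖)) := by
      exact (continuous_const.mul continuous_norm).tendsto 0
    simpa using this
  · -- local section
    set z₀ := lg w with hz₀
    let s : ℂ → Pl := fun v =>
      (z₀.1 + (Complex.log (v / w)).im / (2 * Real.pi), z₀.2 + (Complex.log (v / w)).re / (2 * Real.pi))
    have hs : ∀ v : ℂ, v ≠ 0 → ex (s v) = v := by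
      intro v hv
      have h1 : ex (s v) = ex z₀ * Complex.exp (Complex.log (v / w)) := by
        unfold ex
        rw [← Complex.exp_add]
        congr 1
        have hpi : (Real.pi : ℂ) ≠ 0 := by exact_mod_cast Real.pi_ne_zero
        have h2 : Complex.log (v / w) = ((Complex.log (v / w)).re : ℂ)
            + ((Complex.log (v / w)).im : ℂ) * I := (Complex.re_add_im _).symm
        conv_rhs => rw [h2]
        simp only [s]
        push_cast
        field_simp
        ring
      rw [h1, hz₀, ex_lg hw, Complex.exp_log (div_ne_zero hv hw)]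
      field_simp
    have hcs : ContinuousAt s w := by
      have h1 : ContinuousAt (fun v : ℂ => Complex.log (v / w)) w := by
        refine ContinuousAt.clog ?_ ?_
        · exact (continuous_id.div_const w).continuousAt
        · rw [div_self hw]; exact Complex.one_mem_slitPlane
      refine ContinuousAt.prodMk ?_ ?_
      · exact continuousAt_const.add ((Complex.continuous_im.continuousAt.comp h1).div_const _)
      · exact continuousAt_const.add ((Complex.continuous_re.continuousAt.comp h1).div_const _)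
    have h2 : (fun v => ex (f (s v))) =ᶠ[𝓝 w] f.act := by
      filter_upwards [isOpen_ne.mem_nhds hw] with v hv
      rw [← act_ex, hs v hv]
    refine ContinuousAt.congr ?_ h2
    exact (continuous_ex.comp f.continuous).continuousAt.comp hcs

theorem continuous_act (f : HH) : Continuous f.act :=
  continuous_iff_continuousAt.2 f.continuousAt_act

/-- The action of `HH` on the plane by homeomorphisms fixing `0`. -/
noncomputable def toC : HH →* (ℂ ≃ₜ ℂ) where
  toFun f :=
    { toFun := f.act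
      invFun := f⁻¹.act
      left_inv := fun w => by rw [← act_mul, inv_mul_cancel, act_one]
      right_inv := fun w => by rw [← act_mul, mul_inv_cancel, act_one]
      continuous_toFun := f.continuous_act
      continuous_invFun := f⁻¹.continuous_act }
  map_one' := by
    ext w
    exact act_one w
  map_mul' f g := by
    ext w
    exact act_mul f g w

@[simp] theorem toC_ex (f : HH) (z : Pl) : toC f (ex z) = ex (f z) := f.act_ex z

@[simp] theorem toC_zero (f : HH) : toC f 0 = 0 := f.act_zero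

/-- Horizontal translation (rotation of the plane). -/
def rot (a : ℝ) : HH :=
  ⟨Homeomorph.prodCongr (Homeomorph.addRight a) (Homeomorph.refl ℝ), by
    refine ⟨fun z => ?_, 0, fun z => ?_⟩
    · ext <;> simp [Homeomorph.prodCongr] ; ring
    · simp [Homeomorph.prodCongr]⟩

@[simp] theorem rot_apply (a : ℝ) (z : Pl) : rot a z = (z.1 + a, z.2) := rfl

/-- Vertical translation (dilation of the plane). -/
def lift (s : ℝ) : HH :=
  ⟨Homeomorph.prodCongr (Homeomorph.refl ℝ) (Homeomorph.addRight s), by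
    refine ⟨fun z => ?_, |s|, fun z => ?_⟩
    · simp [Homeomorph.prodCongr]
    · simp [Homeomorph.prodCongr]⟩

@[simp] theorem lift_apply (s : ℝ) (z : Pl) : lift s z = (z.1, z.2 + s) := rfl

theorem rot_add (a b : ℝ) : rot (a + b) = rot a * rot b := by
  apply ext'
  intro z
  simp
  ring

theorem rot_zero : rot 0 = 1 := by apply ext'; intro z; simp

theorem rot_pow (a : ℝ) (n : ℕ) : rot a ^ n = rot (n * a) := by
  induction n with
  | zero => simp [rot_zero]
  | succ n ih => rw [pow_succ, ih, ← rot_add]; congr 1; push_cast; ring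

theorem rot_int (n : ℤ) (f : HH) : rot n * f = f * rot n := by
  apply ext'
  intro z
  simp [f.turn_int]

/-- An element of `HH` from two continuous maps which are inverse to each other. -/
def mk' (f g : Pl → Pl) (hf : Continuous f) (hg : Continuous g)
    (hfg : ∀ z, f (g z) = z) (hgf : ∀ z, g (f z) = z)
    (ht : ∀ z : Pl, f (z.1 + 1, z.2) = ((f z).1 + 1, (f z).2))
    (hb : ∃ B : ℝ, ∀ z : Pl, |(f z).2 - z.2| ≤ B) : HH :=
  ⟨{ toFun := f, invFun := g, left_inv := hgf, right_inv := hfg,
     continuous_toFun := hf, continuous_invFun := hg }, ht, hb⟩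

@[simp] theorem mk'_apply (f g : Pl → Pl) (hf : Continuous f) (hg : Continuous g)
    (hfg : ∀ z, f (g z) = z) (hgf : ∀ z, g (f z) = z)
    (ht : ∀ z : Pl, f (z.1 + 1, z.2) = ((f z).1 + 1, (f z).2))
    (hb : ∃ B : ℝ, ∀ z : Pl, |(f z).2 - z.2| ≤ B) (z : Pl) :
    mk' f g hf hg hfg hgf ht hb z = f z := rfl

@[simp] theorem mk'_inv_apply (f g : Pl → Pl) (hf : Continuous f) (hg : Continuous g)
    (hfg : ∀ z, f (g z) = z) (hgf : ∀ z, g (f z) = z)
    (ht : ∀ z : Pl, f (z.1 + 1, z.2) = ((f z).1 + 1, (f z).2))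
    (hb : ∃ B : ℝ, ∀ z : Pl, |(f z).2 - z.2| ≤ B) (z : Pl) :
    (mk' f g hf hg hfg hgf ht hb)⁻¹ z = g z := rfl

/-- Elements of `HH` are uniformly continuous on horizontal strips; here in the form: a bounded
strip and a number `ε` give a `δ`. -/
theorem exists_delta (f : HH) (Y : ℝ) {ε : ℝ} (hε : 0 < ε) :
    ∃ δ : ℝ, 0 < δ ∧ ∀ z w : Pl, |z.2| ≤ Y → |w.2| ≤ Y → dist z w < δ → dist (f z) (f w) < ε := by
  -- compactness of [-1, 2] x [-Y, Y] and periodicity
  have hK : IsCompact (Set.Icc (-1 : ℝ) 2 ×ˢ Set.Icc (-Y) Y) := isCompact_Icc.prod isCompact_Icc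
  have hu : UniformContinuousOn f (Set.Icc (-1 : ℝ) 2 ×ˢ Set.Icc (-Y) Y) :=
    hK.uniformContinuousOn_of_continuous f.continuous.continuousOn
  rw [Metric.uniformContinuousOn_iff] at hu
  obtain ⟨δ, hδ, h⟩ := hu ε hε
  refine ⟨min δ 1, by positivity, fun z w hz hw hd => ?_⟩
  set n : ℤ := ⌊z.1⌋ with hn
  have h1 : (z.1 - n, z.2) ∈ Set.Icc (-1 : ℝ) 2 ×ˢ Set.Icc (-Y) Y := by
    have h2 := Int.floor_le z.1
    have h3 := Int.lt_floor_add_one z.1
    refine ⟨⟨?_, ?_⟩, abs_le.1 hz⟩ <;> simp only [hn] <;> linarith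
  have hdx : |z.1 - w.1| < min δ 1 := by
    have := (max_lt_iff.1 (by rw [Prod.dist_eq] at hd; exact hd)).1
    rwa [Real.dist_eq] at this
  have hdx1 : |z.1 - w.1| < 1 := hdx.trans_le (min_le_right _ _)
  have h2 : (w.1 - n, w.2) ∈ Set.Icc (-1 : ℝ) 2 ×ˢ Set.Icc (-Y) Y := by
    have h2 := Int.floor_le z.1
    have h3 := Int.lt_floor_add_one z.1
    have h4 := abs_lt.1 hdx1
    refine ⟨⟨?_, ?_⟩, abs_le.1 hw⟩ <;> simp only [hn] <;> linarith
  have h5 := h _ h1 _ h2 (by
    have : dist ((z.1 - n, z.2) : Pl) (w.1 - n, w.2) = dist z w := by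
      simp [Prod.dist_eq, Real.dist_eq]
    rw [this]; exact hd.trans_le (min_le_left _ _))
  have e1 : f (z.1 - n, z.2) = ((f z).1 - n, (f z).2) := by
    have := f.turn_int z (-n)
    push_cast at this
    simpa [sub_eq_add_neg] using this
  have e2 : f (w.1 - n, w.2) = ((f w).1 - n, (f w).2) := by
    have := f.turn_int w (-n)
    push_cast at this
    simpa [sub_eq_add_neg] using this
  rw [e1, e2] at h5
  have : dist (((f z).1 - n, (f z).2) : Pl) ((f w).1 - n, (f w).2) = dist (f z) (f w) := by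
    simp [Prod.dist_eq, Real.dist_eq]
  rwa [this] at h5

/-- Completeness: a sequence of elements of `HH` which is uniformly Cauchy together with the
inverses converges uniformly to an element of `HH`. -/
theorem exists_limit (f : ℕ → HH) (a : ℕ → ℝ) (ha : Tendsto a atTop (𝓝 0))
    (h : ∀ k l : ℕ, k ≤ l → ∀ z, dist (f k z) (f l z) ≤ a k)
    (h' : ∀ k l : ℕ, k ≤ l → ∀ z, dist ((f k)⁻¹ z) ((f l)⁻¹ z) ≤ a k) :
    ∃ F : HH, (∀ k z, dist (f k z) (F z) ≤ a k) ∧ ∀ k z, dist ((f k)⁻¹ z) (F⁻¹ z) ≤ a k := by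
  have key : ∀ g : ℕ → Pl → Pl, (∀ k, Continuous (g k)) →
      (∀ k l : ℕ, k ≤ l → ∀ z, dist (g k z) (g l z) ≤ a k) →
      ∃ G : Pl → Pl, Continuous G ∧ ∀ k z, dist (g k z) (G z) ≤ a k := by
    intro g hg hgc
    have hc : ∀ z, CauchySeq fun k => g k z := by
      intro z
      rw [Metric.cauchySeq_iff']
      intro ε hε
      obtain ⟨N, hN⟩ := (ha.eventually (gt_mem_nhds hε)).exists_forall_of_atTop
      refine ⟨N, fun n hn => ?_⟩
      rw [dist_comm]
      exact (hgc N n hn z).trans_lt (hN N le_rfl)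
    choose G hG using fun z => cauchySeq_tendsto_of_complete (hc z)
    have hd : ∀ k z, dist (g k z) (G z) ≤ a k := by
      intro k z
      refine le_of_tendsto ((tendsto_const_nhds).dist (hG z)) ?_
      filter_upwards [eventually_ge_atTop k] with l hl using hgc k l hl z
    refine ⟨G, ?_, hd⟩
    have hu : TendstoUniformly g G atTop := by
      rw [Metric.tendstoUniformly_iff]
      intro ε hε
      filter_upwards [ha.eventually (gt_mem_nhds hε)] with k hk z
      rw [dist_comm]
      exact (hd k z).trans_lt hk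
    exact hu.continuous (Frequently.of_forall hg)
  obtain ⟨F, hF, hdF⟩ := key (fun k => f k) (fun k => (f k).continuous) h
  obtain ⟨G, hG, hdG⟩ := key (fun k z => ((f k)⁻¹ : HH) z) (fun k => ((f k)⁻¹ : HH).continuous) h'
  have hlim : ∀ (g : ℕ → Pl → Pl) (G : Pl → Pl), (∀ k z, dist (g k z) (G z) ≤ a k) →
      ∀ (x : ℕ → Pl) (x₀ : Pl), Tendsto x atTop (𝓝 x₀) → Continuous G →
      Tendsto (fun k => g k (x k)) atTop (𝓝 (G x₀)) := by
    intro g G hg x x₀ hx hGc
    have h1 : Tendsto (fun k => G (x k)) atTop (𝓝 (G x₀)) := (hGc.tendsto x₀).comp hx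
    have h2 : Tendsto (fun k => dist (g k (x k)) (G (x k))) atTop (𝓝 0) :=
      squeeze_zero (fun _ => dist_nonneg) (fun k => hg k (x k)) ha
    exact (tendsto_iff_of_dist h2).2 h1
  have hpt : ∀ (g : ℕ → Pl → Pl) (G : Pl → Pl), (∀ k z, dist (g k z) (G z) ≤ a k) →
      ∀ z, Tendsto (fun k => g k z) atTop (𝓝 (G z)) := by
    intro g G hg z
    rw [tendsto_iff_dist_tendsto_zero]
    exact squeeze_zero (fun _ => dist_nonneg) (fun k => hg k z) ha
  have hFG : ∀ z, F (G z) = z := by
    intro z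
    have h1 := hlim _ F hdF (fun k => (f k)⁻¹ z) (G z) (hpt _ G hdG z) hF
    have h2 : Tendsto (fun k => f k ((f k)⁻¹ z)) atTop (𝓝 z) := by
      simp only [apply_inv_self]; exact tendsto_const_nhds
    exact tendsto_nhds_unique h1 h2
  have hGF : ∀ z, G (F z) = z := by
    intro z
    have h1 := hlim (fun k z => ((f k)⁻¹ : HH) z) G hdG (fun k => f k z) (F z) (hpt _ F hdF z) hG
    have h2 : Tendsto (fun k => (f k)⁻¹ (f k z)) atTop (𝓝 z) := by
      simp only [inv_apply_self]; exact tendsto_const_nhds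
    exact tendsto_nhds_unique h1 h2
  have ht : ∀ z : Pl, F (z.1 + 1, z.2) = ((F z).1 + 1, (F z).2) := by
    intro z
    have h1 := hpt _ F hdF (z.1 + 1, z.2)
    have h2 := hpt _ F hdF z
    have h3 : Tendsto (fun k => ((f k z).1 + 1, (f k z).2)) atTop (𝓝 ((F z).1 + 1, (F z).2)) := by
      have hc : Continuous fun w : Pl => ((w.1 + 1, w.2) : Pl) := by fun_prop
      exact (hc.tendsto (F z)).comp h2
    refine tendsto_nhds_unique h1 ?_
    convert h3 using 2 with k
    exact (f k).turn z
  have hb : ∃ B : ℝ, ∀ z : Pl, |(F z).2 - z.2| ≤ B := by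
    obtain ⟨B, hB0, hB⟩ := (f 0).exists_bound
    refine ⟨B + a 0, fun z => ?_⟩
    have h1 := hdF 0 z
    have h2 : |(f 0 z).2 - (F z).2| ≤ a 0 := by
      refine le_trans ?_ h1
      rw [Prod.dist_eq, ← Real.dist_eq]
      exact le_max_right _ _
    have h3 := hB z
    calc |(F z).2 - z.2| = |((f 0 z).2 - z.2) - ((f 0 z).2 - (F z).2)| := by ring_nf
      _ ≤ |(f 0 z).2 - z.2| + |(f 0 z).2 - (F z).2| := abs_sub _ _
      _ ≤ B + a 0 := add_le_add h3 h2
  refine ⟨mk' F G hF hG hFG hGF ht hb, ?_, ?_⟩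
  · intro k z; exact hdF k z
  · intro k z; exact hdG k z

end HH

end Pool.Agent.RAY
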