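import Pool.Agent.RAY.Defs
import Pool.Agent.RAY.HH

/-!
# Alexander isotopy (MP_5d2250_gt)

A homeomorphism of the plane which is a rotation near infinity is isotopic to the identity.
-/

set_option autoImplicit false

open Complex Topology Filter Set unitInterval

namespace Pool.Agent.RAY

/-- The Alexander isotopy of `g`. -/
noncomputable def alex (g : ℂ → ℂ) (s : ℝ) (z : ℂ) : ℂ :=
  if s = 0 then z else s * g (z / s)

theorem alex_zero (g : ℂ → ℂ) (z : ℂ) : alex g 0 z = z := by simp [alex]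

theorem alex_one (g : ℂ → ℂ) (z : ℂ) : alex g 1 z = g z := by simp [alex]

theorem exists_bound_of_eq {g : ℂ → ℂ} (hg : Continuous g) {R : ℝ}
    (h : ∀ z, R ≤ ‖z‖ → g z = z) : ∃ M : ℝ, 0 ≤ M ∧ ∀ z, ‖g z - z‖ ≤ M := by
  obtain ⟨M, hM⟩ := (isCompact_closedBall (0 : ℂ) R).exists_bound_of_continuousOn
    (f := fun z => g z - z) (hg.sub continuous_id).continuousOn
  refine ⟨max M 0, le_max_right _ _, fun z => ?_⟩
  by_cases hz : R ≤ ‖z‖
  · rw [h z hz, sub_self, norm_zero]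
    exact le_max_right _ _
  · exact (hM z (by simpa using (not_le.1 hz).le)).trans (le_max_left _ _)

theorem alex_sub_le {g : ℂ → ℂ} {M : ℝ} (hM : ∀ z, ‖g z - z‖ ≤ M) {s : ℝ} (hs : 0 ≤ s) (z : ℂ) :
    ‖alex g s z - z‖ ≤ s * M := by
  unfold alex
  split_ifs with h
  · simp [h]
  · have h1 : (s : ℂ) ≠ 0 := by exact_mod_cast h
    have h2 : (s : ℂ) * g (z / s) - z = s * (g (z / s) - z / s) := by
      field_simp
    rw [h2, norm_mul]
    have h3 : ‖(s : ℂ)‖ = s := by simp [abs_of_nonneg hs]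
    rw [h3]
    exact mul_le_mul_of_nonneg_left (hM _) hs

theorem continuous_alex {g : ℂ → ℂ} (hg : Continuous g) {R : ℝ}
    (h : ∀ z, R ≤ ‖z‖ → g z = z) : Continuous fun p : I × ℂ => alex g (p.1 : ℝ) p.2 := by
  obtain ⟨M, hM0, hM⟩ := exists_bound_of_eq hg h
  rw [continuous_iff_continuousAt]
  rintro ⟨s₀, z₀⟩
  by_cases hs : (s₀ : ℝ) = 0
  · have h0 : alex g (s₀ : ℝ) z₀ = z₀ := by rw [hs, alex_zero]
    unfold ContinuousAt
    simp only
    rw [h0, tendsto_iff_norm_sub_tendsto_zero]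
    have hle : ∀ p : I × ℂ, ‖alex g (p.1 : ℝ) p.2 - z₀‖ ≤ (p.1 : ℝ) * M + ‖p.2 - z₀‖ := by
      intro p
      calc ‖alex g (p.1 : ℝ) p.2 - z₀‖ = ‖(alex g (p.1 : ℝ) p.2 - p.2) + (p.2 - z₀)‖ := by ring_nf
        _ ≤ ‖alex g (p.1 : ℝ) p.2 - p.2‖ + ‖p.2 - z₀‖ := norm_add_le _ _
        _ ≤ _ := add_le_add (alex_sub_le hM p.1.2.1 _) le_rfl
    refine squeeze_zero (fun _ => norm_nonneg _) hle ?_
    have hc : Continuous fun p : I × ℂ => (p.1 : ℝ) * M + ‖p.2 - z₀‖ := by fun_prop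
    have := hc.tendsto (s₀, z₀)
    simpa [hs] using this
  · have hev : ∀ᶠ p : I × ℂ in 𝓝 (s₀, z₀), (p.1 : ℝ) ≠ 0 := by
      have hc : Continuous fun p : I × ℂ => (p.1 : ℝ) := by fun_prop
      exact hc.continuousAt.eventually_ne hs
    have heq : (fun p : I × ℂ => alex g (p.1 : ℝ) p.2) =ᶠ[𝓝 (s₀, z₀)]
        fun p : I × ℂ => ((p.1 : ℝ) : ℂ) * g (p.2 / ((p.1 : ℝ) : ℂ)) := by
      filter_upwards [hev] with p hp
      rw [alex, if_neg hp]
    refine ContinuousAt.congr ?_ heq.symm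
    have hs' : (((s₀ : ℝ) : ℂ)) ≠ 0 := by exact_mod_cast hs
    have hc1 : Continuous fun p : I × ℂ => ((p.1 : ℝ) : ℂ) := by fun_prop
    refine hc1.continuousAt.mul (hg.continuousAt.comp ?_)
    exact continuous_snd.continuousAt.div hc1.continuousAt hs'

/-- The Alexander isotopy consists of homeomorphisms. -/
theorem alex_homeo (g : ℂ ≃ₜ ℂ) (s : ℝ) : ∃ h : ℂ ≃ₜ ℂ, ∀ z, alex g s z = h z := by
  by_cases hs : s = 0
  · exact ⟨Homeomorph.refl ℂ, fun z => by simp [hs, alex_zero]⟩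
  · have hs' : (s : ℂ) ≠ 0 := by exact_mod_cast hs
    refine ⟨((Homeomorph.mulLeft₀ (s : ℂ) hs').symm.trans g).trans
      (Homeomorph.mulLeft₀ (s : ℂ) hs'), fun z => ?_⟩
    rw [alex, if_neg hs]
    simp only [Homeomorph.trans_apply, Homeomorph.mulLeft₀_symm_apply,
      Homeomorph.coe_mulLeft₀]
    congr 2
    rw [div_eq_inv_mul]

/-- A homeomorphism which is a rotation near infinity preserves the orientation. -/
theorem orientationPreserving_of_rotation (f : ℂ ≃ₜ ℂ) (R a : ℝ)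
    (h : ∀ z, R ≤ ‖z‖ → f z = exp (a * Complex.I) * z) : OrientationPreserving f := by
  have hne : ∀ b : ℝ, exp (b * Complex.I) ≠ 0 := fun b => exp_ne_zero _
  let g : ℂ ≃ₜ ℂ := f.trans (Homeomorph.mulLeft₀ (exp ((-a : ℝ) * Complex.I)) (hne _))
  have hg : ∀ z, g z = exp ((-a : ℝ) * Complex.I) * f z := fun z => rfl
  have hmul : exp ((-a : ℝ) * Complex.I) * exp (a * Complex.I) = 1 := by
    rw [← exp_add]
    simp
  have hmul' : exp (a * Complex.I) * exp ((-a : ℝ) * Complex.I) = 1 := by rw [mul_comm, hmul]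
  have hgR : ∀ z, R ≤ ‖z‖ → g z = z := by
    intro z hz
    rw [hg, h z hz, ← mul_assoc, hmul, one_mul]
  refine ⟨fun p => exp (((a * p.1 : ℝ) : ℂ) * Complex.I) * alex g (p.1 : ℝ) p.2, ?_, fun s => ?_,
    fun z => ?_, fun z => ?_⟩
  · exact (by fun_prop : Continuous fun p : I × ℂ => exp (((a * p.1 : ℝ) : ℂ) * Complex.I)).mul
      (continuous_alex g.continuous hgR)
  · obtain ⟨h', hh'⟩ := alex_homeo g (s : ℝ)
    exact ⟨h'.trans (Homeomorph.mulLeft₀ _ (hne (a * s))), fun z => by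
      simp only [hh', Homeomorph.trans_apply, Homeomorph.coe_mulLeft₀]⟩
  · simp [alex_zero]
  · have h1 : ((1 : I) : ℝ) = 1 := rfl
    show exp (((a * ((1 : I) : ℝ) : ℝ) : ℂ) * Complex.I) * alex g ((1 : I) : ℝ) z = f z
    rw [h1, alex_one, mul_one, hg, ← mul_assoc, hmul', one_mul]

/-- A cylinder homeomorphism which is a rotation for large heights preserves the orientation. -/
theorem HH.orientationPreserving (f : HH) (a Y : ℝ)
    (h : ∀ z : Pl, Y ≤ z.2 → f z = (z.1 + a, z.2)) : OrientationPreserving (HH.toC f) := by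
  refine orientationPreserving_of_rotation _ (Real.exp (2 * Real.pi * Y)) (2 * Real.pi * a)
    fun z hz => ?_
  have hz0 : z ≠ 0 := by
    rintro rfl
    rw [norm_zero] at hz
    exact absurd hz (not_le.2 (Real.exp_pos _))
  rw [← ex_lg hz0, HH.toC_ex, h]
  · unfold ex
    rw [← exp_add]
    congr 1
    push_cast
    ring
  · rw [← ex_lg hz0, norm_ex, Real.exp_le_exp] at hz
    exact le_of_mul_le_mul_left hz (by positivity)

end Pool.Agent.RAY
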