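import Pool.Agent.RAY.ItinR

/-!
# RAY, block D: the rays along the arcs (package D-ARM)
-/

set_option autoImplicit false

open Topology Filter Set

namespace Pool.Agent.RAY

/-- A path that comes from above, follows a path with itinerary `w` on `[1/4, 1/2]` and stays below
afterwards has itinerary `w`. -/
theorem itinR_of {L : Lv} {w : List ℤ} (hw : Odd w.length) {δ : ℝ → Pl} (hδ : ItinP L.q w δ)
    {F : ℝ → Pl} (h1 : ∀ t, 0 < t → t ≤ 1 / 4 → 0 < (F t).2)
    (h2 : ∀ t, 1 / 4 ≤ t → t ≤ 1 / 2 → F t = δ (4 * t - 1))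
    (h3 : ∀ t, 1 / 2 ≤ t → t < 1 → (F t).2 < 0) (h4 : (F 1).2 ≤ 0) : ItinR L w F := by
  obtain ⟨τ, hmono, h0, hlast, hg, hp⟩ := hδ
  have hn : 0 < w.length := hw.pos
  have hτ0 : ∀ i, 0 ≤ τ i := fun i => h0 ▸ hmono (Nat.zero_le i)
  have hτ1 : ∀ i ≤ w.length + 1, τ i ≤ 1 := fun i hi => hlast ▸ hmono hi
  have s0 : (fun i : ℕ => if i = 0 then (0 : ℝ) else if i ≤ w.length then (1 + τ i) / 4 else 1) 0
    = 0 := by simp
  refine ⟨fun i => if i = 0 then 0 else if i ≤ w.length then (1 + τ i) / 4 else 1, ?_, s0, ?_, ?_,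
    ?_⟩
  · intro i j hij
    have e1 := hmono hij
    have e2 := hτ0 i
    have e3 := hτ0 j
    simp only
    by_cases hi : i = 0
    · rw [if_pos hi]
      by_cases hj : j = 0
      · rw [if_pos hj]
      · rw [if_neg hj]
        by_cases hj' : j ≤ w.length
        · rw [if_pos hj']; linarith
        · rw [if_neg hj']; norm_num
    · have hj : j ≠ 0 := by omega
      rw [if_neg hi, if_neg hj]
      by_cases hj' : j ≤ w.length
      · rw [if_pos hj', if_pos (by omega)]; linarith
      · rw [if_neg hj']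
        by_cases hi' : i ≤ w.length
        · rw [if_pos hi']
          have := hτ1 i (by omega)
          linarith
        · rw [if_neg hi']
  · simp
  · intro i hi
    have e1 : (fun i : ℕ => if i = 0 then (0 : ℝ) else if i ≤ w.length then (1 + τ i) / 4 else 1)
        (i + 1) = (1 + τ (i + 1)) / 4 := by
      simp only
      rw [if_neg (by omega), if_pos (by omega)]
    have e2 := hτ0 (i + 1)
    have e3 := hτ1 (i + 1) (by omega)
    rw [e1]
    refine ⟨by linarith, by linarith, ?_⟩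
    rw [h2 _ (by linarith) (by linarith), show 4 * ((1 + τ (i + 1)) / 4) - 1 = τ (i + 1) by ring]
    exact hg i hi
  · intro i hi t ht ht1 ht2
    simp only at ht1 ht2
    have hRB : ∀ z : Pl, z.2 ≠ 0 → z ∉ Sys.RB L := fun z hz h => hz h.1
    rcases lt_or_ge t (1 / 4) with hta | hta
    · -- the part above
      have hi0 : i = 0 := by
        by_contra hi0
        rw [if_neg hi0, if_pos hi] at ht1
        have := hτ0 i
        linarith
      subst hi0
      have := h1 t ht hta.le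
      exact ⟨fun _ => hRB _ this.ne', fun _ => this.le, fun h => absurd (by simp) h⟩
    rcases le_or_gt t (1 / 2) with htb | htb
    · rw [h2 t hta htb]
      have e1 : τ i ≤ 4 * t - 1 := by
        by_cases hi0 : i = 0
        · rw [hi0, h0]; linarith
        · rw [if_neg hi0, if_pos hi] at ht1
          linarith
      have e2 : 4 * t - 1 ≤ τ (i + 1) := by
        rw [if_neg (by omega)] at ht2
        by_cases hi1 : i + 1 ≤ w.length
        · rw [if_pos hi1] at ht2
          linarith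
        · have : i + 1 = w.length + 1 := by omega
          rw [this, hlast]
          linarith
      obtain ⟨e3, e4, e5⟩ := hp i hi (4 * t - 1) e1 e2
      refine ⟨fun _ h => ?_, e4, e5⟩
      obtain ⟨-, j, hj⟩ := h
      exact e3 j hj
    · -- the part below
      have hin : i = w.length := by
        by_contra hin
        rw [if_neg (by omega), if_pos (by omega)] at ht2
        have := hτ1 (i + 1) (by omega)
        linarith
      subst hin
      rw [if_neg (by omega), if_neg (by omega)] at ht2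
      have hodd : ¬ Even w.length := Nat.not_even_iff_odd.2 hw
      rcases ht2.lt_or_eq with ht3 | ht3
      · have := h3 t htb.le ht3
        exact ⟨fun _ => hRB _ this.ne, fun h => absurd h hodd, fun _ => this.le⟩
      · subst ht3
        exact ⟨fun h => absurd rfl h, fun h => absurd h hodd, fun _ => h4⟩

theorem height_inv {L : Lv} {w : ℝ} (H : HStep L w) (a : ℝ) {s : ℝ} (hs : s < -1 / 16) :
    (H.g⁻¹ (a, s)).2 = s - 15 / 16 := by
  have h0 : H.g (H.g⁻¹ (a, s)) = (a, s) := HH.apply_inv_self _ _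
  set z := H.g⁻¹ (a, s) with hz
  have h1 : (H.g z).2 = s := by rw [h0]
  rcases le_or_gt z.2 (-1) with h | h
  · have := H.bot z h
    linarith
  · rcases le_or_gt z.2 1 with h' | h'
    · have := H.mid z (abs_le.2 ⟨h.le, h'⟩)
      rw [h1, abs_le] at this
      linarith [this.1]
    · have := H.top z h'.le
      linarith

theorem height_inv_eq {L : Lv} {w : ℝ} (H : HStep L w) (a : ℝ) :
    (H.g⁻¹ (a, -1 / 16)).2 = -1 := by
  have hc : Continuous fun s : ℝ => (H.g⁻¹ (a, s)).2 :=
    continuous_snd.comp (H.g⁻¹.continuous.comp (by fun_prop))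
  have h1 : Tendsto (fun s : ℝ => (H.g⁻¹ (a, s)).2) (𝓝[<] (-1 / 16))
      (𝓝 (H.g⁻¹ (a, -1 / 16)).2) := (hc.tendsto _).mono_left nhdsWithin_le_nhds
  have h2 : Tendsto (fun s : ℝ => s - 15 / 16) (𝓝[<] (-1 / 16)) (𝓝 (-1 / 16 - 15 / 16)) :=
    ((by fun_prop : Continuous fun s : ℝ => s - 15 / 16).tendsto _).mono_left nhdsWithin_le_nhds
  have h3 : Tendsto (fun s : ℝ => (H.g⁻¹ (a, s)).2) (𝓝[<] (-1 / 16)) (𝓝 (-1 / 16 - 15 / 16)) := by
    refine h2.congr' ?_
    filter_upwards [self_mem_nhdsWithin] with s hs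
    exact (height_inv H a hs).symm
  rw [tendsto_nhds_unique h1 h3]
  norm_num

theorem height_inv_zero {L : Lv} {w : ℝ} (H : HStep L w) {v : ℤ} {a : Pl}
    (ha : |L.q * a.1 - v| ≤ 1 / 16) (ha0 : a.2 = 0) : (H.g⁻¹ a).2 ≤ 0 := by
  have hc : Continuous fun s : ℝ => (H.g⁻¹ (a.1, s)).2 :=
    continuous_snd.comp (H.g⁻¹.continuous.comp (by fun_prop))
  have h1 : Tendsto (fun s : ℝ => (H.g⁻¹ (a.1, s)).2) (𝓝[<] 0) (𝓝 (H.g⁻¹ (a.1, 0)).2) :=
    (hc.tendsto _).mono_left nhdsWithin_le_nhds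
  have h2 : (H.g⁻¹ (a.1, 0)).2 ≤ 0 := by
    refine le_of_tendsto h1 ?_
    filter_upwards [self_mem_nhdsWithin] with s hs
    exact (H.below v (a.1, s) ha hs).le
  have h3 : a = (a.1, 0) := Prod.ext rfl ha0
  rw [h3]
  exact h2

theorem armPath : ArmPath := by
  intro L w H w0 w1 hw0 hw1 δ hδ hδ0 hδ1 hI0 hI1 v a ha ha0
  set b : Pl := H.g⁻¹ (a.1, -1 / 16) with hb
  have hb2 : b.2 = -1 := height_inv_eq H a.1
  have eδ0 : δ 0 = ((δ 0).1, 1) := Prod.ext rfl hδ0
  have eδ1 : δ 1 = ((δ 1).1, -1) := Prod.ext rfl hδ1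
  -- the four pieces
  obtain ⟨E1, hE1⟩ : ∃ E1 : ℝ → Pl, E1 = fun t => ((δ 0).1, 1 + (1 / t - 4)) := ⟨_, rfl⟩
  obtain ⟨E2, hE2⟩ : ∃ E2 : ℝ → Pl, E2 = fun t => δ (4 * t - 1) := ⟨_, rfl⟩
  obtain ⟨E3, hE3⟩ : ∃ E3 : ℝ → Pl,
    E3 = fun t => ((δ 1).1 + (4 * t - 2) * (b.1 - (δ 1).1), -1) := ⟨_, rfl⟩
  obtain ⟨E4, hE4⟩ : ∃ E4 : ℝ → Pl, E4 = fun t => H.g⁻¹ (a.1, -(1 - t) / 4) := ⟨_, rfl⟩
  have c2 : Continuous E2 := by rw [hE2]; exact hδ.comp (by fun_prop)
  have c3 : Continuous E3 := by rw [hE3]; fun_prop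
  have c4 : Continuous E4 := by rw [hE4]; exact H.g⁻¹.continuous.comp (by fun_prop)
  have a12 : E1 (1 / 4) = E2 (1 / 4) := by
    rw [hE1, hE2]
    simp only
    rw [show (4 : ℝ) * (1 / 4) - 1 = 0 by norm_num, eδ0]
    norm_num
  have a23 : E2 (1 / 2) = E3 (1 / 2) := by
    rw [hE2, hE3]
    simp only
    rw [show (4 : ℝ) * (1 / 2) - 1 = 1 by norm_num, show (4 : ℝ) * (1 / 2) - 2 = 0 by norm_num,
      zero_mul, add_zero]
    exact eδ1
  have a34 : E3 (3 / 4) = E4 (3 / 4) := by
    rw [hE3, hE4]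
    simp only
    rw [show -(1 - (3 : ℝ) / 4) / 4 = -1 / 16 by norm_num, ← hb]
    refine Prod.ext ?_ hb2.symm
    norm_num
  obtain ⟨E, hE⟩ : ∃ E : ℝ → Pl, E = fun t => if t ≤ 1 / 4 then E1 t else if t ≤ 1 / 2 then E2 t
    else if t ≤ 3 / 4 then E3 t else E4 t := ⟨_, rfl⟩
  have v1 : ∀ t, t ≤ 1 / 4 → E t = E1 t := by
    intro t ht
    rw [hE]
    exact if_pos ht
  have v2 : ∀ t, 1 / 4 ≤ t → t ≤ 1 / 2 → E t = E2 t := by
    intro t ht ht'
    rcases ht.lt_or_eq with h | h
    · rw [hE]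
      simp only
      rw [if_neg (not_le.2 h), if_pos ht']
    · rw [← h, v1 _ le_rfl, a12]
  have v3 : ∀ t, 1 / 2 ≤ t → t ≤ 3 / 4 → E t = E3 t := by
    intro t ht ht'
    rcases ht.lt_or_eq with h | h
    · rw [hE]
      simp only
      rw [if_neg (by linarith), if_neg (not_le.2 h), if_pos ht']
    · rw [← h, v2 _ (by norm_num) le_rfl, a23]
  have v4 : ∀ t, 3 / 4 ≤ t → E t = E4 t := by
    intro t ht
    rcases ht.lt_or_eq with h | h
    · rw [hE]
      simp only
      rw [if_neg (by linarith), if_neg (by linarith), if_neg (not_le.2 h)]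
    · rw [← h, v3 _ (by norm_num) le_rfl, a34]
  -- heights
  have k1 : ∀ t, 0 < t → t ≤ 1 / 4 → 1 ≤ (E t).2 := by
    intro t ht ht'
    rw [v1 t ht', hE1]
    have : 4 ≤ 1 / t := by
      rw [le_div_iff₀ ht]
      linarith
    simp only
    linarith
  have k3 : ∀ t, 1 / 2 ≤ t → t ≤ 3 / 4 → (E t).2 = -1 := by
    intro t ht ht'
    rw [v3 t ht ht', hE3]
  have hE1' : E 1 = H.g⁻¹ a := by
    rw [v4 1 (by norm_num), hE4]
    simp only
    rw [show -(1 - (1 : ℝ)) / 4 = 0 by norm_num, ← ha0]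
  refine ⟨E, ?_, ?_, hE1', ?_, ?_⟩
  · rw [continuousOn_iff_continuous_domRestrict]
    have c1 : Continuous fun t : Ioc (0 : ℝ) 1 => E1 t := by
      rw [hE1]
      refine continuous_const.prodMk ?_
      refine continuous_const.add (Continuous.sub ?_ continuous_const)
      exact continuous_const.div continuous_subtype_val fun t => t.2.1.ne'
    have c34 : Continuous fun t : ℝ => if t ≤ 3 / 4 then E3 t else E4 t :=
      Continuous.if_le c3 c4 continuous_id continuous_const (fun t ht => by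
        have ht' : t = 3 / 4 := ht
        rw [ht', a34])
    have c234 : Continuous fun t : ℝ => if t ≤ 1 / 2 then E2 t else if t ≤ 3 / 4 then E3 t
        else E4 t :=
      Continuous.if_le c2 c34 continuous_id continuous_const (fun t ht => by
        have ht' : t = 1 / 2 := ht
        rw [ht', a23, if_pos (by norm_num)])
    have c : Continuous fun t : Ioc (0 : ℝ) 1 => if (t : ℝ) ≤ 1 / 4 then E1 t else
        if (t : ℝ) ≤ 1 / 2 then E2 t else if (t : ℝ) ≤ 3 / 4 then E3 t else E4 t := by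
      refine Continuous.if_le c1 (c234.comp continuous_subtype_val) continuous_subtype_val
        continuous_const (fun t ht => ?_)
      rw [ht, a12, if_pos (by norm_num)]
    have e : (Ioc (0 : ℝ) 1).domRestrict E = fun t : Ioc (0 : ℝ) 1 => if (t : ℝ) ≤ 1 / 4 then E1 t else
        if (t : ℝ) ≤ 1 / 2 then E2 t else if (t : ℝ) ≤ 3 / 4 then E3 t else E4 t := by
      funext t
      rw [Set.domRestrict_apply, hE]
    rw [e]
    exact c
  · have h1 : Tendsto (fun t : ℝ => 1 + (1 / t - 4)) (𝓝[>] 0) atTop := by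
      refine tendsto_atTop_add_const_left _ _ (tendsto_atTop_add_const_right _ (-4) ?_)
      exact tendsto_inv_nhdsGT_zero.congr fun t => (one_div t).symm
    refine h1.congr' ?_
    have h2 : Ioc (0 : ℝ) (1 / 4) ∈ 𝓝[>] (0 : ℝ) := Ioc_mem_nhdsGT (by norm_num)
    filter_upwards [h2] with t ht
    rw [v1 t ht.2, hE1]
  · refine itinR_of hw0 hI0 ?_ ?_ ?_ ?_
    · intro t ht ht'
      have h1 := k1 t ht ht'
      rw [H.top _ h1]
      linarith
    · intro t ht ht'
      rw [v2 t ht ht', hE2]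
    · intro t ht ht'
      rcases le_or_gt t (3 / 4) with h | h
      · have h1 := k3 t ht h
        rw [H.bot _ h1.le, h1]
        norm_num
      · rw [v4 t h.le, hE4]
        simp only
        rw [HH.apply_inv_self]
        simp only
        linarith
    · rw [hE1', HH.apply_inv_self, ha0]
  · refine itinR_of hw1 hI1 ?_ ?_ ?_ ?_
    · intro t ht ht'
      linarith [k1 t ht ht']
    · intro t ht ht'
      rw [v2 t ht ht', hE2]
    · intro t ht ht'
      rcases le_or_gt t (3 / 4) with h | h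
      · rw [k3 t ht h]
        norm_num
      · rw [v4 t h.le, hE4]
        simp only
        exact H.below v _ ha (by simp only; linarith)
    · rw [hE1']
      exact height_inv_zero H ha ha0

end Pool.Agent.RAY
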