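import Pool.Agent.RAY.Defs

/-!
# Pushing homeomorphisms to infinity

A homeomorphism of the plane which is the identity on a disc containing `C` does not change the
isotopy class of rays.
-/

namespace Pool.Agent.RAY

open Set Topology Filter unitInterval Bornology

/-- Neighbourhoods of infinity. -/
theorem mem_nhds_infty {s : Set (OnePoint ℂ)} :
    s ∈ 𝓝 (OnePoint.infty : OnePoint ℂ) ↔
      OnePoint.infty ∈ s ∧ ∃ M : ℝ, ∀ z : ℂ, M < ‖z‖ → (z : OnePoint ℂ) ∈ s := by
  rw [OnePoint.nhds_infty_eq, Filter.mem_sup, Filter.mem_pure, Filter.mem_map,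
    Filter.coclosedCompact_eq_cocompact, ← Metric.cobounded_eq_cocompact, and_comm]
  refine and_congr_right fun _ => ?_
  rw [← comap_norm_atTop, Filter.mem_comap]
  constructor
  · rintro ⟨t, ht, hts⟩
    obtain ⟨M, hM⟩ := Filter.mem_atTop_sets.1 ht
    exact ⟨M, fun z hz => hts (hM _ hz.le)⟩
  · rintro ⟨M, hM⟩
    exact ⟨Ioi M, Ioi_mem_atTop M, fun z hz => hM z hz⟩

/-- The conjugates of `h` by dilations. -/
noncomputable def push (h : ℂ → ℂ) (s : ℝ) (z : ℂ) : ℂ := if s = 0 then z else h (s * z) / s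

/-- The same on the sphere. -/
noncomputable def pushS (h : ℂ → ℂ) (s : ℝ) (z : OnePoint ℂ) : OnePoint ℂ :=
  OnePoint.map (push h s) z

@[simp] theorem pushS_infty (h : ℂ → ℂ) (s : ℝ) : pushS h s OnePoint.infty = OnePoint.infty := rfl

@[simp] theorem pushS_coe (h : ℂ → ℂ) (s : ℝ) (z : ℂ) :
    pushS h s (z : OnePoint ℂ) = (push h s z : ℂ) := rfl

theorem push_eq_self {h : ℂ → ℂ} {r : ℝ} (hh : ∀ z, ‖z‖ ≤ r → h z = z) {s : ℝ} (hs : 0 ≤ s)
    {z : ℂ} (hz : s * ‖z‖ ≤ r) : push h s z = z := by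
  unfold push
  split_ifs with h0
  · rfl
  · have h1 : (s : ℂ) ≠ 0 := by exact_mod_cast h0
    rw [hh, mul_div_cancel_left₀ _ h1]
    rw [norm_mul, Complex.norm_real, Real.norm_eq_abs, abs_of_nonneg hs]
    exact hz

theorem continuous_pushS {h : ℂ ≃ₜ ℂ} {r : ℝ} (hr : 0 < r) (hh : ∀ z, ‖z‖ ≤ r → h z = z) :
    Continuous fun p : I × OnePoint ℂ => pushS h (p.1 : ℝ) p.2 := by
  rw [continuous_iff_continuousAt]
  rintro ⟨s₀, z₀⟩
  induction z₀ using OnePoint.rec with
  | infty =>
    rw [ContinuousAt]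
    show Tendsto _ _ (𝓝 OnePoint.infty)
    intro V hV
    obtain ⟨hV0, M, hM⟩ := mem_nhds_infty.1 hV
    -- points mapped to norm at most `max M 0`
    obtain ⟨R, hR⟩ : ∃ R : ℝ, ∀ w : ℂ, R < ‖w‖ → max M r < ‖h w‖ := by
      have h1 : Tendsto h (cocompact ℂ) (cocompact ℂ) := h.isClosedEmbedding.tendsto_cocompact
      rw [← Metric.cobounded_eq_cocompact] at h1
      have h2 := tendsto_norm_cobounded_atTop.comp h1
      have h3 := h2.eventually_gt_atTop (max M r)
      rw [← comap_norm_atTop, eventually_comap] at h3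
      obtain ⟨R, hR⟩ := h3.exists_forall_of_atTop
      exact ⟨R, fun w hw => hR ‖w‖ hw.le w rfl⟩
    have hout : ∀ w : ℂ, r < ‖w‖ → r < ‖h w‖ := by
      intro w hw
      by_contra hcon
      push Not at hcon
      have h1 := hh _ hcon
      have h2 : h w = w := h.injective h1
      rw [h2] at hcon
      linarith
    have hbound : ∀ (s : I) (z : ℂ), max M 0 + max M 0 * max R 0 / r < ‖z‖ →
        M < ‖push h (s : ℝ) z‖ := by
      intro s z hz
      have hs0 := s.2.1
      have hs1 := s.2.2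
      have hM0 : 0 ≤ max M 0 := le_max_right _ _
      have hR0 : 0 ≤ max R 0 := le_max_right _ _
      have hMM : M ≤ max M 0 := le_max_left _ _
      have hRR : R ≤ max R 0 := le_max_left _ _
      have hq0 : 0 ≤ max M 0 * max R 0 / r := by positivity
      by_cases h1 : (s : ℝ) * ‖z‖ ≤ r
      · rw [push_eq_self hh hs0 h1]
        linarith
      push Not at h1
      have hs : 0 < (s : ℝ) := by
        rcases hs0.eq_or_lt with h2 | h2
        · rw [← h2, zero_mul] at h1; linarith
        · exact h2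
      have hn : ‖((s : ℝ) : ℂ) * z‖ = s * ‖z‖ := by
        rw [norm_mul, Complex.norm_real, Real.norm_eq_abs, abs_of_nonneg hs0]
      have hp : ‖push h (s : ℝ) z‖ = ‖h (((s : ℝ) : ℂ) * z)‖ / s := by
        unfold push
        rw [if_neg hs.ne', norm_div, Complex.norm_real, Real.norm_eq_abs, abs_of_nonneg hs0]
      rw [hp, lt_div_iff₀ hs]
      by_cases h2 : R < (s : ℝ) * ‖z‖
      · have h3 := hR _ (by rw [hn]; exact h2)
        have h4 : M < ‖h (((s : ℝ) : ℂ) * z)‖ := (le_max_left _ _).trans_lt h3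
        have h5 : r < ‖h (((s : ℝ) : ℂ) * z)‖ := (le_max_right _ _).trans_lt h3
        rcases le_total M 0 with h6 | h6
        · nlinarith
        · nlinarith
      · push Not at h2
        have h3 := hout (((s : ℝ) : ℂ) * z) (by rw [hn]; exact h1)
        have h4 : max M 0 * max R 0 / r < ‖z‖ := by linarith
        have h5 : max M 0 * max R 0 < ‖z‖ * r := (div_lt_iff₀ hr).1 h4
        have hz0 : 0 < ‖z‖ := by
          rcases (norm_nonneg z).eq_or_lt with h6 | h6
          · rw [← h6, mul_zero] at h1; linarith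
          · exact h6
        have h6 : (s : ℝ) * ‖z‖ ≤ max R 0 := h2.trans hRR
        have h7 : max M 0 * (s * ‖z‖) ≤ max M 0 * max R 0 := mul_le_mul_of_nonneg_left h6 hM0
        have h8 : max M 0 * s < r := by
          have : max M 0 * s * ‖z‖ < r * ‖z‖ := by linarith
          exact lt_of_mul_lt_mul_right this hz0.le
        have h9 : M * s ≤ max M 0 * s := mul_le_mul_of_nonneg_right hMM hs0
        linarith
    have hU : {z : OnePoint ℂ | z = OnePoint.infty ∨
        ∃ w : ℂ, max M 0 + max M 0 * max R 0 / r < ‖w‖ ∧ z = w} ∈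
        𝓝 (OnePoint.infty : OnePoint ℂ) :=
      mem_nhds_infty.2 ⟨Or.inl rfl, _, fun z hz => Or.inr ⟨z, hz, rfl⟩⟩
    have hprod := prod_mem_nhds (x := s₀) univ_mem hU
    rw [Filter.mem_map]
    refine mem_of_superset hprod ?_
    rintro ⟨s, z⟩ ⟨-, hz⟩
    rcases hz with hz | ⟨w, hw, hz⟩
    · show pushS h (s : ℝ) z ∈ V
      have hz' : z = OnePoint.infty := hz
      rw [hz', pushS_infty]
      exact hV0
    · show pushS h (s : ℝ) z ∈ V
      have hz' : z = (w : OnePoint ℂ) := hz
      rw [hz', pushS_coe]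
      exact hM _ (hbound s w hw)
  | coe z₀ =>
    have hemb : IsOpenEmbedding (Prod.map id ((↑) : ℂ → OnePoint ℂ) : I × ℂ → I × OnePoint ℂ) :=
      IsOpenEmbedding.id.prodMap OnePoint.isOpenEmbedding_coe
    have hkey : ContinuousAt (fun p : I × ℂ => push h (p.1 : ℝ) p.2) (s₀, z₀) := by
      by_cases hs : (s₀ : ℝ) = 0
      · have hev : ∀ᶠ p : I × ℂ in 𝓝 (s₀, z₀), (p.1 : ℝ) * ‖p.2‖ < r := by
          have hc : Continuous fun p : I × ℂ => (p.1 : ℝ) * ‖p.2‖ := by fun_prop
          have h0 : ((s₀ : ℝ)) * ‖z₀‖ < r := by rw [hs, zero_mul]; exact hr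
          exact (hc.tendsto (s₀, z₀)).eventually_lt_const h0
        have heq : (fun p : I × ℂ => push h (p.1 : ℝ) p.2) =ᶠ[𝓝 (s₀, z₀)] fun p => p.2 := by
          filter_upwards [hev] with p hp
          exact push_eq_self hh p.1.2.1 hp.le
        exact continuous_snd.continuousAt.congr heq.symm
      · have hev : ∀ᶠ p : I × ℂ in 𝓝 (s₀, z₀), (p.1 : ℝ) ≠ 0 := by
          have hc : Continuous fun p : I × ℂ => (p.1 : ℝ) := by fun_prop
          exact hc.continuousAt.eventually_ne hs
        have heq : (fun p : I × ℂ => push h (p.1 : ℝ) p.2) =ᶠ[𝓝 (s₀, z₀)]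
            fun p => h (((p.1 : ℝ) : ℂ) * p.2) / ((p.1 : ℝ) : ℂ) := by
          filter_upwards [hev] with p hp
          rw [push, if_neg hp]
        refine ContinuousAt.congr ?_ heq.symm
        have hs' : (((s₀ : ℝ) : ℂ)) ≠ 0 := by exact_mod_cast hs
        have hc1 : Continuous fun p : I × ℂ => ((p.1 : ℝ) : ℂ) := by fun_prop
        refine ContinuousAt.div ?_ hc1.continuousAt hs'
        exact h.continuous.continuousAt.comp (hc1.mul continuous_snd).continuousAt
    have h1 : ContinuousAt ((fun p : I × OnePoint ℂ => pushS h (p.1 : ℝ) p.2) ∘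
        (Prod.map id ((↑) : ℂ → OnePoint ℂ) : I × ℂ → I × OnePoint ℂ)) (s₀, z₀) := by
      have : ((fun p : I × OnePoint ℂ => pushS h (p.1 : ℝ) p.2) ∘
        (Prod.map id ((↑) : ℂ → OnePoint ℂ) : I × ℂ → I × OnePoint ℂ)) =
          fun p : I × ℂ => ((push h (p.1 : ℝ) p.2 : ℂ) : OnePoint ℂ) := rfl
      rw [this]
      exact OnePoint.continuous_coe.continuousAt.comp hkey
    exact (hemb.continuousAt_iff).1 h1

theorem pushS_injective (h : ℂ ≃ₜ ℂ) (s : ℝ) : Function.Injective (pushS h s) := by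
  have hinj : Function.Injective (push h s) := by
    intro z w hzw
    unfold push at hzw
    split_ifs at hzw with h0
    · exact hzw
    · have h1 : (s : ℂ) ≠ 0 := by exact_mod_cast h0
      have h2 : h (s * z) = h (s * w) := (div_left_inj' h1).1 hzw
      exact mul_left_cancel₀ h1 (h.injective h2)
  intro z w hzw
  induction z using OnePoint.rec with
  | infty =>
    induction w using OnePoint.rec with
    | infty => rfl
    | coe w =>
      rw [pushS_infty, pushS_coe] at hzw
      exact absurd hzw.symm (OnePoint.coe_ne_infty _)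
  | coe z =>
    induction w using OnePoint.rec with
    | infty =>
      rw [pushS_infty, pushS_coe] at hzw
      exact absurd hzw (OnePoint.coe_ne_infty _)
    | coe w =>
      rw [pushS_coe, pushS_coe] at hzw
      rw [hinj (OnePoint.coe_injective hzw)]

/-- A homeomorphism which is the identity on a disc containing `C` does not change the isotopy
classes of rays. -/
theorem isotopic_push {C : Set ℂ} {r : ℝ} (hr : 0 < r) (hC : ∀ z ∈ C, ‖z‖ ≤ r) (h : ℂ ≃ₜ ℂ)
    (hh : ∀ z, ‖z‖ ≤ r → h z = z) {γ : I → OnePoint ℂ} (hγ : IsRay C γ) :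
    Isotopic C γ fun t => h.onePointCongr (γ t) := by
  refine ⟨fun p => pushS h (p.1 : ℝ) (γ p.2), ?_, fun s => ?_, fun t => ?_, fun t => ?_⟩
  · exact (continuous_pushS hr hh).comp
      (continuous_fst.prodMk (hγ.continuous.comp continuous_snd))
  · refine ⟨?_, ?_, ?_, ?_, ?_⟩
    · exact (continuous_pushS hr hh).comp (continuous_const.prodMk hγ.continuous)
    · exact (pushS_injective h s).comp hγ.injective
    · show pushS h (s : ℝ) (γ 0) = _
      rw [hγ.zero, pushS_infty]
    · obtain ⟨c, hc, h1⟩ := hγ.one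
      refine ⟨c, hc, ?_⟩
      show pushS h (s : ℝ) (γ 1) = _
      rw [h1, pushS_coe, push_eq_self hh s.2.1]
      calc (s : ℝ) * ‖c‖ ≤ 1 * ‖c‖ := mul_le_mul_of_nonneg_right s.2.2 (norm_nonneg _)
        _ ≤ r := by rw [one_mul]; exact hC c hc
    · intro t h0 h1
      obtain ⟨z, hz, hzt⟩ := hγ.interior t h0 h1
      refine ⟨push h (s : ℝ) z, fun hcon => hz ?_, ?_⟩
      · -- `push` fixes the points of `C`
        have h2 : push h (s : ℝ) (push h (s : ℝ) z) = push h (s : ℝ) z := by
          refine push_eq_self hh s.2.1 ?_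
          calc (s : ℝ) * ‖push h (s : ℝ) z‖ ≤ 1 * ‖push h (s : ℝ) z‖ :=
                mul_le_mul_of_nonneg_right s.2.2 (norm_nonneg _)
            _ ≤ r := by rw [one_mul]; exact hC _ hcon
        have h3 : pushS h (s : ℝ) ((push h (s : ℝ) z : ℂ) : OnePoint ℂ) =
            pushS h (s : ℝ) (z : OnePoint ℂ) := by
          rw [pushS_coe, pushS_coe, h2]
        have h4 := OnePoint.coe_injective (pushS_injective h s h3)
        rwa [h4] at hcon
      · show pushS h (s : ℝ) (γ t) = _
        rw [hzt, pushS_coe]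
  · show pushS h ((0 : I) : ℝ) (γ t) = γ t
    generalize γ t = z
    induction z using OnePoint.rec with
    | infty => rfl
    | coe z =>
      rw [pushS_coe, push, if_pos (by norm_num)]
  · show pushS h ((1 : I) : ℝ) (γ t) = h.onePointCongr (γ t)
    generalize γ t = z
    induction z using OnePoint.rec with
    | infty => rfl
    | coe z =>
      rw [pushS_coe, push, if_neg (by norm_num)]
      show (((h (((1 : I) : ℝ) * z) / ((1 : I) : ℝ) : ℂ)) : OnePoint ℂ) = ((h z : ℂ) : OnePoint ℂ)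
      simp

/-- Rays are transported by homeomorphisms of the sphere fixing infinity. -/
theorem IsRay.mapG {C C' : Set ℂ} (G : OnePoint ℂ ≃ₜ OnePoint ℂ)
    (hG : G OnePoint.infty = OnePoint.infty) (hC : G '' ((↑) '' C') = (↑) '' C)
    {γ : I → OnePoint ℂ} (hγ : IsRay C' γ) : IsRay C fun t => G (γ t) := by
  refine ⟨G.continuous.comp hγ.continuous, G.injective.comp hγ.injective, ?_, ?_, ?_⟩
  · show G (γ 0) = _
    rw [hγ.zero, hG]
  · obtain ⟨c, hc, h1⟩ := hγ.one
    have : G (γ 1) ∈ ((↑) '' C : Set (OnePoint ℂ)) := by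
      rw [← hC, h1]
      exact ⟨_, ⟨c, hc, rfl⟩, rfl⟩
    obtain ⟨d, hd, h2⟩ := this
    exact ⟨d, hd, h2.symm⟩
  · intro t h0 h1
    obtain ⟨z, hz, hzt⟩ := hγ.interior t h0 h1
    have hne : G (γ t) ≠ OnePoint.infty := by
      rw [← hG, hzt]
      intro h
      exact OnePoint.coe_ne_infty z (G.injective h)
    obtain ⟨w, hw⟩ := OnePoint.ne_infty_iff_exists.1 hne
    refine ⟨w, fun hwC => hz ?_, hw.symm⟩
    have : (w : OnePoint ℂ) ∈ G '' ((↑) '' C') := by
      rw [hC]
      exact ⟨w, hwC, rfl⟩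
    obtain ⟨_, ⟨z', hz', rfl⟩, h3⟩ := this
    rw [hw, hzt] at h3
    have h4 := OnePoint.coe_injective (G.injective h3)
    rwa [← h4]

/-- Isotopies are transported by homeomorphisms of the sphere fixing infinity. -/
theorem Isotopic.mapG {C C' : Set ℂ} (G : OnePoint ℂ ≃ₜ OnePoint ℂ)
    (hG : G OnePoint.infty = OnePoint.infty) (hC : G '' ((↑) '' C') = (↑) '' C)
    {γ γ' : I → OnePoint ℂ} (h : Isotopic C' γ γ') :
    Isotopic C (fun t => G (γ t)) fun t => G (γ' t) := by
  obtain ⟨H, hc, hr, h0, h1⟩ := h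
  exact ⟨fun p => G (H p), G.continuous.comp hc, fun s => (hr s).mapG G hG hC,
    fun t => congrArg _ (h0 t), fun t => congrArg _ (h1 t)⟩

end Pool.Agent.RAY
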