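import Pool.Agent.RAY.DynX
import Pool.Agent.RAY.Push

/-!
# RAY, block D: the centres and their orbits (`X_succ`, `X_orbit`)
-/

set_option autoImplicit false

open Topology Filter Set unitInterval

namespace Pool.Agent.RAY

/-- The correction above height `1`. -/
theorem HH.exists_theta (P : HH) (a : ℝ) (h1 : ∀ x : ℝ, P (x, 1) = (x + a, 1))
    (hs : ∀ z : Pl, |z.2| ≤ 1 → |(P z).2| ≤ 1) (hs' : ∀ z : Pl, |z.2| ≤ 1 → |(P⁻¹ z).2| ≤ 1) :
    ∃ Θ : HH, (∀ z : Pl, z.2 ≤ 1 → Θ z = z) ∧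
      ∀ z : Pl, 1 < z.2 → Θ z = HH.rot a (P⁻¹ z) := by
  classical
  have htop : ∀ z : Pl, 1 < z.2 → 1 < (P z).2 := fun z hz => P.top_of_strip hs' hz
  have htop' : ∀ z : Pl, 1 < z.2 → 1 < (P⁻¹ z).2 := fun z hz =>
    (P⁻¹).top_of_strip (fun w hw => by rw [inv_inv]; exact hs w hw) hz
  have h1' : ∀ x : ℝ, P⁻¹ (x, 1) = (x - a, 1) := by
    intro x
    apply P.injective
    rw [HH.apply_inv_self, h1]
    simp
  let F : Pl → Pl := fun z => if z.2 ≤ 1 then z else HH.rot a (P⁻¹ z)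
  let Fi : Pl → Pl := fun z => if z.2 ≤ 1 then z else P (HH.rot (-a) z)
  have hF : Continuous F := by
    refine Continuous.if_le continuous_id ((HH.rot a).continuous.comp (P⁻¹).continuous)
      continuous_snd continuous_const ?_
    intro z hz
    have e : z = (z.1, 1) := Prod.ext rfl hz
    show z = HH.rot a (P⁻¹ z)
    rw [e, h1']
    simp
  have hFi : Continuous Fi := by
    refine Continuous.if_le continuous_id (P.continuous.comp (HH.rot (-a)).continuous)
      continuous_snd continuous_const ?_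
    intro z hz
    have e : z = (z.1, 1) := Prod.ext rfl hz
    show z = P (HH.rot (-a) z)
    rw [e, HH.rot_apply]
    show (z.1, (1 : ℝ)) = P (z.1 + -a, 1)
    rw [h1]
    simp
  have hFlow : ∀ z : Pl, z.2 ≤ 1 → F z = z := fun z hz => if_pos hz
  have hFhigh : ∀ z : Pl, 1 < z.2 → F z = HH.rot a (P⁻¹ z) := fun z hz => if_neg (not_le.2 hz)
  have hFilow : ∀ z : Pl, z.2 ≤ 1 → Fi z = z := fun z hz => if_pos hz
  have hFihigh : ∀ z : Pl, 1 < z.2 → Fi z = P (HH.rot (-a) z) := fun z hz =>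
    if_neg (not_le.2 hz)
  have e1 : ∀ z, F (Fi z) = z := by
    intro z
    rcases le_or_gt z.2 1 with hz | hz
    · rw [hFilow z hz, hFlow z hz]
    · rw [hFihigh z hz, hFhigh _ (htop _ (by simpa using hz)), HH.inv_apply_self]
      simp
  have e2 : ∀ z, Fi (F z) = z := by
    intro z
    rcases le_or_gt z.2 1 with hz | hz
    · rw [hFlow z hz, hFilow z hz]
    · rw [hFhigh z hz, hFihigh _ (by simpa using htop' z hz)]
      have : HH.rot (-a) (HH.rot a (P⁻¹ z)) = P⁻¹ z := by simp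
      rw [this, HH.apply_inv_self]
  have ht : ∀ z : Pl, F (z.1 + 1, z.2) = ((F z).1 + 1, (F z).2) := by
    intro z
    rcases le_or_gt z.2 1 with hz | hz
    · rw [hFlow z hz]
      exact hFlow (z.1 + 1, z.2) hz
    · rw [hFhigh z hz, hFhigh (z.1 + 1, z.2) hz, (P⁻¹).turn]
      exact (HH.rot a).turn (P⁻¹ z)
  have hb : ∃ B : ℝ, ∀ z : Pl, |(F z).2 - z.2| ≤ B := by
    obtain ⟨B, hB0, hB⟩ := (P⁻¹).exists_bound
    refine ⟨B, fun z => ?_⟩
    rcases le_or_gt z.2 1 with hz | hz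
    · rw [hFlow z hz, sub_self, abs_zero]
      exact hB0
    · rw [hFhigh z hz]
      exact hB z
  exact ⟨HH.mk' F Fi hF hFi e1 e2 ht hb, hFlow, hFhigh⟩

namespace Sys

variable (S : Sys)

theorem X_apply_pos (k : ℕ) {t : I} (ht : 0 < (t : ℝ)) :
    (S.X k).1 t = ((ex (S.G k (vert (S.xk k) t)) : ℂ) : OnePoint ℂ) := by
  show S.GS k (rayOf (vert (S.xk k)) t) = _
  rw [rayOf_of_pos _ ht, GS_ex]

/-- Consecutive centres are disjoint. -/
theorem X_succ (k : ℕ) : DisjointInteriors (S.X k).1 (S.X (k + 1)).1 := by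
  intro s t hs0 hs1 ht0 ht1 h
  have hs : 0 < (s : ℝ) := lt_of_le_of_ne s.2.1 fun h => hs0 (Subtype.ext h.symm)
  have ht : 0 < (t : ℝ) := lt_of_le_of_ne t.2.1 fun h => ht0 (Subtype.ext h.symm)
  rw [S.X_apply_pos k hs, S.X_apply_pos (k + 1) ht] at h
  obtain ⟨n, hn⟩ := ex_eq_iff.1 (OnePoint.coe_injective h)
  rw [G_succ, HH.mul_apply, ← HH.turn_int] at hn
  have h1 := (S.G k).injective hn
  have h2 := (S.st k).above (vert (S.xk (k + 1)) t) (S.xk_le (k + 1)) (vert_nonneg ht t.2.2)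
  have h3 := abs_le.1 (S.xk_le k)
  have h4 : S.xk k = (S.g k (vert (S.xk (k + 1)) t)).1 + n := congrArg Prod.fst h1
  have h5 : (Lv.lv k).q * S.xk k = (Lv.lv k).q * ((S.st k).g (vert (S.xk (k + 1)) t)).1 +
      (Lv.lv k).q * n := by
    rw [h4]
    show _ = (Lv.lv k).q * (S.g k (vert (S.xk (k + 1)) t)).1 + _
    ring
  have hq : (3 : ℝ) ≤ (Lv.lv k).q := by exact_mod_cast (Lv.lv k).three_le
  rw [h5] at h3
  rcases lt_trichotomy n 0 with h6 | h6 | h6
  · have h7 : (n : ℝ) ≤ -1 := by exact_mod_cast (by omega : n ≤ -1)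
    nlinarith
  · rw [h6] at h3
    simp only [Int.cast_zero, mul_zero, add_zero] at h3
    linarith
  · have h7 : (1 : ℝ) ≤ n := by exact_mod_cast h6
    nlinarith

theorem iterate_ex (n : ℕ) (z : Pl) :
    (HH.toC S.lim).onePointCongr^[n] ((ex z : ℂ) : OnePoint ℂ) =
      ((ex ((S.lim ^ n) z) : ℂ) : OnePoint ℂ) := by
  induction n with
  | zero => rfl
  | succ n ih =>
    rw [Function.iterate_succ_apply', ih, opc_coe, HH.toC_ex, pow_succ_apply]

theorem lim_pow_G (k n : ℕ) (z : Pl) : (S.lim ^ n) (S.G k z) = S.G k ((S.phi k ^ n) z) := by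
  induction n with
  | zero => rfl
  | succ n ih =>
    rw [pow_succ_apply, ih, pow_succ_apply]
    show S.lim (S.G k ((S.phi k ^ n) z)) = S.G k ((S.G k)⁻¹ (S.lim (S.G k ((S.phi k ^ n) z))))
    rw [HH.apply_inv_self]

/-- On the height `1` the limit is a rotation. -/
theorem phi_one (k : ℕ) (x : ℝ) : S.phi k (x, 1) = (x + (Lv.lv k).p / (Lv.lv k).q, 1) := by
  have h1 : ∀ j, ((x, 1) : Pl) ∉ rc (Lv.lv k).q (1 / 16) j := by
    intro j hj
    have := hj.2
    norm_num at this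
  have h2 : ∀ n, ((x, 1) : Pl) ∉ DS (Lv.lv k) n := by
    intro j hj
    have := hj.2
    norm_num at this
  rw [phi_apply, S.e_fix k h1, S.h_fix k h2, S.F_rot k _ (by simp)]
  rfl

theorem phi_pow_one (k n : ℕ) (x : ℝ) :
    (S.phi k ^ n) (x, 1) = (x + n * ((Lv.lv k).p / (Lv.lv k).q), 1) := by
  induction n with
  | zero => simp
  | succ n ih =>
    rw [pow_succ_apply, ih, phi_one]
    ext
    · push_cast
      ring
    · rfl

theorem phi_pow_inv_strip (k n : ℕ) {z : Pl} (hz : |z.2| ≤ 1) :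
    |((S.phi k ^ n)⁻¹ z).2| ≤ 1 := by
  induction n generalizing z with
  | zero => simpa using hz
  | succ n ih =>
    rw [pow_succ, mul_inv_rev, HH.mul_apply]
    exact S.phi_inv_strip k (ih hz)

theorem reg_zero (k : ℕ) {n : ℕ} (hn : n ≤ TowerNum.N k) :
    ∀ m < n, Reg (Lv.lv k) (0 + m * (Lv.lv k).p) := by
  intro m hm c
  cases k with
  | zero =>
    have h1 : TowerNum.N 0 = 0 := by
      simp [TowerNum.N, Lv.nn, Lv.lv, Lv.base]
    omega
  | succ k =>
    have h1 : ((m : ℤ)) ≤ (Lv.lv k).next.nn := by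
      have h2 : (m : ℤ) ≤ ((Lv.lv (k + 1)).nn.toNat : ℤ) := by
        have : m ≤ (Lv.lv (k + 1)).nn.toNat := by
          have h3 : TowerNum.N (k + 1) = (Lv.lv (k + 1)).nn.toNat := rfl
          omega
        exact_mod_cast this
      have h3 : 0 ≤ (Lv.lv (k + 1)).nn := by
        unfold Lv.nn
        have := (Lv.lv (k + 1)).q_pos
        omega
      rw [Int.toNat_of_nonneg h3] at h2
      exact h2
    have htm : |(Lv.lv k).next.tm 0| ≤ (Lv.lv k).q * (Lv.lv k).q + 3 * (Lv.lv k).q := by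
      rw [Lv.tm_zero, abs_zero]
      have := (Lv.lv k).q_pos
      positivity
    have h0 := (Lv.lv k).not_ex (i := 0) (n := m) htm (by
      rw [abs_of_nonneg (by positivity)]
      exact h1) (e := 0) (by norm_num) c
    have h1 := (Lv.lv k).not_ex (i := 0) (n := m) htm (by
      rw [abs_of_nonneg (by positivity)]
      exact h1) (e := -1) (by norm_num) c
    constructor
    · have := h0.1
      rw [add_zero] at this
      exact this
    · exact h1.1

/-- `f ^ n` moves the centre off itself, up to isotopy. -/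
theorem X_orbit (k n : ℕ) (hn1 : 1 ≤ n) (hn : n ≤ TowerNum.N k) : ∃ Y : Ray S.C,
    Isotopic S.C (fun t => (HH.toC S.lim).onePointCongr^[n] ((S.X k).1 t)) Y.1 ∧
      DisjointInteriors (S.X k).1 Y.1 := by
  have hq3 : (3 : ℝ) ≤ (Lv.lv k).q := by exact_mod_cast (Lv.lv k).three_le
  have hq0 : ((Lv.lv k).q : ℝ) ≠ 0 := by linarith
  set a : ℝ := n * ((Lv.lv k).p / (Lv.lv k).q) with ha
  -- the path in picture `k`
  set P : HH := S.phi k ^ n with hP
  obtain ⟨Θ, hΘ1, hΘ2⟩ := HH.exists_theta P a (fun x => S.phi_pow_one k n x)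
    (fun z hz => S.phi_pow_strip k n hz) (fun z hz => S.phi_pow_inv_strip k n hz)
  -- the image ray
  have hray : ∀ n : ℕ, IsRay S.C fun t => (HH.toC S.lim).onePointCongr^[n] ((S.X k).1 t) := by
    intro n
    induction n with
    | zero => exact (S.X k).2
    | succ n ih =>
      have h1 := ih.map (HH.toC S.lim) S.lim_C
      have h2 : (fun t => (HH.toC S.lim).onePointCongr^[n + 1] ((S.X k).1 t)) =
          fun t => (HH.toC S.lim).onePointCongr
            ((HH.toC S.lim).onePointCongr^[n] ((S.X k).1 t)) := by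
        funext t
        rw [Function.iterate_succ_apply']
      rw [h2]
      exact h1
  -- the Cantor set of picture `k`
  let C' : Set ℂ := {z | (z : OnePoint ℂ) ∈ S.D k}
  have hC' : S.GS k '' ((↑) '' C') = ((↑) '' S.C : Set (OnePoint ℂ)) := by
    ext w
    constructor
    · rintro ⟨_, ⟨z, hz, rfl⟩, rfl⟩
      exact hz
    · intro hw
      have h1 : (S.GS k).symm w ∈ S.D k := by
        show S.GS k ((S.GS k).symm w) ∈ ((↑) '' S.C : Set (OnePoint ℂ))
        rw [Homeomorph.apply_symm_apply]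
        exact hw
      obtain ⟨z, hz, -⟩ := S.exists_of_mem_D h1
      refine ⟨(S.GS k).symm w, ⟨ex z, ?_, hz.symm⟩, Homeomorph.apply_symm_apply _ _⟩
      show ((ex z : ℂ) : OnePoint ℂ) ∈ S.D k
      rw [← hz]
      exact h1
  have hCs : (S.GS k).symm '' ((↑) '' S.C) = ((↑) '' C' : Set (OnePoint ℂ)) := by
    rw [← hC', ← Set.image_comp]
    simp
  have hr' : IsRay C' fun t =>
      (S.GS k).symm ((HH.toC S.lim).onePointCongr^[n] ((S.X k).1 t)) :=
    (hray n).mapG (S.GS k).symm (S.GS_symm_infty k) hCs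
  have hC1 : ∀ z ∈ C', ‖z‖ ≤ 1 := by
    intro z hz
    obtain ⟨w, hw, -⟩ := S.exists_of_mem_D hz
    have h1 : z = ex w := OnePoint.coe_injective hw
    have h2 : ((ex w : ℂ) : OnePoint ℂ) ∈ S.D k := by rw [← hw]; exact hz
    have h3 := (S.RB_of_mem_D h2).1
    rw [h1, norm_ex, h3]
    simp
  have hΘC : ∀ z : ℂ, ‖z‖ ≤ 1 → HH.toC Θ z = z := by
    intro z hz
    by_cases h0 : z = 0
    · rw [h0, HH.toC_zero]
    · rw [← ex_lg h0, HH.toC_ex, hΘ1]
      rw [← ex_lg h0, norm_ex, Real.exp_le_one_iff] at hz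
      have := Real.pi_pos
      nlinarith
  have hpush := (isotopic_push one_pos hC1 (HH.toC Θ) hΘC hr').mapG (S.GS k) (S.GS_infty k) hC'
  have e0 : (fun t => S.GS k ((S.GS k).symm
      ((HH.toC S.lim).onePointCongr^[n] ((S.X k).1 t)))) =
      fun t => (HH.toC S.lim).onePointCongr^[n] ((S.X k).1 t) := by
    funext t
    rw [Homeomorph.apply_symm_apply]
  rw [e0] at hpush
  -- the ray `Y`
  have hY : IsRay S.C fun t => S.GS k ((HH.toC Θ).onePointCongr ((S.GS k).symm
      ((HH.toC S.lim).onePointCongr^[n] ((S.X k).1 t)))) := by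
    obtain ⟨H, -, hr, -, h1⟩ := hpush
    have := hr 1
    have e1 : (fun t => H (1, t)) = fun t => S.GS k ((HH.toC Θ).onePointCongr ((S.GS k).symm
      ((HH.toC S.lim).onePointCongr^[n] ((S.X k).1 t)))) := funext h1
    rwa [e1] at this
  refine ⟨⟨_, hY⟩, hpush, ?_⟩
  intro s t hs0 hs1 ht0 ht1 h
  have hs : 0 < (s : ℝ) := lt_of_le_of_ne s.2.1 fun h => hs0 (Subtype.ext h.symm)
  have ht : 0 < (t : ℝ) := lt_of_le_of_ne t.2.1 fun h => ht0 (Subtype.ext h.symm)
  have eY : S.GS k ((HH.toC Θ).onePointCongr ((S.GS k).symm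
      ((HH.toC S.lim).onePointCongr^[n] ((S.X k).1 t)))) =
      ((ex (S.G k (Θ (P (vert (S.xk k) t)))) : ℂ) : OnePoint ℂ) := by
    rw [S.X_apply_pos k ht, iterate_ex, lim_pow_G, GS_symm_ex, HH.inv_apply_self, opc_coe,
      HH.toC_ex, GS_ex]
  have h' : (S.X k).1 s = ((ex (S.G k (Θ (P (vert (S.xk k) t)))) : ℂ) : OnePoint ℂ) :=
    h.trans eY
  rw [S.X_apply_pos k hs] at h'
  obtain ⟨c, hc⟩ := ex_eq_iff.1 (OnePoint.coe_injective h')
  rw [← HH.turn_int] at hc
  have h1 := (S.G k).injective hc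
  -- the first coordinate
  set z : Pl := vert (S.xk k) t with hz
  have hz1 : z.1 = S.xk k := rfl
  have hz2 : 0 ≤ z.2 := vert_nonneg ht t.2.2
  have hxk := S.xk_le k
  have hkey : |(Lv.lv k).q * (Θ (P z)).1 - (n * (Lv.lv k).p : ℤ)| ≤ 1 / 16 := by
    rcases le_or_gt z.2 1 with hz3 | hz3
    · have hcol : z ∈ Col (Lv.lv k).q 0 := by
        refine ⟨?_, by linarith, hz3⟩
        rw [hz1]
        simpa using hxk
      have h2 := S.phi_pow_col k n (reg_zero k hn) hcol
      rw [hΘ1 _ h2.2.2]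
      have := h2.1
      rw [zero_add] at this
      exact this
    · have h2 : 1 < (P z).2 := S.phi_pow_top k n hz3
      rw [hΘ2 _ h2, HH.inv_apply_self]
      have h3 : (Lv.lv k).q * (HH.rot a z).1 - ((n * (Lv.lv k).p : ℤ) : ℝ) =
          (Lv.lv k).q * S.xk k := by
        rw [HH.rot_apply, hz1, ha]
        push_cast
        field_simp
        ring
      rw [h3]
      exact hxk
  have h2 : S.xk k = (Θ (P z)).1 + c := congrArg Prod.fst h1
  rw [h2] at hxk
  have h3 := abs_le.1 hkey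
  have h4 := abs_le.1 hxk
  have h5 : |((n * (Lv.lv k).p + c * (Lv.lv k).q : ℤ) : ℝ)| < 1 := by
    push_cast at h3 ⊢
    rw [abs_lt]
    constructor <;> nlinarith
  have h6 : |n * (Lv.lv k).p + c * (Lv.lv k).q| < 1 := by exact_mod_cast h5
  have h7 : n * (Lv.lv k).p + c * (Lv.lv k).q = 0 := Int.abs_lt_one_iff.1 h6
  -- times
  have h8 : (n : ℤ) ≤ ((Lv.lv k).q - 1) / 2 := by
    have h9 : (n : ℤ) ≤ ((Lv.lv k).nn.toNat : ℤ) := by exact_mod_cast hn
    have h10 : 0 ≤ (Lv.lv k).nn := by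
      unfold Lv.nn
      have := (Lv.lv k).q_pos
      omega
    rw [Int.toNat_of_nonneg h10] at h9
    unfold Lv.nn at h9
    have := (Lv.lv k).three_le
    omega
  have h9 := (Lv.lv k).tm_mul_p (t := (n : ℤ)) (by have := (Lv.lv k).three_le; omega) h8
  have h10 : (n : ℤ) * (Lv.lv k).p = 0 + (-c) * (Lv.lv k).q := by linarith
  rw [h10, Lv.tm_add_q, Lv.tm_zero] at h9
  omega

end Sys

end Pool.Agent.RAY
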