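import Pool.Agent.RAY.Wins

/-!
# The last step of the lower bound; parabolicity
-/

namespace Pool.Agent.RAY

open Set Topology Filter unitInterval

namespace Circ

variable {X : Type*} (K : Circ X) {γ : ℤ → ℤ} (q : ℕ) (hγ : ∀ j, γ j + 2 ≤ γ (j + 1))
  (hγq : ∀ j, γ (j + 2 * q) = γ j + K.N)

include hγq in
theorem θγ_add_int (j n : ℤ) (d : ℤ) :
    K.θ (γ j + d) + n * K.T = K.θ (γ (j + 2 * q * n) + d) := by
  have hnat : ∀ (n : ℕ) (j : ℤ), K.θ (γ j + d) + n * K.T = K.θ (γ (j + 2 * q * n) + d) := by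
    intro n
    induction n with
    | zero => intro j; simp
    | succ n ih =>
      intro j
      have e1 : j + 2 * (q : ℤ) * ((n + 1 : ℕ) : ℤ) = j + 2 * q * n + 2 * q := by push_cast; ring
      rw [e1, hγq]
      have e2 : γ (j + 2 * q * n) + K.N + d = γ (j + 2 * q * n) + d + K.N := by ring
      rw [e2, K.per, ← ih]
      push_cast
      ring
  rcases Int.eq_nat_or_neg n with ⟨m, rfl | rfl⟩
  · exact_mod_cast hnat m j
  · have h := hnat m (j + 2 * q * (-(m : ℤ)))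
    have e1 : j + 2 * (q : ℤ) * (-(m : ℤ)) + 2 * q * m = j := by ring
    rw [e1] at h
    rw [← h]
    push_cast
    ring

include hγ hγq in
/-- The arcs of the slots `j - 1`, `j + 1`, `j + 3` and a fourth point. -/
theorem slot_of_link (hT : 0 < K.T) (hq5 : 5 ≤ q) {t : Fin 4 → ℝ}
    (h : (t 0 < t 1 ∧ t 1 < t 2 ∧ t 2 < t 3 ∧ t 3 < t 0 + K.T) ∨
         (t 0 < t 3 ∧ t 3 < t 2 ∧ t 2 < t 1 ∧ t 1 < t 0 + K.T))
    {j i : ℤ} {s0 s1 s2 s3 : ℝ} (h0 : K.c (t 0) = K.c s0) (h1 : K.c (t 1) = K.c s1)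
    (h2 : K.c (t 2) = K.c s2) (h3 : K.c (t 3) = K.c s3)
    (a0 : K.θ (γ (2 * (j - 1))) ≤ s0) (b0 : s0 ≤ K.θ (γ (2 * (j - 1) + 1) + 1))
    (a1 : K.θ (γ (2 * i)) ≤ s1) (b1 : s1 ≤ K.θ (γ (2 * i + 1) + 1))
    (a2 : K.θ (γ (2 * (j + 1))) ≤ s2) (b2 : s2 ≤ K.θ (γ (2 * (j + 1) + 1) + 1))
    (a3 : K.θ (γ (2 * (j + 3))) ≤ s3) (b3 : s3 ≤ K.θ (γ (2 * (j + 3) + 1) + 1)) :
    ∃ n : ℤ, |j - i - n * q| ≤ 1 := by
  obtain ⟨n, hn⟩ := K.exists_of_c_eq hT h0
  have hc : ∀ i, K.c (t i + n * K.T) = K.c (t i) := fun i => K.c_add_int _ _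
  set s : Fin 4 → ℝ := fun i => t i + n * K.T with hs
  have hs0 : s 0 = s0 := hn.symm
  have hord : (s 0 < s 1 ∧ s 1 < s 2 ∧ s 2 < s 3 ∧ s 3 < s 0 + K.T) ∨
         (s 0 < s 3 ∧ s 3 < s 2 ∧ s 2 < s 1 ∧ s 1 < s 0 + K.T) := by
    simp only [hs]
    rcases h with ⟨h1, h2, h3, h4⟩ | ⟨h1, h2, h3, h4⟩
    · left; refine ⟨?_, ?_, ?_, ?_⟩ <;> linarith
    · right; refine ⟨?_, ?_, ?_, ?_⟩ <;> linarith
  have eT : K.θ (γ (2 * (j - 1))) + K.T = K.θ (γ (2 * (j - 1) + 2 * q)) := K.θγ_add_T q hγq _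
  have o1 : K.θ (γ (2 * (j - 1) + 1) + 1) < K.θ (γ (2 * (j + 1))) := K.θ_lt (by
    have := γ_lt hγ (show 2 * (j - 1) + 1 < 2 * (j + 1) by omega); omega)
  have o2 : K.θ (γ (2 * (j + 1) + 1) + 1) < K.θ (γ (2 * (j + 3))) := K.θ_lt (by
    have := γ_lt hγ (show 2 * (j + 1) + 1 < 2 * (j + 3) by omega); omega)
  have o3 : K.θ (γ (2 * (j + 3) + 1) + 1) < K.θ (γ (2 * (j - 1) + 2 * q)) := K.θ_lt (by
    have := γ_lt hγ (show 2 * (j + 3) + 1 < 2 * (j - 1) + 2 * (q : ℤ) by omega); omega)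
  have o4 : K.θ (γ (2 * (j + 3))) ≤ K.θ (γ (2 * (j + 3) + 1) + 1) := K.θ_le (by
    have := γ_lt hγ (show 2 * (j + 3) < 2 * (j + 3) + 1 by omega); omega)
  have hs2 : s 2 = s2 := by
    refine K.eq_of_c_eq' (a := s0) ((hc 2).trans h2) ?_ ?_ (by linarith) (by linarith)
    · rcases hord with h | h <;> linarith [h.1, h.2.1, h.2.2.1, h.2.2.2]
    · rcases hord with h | h <;> linarith [h.1, h.2.1, h.2.2.1, h.2.2.2]
  have hs3 : s 3 = s3 := by
    refine K.eq_of_c_eq' (a := s0) ((hc 3).trans h3) ?_ ?_ (by linarith) (by linarith)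
    · rcases hord with h | h <;> linarith [h.1, h.2.1, h.2.2.1, h.2.2.2]
    · rcases hord with h | h <;> linarith [h.1, h.2.1, h.2.2.1, h.2.2.2]
  rcases hord with ⟨p1, p2, p3, p4⟩ | ⟨p1, p2, p3, p4⟩
  · obtain ⟨n', hn'⟩ := K.exists_of_c_eq hT (h1.symm.trans (hc 1).symm)
    have hs1 : s 1 = s1 + n' * K.T := hn'
    have c1 : K.θ (γ (2 * i + 2 * q * n')) ≤ s 1 := by
      have := K.θγ_add_int q hγq (2 * i) n' 0
      simp only [add_zero] at this
      rw [← this, hs1]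
      linarith
    have c2 : s 1 ≤ K.θ (γ (2 * i + 1 + 2 * q * n') + 1) := by
      rw [← K.θγ_add_int q hγq, hs1]
      linarith
    refine ⟨n', ?_⟩
    rw [abs_le]
    constructor
    · by_contra hcon
      push Not at hcon
      have : K.θ (γ (2 * (j + 1) + 1) + 1) < K.θ (γ (2 * i + 2 * q * n')) := K.θ_lt (by
        have := γ_lt hγ (show 2 * (j + 1) + 1 < 2 * i + 2 * (q : ℤ) * n' by
          have e : 2 * (q : ℤ) * n' = 2 * (n' * q) := by ring
          rw [e]; omega)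
        omega)
      linarith
    · by_contra hcon
      push Not at hcon
      have : K.θ (γ (2 * i + 1 + 2 * q * n') + 1) < K.θ (γ (2 * (j - 1))) := K.θ_lt (by
        have := γ_lt hγ (show 2 * i + 1 + 2 * (q : ℤ) * n' < 2 * (j - 1) by
          have e : 2 * (q : ℤ) * n' = 2 * (n' * q) := by ring
          rw [e]; omega)
        omega)
      linarith
  · exfalso
    linarith

end Circ

namespace TopSys

variable (Z : TopSys) {T : Tower}

theorem exists_iterate (f : OnePoint ℂ ≃ₜ OnePoint ℂ) (n : ℕ) :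
    ∃ F : OnePoint ℂ ≃ₜ OnePoint ℂ, ∀ z, F z = f^[n] z := by
  induction n with
  | zero => exact ⟨Homeomorph.refl _, fun z => rfl⟩
  | succ n ih =>
    obtain ⟨F, hF⟩ := ih
    refine ⟨F.trans f, fun z => ?_⟩
    rw [Function.iterate_succ_apply', ← hF]
    rfl

theorem final {m : ℕ} {P P' : Set (OnePoint ℂ)} (hP : T.Good m P) (hP' : T.Good m P')
    (hPP : P' = T.f.onePointCongr^[T.t m] ⁻¹' P) (hm : 1 ≤ m) (i : ℤ) (hi : i ∈ T.J m) (i' : ℤ)
    (hi' : i' ∈ T.J m) (a : Vertex T.C) (ha : T.vend a ∈ P') (h : Z.Win T P' m i a) :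
    ¬ Z.Win T P m i' (T.φ^[T.t m] a) := by
  intro h'
  obtain ⟨e', he'⟩ := h
  obtain ⟨e, he⟩ := h'
  induction a using Quotient.inductionOn with
  | h γ =>
  obtain ⟨F, hF⟩ := exists_iterate T.f.onePointCongr (T.t m)
  let H : OnePoint ℂ ≃ₜ OnePoint ℂ := (T.G m).trans (F.trans (T.G m).symm)
  have hH : ∀ z, H z = (T.G m).symm (T.f.onePointCongr^[T.t m] (T.G m z)) := fun z => by
    rw [← hF]; rfl
  have hfar := T.J_far m hm i hi i' hi'
  have hq5 : 5 ≤ T.q m := by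
    have hq0 : (0 : ℤ) < T.q m := by have := T.q_ge m; exact_mod_cast (by omega : 0 < T.q m)
    have h1 := hfar ((i + T.t m * T.p m - i') / T.q m)
    have h2 := Int.emod_add_mul_ediv (i + T.t m * T.p m - i') (T.q m)
    have h3 := Int.emod_nonneg (i + T.t m * T.p m - i') hq0.ne'
    have h4 := Int.emod_lt_of_pos (i + T.t m * T.p m - i') hq0
    have h5 : i + T.t m * T.p m - i' - (i + T.t m * T.p m - i') / T.q m * T.q m =
        (i + T.t m * T.p m - i') % T.q m := by linarith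
    rw [h5, abs_of_nonneg h3] at h1
    have h6 : (4 : ℤ) < T.q m := by push_cast at h1; omega
    exact_mod_cast (by omega : (5 : ℤ) ≤ T.q m)
  have hq : 2 ≤ T.q m := by omega
  have hH0 : H OnePoint.infty = OnePoint.infty := by
    rw [hH, T.G_infty]
    have : ∀ n : ℕ, T.f.onePointCongr^[n] OnePoint.infty = OnePoint.infty := by
      intro n
      induction n with
      | zero => rfl
      | succ n ih => rw [Function.iterate_succ_apply', ih]; rfl
    rw [this, T.G_symm_infty]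
  have hHP : H ⁻¹' (T.G m ⁻¹' P) = T.G m ⁻¹' P' := by
    ext z
    show T.G m (H z) ∈ P ↔ T.G m z ∈ P'
    rw [hH, Homeomorph.apply_symm_apply, hPP]
    rfl
  -- the three straight rays
  have hray : ∀ d : ℤ, |d| ≤ 3 → ∃ η, PathTo (T.G m ⁻¹' P') η ∧
      Z.E e' η = (Z.K e').c ((Z.K e').θ (e'.γ (2 * (i + d) + 1))) ∧
      ∃ s, (Z.K e).θ (e.γ (2 * (i + d + T.t m * T.p m))) ≤ s ∧
        s ≤ (Z.K e).θ (e.γ (2 * (i + d + T.t m * T.p m) + 1) + 1) ∧
        (Z.K e).c s = Z.E e fun x => H (η x) := by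
    intro d hd
    have hbx : ((pt (e'.θ (e'.γ (2 * (i + d) + 1))) 0 : ℂ) : OnePoint ℂ) ∈
        bx (T.q m) (2 * (i + d)) := by
      refine ⟨_, ?_, rfl⟩
      have h1 := e'.γ_step (2 * (i + d))
      have := (e'.box (2 * (i + d)) (e'.γ (2 * (i + d) + 1))).1 ⟨by omega, le_rfl⟩
      exact_mod_cast this
    have hP1 : ((pt (e'.θ (e'.γ (2 * (i + d) + 1))) 0 : ℂ) : OnePoint ℂ) ∈ T.G m ⁻¹' P' :=
      (e'.mem _).2 ⟨_, rfl⟩
    obtain ⟨η, h1, h2, τ, -, -, h3, h4⟩ := T.equi m hm i hi d hd _ ⟨hP'.sub hP1, hbx⟩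
    have hη : PathTo (T.G m ⁻¹' P') η := h2.pathTo (preimage_mono hP'.sub) (h1 ▸ hP1)
    refine ⟨η, hη, ?_, ?_⟩
    · rw [Z.itin e' _ (preimage_mono hP'.sub) [] η h2 _ h1]
      rfl
    · refine Z.strip e (fun x => H (η x)) (hη.map H hH0 hHP) (i + d + T.t m * T.p m) τ
        (fun s hs => ?_) (fun s hs => ?_)
      · show H (η s) ∈ sideU
        rw [hH]
        exact (h3 s hs).1
      · obtain ⟨-, x, y, h5, h6⟩ := h4 s hs
        refine ⟨x, y, ?_, ?_⟩
        · push_cast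
          exact h5
        · show H (η s) = _
          rw [hH]
          exact h6
  obtain ⟨η0, p0, E0, s0, l0, r0, c0⟩ := hray (-1) (by norm_num)
  obtain ⟨η2, p2, E2, s2, l2, r2, c2⟩ := hray 1 (by norm_num)
  obtain ⟨η3, p3, E3, s3, l3, r3, c3⟩ := hray 3 (by norm_num)
  obtain ⟨t, ht1, ht2, ht3⟩ := he' γ rfl
  obtain ⟨γ', hγ', hγ''⟩ := act_iterate_mk T.f T.map_C γ (T.t m)
  obtain ⟨s1, hs1, hs2, hs3⟩ := he γ' hγ'.symm
  have hpic : PathTo (T.G m ⁻¹' P') (T.pic m γ) := T.pathTo_pic hP'.sub m γ ha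
  have htr : (fun s => H (T.pic m γ s)) = T.pic m γ' := by
    funext s
    show H ((T.G m).symm (γ.1 s)) = (T.G m).symm (γ'.1 s)
    rw [hH, Homeomorph.apply_symm_apply, hγ'']
  have hA := (Z.K e').Acusp_mem (T.q m) hq e'.γ_step (Z.γ_per e') i
  have hB := (Z.K e').Bcusp_mem (T.q m) hq e'.γ_step (Z.γ_per e') i
  obtain ⟨t', ht', hlk⟩ := Z.transLk e' e H hH0 hHP ![η0, T.pic m γ, η2, η3] (by
      intro i
      fin_cases i
      · exact p0
      · exact hpic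
      · exact p2
      · exact p3)
    ![(Z.K e').θ (e'.γ (2 * (i + -1) + 1)), t, (Z.K e').θ (e'.γ (2 * (i + 1) + 1)),
      (Z.K e').θ (e'.γ (2 * (i + 3) + 1))] (by
      intro i
      fin_cases i
      · exact E0.symm
      · exact ht3
      · exact E2.symm
      · exact E3.symm) (by
      refine lt_of_lt_of_le ((Z.K e').θ_lt ?_) (hA.1.trans ht1)
      have := Circ.γ_lt (γ := e'.γ) e'.γ_step (show 2 * (i + -1) + 1 < 2 * i by omega)
      omega) (by
      refine lt_of_le_of_lt (ht2.trans hB.2.1) ((Z.K e').θ_lt ?_)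
      have := Circ.γ_lt (γ := e'.γ) e'.γ_step (show 2 * i + 1 < 2 * (i + 1) + 1 by omega)
      omega) (by
      refine (Z.K e').θ_lt ?_
      have := Circ.γ_lt (γ := e'.γ) e'.γ_step (show 2 * (i + 1) + 1 < 2 * (i + 3) + 1 by omega)
      omega) (by
      show (Z.K e').θ (e'.γ (2 * (i + 3) + 1)) <
        (Z.K e').θ (e'.γ (2 * (i + -1) + 1)) + (Z.K e').T
      rw [(Z.K e').θγ_add_T (T.q m) (Z.γ_per e')]
      refine (Z.K e').θ_lt ?_
      have := Circ.γ_lt (γ := e'.γ) e'.γ_step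
        (show 2 * (i + 3) + 1 < 2 * (i + -1) + 1 + 2 * (T.q m : ℤ) by omega)
      omega)
  have hA' := (Z.K e).Acusp_mem (T.q m) hq e.γ_step (Z.γ_per e) i'
  have hB' := (Z.K e).Bcusp_mem (T.q m) hq e.γ_step (Z.γ_per e) i'
  have q0 : i + -1 + T.t m * T.p m = i + T.t m * T.p m - 1 := by ring
  have q2 : i + 1 + T.t m * T.p m = i + T.t m * T.p m + 1 := by ring
  have q3 : i + 3 + T.t m * T.p m = i + T.t m * T.p m + 3 := by ring
  rw [q0] at l0 r0
  rw [q2] at l2 r2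
  rw [q3] at l3 r3
  obtain ⟨n, hn⟩ := (Z.K e).slot_of_link (T.q m) e.γ_step (Z.γ_per e) (Z.K_T e) hq5 hlk
    (j := i + T.t m * T.p m) (i := i')
    ((ht' 0).trans c0.symm) ((ht' 1).trans (by
      show (Z.E e fun s => H (T.pic m γ s)) = _
      rw [htr, hs3])) ((ht' 2).trans c2.symm) ((ht' 3).trans c3.symm)
    l0 r0 (hA'.1.trans hs1) (hs2.trans hB'.2.1) l2 r2 l3 r3
  have := hfar n
  push_cast at this
  omega

theorem winSys (T : Tower) : T.WinSys (Z.Win T) where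
  start m P hP h := Z.start hP h
  stay m P hP k hk v a ha h := Z.stay hP hk v a ha h
  step m P hP k hk v a b ha hb hadj h := Z.step hP hk v a b ha hb hadj h
  final m P P' hP hP' hPP hm i hi i' hi' a ha h := Z.final hP hP' hPP hm i hi i' hi' a ha h

end TopSys

/-- A topological core and a tower give a parabolic homeomorphism. -/
theorem parabolic_of_topSys (Z : TopSys) (T : Tower) : ActsParabolically T.f T.map_C :=
  T.parabolic (Z.winSys T)

end Pool.Agent.RAY
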