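import Mathlib

/-!
# The combinatorial step of the lower bound (MP_5d2250_gt)

`Circ X` is the order-theoretic model of the action of the reflections in the gaps of the finite
set `P` on the circle at infinity.  `Circ.window`: if the end of the ray `y` lies behind the word of
`ω_u` and `z` is disjoint from `y` (no linking of their ends with the images of their ends), then
the end of `z` lies in a window `[A_i, B_i]` with `i ∈ u + S`.
-/

namespace Pool.Agent.RAY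

/-- Order-theoretic model: points of the circle at infinity `c x`, `x : ℝ` with period `T`, points
`c (θ j)` of `P`, reflections `r j` in the gap `(θ j, θ (j + 1))` and their real lifts `ρ j`. -/
structure Circ (X : Type*) where
  /-- the points of `P` -/
  θ : ℤ → ℝ
  /-- number of points of `P` -/
  N : ℤ
  /-- period -/
  T : ℝ
  /-- the points of the circle -/
  c : ℝ → X
  /-- the reflections -/
  r : ℤ → X → X
  /-- their lifts on the complement of the gap -/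
  ρ : ℤ → ℝ → ℝ
  mono : StrictMono θ
  per : ∀ j, θ (j + N) = θ j + T
  c_per : ∀ x, c (x + T) = c x
  c_surj : ∀ (p : X) (a : ℝ), ∃ x, a ≤ x ∧ x < a + T ∧ c x = p
  c_inj : ∀ x y, c x = c y → x ≤ y → y < x + T → x = y
  r_r : ∀ j p, r j (r j p) = p
  r_per : ∀ j p, r (j + N) p = r j p
  r_c : ∀ j x, θ (j + 1) ≤ x → x ≤ θ j + T → r j (c x) = c (ρ j x)
  ρ_mem : ∀ j x, θ (j + 1) ≤ x → x ≤ θ j + T → θ j ≤ ρ j x ∧ ρ j x ≤ θ (j + 1)
  ρ_anti : ∀ j x y, θ (j + 1) ≤ x → x < y → y ≤ θ j + T → ρ j y < ρ j x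
  ρ_surj : ∀ j y, θ j ≤ y → y ≤ θ (j + 1) → ∃ x, θ (j + 1) ≤ x ∧ x ≤ θ j + T ∧ ρ j x = y

namespace Circ

variable {X : Type*} (K : Circ X)

/-- The action of words. -/
def act (w : List ℤ) (p : X) : X := w.foldr K.r p

@[simp] lemma act_nil (p : X) : K.act [] p = p := rfl

@[simp] lemma act_cons (j : ℤ) (w : List ℤ) (p : X) : K.act (j :: w) p = K.r j (K.act w p) := rfl

lemma act_append (w w' : List ℤ) (p : X) : K.act (w ++ w') p = K.act w (K.act w' p) := by
  simp [act]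

lemma act_reverse_act (w : List ℤ) (p : X) : K.act w.reverse (K.act w p) = p := by
  induction w with
  | nil => rfl
  | cons j w ih =>
    rw [List.reverse_cons, act_append, act_cons, act_cons, act_nil, K.r_r, ih]

lemma θ_le {i j : ℤ} (h : i ≤ j) : K.θ i ≤ K.θ j := K.mono.monotone h

lemma θ_lt {i j : ℤ} (h : i < j) : K.θ i < K.θ j := K.mono h

/-- `ρ` is injective on the complement interval, in the form of an implication of inequalities -/
lemma lt_of_ρ_lt {j : ℤ} {x y : ℝ} (hx : K.θ (j + 1) ≤ x)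
    (hy' : y ≤ K.θ j + K.T) (h : K.ρ j x < K.ρ j y) : y < x := by
  rcases lt_trichotomy x y with h1 | h1 | h1
  · exact absurd (K.ρ_anti j x y hx h1 hy') (not_lt.2 h.le)
  · rw [h1] at h; exact absurd h (lt_irrefl _)
  · exact h1

lemma le_of_ρ_le {j : ℤ} {x y : ℝ} (hx : K.θ (j + 1) ≤ x) (hy' : y ≤ K.θ j + K.T)
    (h : K.ρ j x ≤ K.ρ j y) : y ≤ x := by
  by_contra h1
  push Not at h1
  exact absurd (K.ρ_anti j x y hx h1 hy') (not_lt.2 h)

lemma ρ_le {j : ℤ} {x y : ℝ} (hx : K.θ (j + 1) ≤ x) (h : x ≤ y) (hy' : y ≤ K.θ j + K.T) :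
    K.ρ j y ≤ K.ρ j x := by
  rcases h.eq_or_lt with h | h
  · rw [h]
  · exact (K.ρ_anti j x y hx h hy').le

section gates

variable (γ : ℤ → ℤ)

/-- the threshold `A_i` -/
def Acusp (i : ℤ) : ℝ := K.ρ (γ (2 * i)) (K.θ (γ (2 * i - 1)) + K.T)

/-- the threshold `B_i` -/
def Bcusp (i : ℤ) : ℝ := K.ρ (γ (2 * i + 1)) (K.θ (γ (2 * i + 2) + 1))

/-- the letters `L_{u+s}, R_{u+s}`, `s ∈ S` -/
def gates (S : List ℕ) (u : ℤ) : List ℤ := S.flatMap fun s => [2 * (u + s), 2 * (u + s) + 1]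

@[simp] lemma gates_nil (u : ℤ) : gates [] u = [] := rfl

@[simp] lemma gates_cons (s : ℕ) (S : List ℕ) (u : ℤ) :
    gates (s :: S) u = (2 * (u + s)) :: (2 * (u + s) + 1) :: gates S u := rfl

lemma gates_append (S S' : List ℕ) (u : ℤ) : gates (S ++ S') u = gates S u ++ gates S' u := by
  simp [gates]

lemma even_gates (S : List ℕ) (u : ℤ) : Even (gates S u).length := by
  induction S with
  | nil => simp
  | cons s S ih => 
    simp only [gates_cons, List.length_cons]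
    exact (Nat.even_add_one.2 (by simpa [Nat.even_add_one] using ih))

variable {γ} (q : ℕ) (hq : 2 ≤ q) (hγ : ∀ j, γ j + 2 ≤ γ (j + 1))
  (hγq : ∀ j, γ (j + 2 * q) = γ j + K.N)

include hγ in
lemma γ_lt {i j : ℤ} (h : i < j) : γ i + 2 ≤ γ j := by
  have hm : StrictMono γ := strictMono_int_of_lt_succ fun n => by have := hγ n; omega
  have h1 : γ (i + 1) ≤ γ j := hm.monotone (by omega)
  have := hγ i
  omega

include hγ in
lemma γ_le {i j : ℤ} (h : i ≤ j) : γ i ≤ γ j := by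
  rcases h.eq_or_lt with h | h
  · rw [h]
  · have := γ_lt hγ h; omega

include hγq in
lemma θγ_add_T (j : ℤ) : K.θ (γ j) + K.T = K.θ (γ (j + 2 * q)) := by
  rw [hγq, K.per]

include hγq in
lemma θγ_succ_add_T (j : ℤ) : K.θ (γ j + 1) + K.T = K.θ (γ (j + 2 * q) + 1) := by
  rw [hγq, ← K.per]
  congr 1
  ring

include hq hγ hγq in
/-- passing a slot forwards -/
lemma pair_step (i : ℤ) (x : ℝ) (h1 : K.θ (γ (2 * i) + 1) ≤ x) (h2 : x ≤ K.θ (γ (2 * i)) + K.T) :
    ∃ t, K.r (γ (2 * i + 1)) (K.r (γ (2 * i)) (K.c x)) = K.c t ∧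
      K.θ (γ (2 * i + 1)) ≤ t ∧ t < K.Bcusp γ i := by
  rw [K.r_c _ _ h1 h2]
  obtain ⟨h3, h4⟩ := K.ρ_mem _ _ h1 h2
  set y := K.ρ (γ (2 * i)) x with hy
  have e1 : K.θ (γ (2 * i + 2) + 1) < y + K.T := by
    have := K.θγ_add_T q hγq (2 * i)
    have h5 : K.θ (γ (2 * i + 2) + 1) < K.θ (γ (2 * i + 2 * q)) :=
      K.θ_lt (by have := γ_lt hγ (show 2 * i + 2 < 2 * i + 2 * (q : ℤ) by omega); omega)
    linarith
  have e2 : K.θ (γ (2 * i + 1) + 1) ≤ K.θ (γ (2 * i + 2) + 1) :=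
    K.θ_le (by have := γ_lt hγ (show 2 * i + 1 < 2 * i + 2 by omega); omega)
  have e3 : y + K.T ≤ K.θ (γ (2 * i + 1)) + K.T := by
    have : K.θ (γ (2 * i) + 1) ≤ K.θ (γ (2 * i + 1)) :=
      K.θ_le (by have := γ_lt hγ (show 2 * i < 2 * i + 1 by omega); omega)
    linarith
  refine ⟨K.ρ (γ (2 * i + 1)) (y + K.T), ?_, ?_, ?_⟩
  · rw [← K.c_per y, K.r_c _ _ (by linarith) e3]
  · exact (K.ρ_mem _ _ (by linarith) e3).1
  · exact K.ρ_anti _ _ _ e2 e1 e3

include hq hγ hγq in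
/-- passing a slot backwards -/
lemma pair_back (i : ℤ) (x : ℝ) (h1 : K.θ (γ (2 * i + 1) + 1) ≤ x)
    (h2 : x ≤ K.θ (γ (2 * i + 1)) + K.T) :
    K.r (γ (2 * i)) (K.r (γ (2 * i + 1)) (K.c x)) =
      K.c (K.ρ (γ (2 * i)) (K.ρ (γ (2 * i + 1)) x)) ∧
      K.Acusp γ i < K.ρ (γ (2 * i)) (K.ρ (γ (2 * i + 1)) x) ∧
      K.ρ (γ (2 * i)) (K.ρ (γ (2 * i + 1)) x) ≤ K.θ (γ (2 * i) + 1) := by
  rw [K.r_c _ _ h1 h2]
  obtain ⟨h3, h4⟩ := K.ρ_mem _ _ h1 h2
  set y := K.ρ (γ (2 * i + 1)) x with hy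
  have e1 : K.θ (γ (2 * i) + 1) ≤ y := by
    have : K.θ (γ (2 * i) + 1) ≤ K.θ (γ (2 * i + 1)) :=
      K.θ_le (by have := γ_lt hγ (show 2 * i < 2 * i + 1 by omega); omega)
    linarith
  have e0 := K.θγ_add_T q hγq (2 * i - 1)
  have e2 : y < K.θ (γ (2 * i - 1)) + K.T := by
    have h5 : K.θ (γ (2 * i + 1) + 1) < K.θ (γ (2 * i - 1 + 2 * q)) :=
      K.θ_lt (by have := γ_lt hγ (show 2 * i + 1 < 2 * i - 1 + 2 * (q : ℤ) by omega); omega)
    linarith
  have e3 : K.θ (γ (2 * i - 1)) + K.T ≤ K.θ (γ (2 * i)) + K.T := by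
    have := K.θ_le (γ_le hγ (show 2 * i - 1 ≤ 2 * i by omega))
    linarith
  refine ⟨K.r_c _ _ e1 (by linarith), ?_, (K.ρ_mem _ _ e1 (by linarith)).2⟩
  exact K.ρ_anti _ _ _ e1 e2 e3

include hq hγ hγq in
/-- the end of `z` after the inverse of a prefix -/
lemma front (u : ℤ) (t : ℝ) (ht : K.Bcusp γ u < t) (ht' : t < K.Acusp γ u + K.T) :
    ∀ (P : List ℕ) (s : ℕ), (P ++ [s]).Pairwise (· < ·) → (∀ x ∈ P ++ [s], x < q) →
      (P ++ [s]).head? = some 0 →
      ∃ t', K.act ((gates (P ++ [s]) u).map γ).reverse (K.c t) = K.c t' ∧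
        K.θ (γ (2 * (u + s) + 1)) ≤ t' ∧ t' < K.Bcusp γ (u + s) := by
  intro P
  induction P using List.reverseRecOn with
  | nil =>
    intro s _ _ hh
    simp only [List.nil_append, List.head?_cons, Option.some.injEq] at hh
    subst hh
    simp only [List.nil_append, gates_cons, gates_nil, List.map_cons, List.map_nil,
      List.reverse_cons, List.reverse_nil, List.cons_append, act_cons, act_nil,
      Nat.cast_zero, add_zero]
    have eB : K.θ (γ (2 * u + 1)) ≤ K.Bcusp γ u := by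
      have e1 : K.θ (γ (2 * u + 1) + 1) ≤ K.θ (γ (2 * u + 2) + 1) :=
        K.θ_le (by have := γ_lt hγ (show 2 * u + 1 < 2 * u + 2 by omega); omega)
      have e2 : K.θ (γ (2 * u + 2) + 1) ≤ K.θ (γ (2 * u + 1)) + K.T := by
        rw [K.θγ_add_T q hγq]
        exact K.θ_le (by
          have := γ_lt hγ (show 2 * u + 2 < 2 * u + 1 + 2 * (q : ℤ) by omega); omega)
      exact (K.ρ_mem _ _ e1 e2).1
    have e1 : K.θ (γ (2 * u) + 1) ≤ K.θ (γ (2 * u + 1)) :=
      K.θ_le (by have := γ_lt hγ (show 2 * u < 2 * u + 1 by omega); omega)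
    rcases le_or_gt t (K.θ (γ (2 * u)) + K.T) with h | h
    · exact K.pair_step q hq hγ hγq u t (by linarith) h
    · -- `t` lies in the arc of `L_{u+q}`
      have a1 : K.θ (γ (2 * u) + 1) ≤ K.θ (γ (2 * u - 1)) + K.T := by
        rw [K.θγ_add_T q hγq]
        exact K.θ_le (by
          have := γ_lt hγ (show 2 * u < 2 * u - 1 + 2 * (q : ℤ) by omega); omega)
      have a2 : K.θ (γ (2 * u - 1)) + K.T ≤ K.θ (γ (2 * u)) + K.T := by
        have := K.θ_le (γ_le hγ (show 2 * u - 1 ≤ 2 * u by omega))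
        linarith
      have a3 := K.ρ_mem _ _ a1 a2
      obtain ⟨x, hx1, hx2, hx3⟩ := K.ρ_surj (γ (2 * u)) (t - K.T) (by linarith) (by
        have : K.Acusp γ u ≤ K.θ (γ (2 * u) + 1) := a3.2
        linarith)
      have a4 : K.c t = K.r (γ (2 * u)) (K.c x) := by
        rw [K.r_c _ _ hx1 hx2, hx3, ← K.c_per (t - K.T), sub_add_cancel]
      have a5 : K.θ (γ (2 * u - 1)) + K.T < x := by
        refine K.lt_of_ρ_lt hx1 a2 ?_
        rw [hx3]
        have : K.ρ (γ (2 * u)) (K.θ (γ (2 * u - 1)) + K.T) = K.Acusp γ u := rfl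
        linarith
      have a6 : K.θ (γ (2 * u + 2) + 1) ≤ K.θ (γ (2 * u - 1)) + K.T := by
        rw [K.θγ_add_T q hγq]
        exact K.θ_le (by
          have := γ_lt hγ (show 2 * u + 2 < 2 * u - 1 + 2 * (q : ℤ) by omega); omega)
      have a7 : K.θ (γ (2 * u + 1) + 1) ≤ K.θ (γ (2 * u + 2) + 1) :=
        K.θ_le (by have := γ_lt hγ (show 2 * u + 1 < 2 * u + 2 by omega); omega)
      have a8 : x ≤ K.θ (γ (2 * u + 1)) + K.T := by
        have := K.θ_le (γ_le hγ (show 2 * u ≤ 2 * u + 1 by omega))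
        linarith
      refine ⟨K.ρ (γ (2 * u + 1)) x, ?_, ?_, ?_⟩
      · rw [a4, K.r_r, K.r_c _ _ (by linarith) a8]
      · exact (K.ρ_mem _ _ (by linarith) a8).1
      · exact K.ρ_anti _ _ _ a7 (by linarith) a8
  | append_singleton P s1 ih =>
    intro s hp hlt hh
    have hp' := List.pairwise_append.1 hp
    have h1s : s1 < s := hp'.2.2 s1 (by simp) s (by simp)
    have hsq : s < q := hlt s (by simp)
    obtain ⟨t', ht1, ht2, ht3⟩ := ih s1 hp'.1 (fun x hx => hlt x (by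
      rw [List.mem_append]; exact Or.inl hx)) (by
      cases P with
      | nil => simpa using hh
      | cons a P => simpa using hh)
    rw [gates_append, List.map_append, List.reverse_append, act_append, ht1]
    simp only [gates_cons, gates_nil, List.map_cons, List.map_nil,
      List.reverse_cons, List.reverse_nil, List.nil_append, List.cons_append, act_cons, act_nil]
    have eB : K.Bcusp γ (u + s1) ≤ K.θ (γ (2 * (u + s1) + 1) + 1) := by
      have e1 : K.θ (γ (2 * (u + s1) + 1) + 1) ≤ K.θ (γ (2 * (u + s1) + 2) + 1) :=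
        K.θ_le (by
          have := γ_lt hγ (show 2 * (u + s1) + 1 < 2 * (u + s1) + 2 by omega); omega)
      have e2 : K.θ (γ (2 * (u + s1) + 2) + 1) ≤ K.θ (γ (2 * (u + s1) + 1)) + K.T := by
        rw [K.θγ_add_T q hγq]
        exact K.θ_le (by
          have := γ_lt hγ (show 2 * (u + s1) + 2 < 2 * (u + s1) + 1 + 2 * (q : ℤ) by omega)
          omega)
      exact (K.ρ_mem _ _ e1 e2).2
    rw [← K.c_per t']
    refine K.pair_step q hq hγ hγq (u + s) (t' + K.T) ?_ ?_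
    · have e1 := K.θγ_add_T q hγq (2 * (u + s1) + 1)
      have e2 : K.θ (γ (2 * (u + s)) + 1) ≤ K.θ (γ (2 * (u + s1) + 1 + 2 * q)) :=
        K.θ_le (by
          have := γ_lt hγ (show 2 * (u + s) < 2 * (u + s1) + 1 + 2 * (q : ℤ) by omega)
          omega)
      linarith
    · have e2 : K.θ (γ (2 * (u + s1) + 1) + 1) ≤ K.θ (γ (2 * (u + s))) :=
        K.θ_le (by
          have := γ_lt hγ (show 2 * (u + (s1 : ℤ)) + 1 < 2 * (u + (s : ℤ)) by omega)
          omega)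
      linarith

include hq hγ hγq in
/-- the tail of the word of `ω_u` -/
lemma rest (u : ℤ) (e : ℝ) (h1 : K.θ (γ (2 * (u + q)) + 1) ≤ e)
    (h2 : e ≤ K.θ (γ (2 * (u + q))) + K.T) :
    ∀ S : List ℕ, S.Pairwise (· < ·) → (∀ x ∈ S, x < q) →
      ∃ t, K.act ((gates S u ++ [2 * (u + q)]).map γ) (K.c e) = K.c t ∧
        K.θ (γ (2 * (u + ((S.head?.getD q : ℕ) : ℤ)))) ≤ t ∧
        t ≤ K.θ (γ (2 * (u + ((S.head?.getD q : ℕ) : ℤ))) + 1) ∧
        (S = [] → t = K.ρ (γ (2 * (u + q))) e) ∧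
        ∀ s S', S = s :: S' → K.Acusp γ (u + s) < t ∧
          ∃ z, K.θ (γ (2 * (u + ((S'.head?.getD q : ℕ) : ℤ)))) ≤ z ∧
            z ≤ K.θ (γ (2 * (u + ((S'.head?.getD q : ℕ) : ℤ))) + 1) ∧
            t = K.ρ (γ (2 * (u + s))) (K.ρ (γ (2 * (u + s) + 1)) z) := by
  intro S
  induction S with
  | nil =>
    intro _ _
    obtain ⟨h3, h4⟩ := K.ρ_mem _ _ h1 h2
    refine ⟨K.ρ (γ (2 * (u + q))) e, ?_, h3, h4, fun _ => rfl, fun s S' h => by simp at h⟩
    simp only [gates_nil, List.nil_append, List.map_cons, List.map_nil, act_cons, act_nil]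
    exact K.r_c _ _ h1 h2
  | cons s S ih =>
    intro hp hlt
    obtain ⟨z, hz1, hz2, hz3, -⟩ := ih hp.of_cons (fun x hx => hlt x (List.mem_cons_of_mem _ hx))
    set n : ℕ := S.head?.getD q with hn
    have hsn : s < n := by
      cases S with
      | nil => exact hlt s (by simp)
      | cons a S =>
        have := (List.pairwise_cons.1 hp).1 a (by simp)
        simpa [hn] using this
    have hnq : n ≤ q := by
      cases S with
      | nil => simp [hn]
      | cons a S =>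
        have := hlt a (by simp)
        simp [hn]; omega
    have a1 : K.θ (γ (2 * (u + s) + 1) + 1) ≤ z := by
      refine le_trans (K.θ_le ?_) hz2
      have := γ_lt hγ (show 2 * (u + (s : ℤ)) + 1 < 2 * (u + (n : ℤ)) by omega)
      omega
    have a2 : z ≤ K.θ (γ (2 * (u + s) + 1)) + K.T := by
      refine hz3.trans ?_
      rw [K.θγ_add_T q hγq]
      refine K.θ_le ?_
      have := γ_lt hγ (show 2 * (u + (n : ℤ)) < 2 * (u + (s : ℤ)) + 1 + 2 * (q : ℤ) by omega)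
      omega
    obtain ⟨b1, b2, b3⟩ := K.pair_back q hq hγ hγq (u + s) z a1 a2
    obtain ⟨c1, c2⟩ := K.ρ_mem _ _ a1 a2
    have b4 : K.θ (γ (2 * (u + s))) ≤ K.ρ (γ (2 * (u + s))) (K.ρ (γ (2 * (u + s) + 1)) z) := by
      refine (K.ρ_mem _ _ ?_ ?_).1
      · refine le_trans (K.θ_le ?_) c1
        have := γ_lt hγ (show 2 * (u + (s : ℤ)) < 2 * (u + (s : ℤ)) + 1 by omega)
        omega
      · refine c2.trans ?_
        rw [K.θγ_add_T q hγq]
        refine K.θ_le ?_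
        have := γ_lt hγ (show 2 * (u + (s : ℤ)) + 1 < 2 * (u + (s : ℤ)) + 2 * (q : ℤ) by omega)
        omega
    refine ⟨K.ρ (γ (2 * (u + s))) (K.ρ (γ (2 * (u + s) + 1)) z), ?_, ?_, ?_,
      fun h => by simp at h, ?_⟩
    · rw [gates_cons, List.cons_append, List.cons_append, List.map_cons, List.map_cons,
        act_cons, act_cons, hz1]
      exact b1
    · simpa using b4
    · simpa using b3
    · intro s' S' h
      obtain ⟨rfl, rfl⟩ := List.cons.inj h
      exact ⟨b2, z, hz2, hz3, rfl⟩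

/-- periodicity of the lifts -/
lemma ρ_per (hN : 1 < K.N) (j : ℤ) (x : ℝ) (h1 : K.θ (j + 1) ≤ x) (h2 : x ≤ K.θ j + K.T) :
    K.ρ (j + K.N) (x + K.T) = K.ρ j x + K.T := by
  obtain ⟨h3, h4⟩ := K.ρ_mem _ _ h1 h2
  have e1 : K.θ (j + K.N + 1) = K.θ (j + 1) + K.T := by rw [← K.per]; congr 1; ring
  have h5 : K.θ (j + K.N + 1) ≤ x + K.T := by linarith
  have h6 : x + K.T ≤ K.θ (j + K.N) + K.T := by rw [K.per]; linarith
  obtain ⟨h7, h8⟩ := K.ρ_mem _ _ h5 h6
  have e2 : K.c (K.ρ (j + K.N) (x + K.T)) = K.c (K.ρ j x + K.T) := by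
    rw [← K.r_c _ _ h5 h6, K.r_per, K.c_per, K.c_per, K.r_c _ _ h1 h2]
  have e3 : K.θ (j + 1) < K.θ j + K.T := by
    rw [← K.per]; exact K.θ_lt (by omega)
  rw [K.per] at h7
  rcases le_total (K.ρ (j + K.N) (x + K.T)) (K.ρ j x + K.T) with h | h
  · exact K.c_inj _ _ e2 h (by linarith)
  · exact (K.c_inj _ _ e2.symm h (by linarith)).symm

include hq hγ hγq in
/-- **The combinatorial step.**  If the end `Ey` of a ray lies behind the word of `ω_u` (between the
two thresholds) and the ends `Ey, Ez` are not linked with their images under any even word, then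
`Ez` lies in a window `[A_i, B_i]`, `i ∈ u + S`. -/
theorem window (S : List ℕ) (hS : S.Pairwise (· < ·)) (hlt : ∀ s ∈ S, s < q) (h0 : 0 ∈ S)
    (hS2 : ∀ s ∈ S, s = 0 ∨ 2 ≤ s) (u : ℤ) (Ey Ez : X)
    (hun : ∀ w : List ℤ, Even w.length → ∀ t1 t2 t3 t4 : ℝ, t1 < t2 → t2 < t3 → t3 < t4 →
      t4 < t1 + K.T → K.c t1 = Ey → K.c t2 = K.act w Ez → K.c t3 = Ez → K.c t4 = K.act w Ey →
      False)
    (e b : ℝ) (hb1 : K.θ (γ (2 * u + 2)) ≤ b) (hb2 : b ≤ K.θ (γ (2 * u + 2) + 1))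
    (he1 : K.ρ (γ (2 * u + 1)) b ≤ e) (he2 : e ≤ K.θ (γ (2 * (u + q) - 2)))
    (hEy : Ey = K.act ((gates S u ++ [2 * (u + q)]).map γ) (K.c e)) :
    ∃ s ∈ S, ∃ t, K.Acusp γ (u + s) ≤ t ∧ t ≤ K.Bcusp γ (u + s) ∧ K.c t = Ez := by
  have hN : 1 < K.N := by
    have h1 := hγq 0
    have h2 := γ_lt hγ (show (0 : ℤ) < 0 + 2 * (q : ℤ) by omega)
    omega
  have hγqu : γ (2 * (u + q)) = γ (2 * u) + K.N := by
    rw [← hγq]; congr 1; ring
  -- the list starts with `0`
  obtain ⟨S', rfl⟩ : ∃ S', S = 0 :: S' := by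
    cases S with
    | nil => simp at h0
    | cons a S =>
      rcases List.mem_cons.1 h0 with h | h
      · exact ⟨S, by rw [h]⟩
      · exact absurd ((List.pairwise_cons.1 hS).1 0 h) (by omega)
  -- facts on `e`
  have b1 : K.θ (γ (2 * u + 1) + 1) ≤ b := by
    refine le_trans (K.θ_le ?_) hb1
    have := γ_lt hγ (show 2 * u + 1 < 2 * u + 2 by omega); omega
  have b2 : b ≤ K.θ (γ (2 * u + 1)) + K.T := by
    refine hb2.trans ?_
    rw [K.θγ_add_T q hγq]
    exact K.θ_le (by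
      have := γ_lt hγ (show 2 * u + 2 < 2 * u + 1 + 2 * (q : ℤ) by omega); omega)
  have e1 : K.θ (γ (2 * u) + 1) ≤ e := by
    refine le_trans (K.θ_le ?_) ((K.ρ_mem _ _ b1 b2).1.trans he1)
    have := γ_lt hγ (show 2 * u < 2 * u + 1 by omega); omega
  have e2 : e < K.θ (γ (2 * u - 1)) + K.T := by
    rw [K.θγ_add_T q hγq]
    refine lt_of_le_of_lt he2 (K.θ_lt ?_)
    have := γ_lt hγ (show 2 * (u + q) - 2 < 2 * u - 1 + 2 * (q : ℤ) by omega); omega
  have e3 : K.θ (γ (2 * u - 1)) + K.T ≤ K.θ (γ (2 * u)) + K.T := by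
    have := K.θ_le (γ_le hγ (show 2 * u - 1 ≤ 2 * u by omega))
    linarith
  have e4 : K.θ (γ (2 * (u + q)) + 1) ≤ e + K.T := by
    have : K.θ (γ (2 * (u + q)) + 1) = K.θ (γ (2 * u) + 1) + K.T := by
      rw [hγqu, ← K.per]; congr 1; ring
    linarith
  have e5 : e + K.T ≤ K.θ (γ (2 * (u + q))) + K.T := by
    rw [hγqu, K.per]; linarith
  have e6 : K.ρ (γ (2 * (u + q))) (e + K.T) = K.ρ (γ (2 * u)) e + K.T := by
    rw [hγqu]; exact K.ρ_per hN _ _ e1 (by linarith)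
  -- the lift of `Ey`
  obtain ⟨t1, ht1, ht1a, ht1b, -, ht1c⟩ :=
    K.rest q hq hγ hγq u (e + K.T) e4 e5 (0 :: S') hS hlt
  obtain ⟨-, z, hz1, hz2, hz3⟩ := ht1c 0 S' rfl
  simp only [List.head?_cons, Option.getD_some, Nat.cast_zero, add_zero] at ht1a ht1b hz3
  have hEy1 : K.c t1 = Ey := by rw [← ht1, hEy, K.c_per]
  -- `t1` is after the lift of the image of `Ey` under `r_{L_u}`
  have key : K.ρ (γ (2 * u)) e < t1 := by
    set n : ℕ := S'.head?.getD q with hn
    have hn2 : 2 ≤ n := by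
      cases S' with
      | nil => simpa [hn] using hq
      | cons a S' =>
        have h3 := (List.pairwise_cons.1 hS).1 a (by simp)
        have h4 := hS2 a (by simp)
        simp [hn]; omega
    have hnq : n ≤ q := by
      cases S' with
      | nil => simp [hn]
      | cons a S' =>
        have := hlt a (by simp)
        simp [hn]; omega
    have c1 : b < z := by
      refine lt_of_le_of_lt hb2 (lt_of_lt_of_le (K.θ_lt ?_) hz1)
      have := γ_lt hγ (show 2 * u + 2 < 2 * (u + (n : ℤ)) by omega); omega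
    have c2 : z ≤ K.θ (γ (2 * u + 1)) + K.T := by
      refine hz2.trans ?_
      rw [K.θγ_add_T q hγq]
      refine K.θ_le ?_
      have := γ_lt hγ (show 2 * (u + (n : ℤ)) < 2 * u + 1 + 2 * (q : ℤ) by omega)
      omega
    have c3 := K.ρ_anti _ _ _ b1 c1 c2
    have c4 := (K.ρ_mem _ _ (by linarith) c2).1
    rw [hz3]
    refine K.ρ_anti _ _ _ ?_ (by linarith) (by linarith)
    refine le_trans (K.θ_le ?_) c4
    have := γ_lt hγ (show 2 * u < 2 * u + 1 by omega)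
    omega
  have keyA : K.Acusp γ u < K.ρ (γ (2 * u)) e := K.ρ_anti _ _ _ e1 e2 e3
  -- the lift of `Ez`
  obtain ⟨t, hta, htb, htz⟩ := K.c_surj Ez (K.Acusp γ u)
  by_cases hB0 : t ≤ K.Bcusp γ u
  · exact ⟨0, by simp, t, by simpa using hta, by simpa using hB0, htz⟩
  push Not at hB0
  -- no linking
  have link : ∀ (P : List ℕ) (s : ℕ) (S2 : List ℕ), 0 :: S' = (P ++ [s]) ++ S2 →
      K.Bcusp γ (u + s) < t → (∀ s' S3, S2 = s' :: S3 → t < K.Acusp γ (u + s')) → False := by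
    intro P s S2 hsplit hBs hAs
    have hp : ((P ++ [s]) ++ S2).Pairwise (· < ·) := hsplit ▸ hS
    have hl : ∀ x ∈ (P ++ [s]) ++ S2, x < q := hsplit ▸ hlt
    have hp' := List.pairwise_append.1 hp
    have hh : (P ++ [s]).head? = some 0 := by
      cases P with
      | nil =>
        have := congrArg List.head? hsplit
        simpa using this.symm
      | cons a P =>
        have := congrArg List.head? hsplit
        simpa using this.symm
    obtain ⟨t2, k1, k2, k3⟩ := K.front q hq hγ hγq u t hB0 htb P s hp'.1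
      (fun x hx => hl x (List.mem_append.2 (Or.inl hx))) hh
    obtain ⟨t4, r1, r2, r3, r4, r5⟩ := K.rest q hq hγ hγq u (e + K.T) e4 e5 S2 hp'.2.1
      (fun x hx => hl x (List.mem_append.2 (Or.inr hx)))
    refine hun ((gates (P ++ [s]) u).map γ).reverse ?_ t1 t2 t t4 ?_ ?_ ?_ ?_ hEy1 ?_ htz ?_
    · rw [List.length_reverse, List.length_map]
      exact even_gates _ _
    · refine lt_of_le_of_lt ht1b (lt_of_lt_of_le (K.θ_lt ?_) k2)
      have := γ_lt hγ (show 2 * u < 2 * (u + (s : ℤ)) + 1 by omega); omega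
    · linarith
    · cases S2 with
      | nil =>
        have := r4 rfl
        rw [this, e6]; linarith
      | cons s' S3 =>
        have h5 := (r5 s' S3 rfl).1
        have h6 := hAs s' S3 rfl
        linarith
    · cases S2 with
      | nil =>
        have := r4 rfl
        rw [this, e6]; linarith
      | cons s' S3 =>
        have h7 : s' < q := hl s' (by simp)
        simp only [List.head?_cons, Option.getD_some] at r3
        have h8 : K.θ (γ (2 * (u + s')) + 1) < K.θ (γ (2 * (u + q))) := K.θ_lt (by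
          have := γ_lt hγ (show 2 * (u + (s' : ℤ)) < 2 * (u + (q : ℤ)) by omega); omega)
        rw [hγqu, K.per] at h8
        linarith
    · rw [← k1, htz]
    · have g : gates (0 :: S') u ++ [2 * (u + (q : ℤ))] =
          gates (P ++ [s]) u ++ (gates S2 u ++ [2 * (u + (q : ℤ))]) := by
        rw [hsplit, gates_append _ S2, List.append_assoc]
      have g2 : ∀ l l' : List ℤ, K.act (l.map γ).reverse (K.act ((l ++ l').map γ) (K.c e)) =
          K.act (l'.map γ) (K.c e) := fun l l' => by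
        rw [List.map_append, act_append, act_reverse_act]
      rw [← r1, hEy, g, g2, K.c_per]
  -- the loop
  have loop : ∀ (S2 P : List ℕ) (s : ℕ), 0 :: S' = (P ++ [s]) ++ S2 → K.Bcusp γ (u + s) < t →
      ∃ s ∈ 0 :: S', ∃ t, K.Acusp γ (u + s) ≤ t ∧ t ≤ K.Bcusp γ (u + s) ∧ K.c t = Ez := by
    intro S2
    induction S2 with
    | nil =>
      intro P s hsplit hBs
      exact (link P s [] hsplit hBs (fun s' S3 h => by simp at h)).elim
    | cons s' S3 ih =>
      intro P s hsplit hBs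
      by_cases hA : t < K.Acusp γ (u + s')
      · refine (link P s (s' :: S3) hsplit hBs (fun a S4 h => ?_)).elim
        obtain ⟨rfl, rfl⟩ := List.cons.inj h
        exact hA
      push Not at hA
      by_cases hB : t ≤ K.Bcusp γ (u + s')
      · exact ⟨s', by rw [hsplit]; simp, t, hA, hB, htz⟩
      · push Not at hB
        exact ih (P ++ [s]) s' (by rw [hsplit]; simp) hB
  exact loop S' [] 0 (by simp) (by simpa using hB0)

/-- two lifts in the closed arc of a gap agree -/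
lemma eq_of_c_eq (hN : 1 < K.N) {j : ℤ} {x y : ℝ} (hx : K.θ j ≤ x) (hx' : x ≤ K.θ (j + 1))
    (hy : K.θ j ≤ y) (hy' : y ≤ K.θ (j + 1)) (h : K.c x = K.c y) : x = y := by
  have e3 : K.θ (j + 1) < K.θ j + K.T := by
    rw [← K.per]; exact K.θ_lt (by omega)
  rcases le_total x y with h1 | h1
  · exact K.c_inj _ _ h h1 (by linarith)
  · exact (K.c_inj _ _ h.symm h1 (by linarith)).symm

/-- intermediate values of a reflection -/
lemma ρ_between {j : ℤ} {x1 x2 y : ℝ} (h1 : K.θ (j + 1) ≤ x1) (h12 : x1 ≤ x2)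
    (h2 : x2 ≤ K.θ j + K.T) (hy1 : K.ρ j x2 ≤ y) (hy2 : y ≤ K.ρ j x1) :
    ∃ x, x1 ≤ x ∧ x ≤ x2 ∧ K.ρ j x = y := by
  obtain ⟨x, a1, a2, a3⟩ := K.ρ_surj j y ((K.ρ_mem _ _ (by linarith) h2).1.trans hy1)
    (hy2.trans (K.ρ_mem _ _ h1 (by linarith)).2)
  refine ⟨x, ?_, ?_, a3⟩
  · exact K.le_of_ρ_le a1 (by linarith) (by rw [a3]; exact hy2)
  · exact K.le_of_ρ_le (by linarith) a2 (by rw [a3]; exact hy1)

include hq hγ hγq in
/-- monotonicity and intermediate values of the lift of the word of `ω_u` -/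
lemma rest_between (u : ℤ) (x1 x2 : ℝ) (h1 : K.θ (γ (2 * (u + q)) + 1) ≤ x1) (h12 : x1 ≤ x2)
    (h2 : x2 ≤ K.θ (γ (2 * (u + q))) + K.T) :
    ∀ S : List ℕ, S.Pairwise (· < ·) → (∀ x ∈ S, x < q) → ∀ y1 y2 : ℝ,
      K.act ((gates S u ++ [2 * (u + q)]).map γ) (K.c x1) = K.c y1 →
      K.act ((gates S u ++ [2 * (u + q)]).map γ) (K.c x2) = K.c y2 →
      K.θ (γ (2 * (u + ((S.head?.getD q : ℕ) : ℤ)))) ≤ y1 →
      y1 ≤ K.θ (γ (2 * (u + ((S.head?.getD q : ℕ) : ℤ))) + 1) →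
      K.θ (γ (2 * (u + ((S.head?.getD q : ℕ) : ℤ)))) ≤ y2 →
      y2 ≤ K.θ (γ (2 * (u + ((S.head?.getD q : ℕ) : ℤ))) + 1) →
      y2 ≤ y1 ∧ ∀ y, y2 ≤ y → y ≤ y1 → ∃ x, x1 ≤ x ∧ x ≤ x2 ∧
        K.act ((gates S u ++ [2 * (u + q)]).map γ) (K.c x) = K.c y := by
  have hN : 1 < K.N := by
    have h1 := hγq 0
    have h2 := γ_lt hγ (show (0 : ℤ) < 0 + 2 * (q : ℤ) by omega)
    omega
  intro S
  induction S with
  | nil =>
    intro _ _ y1 y2 hy1 hy2 b1 b2 b3 b4
    simp only [gates_nil, List.nil_append, List.map_cons, List.map_nil, act_cons, act_nil,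
      List.head?_nil, Option.getD_none] at *
    obtain ⟨c1, c2⟩ := K.ρ_mem _ _ h1 (by linarith)
    obtain ⟨c3, c4⟩ := K.ρ_mem _ _ (by linarith) h2
    have d1 : y1 = K.ρ (γ (2 * (u + q))) x1 :=
      K.eq_of_c_eq hN b1 b2 c1 c2 (by rw [← hy1, K.r_c _ _ h1 (by linarith)])
    have d2 : y2 = K.ρ (γ (2 * (u + q))) x2 :=
      K.eq_of_c_eq hN b3 b4 c3 c4 (by rw [← hy2, K.r_c _ _ (by linarith) h2])
    refine ⟨by rw [d1, d2]; exact K.ρ_le h1 h12 h2, fun y h3 h4 => ?_⟩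
    obtain ⟨x, f1, f2, f3⟩ := K.ρ_between (y := y) h1 h12 h2 (by rw [← d2]; exact h3)
      (by rw [← d1]; exact h4)
    exact ⟨x, f1, f2, by rw [K.r_c _ _ (by linarith) (by linarith), f3]⟩
  | cons s S ih =>
    intro hp hlt y1 y2 hy1 hy2 b1 b2 b3 b4
    obtain ⟨z1, r1, r2, r3, -⟩ := K.rest q hq hγ hγq u x1 h1 (by linarith) S hp.of_cons
      (fun x hx => hlt x (List.mem_cons_of_mem _ hx))
    obtain ⟨z2, r4, r5, r6, -⟩ := K.rest q hq hγ hγq u x2 (by linarith) h2 S hp.of_cons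
      (fun x hx => hlt x (List.mem_cons_of_mem _ hx))
    obtain ⟨i1, i2⟩ := ih hp.of_cons (fun x hx => hlt x (List.mem_cons_of_mem _ hx))
      z1 z2 r1 r4 r2 r3 r5 r6
    set n : ℕ := S.head?.getD q with hn
    have hsn : s < n := by
      cases S with
      | nil => exact hlt s (by simp)
      | cons a S =>
        have := (List.pairwise_cons.1 hp).1 a (by simp)
        simpa [hn] using this
    have hnq : n ≤ q := by
      cases S with
      | nil => simp [hn]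
      | cons a S =>
        have := hlt a (by simp)
        simp [hn]; omega
    have a1 : K.θ (γ (2 * (u + s) + 1) + 1) ≤ z2 := by
      refine le_trans (K.θ_le ?_) r5
      have := γ_lt hγ (show 2 * (u + (s : ℤ)) + 1 < 2 * (u + (n : ℤ)) by omega)
      omega
    have a2 : z1 ≤ K.θ (γ (2 * (u + s) + 1)) + K.T := by
      refine r3.trans ?_
      rw [K.θγ_add_T q hγq]
      refine K.θ_le ?_
      have := γ_lt hγ (show 2 * (u + (n : ℤ)) < 2 * (u + (s : ℤ)) + 1 + 2 * (q : ℤ) by omega)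
      omega
    obtain ⟨c1, c2⟩ := K.ρ_mem _ _ (by linarith) a2
    obtain ⟨c3, c4⟩ := K.ρ_mem _ _ a1 (by linarith)
    have g1 : K.θ (γ (2 * (u + s)) + 1) ≤ K.θ (γ (2 * (u + s) + 1)) := by
      refine K.θ_le ?_
      have := γ_lt hγ (show 2 * (u + (s : ℤ)) < 2 * (u + (s : ℤ)) + 1 by omega)
      omega
    have g2 : K.θ (γ (2 * (u + s) + 1) + 1) ≤ K.θ (γ (2 * (u + s))) + K.T := by
      rw [K.θγ_add_T q hγq]
      refine K.θ_le ?_
      have := γ_lt hγ (show 2 * (u + (s : ℤ)) + 1 < 2 * (u + (s : ℤ)) + 2 * (q : ℤ) by omega)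
      omega
    obtain ⟨m1, m2⟩ := K.ρ_mem (γ (2 * (u + s))) _ (by linarith) (le_trans c2 g2)
    obtain ⟨m3, m4⟩ := K.ρ_mem (γ (2 * (u + s))) _ (by linarith) (le_trans c4 g2)
    have hact : ∀ x z, K.act ((gates S u ++ [2 * (u + q)]).map γ) (K.c x) = K.c z →
        z2 ≤ z → z ≤ z1 →
        K.act ((gates (s :: S) u ++ [2 * (u + q)]).map γ) (K.c x) =
          K.c (K.ρ (γ (2 * (u + s))) (K.ρ (γ (2 * (u + s) + 1)) z)) := by
      intro x z hx hz1 hz2
      obtain ⟨n1, n2⟩ := K.ρ_mem (γ (2 * (u + s) + 1)) z (by linarith) (by linarith)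
      rw [gates_cons, List.cons_append, List.cons_append, List.map_cons, List.map_cons,
        act_cons, act_cons, hx, K.r_c _ _ (by linarith) (by linarith),
        K.r_c _ _ (by linarith) (by linarith)]
    simp only [List.head?_cons, Option.getD_some] at b1 b2 b3 b4
    have d1 : y1 = K.ρ (γ (2 * (u + s))) (K.ρ (γ (2 * (u + s) + 1)) z1) :=
      K.eq_of_c_eq hN b1 b2 m1 m2 (by rw [← hy1, hact x1 z1 r1 i1 le_rfl])
    have d2 : y2 = K.ρ (γ (2 * (u + s))) (K.ρ (γ (2 * (u + s) + 1)) z2) :=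
      K.eq_of_c_eq hN b3 b4 m3 m4 (by rw [← hy2, hact x2 z2 r4 le_rfl i1])
    have o1 : K.ρ (γ (2 * (u + s) + 1)) z1 ≤ K.ρ (γ (2 * (u + s) + 1)) z2 := K.ρ_le a1 i1 a2
    refine ⟨by rw [d1, d2]; exact K.ρ_le (by linarith) o1 (le_trans c4 g2), ?_⟩
    intro y hy3 hy4
    obtain ⟨v, f1, f2, f3⟩ := K.ρ_between (j := γ (2 * (u + s))) (y := y) (by linarith) o1
      (le_trans c4 g2) (by rw [← d2]; exact hy3) (by rw [← d1]; exact hy4)
    obtain ⟨z, f4, f5, f6⟩ := K.ρ_between (j := γ (2 * (u + s) + 1)) a1 i1 a2 f1 f2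
    obtain ⟨x, f7, f8, f9⟩ := i2 z f4 f5
    exact ⟨x, f7, f8, by rw [hact x z f9 f4 f5, f6, f3]⟩

include hq hγ hγq in
/-- **The combinatorial step**, the end `Ey` being given between the two cusps
`ω_u . a` (`a` in `α_{u'}`, `u ≤ u' ≤ u + q - 2`) and `ω_u R_u L_{u+1} . b` (`b` any point outside the
arc of `L_{u+1}`). -/
theorem window_chord (S : List ℕ) (hS : S.Pairwise (· < ·)) (hlt : ∀ s ∈ S, s < q) (h0 : 0 ∈ S)
    (hS2 : ∀ s ∈ S, s = 0 ∨ 2 ≤ s) (u : ℤ) (Ez : X)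
    (a b t0 tA tB : ℝ) (ha1 : K.θ (γ (2 * u + 1) + 1) ≤ a) (ha2 : a ≤ K.θ (γ (2 * (u + q) - 2)))
    (hb1 : K.θ (γ (2 * u + 2) + 1) ≤ b) (hb2 : b ≤ K.θ (γ (2 * u + 2)) + K.T)
    (hA : K.θ (γ (2 * u)) ≤ tA) (hA0 : tA ≤ t0) (h0B : t0 ≤ tB) (hB : tB ≤ K.θ (γ (2 * u) + 1))
    (hcA : K.c tA = K.act ((gates S u ++ [2 * (u + q)]).map γ) (K.c a))
    (hcB : K.c tB =
      K.act ((gates S u ++ [2 * (u + q)] ++ [2 * u + 1, 2 * u + 2]).map γ) (K.c b))
    (hun : ∀ w : List ℤ, Even w.length → ∀ t1 t2 t3 t4 : ℝ, t1 < t2 → t2 < t3 → t3 < t4 →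
      t4 < t1 + K.T → K.c t1 = K.c t0 → K.c t2 = K.act w Ez → K.c t3 = Ez →
      K.c t4 = K.act w (K.c t0) → False) :
    ∃ s ∈ S, ∃ t, K.Acusp γ (u + s) ≤ t ∧ t ≤ K.Bcusp γ (u + s) ∧ K.c t = Ez := by
  have hγqu : γ (2 * (u + q)) = γ (2 * u) + K.N := by
    rw [← hγq]; congr 1; ring
  obtain ⟨S', rfl⟩ : ∃ S', S = 0 :: S' := by
    cases S with
    | nil => simp at h0
    | cons a S =>
      rcases List.mem_cons.1 h0 with h | h
      · exact ⟨S, by rw [h]⟩
      · exact absurd ((List.pairwise_cons.1 hS).1 0 h) (by omega)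
  -- the point `b' = L_{u+1} . b` and `c' = R_u . b'`
  obtain ⟨b1, b2⟩ := K.ρ_mem _ _ hb1 hb2
  set b' := K.ρ (γ (2 * u + 2)) b with hb'
  have b3 : K.θ (γ (2 * u + 1) + 1) ≤ b' := by
    refine le_trans (K.θ_le ?_) b1
    have := γ_lt hγ (show 2 * u + 1 < 2 * u + 2 by omega); omega
  have b4 : b' ≤ K.θ (γ (2 * u + 1)) + K.T := by
    refine b2.trans ?_
    rw [K.θγ_add_T q hγq]
    exact K.θ_le (by
      have := γ_lt hγ (show 2 * u + 2 < 2 * u + 1 + 2 * (q : ℤ) by omega); omega)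
  obtain ⟨c1, c2⟩ := K.ρ_mem _ _ b3 b4
  set c' := K.ρ (γ (2 * u + 1)) b' with hc'
  have hcB' : K.c tB = K.act ((gates (0 :: S') u ++ [2 * (u + q)]).map γ) (K.c c') := by
    have g : ∀ l : List ℤ, K.act ((l ++ [2 * u + 1, 2 * u + 2]).map γ) (K.c b) =
        K.act (l.map γ) (K.c c') := fun l => by
      rw [List.map_append, act_append]
      simp only [List.map_cons, List.map_nil, act_cons, act_nil]
      rw [K.r_c _ _ hb1 hb2, K.r_c _ _ b3 b4]
    rw [hcB, g]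
  have e1 : K.θ (γ (2 * u) + 1) ≤ c' := by
    refine le_trans (K.θ_le ?_) c1
    have := γ_lt hγ (show 2 * u < 2 * u + 1 by omega); omega
  have e2 : a ≤ K.θ (γ (2 * u)) + K.T := by
    refine ha2.trans ?_
    rw [K.θγ_add_T q hγq]
    exact K.θ_le (γ_le hγ (by omega))
  have e4 : K.θ (γ (2 * (u + q)) + 1) ≤ c' + K.T := by
    have : K.θ (γ (2 * (u + q)) + 1) = K.θ (γ (2 * u) + 1) + K.T := by
      rw [hγqu, ← K.per]; congr 1; ring
    linarith
  have e5 : a + K.T ≤ K.θ (γ (2 * (u + q))) + K.T := by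
    rw [hγqu, K.per]; linarith
  obtain ⟨-, k2⟩ := K.rest_between q hq hγ hγq u (c' + K.T) (a + K.T) e4 (by linarith) e5
    (0 :: S') hS hlt tB tA (by rw [K.c_per, hcB']) (by rw [K.c_per, hcA])
    (by simpa using hA.trans (hA0.trans h0B)) (by simpa using hB) (by simpa using hA)
    (by simpa using (hA0.trans h0B).trans hB)
  obtain ⟨x, x1, x2, x3⟩ := k2 t0 hA0 h0B
  refine K.window q hq hγ hγq (0 :: S') hS hlt h0 hS2 u (K.c t0) Ez hun (x - K.T) b' b1 b2
    (by linarith) (by linarith) ?_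
  rw [← x3, ← K.c_per (x - K.T), sub_add_cancel]

end gates

end Circ

end Pool.Agent.RAY
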