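import Pool.Agent.RAY.Enum
import Pool.Agent.RAY.Window

/-!
# Interface between the topological core (T) and the assembly (S)
-/

namespace Pool.Agent.RAY

open Set Topology Filter unitInterval

/-- A path from `∞` to a point of `P` which avoids `P` before. -/
structure PathTo (P : Set (OnePoint ℂ)) (η : I → OnePoint ℂ) : Prop where
  continuous : Continuous η
  zero : η 0 = OnePoint.infty
  one : η 1 ∈ P
  avoid : ∀ t, t ≠ 1 → η t ∉ P

/-- What the topological core delivers: the circle at infinity `K e` of the universal cover of the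
sphere minus `P`, and the end `E e η` of a path `η` from `∞` to a point of `P`. -/
structure TopSys where
  X : Type
  K : ∀ {q : ℕ} {P : Set (OnePoint ℂ)}, Enum q P → Circ X
  E : ∀ {q : ℕ} {P : Set (OnePoint ℂ)}, Enum q P → (I → OnePoint ℂ) → X
  K_N : ∀ {q : ℕ} {P : Set (OnePoint ℂ)} (e : Enum q P), (K e).N = e.N
  K_T : ∀ {q : ℕ} {P : Set (OnePoint ℂ)} (e : Enum q P), 0 < (K e).T
  K_θ : ∀ {q : ℕ} {P : Set (OnePoint ℂ)} (e : Enum q P) (n : ℤ), (K e).θ n = (K e).T * e.θ n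
  /-- homotopy invariance -/
  htpy : ∀ {q : ℕ} {P : Set (OnePoint ℂ)} (e : Enum q P) (H : I × I → OnePoint ℂ), Continuous H →
    (∀ s, PathTo P fun t => H (s, t)) → E e (fun t => H (0, t)) = E e fun t => H (1, t)
  /-- the end of an explicit path -/
  itin : ∀ {q : ℕ} {P : Set (OnePoint ℂ)} (e : Enum q P) (D : Set (OnePoint ℂ)), P ⊆ D →
    ∀ (w : List ℤ) (η : I → OnePoint ℂ), Itin D q w η → ∀ n, η 1 = (pt (e.θ n) 0 : ℂ) →
    E e η = (K e).act (w.map e.γ) ((K e).c ((K e).θ n))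
  /-- rays with disjoint interiors -/
  disj : ∀ {q : ℕ} {P : Set (OnePoint ℂ)} (e : Enum q P) (y z : I → OnePoint ℂ), PathTo P y →
    PathTo P z → Function.Injective y → Function.Injective z → DisjointInteriors y z →
    ∀ w : List ℤ, Even w.length → ∀ t1 t2 t3 t4 : ℝ, t1 < t2 → t2 < t3 → t3 < t4 →
      t4 < t1 + (K e).T → (K e).c t1 = E e y → (K e).c t2 = (K e).act w (E e z) →
      (K e).c t3 = E e z → (K e).c t4 = (K e).act w (E e y) → False
  /-- a homeomorphism respects equality of ends -/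
  transEq : ∀ {q q' : ℕ} {P P' : Set (OnePoint ℂ)} (e : Enum q P) (e' : Enum q' P')
    (h : OnePoint ℂ ≃ₜ OnePoint ℂ), h OnePoint.infty = OnePoint.infty → h ⁻¹' P' = P →
    ∀ y z : I → OnePoint ℂ, PathTo P y → PathTo P z → E e y = E e z →
    E e' (fun t => h (y t)) = E e' fun t => h (z t)
  /-- a homeomorphism respects linking of ends -/
  transLk : ∀ {q q' : ℕ} {P P' : Set (OnePoint ℂ)} (e : Enum q P) (e' : Enum q' P')
    (h : OnePoint ℂ ≃ₜ OnePoint ℂ), h OnePoint.infty = OnePoint.infty → h ⁻¹' P' = P →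
    ∀ y : Fin 4 → I → OnePoint ℂ, (∀ i, PathTo P (y i)) → ∀ t : Fin 4 → ℝ,
      (∀ i, (K e).c (t i) = E e (y i)) → t 0 < t 1 → t 1 < t 2 → t 2 < t 3 → t 3 < t 0 + (K e).T →
      ∃ t' : Fin 4 → ℝ, (∀ i, (K e').c (t' i) = E e' fun s => h (y i s)) ∧
        ((t' 0 < t' 1 ∧ t' 1 < t' 2 ∧ t' 2 < t' 3 ∧ t' 3 < t' 0 + (K e').T) ∨
         (t' 0 < t' 3 ∧ t' 3 < t' 2 ∧ t' 2 < t' 1 ∧ t' 1 < t' 0 + (K e').T))
  /-- a path which from some time on stays in one slot -/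
  strip : ∀ {q : ℕ} {P : Set (OnePoint ℂ)} (e : Enum q P) (η : I → OnePoint ℂ), PathTo P η →
    ∀ (j : ℤ) (τ : I), (∀ s ≤ τ, η s ∈ sideU) →
    (∀ s ≥ τ, ∃ x y : ℝ, |q * x - j| < 1 / 2 - 1 / 16 ∧ η s = (pt x y : ℂ)) →
    ∃ t, (K e).θ (e.γ (2 * j)) ≤ t ∧ t ≤ (K e).θ (e.γ (2 * j + 1) + 1) ∧ (K e).c t = E e η

end Pool.Agent.RAY
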