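import Pool.Agent.RAY.Rho
import Pool.Agent.RAY.TopSys

/-!
# The circle at infinity as an instance of `Circ` (MP_5d2250_gt)

`pref a b : Circle → Circle` is the projective action of the Lorentz reflection `lref a b`;
`Enum.circ e : Circ Circle` is the model of the enumeration `e`, with `T = 2 π`,
`θ n = 2 π e.θ n`, `c x = exp (i x)` and `r j = pref (θ j) (θ (j + 1))`.
-/

set_option autoImplicit false

namespace Pool.Agent.RAY

open Real Set

/-- the Lorentz form -/
noncomputable def lform (v : ℂ × ℝ) : ℝ := v.1.re ^ 2 + v.1.im ^ 2 - v.2 ^ 2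

variable {a b : ℝ}

theorem lref_smul (r : ℝ) (v : ℂ × ℝ) : lref a b (r * v.1, r * v.2) =
    (r * (lref a b v).1, r * (lref a b v).2) := by
  unfold lref
  ext1
  · simp only [Complex.re_ofReal_mul, Complex.im_ofReal_mul]
    push_cast
    ring
  · simp only [Complex.re_ofReal_mul, Complex.im_ofReal_mul]
    ring

theorem lform_lref (hab : a < b) (hb : b < a + 2 * π) (v : ℂ × ℝ) :
    lform (lref a b v) = lform v := by
  have hS := sin_half_pos hab hb
  have h3 : sin ((b - a) / 2) ^ 2 + cos ((b - a) / 2) ^ 2 = 1 := sin_sq_add_cos_sq _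
  have h4 : sin ((a + b) / 2) ^ 2 + cos ((a + b) / 2) ^ 2 = 1 := sin_sq_add_cos_sq _
  have e1 : (lref a b v).1.re = v.1.re - 2 * (v.1.re * cos ((a + b) / 2) +
      v.1.im * sin ((a + b) / 2) - v.2 * cos ((b - a) / 2)) / sin ((b - a) / 2) ^ 2 *
      cos ((a + b) / 2) := by
    unfold lref
    simp only
    rw [Complex.sub_re, Complex.re_ofReal_mul, Complex.exp_ofReal_mul_I_re]
  have e2 : (lref a b v).1.im = v.1.im - 2 * (v.1.re * cos ((a + b) / 2) +
      v.1.im * sin ((a + b) / 2) - v.2 * cos ((b - a) / 2)) / sin ((b - a) / 2) ^ 2 *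
      sin ((a + b) / 2) := by
    unfold lref
    simp only
    rw [Complex.sub_im, Complex.im_ofReal_mul, Complex.exp_ofReal_mul_I_im]
  have e3 : (lref a b v).2 = v.2 - 2 * (v.1.re * cos ((a + b) / 2) +
      v.1.im * sin ((a + b) / 2) - v.2 * cos ((b - a) / 2)) / sin ((b - a) / 2) ^ 2 *
      cos ((b - a) / 2) := rfl
  unfold lform
  rw [e1, e2, e3]
  set S := sin ((b - a) / 2)
  set C := cos ((b - a) / 2)
  set s := sin ((a + b) / 2)
  set c := cos ((a + b) / 2)
  have h5 : c ^ 2 + s ^ 2 - C ^ 2 = S ^ 2 := by linarith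
  set w := v.1.re * c + v.1.im * s - v.2 * C with hw
  have hS2 : S ^ 2 ≠ 0 := by positivity
  set k := 2 * w / S ^ 2 with hk
  have hk2 : k * S ^ 2 = 2 * w := by rw [hk]; field_simp
  have : (v.1.re - k * c) ^ 2 + (v.1.im - k * s) ^ 2 - (v.2 - k * C) ^ 2 =
      v.1.re ^ 2 + v.1.im ^ 2 - v.2 ^ 2 - 2 * k * w + k ^ 2 * (c ^ 2 + s ^ 2 - C ^ 2) := by
    rw [hw]; ring
  rw [this, h5]
  linear_combination k * hk2

theorem lref_snd_pos (hab : a < b) (hb : b < a + 2 * π) (p : Circle) :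
    0 < (lref a b (p, 1)).2 := by
  have hS := sin_half_pos hab hb
  have h3 : sin ((b - a) / 2) ^ 2 + cos ((b - a) / 2) ^ 2 = 1 := sin_sq_add_cos_sq _
  have h4 : sin ((a + b) / 2) ^ 2 + cos ((a + b) / 2) ^ 2 = 1 := sin_sq_add_cos_sq _
  have hp : (p : ℂ).re ^ 2 + (p : ℂ).im ^ 2 = 1 := by
    have h := Circle.normSq_coe p
    rw [Complex.normSq_apply] at h
    linarith
  have e3 : (lref a b (p, 1)).2 = 1 - 2 * ((p : ℂ).re * cos ((a + b) / 2) +
      (p : ℂ).im * sin ((a + b) / 2) - 1 * cos ((b - a) / 2)) / sin ((b - a) / 2) ^ 2 *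
      cos ((b - a) / 2) := rfl
  rw [e3]
  set S := sin ((b - a) / 2)
  set C := cos ((b - a) / 2)
  set s := sin ((a + b) / 2)
  set c := cos ((a + b) / 2)
  set x := (p : ℂ).re
  set y := (p : ℂ).im
  have hw : (x * c + y * s) ^ 2 ≤ 1 := by nlinarith [sq_nonneg (x * s - y * c)]
  have hw' := abs_le.1 ((sq_le_one_iff_abs_le_one _).1 hw)
  have hC : C ^ 2 < 1 := by nlinarith [pow_pos hS 2]
  have hC' := abs_lt.1 ((sq_lt_one_iff_abs_lt_one _).1 hC)
  have e4 : 1 - 2 * (x * c + y * s - 1 * C) / S ^ 2 * C =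
      (S ^ 2 - 2 * (x * c + y * s - 1 * C) * C) / S ^ 2 := by
    field_simp
  rw [e4]
  apply div_pos _ (by positivity)
  have h6 : S ^ 2 = 1 - C ^ 2 := by linarith
  rw [h6]
  rcases le_or_gt 0 C with h | h
  · nlinarith [mul_nonneg h (sub_nonneg.2 hw'.2), pow_pos (sub_pos.2 hC'.2) 2]
  · have h8 : 0 < 1 + C := by linarith [hC'.1]
    nlinarith [mul_nonneg (neg_nonneg.2 h.le)
      (by linarith [hw'.1] : 0 ≤ 1 + (x * c + y * s)), pow_pos h8 2]

/-- the projective action of the reflection on the circle -/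
noncomputable def pref (a b : ℝ) (hab : a < b) (hb : b < a + 2 * π) (p : Circle) : Circle :=
  ⟨(lref a b (p, 1)).1 / (lref a b (p, 1)).2, by
    have h1 := lref_snd_pos hab hb p
    have h2 := lform_lref hab hb (p, 1)
    have hp : (p : ℂ).re ^ 2 + (p : ℂ).im ^ 2 = 1 := by
      have h := Circle.normSq_coe p
      rw [Complex.normSq_apply] at h
      linarith
    unfold lform at h2
    simp only at h2
    rw [hp] at h2
    refine mem_sphere_zero_iff_norm.2 ?_
    rw [norm_div, Complex.norm_real, Real.norm_of_nonneg h1.le, div_eq_one_iff_eq h1.ne']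
    have h3 : ‖(lref a b (p, 1)).1‖ ^ 2 = (lref a b (p, 1)).2 ^ 2 := by
      rw [← Complex.normSq_eq_norm_sq, Complex.normSq_apply]
      linarith
    exact (pow_left_inj₀ (norm_nonneg _) h1.le two_ne_zero).1 h3⟩

theorem pref_coe (hab : a < b) (hb : b < a + 2 * π) (p : Circle) :
    (pref a b hab hb p : ℂ) = (lref a b (p, 1)).1 / (lref a b (p, 1)).2 := rfl

/-- `pref` and multiples -/
theorem lref_eq_pref (hab : a < b) (hb : b < a + 2 * π) (p : Circle) :
    lref a b (p, 1) = ((lref a b (p, 1)).2 * (pref a b hab hb p : ℂ), (lref a b (p, 1)).2 * 1) := by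
  have h1 := lref_snd_pos hab hb p
  have h2 : ((lref a b (p, 1)).2 : ℂ) ≠ 0 := by exact_mod_cast h1.ne'
  ext1
  · simp only
    rw [pref_coe]
    field_simp
  · simp

theorem pref_pref (hab : a < b) (hb : b < a + 2 * π) (p : Circle) :
    pref a b hab hb (pref a b hab hb p) = p := by
  have h1 := lref_snd_pos hab hb p
  have h3 := lref_eq_pref hab hb p
  have h4 : ((lref a b (p, 1)).2 * (lref a b (pref a b hab hb p, 1)).1,
      (lref a b (p, 1)).2 * (lref a b (pref a b hab hb p, 1)).2) = ((p : ℂ), (1 : ℝ)) :=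
    ((lref_smul _ _).symm.trans (congrArg (lref a b) h3).symm).trans (lref_lref hab hb _)
  have h5 := congrArg Prod.fst h4
  have h6 := congrArg Prod.snd h4
  simp only at h5 h6
  apply Circle.ext
  rw [pref_coe]
  have h7 := lref_snd_pos hab hb (pref a b hab hb p)
  have h8 : ((lref a b (pref a b hab hb p, 1)).2 : ℂ) ≠ 0 := by exact_mod_cast h7.ne'
  rw [div_eq_iff h8]
  have h9 : ((lref a b (p, 1)).2 : ℂ) * ((lref a b (pref a b hab hb p, 1)).2 : ℂ) = 1 := by
    exact_mod_cast h6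
  have h10 : ((lref a b (p, 1)).2 : ℂ) ≠ 0 := by exact_mod_cast h1.ne'
  apply mul_left_cancel₀ h10
  rw [h5]
  linear_combination (-(p : ℂ)) * h9

theorem pref_exp (hab : a < b) (hb : b < a + 2 * π) {x : ℝ} (hx : b ≤ x)
    (hx' : x ≤ a + 2 * π) : pref a b hab hb (Circle.exp x) = Circle.exp (rho a b x) := by
  apply Circle.ext
  rw [pref_coe, Circle.coe_exp, lref_circle hab hb hx hx', Circle.coe_exp]
  have h0 := (rho_trig hab hb hx hx').1
  have h1 : (lam a b x : ℂ) ≠ 0 := by exact_mod_cast h0.ne'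
  field_simp

theorem lref_period (a b : ℝ) (v : ℂ × ℝ) : lref (a + 2 * π) (b + 2 * π) v = lref a b v := by
  have e1 : (a + 2 * π + (b + 2 * π)) / 2 = (a + b) / 2 + 2 * π := by ring
  have e2 : (b + 2 * π - (a + 2 * π)) / 2 = (b - a) / 2 := by ring
  unfold lref
  rw [e1, e2, cos_add_two_pi, sin_add_two_pi]
  have e3 : Complex.exp ((((a + b) / 2 + 2 * π : ℝ) : ℂ) * Complex.I) =
      Complex.exp (((a + b) / 2 : ℝ) * Complex.I) := by
    rw [Complex.exp_eq_exp_iff_exists_int]
    exact ⟨1, by push_cast; ring⟩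
  rw [e3]

namespace Enum

variable {q : ℕ} {P : Set (OnePoint ℂ)} (e : Enum q P)

theorem angle_lt (n : ℤ) : 2 * π * e.θ n < 2 * π * e.θ (n + 1) :=
  mul_lt_mul_of_pos_left (e.mono (by omega)) (by positivity)

theorem angle_gap (n : ℤ) : 2 * π * e.θ (n + 1) < 2 * π * e.θ n + 2 * π := by
  have := e.gap n
  nlinarith [pi_pos]

/-- The circle at infinity. -/
noncomputable def circ : Circ Circle where
  θ n := 2 * π * e.θ n
  N := e.N
  T := 2 * π
  c x := Circle.exp x
  r n := pref (2 * π * e.θ n) (2 * π * e.θ (n + 1)) (e.angle_lt n) (e.angle_gap n)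
  ρ n := rho (2 * π * e.θ n) (2 * π * e.θ (n + 1))
  mono := fun i j h => mul_lt_mul_of_pos_left (e.mono h) (by positivity)
  per j := by rw [e.per]; ring
  c_per x := by simp
  c_surj p a := by
    refine ⟨toIcoMod two_pi_pos a (Complex.arg p), left_le_toIcoMod _ _ _,
      toIcoMod_lt_right _ _ _, ?_⟩
    conv_rhs => rw [← Circle.exp_arg p]
    rw [Circle.exp_eq_exp]
    obtain ⟨m, hm⟩ : ∃ m : ℤ, toIcoMod two_pi_pos a (Complex.arg p) =
        Complex.arg p + m * (2 * π) := by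
      refine ⟨-toIcoDiv two_pi_pos a (Complex.arg p), ?_⟩
      have := toIcoMod_add_toIcoDiv_zsmul two_pi_pos a (Complex.arg p)
      rw [zsmul_eq_mul] at this
      push_cast
      linarith
    exact ⟨m, hm⟩
  c_inj x y h hxy hyx := by
    obtain ⟨m, hm⟩ := Circle.exp_eq_exp.1 h
    have h1 : (-1 : ℝ) < m := by nlinarith [pi_pos]
    have h2 : (m : ℝ) ≤ 0 := by
      by_contra h3
      push Not at h3
      nlinarith [pi_pos]
    have h3 : (-1 : ℤ) < m := by exact_mod_cast h1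
    have h4 : m ≤ 0 := by exact_mod_cast h2
    have h5 : m = 0 := by omega
    rw [hm, h5]
    simp
  r_r j p := pref_pref _ _ p
  r_per j p := by
    apply Circle.ext
    rw [pref_coe, pref_coe]
    have e1 : 2 * π * e.θ (j + e.N) = 2 * π * e.θ j + 2 * π := by rw [e.per]; ring
    have e2 : 2 * π * e.θ (j + e.N + 1) = 2 * π * e.θ (j + 1) + 2 * π := by
      have : j + (e.N : ℤ) + 1 = (j + 1) + e.N := by ring
      rw [this, e.per]; ring
    rw [e1, e2, lref_period]
  r_c j x h1 h2 := pref_exp _ _ h1 h2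
  ρ_mem j x h1 h2 := rho_mem (e.angle_lt j) (e.angle_gap j) h1 h2
  ρ_anti j x y h1 h2 h3 := rho_anti (e.angle_lt j) (e.angle_gap j) h1 h2 h3
  ρ_surj j y h1 h2 := rho_surj (e.angle_lt j) (e.angle_gap j) h1 h2

end Enum

end Pool.Agent.RAY
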