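import Pool.Agent.RAY.DynTower
import Pool.Agent.RAY.DynOrbit
import Pool.Agent.RAY.DynArm
import Pool.Agent.RAY.Final
import Pool.Agent.RAYT.Top
import Pool.Agent.RAYH.Main

/-!
# RAY: parabolic mapping classes exist (MP_5d2250_gt)
-/

set_option autoImplicit false

namespace Pool.Agent.RAY

/-- The tower. -/
theorem exists_tower : Nonempty Tower := by
  obtain ⟨S⟩ := exists_sys fun L w h0 h1 => exists_step L w h0 h1
  exact ⟨S.tower armPath S.X_succ S.X_orbit⟩

/-- There are a Cantor set in the plane and an orientation preserving homeomorphism of the plane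
preserving it which acts parabolically on the ray graph. -/
theorem exists_parabolic : ∃ (C : Set ℂ) (f : ℂ ≃ₜ ℂ) (hf : f '' C = C),
    IsCantor C ∧ OrientationPreserving f ∧ ActsParabolically f hf := by
  obtain ⟨T⟩ := exists_tower
  exact ⟨T.C, T.f, T.map_C, T.cantor, T.orient, parabolic_of_topSys RAYT.topSys T⟩

end Pool.Agent.RAY
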