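import Pool.Agent.RAY.Defs

/-!
# A criterion for Cantor sets

A compact subset of the plane which is covered, at every scale, by finitely many disjoint closed
boxes, each containing two of its points, is a Cantor set.
-/

set_option autoImplicit false

open Topology Filter Set

namespace Pool.Agent.RAY

theorem isTotallyDisconnected_of_boxes {C : Set ℂ}
    (h : ∀ ε : ℝ, 0 < ε → ∃ (ι : Type) (_ : Finite ι) (B : ι → Set ℂ),
      (∀ i, IsClosed (B i)) ∧ (∀ i j, i ≠ j → Disjoint (B i ∩ C) (B j ∩ C)) ∧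
      C ⊆ (⋃ i, B i) ∧ ∀ i, ∀ x ∈ B i, ∀ y ∈ B i, dist x y < ε) :
    IsTotallyDisconnected C := by
  intro S hSC hS x hx y hy
  by_contra hne
  obtain ⟨ι, hfin, B, hcl, hdis, hcov, hdiam⟩ := h (dist x y) (dist_pos.2 hne)
  obtain ⟨i, hi⟩ := mem_iUnion.1 (hcov (hSC hx))
  -- the box of `x` and the union of the other boxes
  let B' : Set ℂ := ⋃ j ∈ {j | j ≠ i}, B j
  have hB' : IsClosed B' := by
    have : Finite ι := hfin
    exact (Set.toFinite {j | j ≠ i}).isClosed_biUnion fun j _ => hcl j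
  have hy' : y ∈ B' := by
    obtain ⟨j, hj⟩ := mem_iUnion.1 (hcov (hSC hy))
    refine mem_biUnion (x := j) ?_ hj
    rintro rfl
    exact lt_irrefl _ (hdiam j x hi y hj)
  have hcov' : S ⊆ B i ∪ B' := by
    intro z hz
    obtain ⟨j, hj⟩ := mem_iUnion.1 (hcov (hSC hz))
    by_cases hji : j = i
    · exact Or.inl (hji ▸ hj)
    · exact Or.inr (mem_biUnion (x := j) hji hj)
  obtain ⟨z, hzS, hz1, hz2⟩ := isPreconnected_closed_iff.1 hS (B i) B' (hcl i) hB' hcov'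
    ⟨x, hx, hi⟩ ⟨y, hy, hy'⟩
  obtain ⟨j, hj, hzj⟩ := mem_iUnion₂.1 hz2
  exact (disjoint_left.1 (hdis i j (Ne.symm hj))) ⟨hz1, hSC hzS⟩ ⟨hzj, hSC hzS⟩

/-- The criterion. -/
theorem isCantor_of_boxes {C : Set ℂ} (hC : IsCompact C) (hne : C.Nonempty)
    (h : ∀ ε : ℝ, 0 < ε → ∃ (ι : Type) (_ : Finite ι) (B : ι → Set ℂ),
      (∀ i, IsClosed (B i)) ∧ (∀ i j, i ≠ j → Disjoint (B i ∩ C) (B j ∩ C)) ∧
      C ⊆ (⋃ i, B i) ∧ (∀ i, ∀ x ∈ B i, ∀ y ∈ B i, dist x y < ε) ∧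
      ∀ i, ∀ x ∈ B i ∩ C, ∃ y ∈ B i ∩ C, y ≠ x) :
    IsCantor C where
  isCompact := hC
  nonempty := hne
  preperfect := by
    intro x hx
    rw [accPt_iff_nhds]
    intro U hU
    obtain ⟨ε, hε, hball⟩ := Metric.mem_nhds_iff.1 hU
    obtain ⟨ι, _, B, -, -, hcov, hdiam, htwo⟩ := h ε hε
    obtain ⟨i, hi⟩ := mem_iUnion.1 (hcov hx)
    obtain ⟨y, ⟨hyi, hyC⟩, hyx⟩ := htwo i x ⟨hi, hx⟩
    exact ⟨y, ⟨hball (Metric.mem_ball.2 (hdiam i y hyi x hi)), hyC⟩, hyx⟩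
  totDisc := isTotallyDisconnected_of_boxes fun ε hε => by
    obtain ⟨ι, hfin, B, h1, h2, h3, h4, -⟩ := h ε hε
    exact ⟨ι, hfin, B, h1, h2, h3, h4⟩

end Pool.Agent.RAY
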