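import Pool.Agent.RAY.CantorLem
import Pool.Agent.RAY.HH

/-!
# The Cantor set of a tower of pictures
-/

set_option autoImplicit false

open Topology Filter Set

namespace Pool.Agent.RAY

/-- The ring segment of the box `j` (half slots). -/
def seg (q : ℤ) (j : ℤ) : Set Pl := {z | |q * z.1 - j / 2| ≤ 1 / 16 ∧ z.2 = 0}

theorem seg_nonempty {q : ℤ} (hq : 0 < q) (j : ℤ) : (seg q j).Nonempty := by
  have hq' : (q : ℝ) ≠ 0 := by exact_mod_cast hq.ne'
  refine ⟨((j / 2 : ℝ) / q, 0), ?_, rfl⟩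
  have : (q : ℝ) * ((j / 2 : ℝ) / q) = j / 2 := by field_simp
  simp only [this, sub_self, abs_zero]
  norm_num

theorem isCompact_seg {q : ℤ} (hq : 0 < q) (j : ℤ) : IsCompact (seg q j) := by
  have hq' : (0 : ℝ) < q := by exact_mod_cast hq
  have hsub : seg q j ⊆ Icc (((j / 2 : ℝ) - 1 / 16) / q) (((j / 2 : ℝ) + 1 / 16) / q) ×ˢ
      Icc (0 : ℝ) 0 := by
    rintro z ⟨h1, h2⟩
    rw [abs_le] at h1
    refine ⟨⟨?_, ?_⟩, by rw [h2], by rw [h2]⟩
    · rw [div_le_iff₀ hq']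
      linarith
    · rw [le_div_iff₀ hq']
      linarith
  refine (isCompact_Icc.prod isCompact_Icc).of_isClosed_subset ?_ hsub
  have hc1 : Continuous fun z : Pl => |(q : ℝ) * z.1 - j / 2| := by fun_prop
  have h1 := isClosed_le hc1 (continuous_const (y := (1 / 16 : ℝ)))
  have h2 := isClosed_eq (continuous_snd (X := ℝ) (Y := ℝ)) (continuous_const (y := (0 : ℝ)))
  exact h1.inter h2

theorem seg_turn {q : ℤ} {j : ℤ} {z : Pl} (n : ℤ) (hz : z ∈ seg q j) :
    (z.1 + n, z.2) ∈ seg q (j + 2 * (q * n)) := by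
  obtain ⟨h1, h2⟩ := hz
  refine ⟨?_, h2⟩
  have : (q : ℝ) * (z.1 + n) - ((j + 2 * (q * n) : ℤ) : ℝ) / 2 = q * z.1 - j / 2 := by
    push_cast
    ring
  simpa only [this] using h1

theorem seg_eq {q : ℤ} {i j : ℤ} {z : Pl} (hi : z ∈ seg q i) (hj : z ∈ seg q j) : i = j := by
  have h1 := abs_le.1 hi.1
  have h2 := abs_le.1 hj.1
  have h3 : |((i : ℝ) - j)| < 1 := by
    rw [abs_lt]
    constructor <;> linarith
  have h4 : |i - j| < 1 := by exact_mod_cast h3
  have := Int.abs_lt_one_iff.1 h4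
  omega

/-- The part of the plane over the box `j`. -/
def bxc (q : ℤ) (G : HH) (j : ℤ) : Set ℂ := ex '' (G '' seg q j)

theorem isCompact_bxc {q : ℤ} (hq : 0 < q) (G : HH) (j : ℤ) : IsCompact (bxc q G j) :=
  ((isCompact_seg hq j).image G.continuous).image continuous_ex

/-- Two boxes which are not translates of each other are disjoint. -/
theorem disjoint_bxc {q : ℤ} (G : HH) {i j : ℤ} (h : ∀ n : ℤ, i ≠ j + 2 * (q * n)) :
    Disjoint (bxc q G i) (bxc q G j) := by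
  rw [disjoint_left]
  rintro _ ⟨_, ⟨z, hz, rfl⟩, rfl⟩ ⟨_, ⟨w, hw, rfl⟩, hwz⟩
  obtain ⟨n, hn⟩ := ex_eq_iff.1 hwz.symm
  have h1 := G.turn_int w n
  rw [← h1] at hn
  have h2 := G.injective hn
  subst h2
  exact h n (seg_eq hz (seg_turn n hw))

/-- The exponential map is Lipschitz below every height. -/
theorem dist_ex_le {Y : ℝ} {z w : Pl} (hz : z.2 ≤ Y) (hw : w.2 ≤ Y) :
    dist (ex z) (ex w) ≤ Real.exp (2 * Real.pi * Y) * (4 * Real.pi * dist z w) := by
  have hconv : Convex ℝ {a : ℂ | a.re ≤ 2 * Real.pi * Y} := convex_halfSpace_re_le _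
  have hre : ∀ v : Pl, v.2 ≤ Y →
      (2 * Real.pi * (v.2 + v.1 * Complex.I) : ℂ) ∈ {a : ℂ | a.re ≤ 2 * Real.pi * Y} := by
    intro v hv
    have : (2 * Real.pi * (v.2 + v.1 * Complex.I) : ℂ).re = 2 * Real.pi * v.2 := by simp
    simp only [mem_ofPred_eq, this]
    have := Real.pi_pos
    nlinarith
  have h1 := hconv.norm_image_sub_le_of_norm_deriv_le (f := Complex.exp)
    (C := Real.exp (2 * Real.pi * Y)) (fun x _ => Complex.differentiable_exp.differentiableAt)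
    (fun x hx => by
      rw [Complex.deriv_exp, Complex.norm_exp]
      exact Real.exp_le_exp.2 hx) (hre w hw) (hre z hz)
  rw [dist_eq_norm]
  unfold ex
  refine h1.trans (mul_le_mul_of_nonneg_left ?_ (Real.exp_pos _).le)
  have h2 : (2 * Real.pi * (z.2 + z.1 * Complex.I) - 2 * Real.pi * (w.2 + w.1 * Complex.I) : ℂ) =
      2 * Real.pi * (((z.2 - w.2 : ℝ) : ℂ) + ((z.1 - w.1 : ℝ) : ℂ) * Complex.I) := by
    push_cast
    ring
  rw [h2, norm_mul]
  have h3 : ‖(2 * Real.pi : ℂ)‖ = 2 * Real.pi := by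
    rw [norm_mul, Complex.norm_real, Real.norm_eq_abs, abs_of_pos Real.pi_pos]
    simp
  have h4 : |z.1 - w.1| ≤ dist z w := by
    rw [Prod.dist_eq, ← Real.dist_eq]
    exact le_max_left _ _
  have h5 : |z.2 - w.2| ≤ dist z w := by
    rw [Prod.dist_eq, ← Real.dist_eq]
    exact le_max_right _ _
  have h6 : ‖((z.2 - w.2 : ℝ) : ℂ) + ((z.1 - w.1 : ℝ) : ℂ) * Complex.I‖ ≤ 2 * dist z w := by
    refine (norm_add_le _ _).trans ?_
    rw [norm_mul, Complex.norm_real, Complex.norm_real, Complex.norm_I, mul_one,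
      Real.norm_eq_abs, Real.norm_eq_abs]
    linarith
  rw [h3]
  have := Real.pi_pos
  nlinarith

/-- The Cantor set upstairs. -/
def Cv (q : ℕ → ℤ) (G : ℕ → HH) : Set Pl := {z | ∀ m, ((G m)⁻¹ : HH) z ∈ ⋃ j, seg (q m) j}

section tower

variable {q : ℕ → ℤ} (hq : ∀ m, 0 < q m) {G : ℕ → HH} {par : ℕ → ℤ → ℤ}
  (hpar : ∀ m j, G (m + 1) '' seg (q (m + 1)) j ⊆ G m '' seg (q m) (par m j))

include hpar in
theorem mem_Cv_of_chain {m₀ : ℕ} {z : Pl}
    (h : ∀ m ≥ m₀, ∃ j, z ∈ G m '' seg (q m) j) : z ∈ Cv q G := by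
  have h' : ∀ d m, m + d = m₀ → ∃ j, z ∈ G m '' seg (q m) j := by
    intro d
    induction d with
    | zero => intro m hm; exact h m (by omega)
    | succ d ih =>
      intro m hm
      obtain ⟨j, hj⟩ := ih (m + 1) (by omega)
      exact ⟨_, hpar m j hj⟩
  intro m
  have : ∃ j, z ∈ G m '' seg (q m) j := by
    rcases le_or_gt m₀ m with hm | hm
    · exact h m hm
    · exact h' (m₀ - m) m (by omega)
  obtain ⟨j, w, hw, rfl⟩ := this
  rw [HH.inv_apply_self]
  exact mem_iUnion.2 ⟨j, hw⟩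

include hq hpar in
/-- Every box contains a point of the Cantor set. -/
theorem exists_mem_Cv (hsurj : ∀ m j, ∃ i, par m i = j) (m : ℕ) (j : ℤ) :
    ∃ z ∈ Cv q G, z ∈ G m '' seg (q m) j := by
  choose c hc using hsurj
  -- the indices from level `m` on
  let J : ℕ → ℤ := fun n => Nat.rec j (fun n i => c (m + n) i) n
  have hJ0 : J 0 = j := rfl
  have hJ : ∀ n, par (m + n) (J (n + 1)) = J n := fun n => hc (m + n) (J n)
  let K : ℕ → Set Pl := fun n => G (m + n) '' seg (q (m + n)) (J n)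
  have hKc : ∀ n, IsCompact (K n) := fun n => (isCompact_seg (hq _) _).image (G _).continuous
  have hne := IsCompact.nonempty_iInter_of_sequence_nonempty_isCompact_isClosed K
    (fun n => by
      have := hpar (m + n) (J (n + 1))
      rw [hJ n] at this
      exact this)
    (fun n => (seg_nonempty (hq _) _).image _) (hKc 0) (fun n => (hKc n).isClosed)
  obtain ⟨z, hz⟩ := hne
  rw [mem_iInter] at hz
  refine ⟨z, mem_Cv_of_chain hpar (m₀ := m) fun n hn => ⟨J (n - m), ?_⟩, ?_⟩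
  · have := hz (n - m)
    simp only [K] at this
    rwa [Nat.add_sub_cancel' hn] at this
  · exact hz 0

include hq hpar in
/-- Every box contains arbitrarily many points of the Cantor set. -/
theorem exists_finset_Cv
    (htwo : ∀ m j, ∃ i i', par m i = j ∧ par m i' = j ∧ ∀ n : ℤ, i ≠ i' + 2 * (q (m + 1) * n))
    (n : ℕ) (m : ℕ) (j : ℤ) :
    ∃ t : Finset ℂ, t.card = n ∧ (t : Set ℂ) ⊆ ex '' (Cv q G ∩ G m '' seg (q m) j) := by
  classical
  have hsurj : ∀ m j, ∃ i, par m i = j := fun m j => by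
    obtain ⟨i, _, h, _⟩ := htwo m j
    exact ⟨i, h⟩
  induction n generalizing m j with
  | zero => exact ⟨∅, rfl, by simp⟩
  | succ n ih =>
    obtain ⟨i, i', hi, hi', hne⟩ := htwo m j
    obtain ⟨t, ht, hts⟩ := ih (m + 1) i
    obtain ⟨z, hz, hz'⟩ := exists_mem_Cv hq hpar hsurj (m + 1) i'
    have hsub : ∀ i₁, par m i₁ = j →
        ex '' (Cv q G ∩ G (m + 1) '' seg (q (m + 1)) i₁) ⊆ ex '' (Cv q G ∩ G m '' seg (q m) j) := by
      intro i₁ h₁
      refine image_mono (inter_subset_inter_right _ ?_)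
      have := hpar m i₁
      rwa [h₁] at this
    have hnot : ex z ∉ t := by
      intro hmem
      obtain ⟨w, ⟨_, hw⟩, hwz⟩ := hts hmem
      exact (disjoint_left.1 (disjoint_bxc (G (m + 1)) hne)) ⟨w, hw, hwz⟩ ⟨z, hz', rfl⟩
    refine ⟨insert (ex z) t, by rw [Finset.card_insert_of_notMem hnot, ht], ?_⟩
    rw [Finset.coe_insert]
    exact insert_subset (hsub i' hi' ⟨z, ⟨hz, hz'⟩, rfl⟩) (hts.trans (hsub i hi))

include hq hpar in
theorem infinite_Cv
    (htwo : ∀ m j, ∃ i i', par m i = j ∧ par m i' = j ∧ ∀ n : ℤ, i ≠ i' + 2 * (q (m + 1) * n))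
    (m : ℕ) (j : ℤ) : (ex '' (Cv q G ∩ G m '' seg (q m) j)).Infinite := by
  intro hfin
  obtain ⟨t, ht, hts⟩ := exists_finset_Cv hq hpar htwo (hfin.toFinset.card + 1) m j
  have : t ⊆ hfin.toFinset := fun x hx => hfin.mem_toFinset.2 (hts hx)
  have := Finset.card_le_card this
  omega

theorem isClosed_Cv : IsClosed (Cv q G) := by
  have : Cv q G = ⋂ m, (fun z => ((G m)⁻¹ : HH) z) ⁻¹' (⋃ j, seg (q m) j) := by
    ext z
    simp [Cv]
  rw [this]
  refine isClosed_iInter fun m => IsClosed.preimage ((G m)⁻¹ : HH).continuous ?_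
  -- locally finite union of closed sets
  refine LocallyFinite.isClosed_iUnion ?_ fun j => ?_
  · intro z
    refine ⟨{w | |w.1 - z.1| < 1 / (16 * (|(q m : ℝ)| + 1))}, ?_, ?_⟩
    · have hc : Continuous fun w : Pl => |w.1 - z.1| := by fun_prop
      refine (isOpen_lt hc continuous_const).mem_nhds ?_
      simp only [mem_ofPred_eq, sub_self, abs_zero]
      positivity
    · refine Set.Finite.subset (Set.finite_Icc (⌊2 * (q m * z.1) - 2⌋) ⌈2 * (q m * z.1) + 2⌉) ?_
      rintro j ⟨w, ⟨hw1, -⟩, hw2⟩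
      simp only [mem_ofPred_eq] at hw2
      have h1 : |(q m : ℝ) * w.1 - q m * z.1| ≤ 1 / 16 := by
        rw [← mul_sub, abs_mul]
        have h2 : (0 : ℝ) ≤ |(q m : ℝ)| := abs_nonneg _
        calc |(q m : ℝ)| * |w.1 - z.1| ≤ |(q m : ℝ)| * (1 / (16 * (|(q m : ℝ)| + 1))) :=
              mul_le_mul_of_nonneg_left hw2.le h2
          _ ≤ 1 / 16 := by
              rw [mul_one_div, div_le_div_iff₀ (by positivity) (by norm_num)]
              linarith
      rw [abs_le] at h1 hw1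
      refine ⟨?_, ?_⟩
      · rw [Int.floor_le_iff]
        linarith
      · rw [Int.le_ceil_iff]
        linarith
  · have hc1 : Continuous fun z : Pl => |(q m : ℝ) * z.1 - j / 2| := by fun_prop
    have h1 := isClosed_le hc1 (continuous_const (y := (1 / 16 : ℝ)))
    have h2 := isClosed_eq (continuous_snd (X := ℝ) (Y := ℝ)) (continuous_const (y := (0 : ℝ)))
    exact h1.inter h2

theorem Cv_turn {z : Pl} (hz : z ∈ Cv q G) (n : ℤ) : (z.1 + n, z.2) ∈ Cv q G := by
  intro m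
  obtain ⟨j, hj⟩ := mem_iUnion.1 (hz m)
  rw [HH.turn_int]
  exact mem_iUnion.2 ⟨_, seg_turn n hj⟩

theorem exists_height : ∃ Y : ℝ, ∀ z : Pl, (∃ j, z ∈ G 0 '' seg (q 0) j) → |z.2| ≤ Y := by
  obtain ⟨B, _, hB⟩ := (G 0).exists_bound
  refine ⟨B, ?_⟩
  rintro _ ⟨j, w, hw, rfl⟩
  have := hB w
  rwa [hw.2, sub_zero] at this

include hq hpar in
/-- The Cantor set of the tower is a Cantor set. -/
theorem isCantor_tower
    (htwo : ∀ m j, ∃ i i', par m i = j ∧ par m i' = j ∧ ∀ n : ℤ, i ≠ i' + 2 * (q (m + 1) * n))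
    (a : ℕ → ℝ) (ha : Tendsto a atTop (𝓝 0))
    (hdiam : ∀ m j, ∀ z ∈ seg (q m) j, ∀ w ∈ seg (q m) j, dist (G m z) (G m w) ≤ a m) :
    IsCantor (ex '' Cv q G) := by
  have hsurj : ∀ m j, ∃ i, par m i = j := fun m j => by
    obtain ⟨i, _, h, _⟩ := htwo m j
    exact ⟨i, h⟩
  obtain ⟨Y, hY⟩ := exists_height (q := q) (G := G)
  have hanc : ∀ m j, ∃ i, G m '' seg (q m) j ⊆ G 0 '' seg (q 0) i := by
    intro m
    induction m with
    | zero => exact fun j => ⟨j, subset_rfl⟩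
    | succ m ih =>
      intro j
      obtain ⟨i, hi⟩ := ih (par m j)
      exact ⟨i, (hpar m j).trans hi⟩
  have hYm : ∀ m j, ∀ z ∈ seg (q m) j, (G m z).2 ≤ Y := by
    intro m j z hz
    obtain ⟨i, hi⟩ := hanc m j
    exact (abs_le.1 (hY _ ⟨i, hi ⟨z, hz, rfl⟩⟩)).2
  have hCY : ∀ z ∈ Cv q G, |z.2| ≤ Y := by
    intro z hz
    obtain ⟨j, hj⟩ := mem_iUnion.1 (hz 0)
    exact hY z ⟨j, _, hj, HH.apply_inv_self _ _⟩
  refine isCantor_of_boxes ?_ ?_ ?_
  · -- compactness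
    have hK : IsCompact (Cv q G ∩ (Icc (0 : ℝ) 1 ×ˢ Icc (-Y) Y)) :=
      (isCompact_Icc.prod isCompact_Icc).inter_left isClosed_Cv
    have : ex '' Cv q G = ex '' (Cv q G ∩ (Icc (0 : ℝ) 1 ×ˢ Icc (-Y) Y)) := by
      refine Subset.antisymm ?_ (image_mono inter_subset_left)
      rintro _ ⟨z, hz, rfl⟩
      refine ⟨(z.1 + (-⌊z.1⌋ : ℤ), z.2), ⟨Cv_turn hz _, ⟨?_, ?_⟩, abs_le.1 (hCY z hz)⟩, ?_⟩
      · push_cast
        linarith [Int.floor_le z.1]
      · push_cast
        linarith [Int.lt_floor_add_one z.1]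
      · exact ex_turn z _
    rw [this]
    exact hK.image continuous_ex
  · obtain ⟨z, hz, -⟩ := exists_mem_Cv hq hpar hsurj 0 0
    exact ⟨_, z, hz, rfl⟩
  · intro ε hε
    -- a level with small boxes
    have hlim : Tendsto (fun m => Real.exp (2 * Real.pi * Y) * (4 * Real.pi * a m)) atTop
        (𝓝 0) := by
      simpa using (ha.const_mul (4 * Real.pi)).const_mul (Real.exp (2 * Real.pi * Y))
    obtain ⟨m, hm⟩ := (hlim.eventually (gt_mem_nhds hε)).exists
    have hqm := hq m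
    refine ⟨↥(Finset.Ico (0 : ℤ) (2 * q m)), inferInstance, fun j => bxc (q m) (G m) j.1,
      fun j => (isCompact_bxc (hq m) _ _).isClosed, ?_, ?_, ?_, ?_⟩
    · rintro ⟨i, hi⟩ ⟨j, hj⟩ hij
      refine (disjoint_bxc (G m) ?_).mono inter_subset_left inter_subset_left
      intro n hn
      simp only at hn
      rw [Finset.mem_Ico] at hi hj
      have hn0 : n = 0 := by
        by_contra hne
        rcases lt_or_gt_of_ne hne with h | h
        · have : q m * n ≤ q m * (-1) := mul_le_mul_of_nonneg_left (by omega) hqm.le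
          omega
        · have : q m * 1 ≤ q m * n := mul_le_mul_of_nonneg_left (by omega) hqm.le
          omega
      apply hij
      rw [Subtype.mk_eq_mk, hn, hn0]
      ring
    · rintro _ ⟨z, hz, rfl⟩
      obtain ⟨j, hj⟩ := mem_iUnion.1 (hz m)
      have h1 := seg_turn (-(j / (2 * q m))) hj
      have h2 : j + 2 * (q m * (-(j / (2 * q m)))) = j % (2 * q m) := by
        rw [Int.emod_def]
        ring
      rw [h2] at h1
      refine mem_iUnion.2 ⟨⟨j % (2 * q m), Finset.mem_Ico.2 ⟨Int.emod_nonneg _ (by omega),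
        Int.emod_lt_of_pos _ (by omega)⟩⟩, ?_⟩
      refine ⟨_, ⟨_, h1, rfl⟩, ?_⟩
      rw [HH.turn_int, ex_turn, HH.apply_inv_self]
    · rintro ⟨j, hj⟩ _ ⟨_, ⟨z, hz, rfl⟩, rfl⟩ _ ⟨_, ⟨w, hw, rfl⟩, rfl⟩
      refine lt_of_le_of_lt (dist_ex_le (hYm m j z hz) (hYm m j w hw)) (lt_of_le_of_lt ?_ hm)
      have := hdiam m j z hz w hw
      have := Real.pi_pos
      gcongr
    · rintro ⟨j, hj⟩ x hx
      obtain ⟨t, ht, hts⟩ := exists_finset_Cv hq hpar htwo 2 m j
      obtain ⟨u, v, huv, rfl⟩ := Finset.card_eq_two.1 ht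
      have hmem : ∀ y ∈ ({u, v} : Finset ℂ), y ∈ bxc (q m) (G m) j ∩ ex '' Cv q G := by
        intro y hy
        obtain ⟨z, ⟨hz1, hz2⟩, rfl⟩ := hts hy
        exact ⟨⟨z, hz2, rfl⟩, ⟨z, hz1, rfl⟩⟩
      by_cases hux : u = x
      · refine ⟨v, hmem v (by simp), ?_⟩
        rintro rfl
        exact huv hux
      · exact ⟨u, hmem u (by simp), hux⟩

end tower

end Pool.Agent.RAY
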