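import Pool.Agent.RAY.Window

/-!
# More on the circle at infinity
-/

namespace Pool.Agent.RAY

namespace Circ

variable {X : Type*} (K : Circ X)

theorem c_add_int (x : ℝ) (n : ℤ) : K.c (x + n * K.T) = K.c x := by
  have hnat : ∀ (n : ℕ) (x : ℝ), K.c (x + n * K.T) = K.c x := by
    intro n
    induction n with
    | zero => intro x; simp
    | succ n ih =>
      intro x
      have : x + ((n + 1 : ℕ) : ℝ) * K.T = (x + n * K.T) + K.T := by push_cast; ring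
      rw [this, K.c_per, ih]
  rcases Int.eq_nat_or_neg n with ⟨m, rfl | rfl⟩
  · exact_mod_cast hnat m x
  · have h := hnat m (x + ((-(m : ℤ) : ℤ) : ℝ) * K.T)
    rw [← h]
    congr 1
    push_cast
    ring

theorem exists_of_c_eq (hT : 0 < K.T) {x y : ℝ} (h : K.c x = K.c y) : ∃ n : ℤ, y = x + n * K.T := by
  refine ⟨⌊(y - x) / K.T⌋, ?_⟩
  set n : ℤ := ⌊(y - x) / K.T⌋ with hn
  have h1 : (n : ℝ) ≤ (y - x) / K.T := Int.floor_le _
  have h2 : (y - x) / K.T < n + 1 := Int.lt_floor_add_one _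
  have h3 : n * K.T ≤ y - x := (le_div_iff₀ hT).1 h1
  have h4 : y - x < (n + 1) * K.T := (div_lt_iff₀ hT).1 h2
  refine (K.c_inj _ _ ?_ (by linarith) (by linarith)).symm
  rw [c_add_int]
  exact h

/-- Lifts of the same point in an interval shorter than the period agree. -/
theorem eq_of_c_eq' {x y a : ℝ} (h : K.c x = K.c y) (hx : a ≤ x) (hx' : x < a + K.T)
    (hy : a ≤ y) (hy' : y < a + K.T) : x = y := by
  rcases le_total x y with h1 | h1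
  · exact K.c_inj _ _ h h1 (by linarith)
  · exact (K.c_inj _ _ h.symm h1 (by linarith)).symm

/-- Two chords which link, three ends being known. -/
theorem between_of_link (hT : 0 < K.T) {t : Fin 4 → ℝ}
    (h : (t 0 < t 1 ∧ t 1 < t 2 ∧ t 2 < t 3 ∧ t 3 < t 0 + K.T) ∨
         (t 0 < t 3 ∧ t 3 < t 2 ∧ t 2 < t 1 ∧ t 1 < t 0 + K.T))
    {tA tB tZ a0 a1 : ℝ} (hA : K.c (t 0) = K.c tA) (hB : K.c (t 2) = K.c tB)
    (hZ : K.c (t 3) = K.c tZ) (h0 : a0 ≤ tA) (hAB : tA ≤ tB) (h1 : tB ≤ a1) (h2 : a1 < tZ)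
    (h3 : tZ < a0 + K.T) :
    ∃ t0, tA < t0 ∧ t0 < tB ∧ K.c t0 = K.c (t 1) := by
  obtain ⟨n, hn⟩ := K.exists_of_c_eq hT hA
  -- shift everything
  have hc : ∀ i, K.c (t i + n * K.T) = K.c (t i) := fun i => K.c_add_int _ _
  set s : Fin 4 → ℝ := fun i => t i + n * K.T with hs
  have hs0 : s 0 = tA := hn.symm
  have hord : (s 0 < s 1 ∧ s 1 < s 2 ∧ s 2 < s 3 ∧ s 3 < s 0 + K.T) ∨
         (s 0 < s 3 ∧ s 3 < s 2 ∧ s 2 < s 1 ∧ s 1 < s 0 + K.T) := by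
    simp only [hs]
    rcases h with ⟨h1, h2, h3, h4⟩ | ⟨h1, h2, h3, h4⟩
    · left; refine ⟨?_, ?_, ?_, ?_⟩ <;> linarith
    · right; refine ⟨?_, ?_, ?_, ?_⟩ <;> linarith
  have hs2 : s 2 = tB := by
    refine K.eq_of_c_eq' (a := tA) ((hc 2).trans hB) ?_ ?_ hAB (by linarith)
    · rcases hord with h | h <;> linarith [h.1, h.2.1, h.2.2.1, h.2.2.2]
    · rcases hord with h | h <;> linarith [h.1, h.2.1, h.2.2.1, h.2.2.2]
  rcases hord with ⟨h4, h5, h6, h7⟩ | ⟨h4, h5, h6, h7⟩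
  · exact ⟨s 1, by linarith, by linarith, hc 1⟩
  · exfalso
    have hs3 : s 3 = tZ := by
      refine K.eq_of_c_eq' (a := a0) ((hc 3).trans hZ) ?_ ?_ (by linarith) (by linarith)
      · linarith
      · linarith
    linarith

variable {γ : ℤ → ℤ} (q : ℕ) (hq : 2 ≤ q) (hγ : ∀ j, γ j + 2 ≤ γ (j + 1))
  (hγq : ∀ j, γ (j + 2 * q) = γ j + K.N)

include hq hγ hγq in
/-- The two cusps which bound the ends behind the word of `ω_u`. -/
theorem cusps (S : List ℕ) (hS : S.Pairwise (· < ·)) (hlt : ∀ s ∈ S, s < q) (h0 : 0 ∈ S) (u : ℤ)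
    (a b : ℝ) (ha1 : K.θ (γ (2 * u + 1) + 1) ≤ a) (ha2 : a ≤ K.θ (γ (2 * (u + q) - 2)))
    (hb1 : K.θ (γ (2 * u + 2) + 1) ≤ b) (hb2 : b ≤ K.θ (γ (2 * u + 2)) + K.T) :
    ∃ tA tB, K.θ (γ (2 * u)) ≤ tA ∧ K.Acusp γ u < tA ∧ tA ≤ tB ∧ tB ≤ K.θ (γ (2 * u) + 1) ∧
      K.c tA = K.act ((gates S u ++ [2 * (u + q)]).map γ) (K.c a) ∧
      K.c tB = K.act ((gates S u ++ [2 * (u + q)] ++ [2 * u + 1, 2 * u + 2]).map γ) (K.c b) := by
  have hγqu : γ (2 * (u + q)) = γ (2 * u) + K.N := by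
    rw [← hγq]; congr 1; ring
  obtain ⟨S', rfl⟩ : ∃ S', S = 0 :: S' := by
    cases S with
    | nil => simp at h0
    | cons a S =>
      rcases List.mem_cons.1 h0 with h | h
      · exact ⟨S, by rw [h]⟩
      · exact absurd ((List.pairwise_cons.1 hS).1 0 h) (by omega)
  obtain ⟨b1, b2⟩ := K.ρ_mem _ _ hb1 hb2
  set b' := K.ρ (γ (2 * u + 2)) b with hb'
  have b3 : K.θ (γ (2 * u + 1) + 1) ≤ b' := by
    refine le_trans (K.θ_le ?_) b1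
    have := γ_lt hγ (show 2 * u + 1 < 2 * u + 2 by omega); omega
  have b4 : b' ≤ K.θ (γ (2 * u + 1)) + K.T := by
    refine b2.trans ?_
    rw [K.θγ_add_T q hγq]
    exact K.θ_le (by
      have := γ_lt hγ (show 2 * u + 2 < 2 * u + 1 + 2 * (q : ℤ) by omega); omega)
  obtain ⟨c1, c2⟩ := K.ρ_mem _ _ b3 b4
  set c' := K.ρ (γ (2 * u + 1)) b' with hc'
  have hcB' : K.act ((gates (0 :: S') u ++ [2 * (u + q)] ++ [2 * u + 1, 2 * u + 2]).map γ) (K.c b) =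
      K.act ((gates (0 :: S') u ++ [2 * (u + q)]).map γ) (K.c c') := by
    have g : ∀ l : List ℤ, K.act ((l ++ [2 * u + 1, 2 * u + 2]).map γ) (K.c b) =
        K.act (l.map γ) (K.c c') := fun l => by
      rw [List.map_append, act_append]
      simp only [List.map_cons, List.map_nil, act_cons, act_nil]
      rw [K.r_c _ _ hb1 hb2, K.r_c _ _ b3 b4]
    rw [g]
  have e1 : K.θ (γ (2 * u) + 1) ≤ c' := by
    refine le_trans (K.θ_le ?_) c1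
    have := γ_lt hγ (show 2 * u < 2 * u + 1 by omega); omega
  have e2 : a ≤ K.θ (γ (2 * u)) + K.T := by
    refine ha2.trans ?_
    rw [K.θγ_add_T q hγq]
    exact K.θ_le (γ_le hγ (by omega))
  have e3 : K.θ (γ (2 * (u + q)) + 1) = K.θ (γ (2 * u) + 1) + K.T := by
    rw [hγqu, ← K.per]; congr 1; ring
  have e4 : K.θ (γ (2 * (u + q)) + 1) ≤ c' + K.T := by linarith
  have e5 : a + K.T ≤ K.θ (γ (2 * (u + q))) + K.T := by
    rw [hγqu, K.per]; linarith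
  obtain ⟨tB, hB1, hB2, hB3, -, -⟩ := K.rest q hq hγ hγq u (c' + K.T) e4 (by linarith)
    (0 :: S') hS hlt
  obtain ⟨tA, hA1, hA2, hA3, -, hA5⟩ := K.rest q hq hγ hγq u (a + K.T) (by linarith) e5
    (0 :: S') hS hlt
  obtain ⟨hAc, -⟩ := hA5 0 S' rfl
  obtain ⟨hAB, -⟩ := K.rest_between q hq hγ hγq u (c' + K.T) (a + K.T) e4 (by linarith) e5
    (0 :: S') hS hlt tB tA hB1 hA1 hB2 hB3 hA2 hA3
  simp only [List.head?_cons, Option.getD_some, Nat.cast_zero, add_zero] at hA2 hA3 hB2 hB3 hAc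
  refine ⟨tA, tB, hA2, hAc, hAB, hB3, ?_, ?_⟩
  · rw [← hA1, K.c_per]
  · rw [hcB', ← hB1, K.c_per]

include hq hγ hγq in
/-- Where the cusp `ω_u . a` is. -/
theorem cusp_mem (S : List ℕ) (hS : S.Pairwise (· < ·)) (hlt : ∀ s ∈ S, s < q) (h0 : 0 ∈ S) (u : ℤ)
    (a : ℝ) (ha1 : K.θ (γ (2 * u + 1) + 1) ≤ a) (ha2 : a ≤ K.θ (γ (2 * (u + q) - 2))) :
    ∃ tA, K.θ (γ (2 * u)) ≤ tA ∧ tA ≤ K.θ (γ (2 * u) + 1) ∧
      K.c tA = K.act ((gates S u ++ [2 * (u + q)]).map γ) (K.c a) := by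
  obtain ⟨tA, tB, h1, -, h2, h3, h4, -⟩ := K.cusps q hq hγ hγq S hS hlt h0 u a
    (K.θ (γ (2 * u + 2) + 1)) ha1 ha2 le_rfl (by
      rw [K.θγ_add_T q hγq]
      refine K.θ_le ?_
      have := γ_lt hγ (show 2 * u + 2 < 2 * u + 2 + 2 * (q : ℤ) by omega)
      omega)
  exact ⟨tA, h1, h2.trans h3, h4⟩

include hq hγ hγq in
theorem Acusp_mem (i : ℤ) : K.θ (γ (2 * i)) ≤ K.Acusp γ i ∧ K.Acusp γ i ≤ K.θ (γ (2 * i) + 1) ∧
    K.c (K.Acusp γ i) = K.r (γ (2 * i)) (K.c (K.θ (γ (2 * i - 1)))) := by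
  have h1 : K.θ (γ (2 * i) + 1) ≤ K.θ (γ (2 * i - 1)) + K.T := by
    rw [K.θγ_add_T q hγq]
    exact K.θ_le (by
      have := γ_lt hγ (show 2 * i < 2 * i - 1 + 2 * (q : ℤ) by omega); omega)
  have h2 : K.θ (γ (2 * i - 1)) + K.T ≤ K.θ (γ (2 * i)) + K.T := by
    have := K.θ_le (γ_le hγ (show 2 * i - 1 ≤ 2 * i by omega))
    linarith
  obtain ⟨h3, h4⟩ := K.ρ_mem _ _ h1 h2
  refine ⟨h3, h4, ?_⟩
  rw [← K.c_per (K.θ (γ (2 * i - 1))), K.r_c _ _ h1 h2]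
  rfl

include hq hγ hγq in
theorem Bcusp_mem (i : ℤ) : K.θ (γ (2 * i + 1)) ≤ K.Bcusp γ i ∧
    K.Bcusp γ i ≤ K.θ (γ (2 * i + 1) + 1) ∧
    K.c (K.Bcusp γ i) = K.r (γ (2 * i + 1)) (K.c (K.θ (γ (2 * i + 2) + 1))) := by
  have h1 : K.θ (γ (2 * i + 1) + 1) ≤ K.θ (γ (2 * i + 2) + 1) :=
    K.θ_le (by have := γ_lt hγ (show 2 * i + 1 < 2 * i + 2 by omega); omega)
  have h2 : K.θ (γ (2 * i + 2) + 1) ≤ K.θ (γ (2 * i + 1)) + K.T := by
    rw [K.θγ_add_T q hγq]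
    exact K.θ_le (by
      have := γ_lt hγ (show 2 * i + 2 < 2 * i + 1 + 2 * (q : ℤ) by omega); omega)
  obtain ⟨h3, h4⟩ := K.ρ_mem _ _ h1 h2
  refine ⟨h3, h4, ?_⟩
  rw [K.r_c _ _ h1 h2]
  rfl

end Circ

end Pool.Agent.RAY
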