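import Pool.Agent.RAY.Num

/-!
# RAY: confined slots and exceptional slots (problem MP_5d2250_gt)

* `abs_tm_add_le`, `abs_tm_add_one_le`, `abs_tm_sub_one_le`: the number `|tm i|` is a norm on the slots modulo `q`; one slot
  costs at most `r = q_{k-1}`.
* `Conf i`: the confined slots, `|tm i| <= r^2 + r`; `conf_u_add`: the slots `u j + s`, `s` in the
  semigroup, `s <= q' + 1` are confined.
* `sh` and `sh_not_conf`: rotating `sh` times moves the confined slots (widened by two slots) off
  the confined slots (widened by two slots).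
* `ex`: the exceptional slot, `tm ex = (q - 1) / 2`; `far_ex` etc.: the exceptional slots and their
  neighbours have large times; they are never of the form `u j + s`.
-/

set_option autoImplicit false

namespace Pool.Agent.RAY

namespace Lv

variable (L : Lv)

/-- The time has the least absolute value in its class. -/
theorem abs_tm_le {i t c : ℤ} (h : t = i * L.r + c * L.q) : |L.tm i| ≤ |t| := by
  obtain ⟨d, hd⟩ := L.exists_tm i
  have h1 := L.tm_le i
  have h2 := L.le_tm i
  have h3 := L.half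
  have hq := L.q_pos
  have h4 : |L.tm i| ≤ (L.q - 1) / 2 := abs_le.2 ⟨h2, h1⟩
  by_cases h5 : (L.q - 1) / 2 ≤ |t|
  · exact h4.trans h5
  · push Not at h5
    have h6 := abs_lt.1 h5
    have h7 := L.tm_eq h (by omega) (by omega)
    rw [h7]

theorem tm_zero : L.tm 0 = 0 := by
  have h := L.abs_tm_le (i := 0) (t := 0) (c := 0) (by simp)
  simpa using h

theorem abs_tm_add_le (i j : ℤ) : |L.tm (i + j)| ≤ |L.tm i| + |L.tm j| := by
  obtain ⟨c, hc⟩ := L.exists_tm i
  obtain ⟨d, hd⟩ := L.exists_tm j
  refine (L.abs_tm_le (t := L.tm i + L.tm j) (c := c + d) ?_).trans (abs_add_le _ _)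
  rw [hc, hd]; ring

theorem abs_tm_neg (i : ℤ) : |L.tm (-i)| = |L.tm i| := by
  have key : ∀ i : ℤ, |L.tm (-i)| ≤ |L.tm i| := by
    intro i
    obtain ⟨c, hc⟩ := L.exists_tm i
    rw [← abs_neg (L.tm i)]
    refine L.abs_tm_le (c := -c) ?_
    rw [hc]; ring
  refine le_antisymm (key i) ?_
  have := key (-i)
  rwa [neg_neg] at this

theorem abs_tm_int_le (n : ℤ) : |L.tm n| ≤ |n| * L.r := by
  have h := L.abs_tm_le (i := n) (t := n * L.r) (c := 0) (by ring)
  rwa [abs_mul, abs_of_pos L.hr] at h

/-- Moving by `n` slots changes the norm of the time by at most `|n| r`. -/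
theorem abs_tm_add_int_le (i n : ℤ) : |L.tm (i + n)| ≤ |L.tm i| + |n| * L.r :=
  (L.abs_tm_add_le i n).trans (by linarith [L.abs_tm_int_le n])

theorem le_abs_tm_add_int (i n : ℤ) : |L.tm i| - |n| * L.r ≤ |L.tm (i + n)| := by
  have h := L.abs_tm_add_int_le (i + n) (-n)
  rw [add_neg_cancel_right, abs_neg] at h
  linarith

theorem abs_tm_mul_p_le (n : ℤ) : |L.tm (n * L.p)| ≤ |n| := by
  refine L.abs_tm_le (c := -(n * L.s)) ?_
  linear_combination (-n) * L.det

/-- Rotating `n` times changes the norm of the time by at most `|n|`. -/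
theorem abs_tm_add_p_le (i n : ℤ) : |L.tm (i + n * L.p)| ≤ |L.tm i| + |n| :=
  (L.abs_tm_add_le i _).trans (by linarith [L.abs_tm_mul_p_le n])

/-- The levels `k >= 1`. -/
theorem next_q_ge : 16 * (L.q * L.q) + 15 * L.q < L.next.q := by
  have h1 := L.hrq
  rw [next_q']
  unfold M
  nlinarith

/-! ### Confined slots -/

/-- The confined slots. -/
def Conf (i : ℤ) : Prop := |L.tm i| ≤ L.r * L.r + L.r

/-- The slots `u j + s` are confined. -/
theorem conf_u_add {j s : ℤ} (hs : L.Sg s) (hs' : s ≤ L.next.q + 1) :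
    L.next.Conf (L.u j + s) := by
  have h1 := L.tm_u_add (j := j) hs hs'
  have h2 := L.tm_le j
  have h3 := L.le_tm j
  have h4 := abs_le.1 h1
  have hq := L.q_pos
  unfold Conf
  rw [next_r, abs_le]
  constructor <;> omega

/-- The number of rotations which moves the confined slots off themselves. -/
def sh : ℤ := 2 * (L.r * L.r + 3 * L.r) + 1

theorem sh_pos : 0 < L.sh := by
  have := L.hr
  unfold sh
  nlinarith

/-- After `sh` rotations the widened confined slots are off the widened confined slots. -/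
theorem sh_off {i : ℤ} (hi : |L.next.tm i| ≤ L.q * L.q + 3 * L.q) :
    L.q * L.q + 3 * L.q < |L.next.tm (i + L.next.sh * L.next.p)| := by
  have h1 := abs_le.1 hi
  have h2 := L.next_q_ge
  have h3 := L.next.half
  have hr := L.hr
  have hq : 2 ≤ L.q := by have := L.hrq; omega
  have hq3 : 3 ≤ L.q := by have := L.odd; omega
  have h5 : L.next.sh = 2 * (L.q * L.q + 3 * L.q) + 1 := rfl
  have h6 : 3 * L.q ≤ L.q * L.q := by nlinarith
  have h4 : L.next.tm (i + L.next.sh * L.next.p) = L.next.tm i + L.next.sh :=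
    L.next.tm_add_p (by omega) (by omega)
  rw [h4, h5]
  refine lt_of_lt_of_le ?_ (le_abs_self _)
  omega

/-! ### Exceptional slots -/

/-- The number of rotations which are under control. -/
def nn : ℤ := L.q / 4

/-- The widened confined slots, rotated at most `nn` times, have small times. -/
theorem near {i n : ℤ} (hi : |L.next.tm i| ≤ L.q * L.q + 3 * L.q) (hn : |n| ≤ L.next.nn) :
    |L.next.tm (i + n * L.next.p)| < (L.next.q - 1) / 2 - 5 * L.q := by
  have h1 := L.next.abs_tm_add_p_le i n
  have h2 := L.next_q_ge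
  have h3 := L.next.half
  have hr := L.hr
  have hq3 : 3 ≤ L.q := by have := L.odd; have := L.hrq; omega
  have h6 : 3 * L.q ≤ L.q * L.q := by nlinarith
  unfold nn at hn
  omega

theorem sh_le_nn : L.next.sh ≤ L.next.nn := by
  have h2 := L.next_q_ge
  have hr := L.hr
  have hq3 : 3 ≤ L.q := by have := L.odd; have := L.hrq; omega
  have h6 : 3 * L.q ≤ L.q * L.q := by nlinarith
  have h5 : L.next.sh = 2 * (L.q * L.q + 3 * L.q) + 1 := rfl
  unfold nn
  omega

/-- The exceptional slot: its time is `(q - 1) / 2`. -/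
def ex : ℤ := (L.q - 1) / 2 * L.p

theorem tm_ex : L.tm L.ex = (L.q - 1) / 2 := by
  have := L.q_pos
  exact L.tm_mul_p (by omega) le_rfl

theorem tm_ex_add_p : L.tm (L.ex + L.p) = -((L.q - 1) / 2) := (L.u_add_p' L.tm_ex).2

theorem u_ex_add_p : L.u (L.ex + L.p) = L.u L.ex + L.next.p - 1 := (L.u_add_p' L.tm_ex).1

/-- Every slot with time `(q - 1) / 2` is the exceptional slot. -/
theorem eq_ex {i : ℤ} (h : L.tm i = (L.q - 1) / 2) : ∃ c : ℤ, i = L.ex + c * L.q := by
  obtain ⟨c, hc⟩ := L.exists_slot i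
  exact ⟨c, by rw [hc, h]; rfl⟩

/-- The neighbours of the exceptional slots have large times. -/
theorem far_ex (n : ℤ) : (L.q - 1) / 2 - |n| * L.r ≤ |L.tm (L.ex + n)| := by
  have h := L.le_abs_tm_add_int L.ex n
  rw [tm_ex] at h
  have := le_abs_self ((L.q - 1) / 2)
  linarith

theorem far_ex' (n : ℤ) : (L.q - 1) / 2 - |n| * L.r ≤ |L.tm (L.ex + L.p + n)| := by
  have h := L.le_abs_tm_add_int (L.ex + L.p) n
  rw [tm_ex_add_p, abs_neg] at h
  have := le_abs_self ((L.q - 1) / 2)
  linarith

/-- Slots with large times are not of the form `u j + s`. -/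
theorem not_u_add {i : ℤ} (hi : L.q * L.q + L.q < |L.next.tm i|) {j : ℤ}
    (h : i - L.u j ≤ L.next.q + 1) : ¬ L.Sg (i - L.u j) := by
  intro h1
  have h2 := L.conf_u_add (j := j) h1 h
  unfold Conf at h2
  rw [add_sub_cancel, next_r] at h2
  omega

/-- The neighbours of the exceptional slots of level `k + 1` have times larger than those of the
slots `u j + s`. -/
theorem far_large {n : ℤ} (hn : |n| ≤ 5) :
    L.q * L.q + 3 * L.q < |L.next.tm (L.next.ex + n)| ∧
    L.q * L.q + 3 * L.q < |L.next.tm (L.next.ex + L.next.p + n)| := by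
  have h1 := L.next.far_ex n
  have h1' := L.next.far_ex' n
  have h2 := L.next_q_ge
  have h3 := L.next.half
  have hr := L.hr
  have hq3 : 3 ≤ L.q := by have := L.odd; have := L.hrq; omega
  have h6 : 3 * L.q ≤ L.q * L.q := by nlinarith
  have h7 : |n| * L.next.r ≤ 5 * L.q := by
    rw [next_r]
    exact mul_le_mul_of_nonneg_right hn L.q_pos.le
  constructor <;> omega

/-- Rotated confined slots (widened by two slots) are not neighbours of the exceptional slots. -/
theorem not_ex {i n : ℤ} (hi : |L.next.tm i| ≤ L.q * L.q + 3 * L.q) (hn : |n| ≤ L.next.nn)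
    {e : ℤ} (he : |e| ≤ 5) (c : ℤ) :
    i + n * L.next.p ≠ L.next.ex + e + c * L.next.q ∧
    i + n * L.next.p ≠ L.next.ex + L.next.p + e + c * L.next.q := by
  have h := L.near hi hn
  have h7 : |e| * L.next.r ≤ 5 * L.q := by
    rw [next_r]
    exact mul_le_mul_of_nonneg_right he L.q_pos.le
  constructor
  · intro h1
    rw [h1, tm_add_q] at h
    have := L.next.far_ex e
    omega
  · intro h1
    rw [h1, tm_add_q] at h
    have := L.next.far_ex' e
    omega

/-! ### Sectors -/

/-- Every slot lies in one sector. -/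
theorem exists_sector (i : ℤ) : ∃ j : ℤ, L.u j ≤ i ∧ i < L.u (j + 1) := by
  have hM := L.M_pos
  have hlow : ∀ n : ℕ, L.u (-(n : ℤ)) ≤ L.u 0 - n := by
    intro n
    have := (L.u_diff (-(n : ℤ)) n).1
    rw [neg_add_cancel] at this
    nlinarith
  have hup : ∀ n : ℕ, L.u 0 + n ≤ L.u n := by
    intro n
    have := (L.u_diff 0 n).1
    rw [zero_add] at this
    nlinarith
  have h1 : ∃ b : ℤ, ∀ z : ℤ, L.u z ≤ i → z ≤ b := by
    refine ⟨(i - L.u 0).toNat, fun z hz => ?_⟩
    by_contra h2
    push Not at h2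
    have h3 := L.u_strictMono h2
    have h4 := hup (i - L.u 0).toNat
    omega
  have h2 : ∃ z : ℤ, L.u z ≤ i := by
    refine ⟨-((L.u 0 - i).toNat : ℤ), ?_⟩
    have := hlow (L.u 0 - i).toNat
    omega
  obtain ⟨j, hj, hmax⟩ := Int.exists_greatest_of_bdd h1 h2
  refine ⟨j, hj, ?_⟩
  by_contra h3
  push Not at h3
  have := hmax (j + 1) h3
  omega

/-- A block of slots with large times lies strictly inside one sector. -/
theorem exists_sector_block {i : ℤ} {n : ℕ}
    (h : ∀ m : ℕ, m ≤ n → L.q * L.q + L.q < |L.next.tm (i + m)|) :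
    ∃ j : ℤ, L.u j < i ∧ i + n < L.u (j + 1) := by
  obtain ⟨j, h1, h2⟩ := L.exists_sector i
  have key : ∀ m : ℕ, m ≤ n → ∀ l : ℤ, i + m ≠ L.u l := by
    intro m hm l hl
    have := L.not_u_add (h m hm) (j := l) (by rw [hl]; have := L.next.q_pos; omega)
    rw [hl, sub_self] at this
    exact this L.Sg_zero
  have h3 : ∀ m : ℕ, m ≤ n → i + m < L.u (j + 1) := by
    intro m
    induction m with
    | zero => intro _; simpa using h2
    | succ m ih =>
      intro hm
      have h4 := ih (by omega)
      have h5 := key (m + 1) hm (j + 1)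
      push_cast at h5 ⊢
      omega
  refine ⟨j, ?_, h3 n le_rfl⟩
  have := key 0 (Nat.zero_le _) j
  simp only [Nat.cast_zero, add_zero] at this
  omega

end Lv

/-- `q_k >= 15^k`. -/
theorem pow_le_q (k : ℕ) : (15 : ℤ) ^ k ≤ (Lv.lv k).q := by
  induction k with
  | zero => simp [Lv.lv, Lv.base]
  | succ k ih =>
    have h1 := (Lv.lv k).next_q_ge
    have h2 := (Lv.lv k).q_pos
    have h3 : (Lv.lv (k + 1)).q = (Lv.lv k).next.q := rfl
    rw [h3, pow_succ]
    nlinarith

end Pool.Agent.RAY
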