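import Pool.Agent.RAY.Push
import Pool.Agent.RAY.Act

/-!
# Conjugation: parabolic homeomorphisms for all Cantor sets equivalent to one of them
-/

namespace Pool.Agent.RAY

open Set Topology Filter unitInterval

section conj

variable {C C' : Set ℂ} (h : ℂ ≃ₜ ℂ) (hC : h '' C = C')

include hC in
theorem image_coe : h.onePointCongr '' ((↑) '' C) = ((↑) '' C' : Set (OnePoint ℂ)) := by
  rw [← hC, Set.image_image, Set.image_image]
  rfl

/-- The induced map on rays. -/
noncomputable def conjRay (γ : Ray C) : Ray C' :=
  ⟨fun t => h.onePointCongr (γ.1 t), γ.2.mapG h.onePointCongr rfl (image_coe h hC)⟩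

/-- The induced map on vertices. -/
noncomputable def conjV : Vertex C → Vertex C' :=
  Quotient.map (conjRay h hC) fun _ _ e => Isotopic.mapG h.onePointCongr rfl (image_coe h hC) e

include hC in
theorem symm_image' : h.symm '' C' = C := by
  rw [← hC, ← Set.image_comp]
  simp

theorem conjV_symm (a : Vertex C) : conjV h.symm (symm_image' h hC) (conjV h hC a) = a := by
  induction a using Quotient.inductionOn with
  | h γ =>
    show Quotient.mk _ (conjRay h.symm (symm_image' h hC) (conjRay h hC γ)) = _
    congr 1
    apply Subtype.ext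
    funext t
    exact onePointCongr_symm_apply h (γ.1 t)

theorem conjV_injective : Function.Injective (conjV h hC) :=
  Function.LeftInverse.injective (conjV_symm h hC)

theorem conjV_adj {a b : Vertex C} (e : (rayGraph C).Adj a b) :
    (rayGraph C').Adj (conjV h hC a) (conjV h hC b) := by
  obtain ⟨hne, γ, γ', rfl, rfl, hd⟩ := e
  refine ⟨fun e => hne (conjV_injective h hC e), conjRay h hC γ, conjRay h hC γ', rfl, rfl, ?_⟩
  intro s t hs hs' ht ht' e
  exact hd s t hs hs' ht ht' (h.onePointCongr.injective e)

/-- The induced graph homomorphism. -/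
noncomputable def conjHom : rayGraph C →g rayGraph C' where
  toFun := conjV h hC
  map_rel' := conjV_adj h hC

theorem edist_conjV_le (a b : Vertex C) :
    (rayGraph C').edist (conjV h hC a) (conjV h hC b) ≤ (rayGraph C).edist a b := by
  by_cases e : (rayGraph C).edist a b = ⊤
  · rw [e]; exact le_top
  · have hr : (rayGraph C).Reachable a b := by
      rwa [← (rayGraph C).edist_ne_top_iff_reachable]
    obtain ⟨p, hp⟩ := hr.exists_walk_length_eq_edist
    rw [← hp, ← SimpleGraph.Walk.length_map (conjHom h hC) p]
    exact SimpleGraph.edist_le (p.map (conjHom h hC))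

theorem edist_conjV (a b : Vertex C) :
    (rayGraph C').edist (conjV h hC a) (conjV h hC b) = (rayGraph C).edist a b := by
  refine le_antisymm (edist_conjV_le h hC a b) ?_
  have e := edist_conjV_le h.symm (symm_image' h hC) (conjV h hC a) (conjV h hC b)
  rwa [conjV_symm, conjV_symm] at e

variable (f : ℂ ≃ₜ ℂ) (hf : f '' C' = C')

/-- The conjugate. -/
noncomputable def conjF : ℂ ≃ₜ ℂ := (h.trans f).trans h.symm

include hC hf in
theorem conjF_image : conjF h f '' C = C := by
  have : (conjF h f : ℂ → ℂ) = h.symm ∘ f ∘ h := rfl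
  rw [this, Set.image_comp, Set.image_comp, hC, hf, symm_image' h hC]

theorem conjV_act (a : Vertex C) :
    conjV h hC (act (conjF h f) (conjF_image h hC f hf) a) = act f hf (conjV h hC a) := by
  induction a using Quotient.inductionOn with
  | h γ =>
    show (Quotient.mk _ (conjRay h hC (actRay (conjF h f) (conjF_image h hC f hf) γ)) :
      Vertex C') = Quotient.mk _ (actRay f hf (conjRay h hC γ))
    congr 1
    apply Subtype.ext
    funext t
    show h.onePointCongr ((conjF h f).onePointCongr (γ.1 t)) =
      f.onePointCongr (h.onePointCongr (γ.1 t))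
    generalize γ.1 t = z
    induction z using OnePoint.rec with
    | infty => rfl
    | coe z =>
      show ((h (h.symm (f (h z))) : ℂ) : OnePoint ℂ) = ((f (h z) : ℂ) : OnePoint ℂ)
      rw [h.apply_symm_apply]

theorem conjV_act_iterate (n : ℕ) (a : Vertex C) :
    conjV h hC ((act (conjF h f) (conjF_image h hC f hf))^[n] a) =
      (act f hf)^[n] (conjV h hC a) := by
  induction n with
  | zero => rfl
  | succ n ih => rw [Function.iterate_succ_apply', Function.iterate_succ_apply', conjV_act, ih]

/-- A conjugate of a parabolic homeomorphism is parabolic. -/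
theorem ActsParabolically.conj (hp : ActsParabolically f hf) :
    ActsParabolically (conjF h f) (conjF_image h hC f hf) := by
  obtain ⟨x, h1, h2, h3⟩ := hp
  obtain ⟨y, rfl⟩ : ∃ y, conjV h hC y = x := by
    refine ⟨conjV h.symm (symm_image' h hC) x, ?_⟩
    have hs : h.symm.symm '' C = C' := by simpa using hC
    have := conjV_symm h.symm (symm_image' h hC) x
    exact this
  have key : ∀ n, (rayGraph C).edist y ((act (conjF h f) (conjF_image h hC f hf))^[n] y) =
      (rayGraph C').edist (conjV h hC y) ((act f hf)^[n] (conjV h hC y)) := by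
    intro n
    rw [← conjV_act_iterate, edist_conjV]
  refine ⟨y, fun n => by rw [key]; exact h1 n, fun B => ?_, ?_⟩
  · obtain ⟨n, hn⟩ := h2 B
    exact ⟨n, by rw [key]; exact hn⟩
  · simp only [key]
    exact h3

/-- A conjugate of an orientation preserving homeomorphism is orientation preserving. -/
theorem OrientationPreserving.conj {f : ℂ ≃ₜ ℂ} (ho : OrientationPreserving f) :
    OrientationPreserving (conjF h f) := by
  obtain ⟨H, hc, hH, h0, h1⟩ := ho
  refine ⟨fun p => h.symm (H (p.1, h p.2)), ?_, fun s => ?_, fun z => ?_, fun z => ?_⟩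
  · exact h.symm.continuous.comp (hc.comp (continuous_fst.prodMk (h.continuous.comp continuous_snd)))
  · obtain ⟨g, hg⟩ := hH s
    refine ⟨conjF h g, fun z => ?_⟩
    show h.symm (H (s, h z)) = _
    rw [hg]
    rfl
  · show h.symm (H (0, h z)) = z
    rw [h0, h.symm_apply_apply]
  · show h.symm (H (1, h z)) = _
    rw [h1]
    rfl

end conj

/-- From one Cantor set to all equivalent ones. -/
theorem parabolic_of_equiv {C C' : Set ℂ} (h : ℂ ≃ₜ ℂ) (hC : h '' C = C')
    (hp : ∃ (f : ℂ ≃ₜ ℂ) (hf : f '' C' = C'), OrientationPreserving f ∧ ActsParabolically f hf) :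
    ∃ (f : ℂ ≃ₜ ℂ) (hf : f '' C = C), OrientationPreserving f ∧ ActsParabolically f hf := by
  obtain ⟨f, hf, h1, h2⟩ := hp
  exact ⟨conjF h f, conjF_image h hC f hf, h1.conj h, h2.conj h hC f hf⟩

end Pool.Agent.RAY
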