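import Mathlib

/-!
# The ray graph of the plane minus a Cantor set (MP_5d2250_gt): definitions

Everything takes place in the sphere `OnePoint ℂ`.  A ray is an injective path from `∞` to a point
of the Cantor set `C` whose interior lies in the plane minus `C`; rays are considered up to isotopy
through rays (the end point in `C` does not move during an isotopy, because `C` is totally
disconnected, and reparametrizations are isotopies).
-/

namespace Pool.Agent.RAY

open Set Topology Filter unitInterval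

/-- `C` is a Cantor set in the plane: compact, nonempty, without isolated points and totally
disconnected. -/
structure IsCantor (C : Set ℂ) : Prop where
  isCompact : IsCompact C
  nonempty : C.Nonempty
  preperfect : Preperfect C
  totDisc : IsTotallyDisconnected C

/-- `γ` is a (parametrized) ray of the plane minus `C`: a simple arc in the sphere from `∞` to a
point of `C` whose interior lies in `ℂ ∖ C`. -/
structure IsRay (C : Set ℂ) (γ : I → OnePoint ℂ) : Prop where
  continuous : Continuous γ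
  injective : Function.Injective γ
  zero : γ 0 = OnePoint.infty
  one : ∃ c ∈ C, γ 1 = (c : OnePoint ℂ)
  interior : ∀ t, t ≠ 0 → t ≠ 1 → ∃ z : ℂ, z ∉ C ∧ γ t = (z : OnePoint ℂ)

/-- Isotopy of rays relative to `C ∪ {∞}`: a continuous family of rays. -/
def Isotopic (C : Set ℂ) (γ γ' : I → OnePoint ℂ) : Prop :=
  ∃ H : I × I → OnePoint ℂ, Continuous H ∧ (∀ s, IsRay C fun t => H (s, t)) ∧
    (∀ t, H (0, t) = γ t) ∧ ∀ t, H (1, t) = γ' t

/-- The type of rays. -/
def Ray (C : Set ℂ) : Type := {γ : I → OnePoint ℂ // IsRay C γ}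

theorem Isotopic.refl {C : Set ℂ} {γ : I → OnePoint ℂ} (h : IsRay C γ) : Isotopic C γ γ :=
  ⟨fun p => γ p.2, h.continuous.comp continuous_snd, fun _ => h, fun _ => rfl, fun _ => rfl⟩

theorem Isotopic.symm {C : Set ℂ} {γ γ' : I → OnePoint ℂ} (h : Isotopic C γ γ') :
    Isotopic C γ' γ := by
  obtain ⟨H, hc, hr, h0, h1⟩ := h
  refine ⟨fun p => H (unitInterval.symm p.1, p.2), ?_, fun s => hr (unitInterval.symm s),
    fun t => ?_, fun t => ?_⟩
  · exact hc.comp ((unitInterval.continuous_symm.comp continuous_fst).prodMk continuous_snd)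
  · simpa using h1 t
  · simpa using h0 t

theorem Isotopic.trans {C : Set ℂ} {γ γ' γ'' : I → OnePoint ℂ} (h : Isotopic C γ γ')
    (h' : Isotopic C γ' γ'') : Isotopic C γ γ'' := by
  obtain ⟨H, hc, hr, h0, h1⟩ := h
  obtain ⟨H', hc', hr', h0', h1'⟩ := h'
  let f₀ : ContinuousMap I (OnePoint ℂ) := ⟨fun t => H (0, t), (hr 0).continuous⟩
  let f₁ : ContinuousMap I (OnePoint ℂ) := ⟨fun t => H (1, t), (hr 1).continuous⟩
  let f₂ : ContinuousMap I (OnePoint ℂ) := ⟨fun t => H' (1, t), (hr' 1).continuous⟩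
  let F : ContinuousMap.Homotopy f₀ f₁ := ⟨⟨H, hc⟩, fun _ => rfl, fun _ => rfl⟩
  let F' : ContinuousMap.Homotopy f₁ f₂ := ⟨⟨H', hc'⟩, fun t => by
    show H' (0, t) = H (1, t)
    rw [h0' t, h1 t], fun _ => rfl⟩
  refine ⟨fun p => (F.trans F') p, (F.trans F').continuous, fun s => ?_, fun t => ?_, fun t => ?_⟩
  · by_cases hs : (s : ℝ) ≤ 1 / 2
    · have : (fun t => (F.trans F') (s, t)) = fun t => H (⟨2 * s,
          (unitInterval.mul_pos_mem_iff zero_lt_two).2 ⟨s.2.1, hs⟩⟩, t) := by
        funext t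
        rw [ContinuousMap.Homotopy.trans_apply, dif_pos hs]
        rfl
      rw [this]
      exact hr _
    · have : (fun t => (F.trans F') (s, t)) = fun t => H' (⟨2 * s - 1,
          unitInterval.two_mul_sub_one_mem_iff.2 ⟨(not_le.1 hs).le, s.2.2⟩⟩, t) := by
        funext t
        rw [ContinuousMap.Homotopy.trans_apply, dif_neg hs]
        rfl
      rw [this]
      exact hr' _
  · exact (ContinuousMap.Homotopy.apply_zero (F.trans F') t).trans (h0 t)
  · exact (ContinuousMap.Homotopy.apply_one (F.trans F') t).trans (h1' t)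

/-- Isotopy as an equivalence relation on rays. -/
instance raySetoid (C : Set ℂ) : Setoid (Ray C) where
  r a b := Isotopic C a.1 b.1
  iseqv := ⟨fun a => Isotopic.refl a.2, fun h => h.symm, fun h h' => h.trans h'⟩

/-- The vertices of the ray graph: isotopy classes of rays. -/
def Vertex (C : Set ℂ) : Type := Quotient (raySetoid C)

/-- Two rays have disjoint interiors. -/
def DisjointInteriors (γ γ' : I → OnePoint ℂ) : Prop :=
  ∀ s t, s ≠ 0 → s ≠ 1 → t ≠ 0 → t ≠ 1 → γ s ≠ γ' t

/-- The ray graph. -/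
def rayGraph (C : Set ℂ) : SimpleGraph (Vertex C) where
  Adj a b := a ≠ b ∧ ∃ γ γ' : Ray C, Quotient.mk _ γ = a ∧ Quotient.mk _ γ' = b ∧
    DisjointInteriors γ.1 γ'.1
  symm := ⟨fun a b h => by
    obtain ⟨hne, γ, γ', h1, h2, h3⟩ := h
    exact ⟨hne.symm, γ', γ, h2, h1, fun s t hs hs' ht ht' e => h3 t s ht ht' hs hs' e.symm⟩⟩
  loopless := ⟨fun a h => h.1 rfl⟩

/-- A homeomorphism of the plane is orientation preserving if and only if it is isotopic to the
identity through homeomorphisms of the plane; this is our definition. -/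
def OrientationPreserving (f : ℂ ≃ₜ ℂ) : Prop :=
  ∃ H : I × ℂ → ℂ, Continuous H ∧ (∀ s, ∃ h : ℂ ≃ₜ ℂ, ∀ z, H (s, z) = h z) ∧
    (∀ z, H (0, z) = z) ∧ ∀ z, H (1, z) = f z

/-- The image of a ray under a homeomorphism of the plane which preserves `C`. -/
theorem IsRay.map {C : Set ℂ} {γ : I → OnePoint ℂ} (h : IsRay C γ) (f : ℂ ≃ₜ ℂ)
    (hf : f '' C = C) : IsRay C fun t => f.onePointCongr (γ t) where
  continuous := f.onePointCongr.continuous.comp h.continuous
  injective := f.onePointCongr.injective.comp h.injective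
  zero := by
    show f.onePointCongr (γ 0) = _
    rw [h.zero]
    rfl
  one := by
    obtain ⟨c, hc, h1⟩ := h.one
    refine ⟨f c, hf ▸ mem_image_of_mem f hc, ?_⟩
    show f.onePointCongr (γ 1) = _
    rw [h1]
    rfl
  interior t h0 h1 := by
    obtain ⟨z, hz, hzt⟩ := h.interior t h0 h1
    refine ⟨f z, fun hfz => hz ?_, ?_⟩
    · rw [← hf] at hfz
      obtain ⟨w, hw, hwz⟩ := hfz
      rwa [← f.injective hwz]
    · show f.onePointCongr (γ t) = _
      rw [hzt]
      rfl

/-- The action on rays. -/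
noncomputable def actRay {C : Set ℂ} (f : ℂ ≃ₜ ℂ) (hf : f '' C = C) (γ : Ray C) : Ray C :=
  ⟨fun t => f.onePointCongr (γ.1 t), γ.2.map f hf⟩

theorem Isotopic.map {C : Set ℂ} {γ γ' : I → OnePoint ℂ} (h : Isotopic C γ γ') (f : ℂ ≃ₜ ℂ)
    (hf : f '' C = C) :
    Isotopic C (fun t => f.onePointCongr (γ t)) fun t => f.onePointCongr (γ' t) := by
  obtain ⟨H, hc, hr, h0, h1⟩ := h
  exact ⟨fun p => f.onePointCongr (H p), f.onePointCongr.continuous.comp hc,
    fun s => (hr s).map f hf, fun t => congrArg _ (h0 t), fun t => congrArg _ (h1 t)⟩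

/-- The action of a homeomorphism of the plane preserving `C` (hence of its mapping class) on the
vertices of the ray graph. -/
noncomputable def act {C : Set ℂ} (f : ℂ ≃ₜ ℂ) (hf : f '' C = C) : Vertex C → Vertex C :=
  Quotient.map (actRay f hf) fun _ _ h => Isotopic.map h f hf

/-- `f` acts parabolically on the ray graph: for some vertex `x` the orbit of `x` is unbounded (and
at finite distances), and the stable translation length `lim d(x, fⁿ x) / n` is `0`. -/
def ActsParabolically {C : Set ℂ} (f : ℂ ≃ₜ ℂ) (hf : f '' C = C) : Prop :=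
  ∃ x : Vertex C, (∀ n : ℕ, (rayGraph C).edist x ((act f hf)^[n] x) ≠ ⊤) ∧
    (∀ B : ℕ, ∃ n : ℕ, (B : ℕ∞) < (rayGraph C).edist x ((act f hf)^[n] x)) ∧
    Tendsto (fun n : ℕ => (((rayGraph C).edist x ((act f hf)^[n] x)).toNat : ℝ) / n) atTop (𝓝 0)

end Pool.Agent.RAY
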