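import Pool.Agent.RAY.Step

/-!
# RAY, block D, part 1: the sequence of all levels, the limit homeomorphism

`Sys` is a sequence of steps `HStep (lv k) (w k)` together with the smallness of the images of the
boxes; `S.G k` maps picture `k` to picture `0`, `S.F k` is the map of picture `k`, a rotation on
`|y| ≤ 1`, `S.f k = G k F k (G k)⁻¹`, `S.lim` the limit.
-/

set_option autoImplicit false

open Topology Filter

namespace Pool.Agent.RAY

/-- Rectangles of small size are mapped to small sets. -/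
theorem HH.exists_w (G : HH) {q : ℤ} (hq : 0 < q) {ε : ℝ} (hε : 0 < ε) :
    ∃ w : ℝ, 0 < w ∧ w ≤ 1 / 16 ∧
      ∀ j, ∀ z ∈ rc q w j, ∀ z' ∈ rc q w j, dist (G z) (G z') ≤ ε := by
  obtain ⟨δ, hδ, h⟩ := G.exists_delta 1 hε
  refine ⟨min (1 / 16) (δ / 4), by positivity, min_le_left _ _, ?_⟩
  rintro j z ⟨hz1, hz2⟩ z' ⟨hz1', hz2'⟩
  have hw : min (1 / 16) (δ / 4) ≤ 1 / 16 := min_le_left _ _
  have hw' : min (1 / 16) (δ / 4) ≤ δ / 4 := min_le_right _ _
  set w := min (1 / 16) (δ / 4)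
  refine (h z z' (by linarith) (by linarith) ?_).le
  have hq1 : (1 : ℝ) ≤ q := by exact_mod_cast hq
  rw [Prod.dist_eq, Real.dist_eq, Real.dist_eq]
  refine max_lt ?_ ?_
  · have h1 : |(q : ℝ) * z.1 - q * z'.1| ≤ 2 * w := by
      rw [abs_le] at *
      constructor <;> linarith
    have h2 : |z.1 - z'.1| ≤ |(q : ℝ) * z.1 - q * z'.1| := by
      rw [← mul_sub, abs_mul, abs_of_pos (by linarith : (0 : ℝ) < q)]
      nlinarith [abs_nonneg (z.1 - z'.1)]
    linarith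
  · rw [abs_lt]
    rw [abs_le] at hz2 hz2'
    constructor <;> linarith

/-- The maps from the pictures to picture `0`. -/
noncomputable def GG {w : ℕ → ℝ} (st : ∀ k, HStep (Lv.lv k) (w k)) : ℕ → HH
  | 0 => 1
  | k + 1 => GG st k * (st k).g

/-- What remains to be proved in block H. -/
def HGeo : Prop := ∀ (L : Lv) (w : ℝ), 0 < w → w ≤ 1 / 16 → Nonempty (HStep L w)

/-- The sequence of all levels. -/
structure Sys where
  /-- sizes of the boxes -/
  w : ℕ → ℝ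
  hw : ∀ k, 0 < w k
  hw' : ∀ k, w k ≤ 1 / 16
  /-- the steps -/
  st : ∀ k, HStep (Lv.lv k) (w k)
  small : ∀ k, ∀ j, ∀ z ∈ rc (Lv.lv k).q (w k) j, ∀ z' ∈ rc (Lv.lv k).q (w k) j,
    dist (GG st k z) (GG st k z') ≤ (1 / 2) ^ k

/-- One level of the recursion. -/
structure DD (k : ℕ) where
  /-- the map to picture `0` -/
  G : HH
  /-- the size of the boxes -/
  w : ℝ
  hw : 0 < w
  hw' : w ≤ 1 / 16
  small : ∀ j, ∀ z ∈ rc (Lv.lv k).q w j, ∀ z' ∈ rc (Lv.lv k).q w j, dist (G z) (G z') ≤ (1 / 2) ^ k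

/-- Choice of the size. -/
noncomputable def DD.ofG (k : ℕ) (G : HH) : DD k :=
  have h := HH.exists_w G (Lv.q_pos (Lv.lv k)) (ε := (1 / 2) ^ k) (by positivity)
  { G := G, w := h.choose, hw := h.choose_spec.1, hw' := h.choose_spec.2.1,
    small := h.choose_spec.2.2 }

/-- The recursion. -/
noncomputable def DDs (hG : HGeo) : (k : ℕ) → DD k
  | 0 => DD.ofG 0 1
  | k + 1 => DD.ofG (k + 1)
      ((DDs hG k).G * (hG (Lv.lv k) (DDs hG k).w (DDs hG k).hw (DDs hG k).hw').some.g)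

theorem exists_sys (hG : HGeo) : Nonempty Sys := by
  let w : ℕ → ℝ := fun k => (DDs hG k).w
  let st : ∀ k, HStep (Lv.lv k) (w k) := fun k =>
    (hG (Lv.lv k) (DDs hG k).w (DDs hG k).hw (DDs hG k).hw').some
  have hGG : ∀ k, GG st k = (DDs hG k).G := by
    intro k
    induction k with
    | zero => rfl
    | succ k ih =>
      show GG st k * (st k).g = _
      rw [ih]
      rfl
  exact ⟨{ w := w, hw := fun k => (DDs hG k).hw, hw' := fun k => (DDs hG k).hw', st := st,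
           small := fun k j z hz z' hz' => by
            rw [hGG k]
            exact (DDs hG k).small j z hz z' hz' }⟩

/-! ### Rectangles -/

theorem rc_mono {q : ℤ} {w w' : ℝ} (h : w ≤ w') (j : ℤ) : rc q w j ⊆ rc q w' j :=
  fun _ hz => ⟨hz.1.trans h, hz.2.trans h⟩

theorem rc_disj {q : ℤ} {j j' : ℤ} {z : Pl} (h : z ∈ rc q (1 / 16) j) (h' : z ∈ rc q (1 / 16) j') :
    j = j' := by
  have h1 := abs_le.1 h.1
  have h2 := abs_le.1 h'.1
  have h3 : (j : ℝ) < j' + 1 := by linarith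
  have h4 : (j' : ℝ) < j + 1 := by linarith
  have h5 : j < j' + 1 := by exact_mod_cast h3
  have h6 : j' < j + 1 := by exact_mod_cast h4
  omega

theorem rc_rot {q : ℤ} (hq : 0 < q) {w : ℝ} {j p : ℤ} {z : Pl} (h : z ∈ rc q w j) :
    HH.rot (p / q) z ∈ rc q w (j + 2 * p) := by
  have hq' : (q : ℝ) ≠ 0 := by exact_mod_cast hq.ne'
  refine ⟨?_, h.2⟩
  have h1 : (q : ℝ) * (HH.rot (p / q) z).1 - ((j + 2 * p : ℤ) : ℝ) / 2 = q * z.1 - j / 2 := by
    rw [HH.rot_apply]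
    push_cast
    field_simp
    ring
  rw [h1]
  exact h.1

theorem rc_turn {q : ℤ} {w : ℝ} {j n : ℤ} {z : Pl} :
    (z.1 + n, z.2) ∈ rc q w (j + 2 * q * n) ↔ z ∈ rc q w j := by
  have h1 : (q : ℝ) * (z.1 + n) - ((j + 2 * q * n : ℤ) : ℝ) / 2 = q * z.1 - j / 2 := by
    push_cast
    ring
  show |(q : ℝ) * (z.1 + n) - ((j + 2 * q * n : ℤ) : ℝ) / 2| ≤ w ∧ _ ↔ _
  rw [h1]
  rfl

theorem isClosed_rc (q : ℤ) (w : ℝ) (j : ℤ) : IsClosed (rc q w j) := by
  have h1 : Continuous fun z : Pl => |(q : ℝ) * z.1 - j / 2| := by fun_prop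
  have h2 : Continuous fun z : Pl => |z.2| := by fun_prop
  exact (isClosed_le h1 continuous_const).inter (isClosed_le h2 continuous_const)

/-- The double sector number `n` of level `L`. -/
def DS (L : Lv) (n : ℤ) : Set Pl := {z | |L.q * z.1 - (L.ex - 1 / 4) - n * L.q| < 1 ∧ |z.2| < 1 / 8}

namespace Sys

variable (S : Sys)

/-- picture `k` to picture `0` -/
noncomputable def G (k : ℕ) : HH := GG S.st k

/-- picture `k + 1` to picture `k` -/
noncomputable def g (k : ℕ) : HH := (S.st k).g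

/-- correction in picture `k` -/
noncomputable def h (k : ℕ) : HH := (S.st k).h

theorem G_zero : S.G 0 = 1 := rfl

theorem G_succ (k : ℕ) : S.G (k + 1) = S.G k * S.g k := rfl

/-- the map of picture `k` -/
noncomputable def F (S : Sys) : ℕ → HH
  | 0 => HH.rot ((Lv.lv 0).p / (Lv.lv 0).q)
  | k + 1 => (S.g k)⁻¹ * F S k * S.h k * S.g k

theorem F_succ (k : ℕ) : S.F (k + 1) = (S.g k)⁻¹ * S.F k * S.h k * S.g k := rfl

/-- the approximations in picture `0` -/
noncomputable def f (k : ℕ) : HH := S.G k * S.F k * (S.G k)⁻¹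

/-- the corrections in picture `0` -/
noncomputable def psi (k : ℕ) : HH := S.G k * S.h k * (S.G k)⁻¹

theorem f_succ (k : ℕ) : S.f (k + 1) = S.f k * S.psi k := by
  unfold f psi
  rw [G_succ, F_succ]
  group

/-- On `|y| ≤ 1` the map of picture `k` is a rotation. -/
theorem F_rot (k : ℕ) (z : Pl) (hz : |z.2| ≤ 1) :
    S.F k z = HH.rot ((Lv.lv k).p / (Lv.lv k).q) z := by
  induction k generalizing z with
  | zero => rfl
  | succ k ih =>
    have h1 := (S.st k).conj z hz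
    have h2 := (S.st k).mid (HH.rot ((Lv.lv k).next.p / (Lv.lv k).next.q) z) hz
    rw [← h1] at h2
    have h3 : |(S.h k (S.g k z)).2| ≤ 1 := by
      have h4 : (HH.rot ((Lv.lv k).p / (Lv.lv k).q) ((S.st k).h ((S.st k).g z))).2
          = (S.h k (S.g k z)).2 := rfl
      rw [h4] at h2
      linarith
    show (S.g k)⁻¹ (S.F k (S.h k (S.g k z))) = _
    rw [ih _ h3]
    have h5 : HH.rot ((Lv.lv k).p / (Lv.lv k).q) (S.h k (S.g k z))
        = S.g k (HH.rot ((Lv.lv k).next.p / (Lv.lv k).next.q) z) := h1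
    rw [h5, HH.inv_apply_self]
    rfl

theorem rot_inv (a : ℝ) : (HH.rot a)⁻¹ = HH.rot (-a) := by
  rw [inv_eq_iff_mul_eq_one, ← HH.rot_add, add_neg_cancel, HH.rot_zero]

theorem F_inv_rot (k : ℕ) (z : Pl) (hz : |z.2| ≤ 1) :
    (S.F k)⁻¹ z = HH.rot (-((Lv.lv k).p / (Lv.lv k).q)) z := by
  apply (S.F k).injective
  rw [HH.apply_inv_self, S.F_rot k _ (by simpa using hz)]
  simp

/-! ### Support of the corrections -/

theorem h_fix (k : ℕ) {z : Pl} (hz : ∀ n, z ∉ DS (Lv.lv k) n) : S.h k z = z := by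
  refine (S.st k).supp z fun n hn => ?_
  by_contra h1
  push Not at h1
  exact hz n ⟨hn, h1⟩

theorem h_mem (k : ℕ) {n : ℤ} {z : Pl} (hz : z ∈ DS (Lv.lv k) n) : S.h k z ∈ DS (Lv.lv k) n := by
  set L := Lv.lv k with hL
  have hq3 : (3 : ℝ) ≤ L.q := by
    have h1 := L.hrq
    have h2 := L.hr
    have h3 := L.odd
    have : 3 ≤ L.q := by omega
    exact_mod_cast this
  -- points of the double sectors are mapped to double sectors
  have key : ∀ z : Pl, (∃ m, z ∈ DS L m) → ∃ m, S.h k z ∈ DS L m := by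
    rintro z ⟨m, hm⟩
    by_contra h1
    push Not at h1
    have h2 := S.h_fix k h1
    have h3 := (S.h k).injective h2
    rw [h3] at h1
    exact h1 m hm
  let φ : ℝ → ℝ := fun t =>
    |L.q * (S.h k (z.1, z.2 + t * (1 / 8 - z.2))).1 - (L.ex - 1 / 4) - n * L.q|
  have hφ : Continuous φ := by
    have h1 : Continuous fun t : ℝ => S.h k (z.1, z.2 + t * (1 / 8 - z.2)) :=
      (S.h k).continuous.comp (by fun_prop)
    have h2 := continuous_fst.comp h1
    exact (((continuous_const.mul h2).sub continuous_const).sub continuous_const).abs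
  have hz2 := abs_lt.1 hz.2
  have hin : ∀ t : ℝ, 0 ≤ t → t < 1 → (z.1, z.2 + t * (1 / 8 - z.2)) ∈ DS L n := by
    intro t h0 h1
    refine ⟨hz.1, ?_⟩
    rw [abs_lt]
    constructor <;> nlinarith
  have hne : ∀ t : ℝ, 0 ≤ t → t < 1 → φ t ≠ 3 / 2 := by
    intro t h0 h1 h2
    obtain ⟨m, hm, -⟩ := key _ ⟨n, hin t h0 h1⟩
    simp only [φ] at h2
    set a : ℝ := L.q * (S.h k (z.1, z.2 + t * (1 / 8 - z.2))).1 - (L.ex - 1 / 4) with ha
    have h3 : a - n * L.q = (a - m * L.q) + (m - n) * L.q := by ring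
    rw [h3] at h2
    have h4 := abs_lt.1 hm
    rcases lt_trichotomy m n with h5 | h5 | h5
    · have h6 : (m : ℝ) ≤ n - 1 := by exact_mod_cast Int.le_sub_one_of_lt h5
      have h7 : ((m : ℝ) - n) * L.q ≤ -3 := by nlinarith
      have h8 : a - m * L.q + (m - n) * L.q < -2 := by linarith
      rw [abs_of_neg (by linarith)] at h2
      linarith
    · rw [h5, sub_self, zero_mul, add_zero] at h2
      rw [h5] at hm
      linarith
    · have h6 : (n : ℝ) + 1 ≤ m := by exact_mod_cast h5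
      have h7 : 3 ≤ ((m : ℝ) - n) * L.q := by nlinarith
      have h8 : 2 < a - m * L.q + (m - n) * L.q := by linarith
      rw [abs_of_pos (by linarith)] at h2
      linarith
  have hφ1 : φ 1 < 1 := by
    have h1 : S.h k (z.1, z.2 + 1 * (1 / 8 - z.2)) = (z.1, z.2 + 1 * (1 / 8 - z.2)) := by
      refine S.h_fix k fun m hm => ?_
      have h2 := hm.2
      simp only [one_mul, add_sub_cancel] at h2
      rw [abs_of_pos (by norm_num)] at h2
      exact lt_irrefl _ h2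
    simp only [φ]
    rw [h1]
    exact hz.1
  have hφ0 : φ 0 < 1 := by
    by_contra h1
    push Not at h1
    -- `φ 0` is at least `2`
    have h2 : 3 / 2 < φ 0 := by
      obtain ⟨m, hm, -⟩ := key _ ⟨n, hin 0 le_rfl zero_lt_one⟩
      simp only [φ] at h1 ⊢
      set a : ℝ := L.q * (S.h k (z.1, z.2 + 0 * (1 / 8 - z.2))).1 - (L.ex - 1 / 4) with ha
      have h3 : a - n * L.q = (a - m * L.q) + (m - n) * L.q := by ring
      rw [h3] at h1 ⊢
      have h4 := abs_lt.1 hm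
      rcases lt_trichotomy m n with h5 | h5 | h5
      · have h6 : (m : ℝ) ≤ n - 1 := by exact_mod_cast Int.le_sub_one_of_lt h5
        have h7 : ((m : ℝ) - n) * L.q ≤ -3 := by nlinarith
        have h8 : a - m * L.q + (m - n) * L.q < -2 := by linarith
        rw [abs_of_neg (by linarith)]
        linarith
      · rw [h5, sub_self, zero_mul, add_zero] at h1
        rw [h5] at hm
        linarith
      · have h6 : (n : ℝ) + 1 ≤ m := by exact_mod_cast h5
        have h7 : 3 ≤ ((m : ℝ) - n) * L.q := by nlinarith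
        have h8 : 2 < a - m * L.q + (m - n) * L.q := by linarith
        rw [abs_of_pos (by linarith)]
        linarith
    have h3 : (3 / 2 : ℝ) ∈ Set.Icc (φ 1) (φ 0) := ⟨by linarith, h2.le⟩
    obtain ⟨t, ht, hts⟩ := intermediate_value_Icc' zero_le_one hφ.continuousOn h3
    rcases ht.2.lt_or_eq with h4 | h4
    · exact hne t ht.1 h4 hts
    · rw [h4] at hts
      linarith
  obtain ⟨m, -, hm⟩ := key z ⟨n, hz⟩
  refine ⟨?_, hm⟩
  have h1 : (z.1, z.2 + 0 * (1 / 8 - z.2)) = z := by simp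
  simp only [φ] at hφ0
  rwa [h1] at hφ0

theorem h_inv_fix (k : ℕ) {z : Pl} (hz : ∀ n, z ∉ DS (Lv.lv k) n) : (S.h k)⁻¹ z = z := by
  apply (S.h k).injective
  rw [HH.apply_inv_self, S.h_fix k hz]

theorem h_inv_mem (k : ℕ) {n : ℤ} {z : Pl} (hz : z ∈ DS (Lv.lv k) n) :
    (S.h k)⁻¹ z ∈ DS (Lv.lv k) n := by
  have hq3 : (3 : ℝ) ≤ (Lv.lv k).q := by
    have h1 := (Lv.lv k).hrq
    have h2 := (Lv.lv k).hr
    have h3 := (Lv.lv k).odd
    have : 3 ≤ (Lv.lv k).q := by omega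
    exact_mod_cast this
  by_cases h1 : ∃ m, (S.h k)⁻¹ z ∈ DS (Lv.lv k) m
  · obtain ⟨m, hm⟩ := h1
    have h2 := S.h_mem k hm
    rw [HH.apply_inv_self] at h2
    have h3 : m = n := by
      have h4 := abs_lt.1 h2.1
      have h5 := abs_lt.1 hz.1
      rcases lt_trichotomy m n with h6 | h6 | h6
      · have h7 : (m : ℝ) + 1 ≤ n := by exact_mod_cast h6
        nlinarith
      · exact h6
      · have h7 : (n : ℝ) + 1 ≤ m := by exact_mod_cast h6
        nlinarith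
    rwa [← h3]
  · push Not at h1
    have h2 := S.h_fix k h1
    rw [HH.apply_inv_self] at h2
    rwa [← h2]

/-! ### Nested boxes -/

/-- the parent of a box -/
def par (k : ℕ) : ℤ → ℤ := (S.st k).par

theorem g_box (k : ℕ) {j : ℤ} {z : Pl} (hz : z ∈ rc (Lv.lv (k + 1)).q (1 / 16) j) :
    S.g k z ∈ rc (Lv.lv k).q (S.w k) (S.par k j) := (S.st k).box j z hz

/-- The boxes of the deeper levels lie in boxes. -/
theorem deep (k n : ℕ) (j : ℤ) : ∃ j' : ℤ, ∀ z ∈ rc (Lv.lv (k + n)).q (1 / 16) j,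
    (S.G k)⁻¹ (S.G (k + n) z) ∈ rc (Lv.lv k).q (1 / 16) j' := by
  induction n generalizing j with
  | zero => exact ⟨j, fun z hz => by simpa using hz⟩
  | succ n ih =>
    obtain ⟨j', hj'⟩ := ih (S.par (k + n) j)
    refine ⟨j', fun z hz => ?_⟩
    have h1 := rc_mono (S.hw' (k + n)) _ (S.g_box (k + n) hz)
    exact hj' _ h1

theorem turn_mem_DS {L : Lv} {n : ℤ} {z : Pl} (hz : z ∈ DS L n) : (z.1 + (-n : ℤ), z.2) ∈ DS L 0 := by
  refine ⟨?_, hz.2⟩
  have h1 : (L.q : ℝ) * (z.1 + ((-n : ℤ) : ℝ)) - (L.ex - 1 / 4) - ((0 : ℤ) : ℝ) * L.q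
      = L.q * z.1 - (L.ex - 1 / 4) - n * L.q := by
    push_cast
    ring
  show |(L.q : ℝ) * (z.1 + ((-n : ℤ) : ℝ)) - (L.ex - 1 / 4) - ((0 : ℤ) : ℝ) * L.q| < 1
  rw [h1]
  exact hz.1

/-- The double sectors of level `k + 1` and their images under the rotation lie in boxes. -/
theorem sect (k : ℕ) (n : ℤ) : (∃ j : ℤ, ∀ z ∈ DS (Lv.lv (k + 1)) n,
      S.g k z ∈ rc (Lv.lv k).q (S.w k) j) ∧
    ∃ j : ℤ, ∀ z ∈ DS (Lv.lv (k + 1)) n,
      S.g k (HH.rot ((Lv.lv (k + 1)).p / (Lv.lv (k + 1)).q) z) ∈ rc (Lv.lv k).q (S.w k) j := by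
  have hq : ((Lv.lv k).next.q : ℝ) ≠ 0 := by
    have := (Lv.lv k).next.q_pos
    exact_mod_cast this.ne'
  have back : ∀ (j : ℤ) (z : Pl), S.g k (z.1 + (-n : ℤ), z.2) ∈ rc (Lv.lv k).q (S.w k) j →
      S.g k z ∈ rc (Lv.lv k).q (S.w k) (j + 2 * (Lv.lv k).q * n) := by
    intro j z hz
    rw [(S.g k).turn_int z (-n)] at hz
    have h1 := (rc_turn (n := n)).2 hz
    have h2 : ((((S.g k) z).1 + ((-n : ℤ) : ℝ)) + (n : ℝ), ((S.g k) z).2) = S.g k z := by
      push_cast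
      ext <;> simp
    simp only at h1
    rwa [h2] at h1
  constructor
  · obtain ⟨v, hv⟩ := (S.st k).sect _ (Or.inl rfl)
    refine ⟨2 * v + 1 + 2 * (Lv.lv k).q * n, fun z hz => back _ z ?_⟩
    have h1 := turn_mem_DS hz
    refine hv _ ?_ h1.2.le
    have h2 := h1.1.le
    simp only [Int.cast_zero, zero_mul, sub_zero] at h2
    exact h2
  · obtain ⟨v, hv⟩ := (S.st k).sect _ (Or.inr rfl)
    refine ⟨2 * v + 1 + 2 * (Lv.lv k).q * n, fun z hz => back _ _ ?_⟩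
    have h1 := turn_mem_DS hz
    refine hv _ ?_ h1.2.le
    have h2 := h1.1.le
    simp only [Int.cast_zero, zero_mul, sub_zero] at h2
    have h3 : ((Lv.lv k).next.q : ℝ) * (((HH.rot ((Lv.lv (k + 1)).p / (Lv.lv (k + 1)).q) z).1
        + ((-n : ℤ) : ℝ)), (HH.rot ((Lv.lv (k + 1)).p / (Lv.lv (k + 1)).q) z).2).1
        - ((((Lv.lv k).next.ex + (Lv.lv k).next.p : ℤ) : ℝ) - 1 / 4)
        = (Lv.lv k).next.q * (z.1 + ((-n : ℤ) : ℝ)) - ((Lv.lv k).next.ex - 1 / 4) := by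
      have h4 : (HH.rot ((Lv.lv (k + 1)).p / (Lv.lv (k + 1)).q) z).1
          = z.1 + (Lv.lv k).next.p / (Lv.lv k).next.q := rfl
      rw [h4]
      push_cast
      field_simp
      ring
    rw [h3]
    exact h2

/-- The corrections of the levels `> k` act inside the boxes of level `k`. -/
theorem psi_deep (k n : ℕ) (z : Pl) : S.psi (k + n + 1) z = z ∨
    ∃ j : ℤ, (S.G k)⁻¹ z ∈ rc (Lv.lv k).q (1 / 16) j ∧
      (S.G k)⁻¹ (S.psi (k + n + 1) z) ∈ rc (Lv.lv k).q (1 / 16) j := by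
  by_cases h1 : ∃ m, (S.G (k + n + 1))⁻¹ z ∈ DS (Lv.lv (k + n + 1)) m
  · right
    obtain ⟨m, hm⟩ := h1
    have h2 := S.h_mem _ hm
    obtain ⟨⟨j, hj⟩, -⟩ := S.sect (k + n) m
    obtain ⟨j', hj'⟩ := S.deep k n j
    refine ⟨j', ?_, ?_⟩
    · have h3 := hj' _ (rc_mono (S.hw' (k + n)) _ (hj _ hm))
      have h4 : S.G (k + n) (S.g (k + n) ((S.G (k + n + 1))⁻¹ z)) = z := by
        have h5 : S.G (k + n + 1) ((S.G (k + n + 1))⁻¹ z) = z := HH.apply_inv_self _ _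
        exact h5
      rwa [h4] at h3
    · exact hj' _ (rc_mono (S.hw' (k + n)) _ (hj _ h2))
  · left
    push Not at h1
    have h2 := S.h_fix _ h1
    show S.G (k + n + 1) (S.h (k + n + 1) ((S.G (k + n + 1))⁻¹ z)) = z
    rw [h2, HH.apply_inv_self]

theorem psi_box {k l : ℕ} (hl : k < l) {z : Pl} {j : ℤ}
    (hz : (S.G k)⁻¹ z ∈ rc (Lv.lv k).q (1 / 16) j) :
    (S.G k)⁻¹ (S.psi l z) ∈ rc (Lv.lv k).q (1 / 16) j := by
  obtain ⟨n, rfl⟩ : ∃ n, l = k + n + 1 := ⟨l - k - 1, by omega⟩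
  rcases S.psi_deep k n z with h | ⟨j', h1, h2⟩
  · rwa [h]
  · rwa [rc_disj hz h1]

theorem psi_fix {k l : ℕ} (hl : k < l) {z : Pl}
    (hz : ∀ j, (S.G k)⁻¹ z ∉ rc (Lv.lv k).q (1 / 16) j) : S.psi l z = z := by
  obtain ⟨n, rfl⟩ : ∃ n, l = k + n + 1 := ⟨l - k - 1, by omega⟩
  rcases S.psi_deep k n z with h | ⟨j', h1, -⟩
  · exact h
  · exact absurd h1 (hz j')

/-! ### The limit -/

theorem dist_f_succ (k : ℕ) (z : Pl) : dist (S.f k z) (S.f (k + 1) z) ≤ 2 * (1 / 2) ^ k := by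
  have e : S.f (k + 1) z = S.G k (S.F k (S.h k ((S.G k)⁻¹ z))) := by
    rw [f_succ]
    show S.G k (S.F k ((S.G k)⁻¹ (S.G k (S.h k ((S.G k)⁻¹ z))))) = _
    rw [HH.inv_apply_self]
  have e' : S.f k z = S.G k (S.F k ((S.G k)⁻¹ z)) := rfl
  rw [e, e']
  set z' := (S.G k)⁻¹ z
  by_cases h1 : ∃ m, z' ∈ DS (Lv.lv k) m
  · obtain ⟨m, hm⟩ := h1
    have hm' := S.h_mem _ hm
    have hy1 : |z'.2| ≤ 1 := hm.2.le.trans (by norm_num)
    have hy2 : |(S.h k z').2| ≤ 1 := hm'.2.le.trans (by norm_num)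
    rw [S.F_rot k _ hy1, S.F_rot k _ hy2]
    cases k with
    | zero =>
      have hq : (3 : ℝ) = (Lv.lv 0).q := by norm_num [Lv.lv, Lv.base]
      have h2 := abs_lt.1 hm.1
      have h3 := abs_lt.1 hm'.1
      have h4 := abs_lt.1 hm.2
      have h5 := abs_lt.1 hm'.2
      rw [← hq] at h2 h3
      show dist (HH.rot _ z') (HH.rot _ (S.h 0 z')) ≤ _
      rw [Prod.dist_eq, Real.dist_eq, Real.dist_eq, HH.rot_apply, HH.rot_apply]
      simp only [add_sub_add_right_eq_sub, pow_zero, mul_one]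
      refine max_le ?_ ?_ <;> rw [abs_le] <;> constructor <;> linarith
    | succ k =>
      obtain ⟨-, j, hj⟩ := S.sect k m
      have := S.small k j _ (hj _ hm) _ (hj _ hm')
      refine this.trans (le_of_eq ?_)
      rw [pow_succ]
      ring
  · push Not at h1
    rw [S.h_fix k h1, dist_self]
    positivity

theorem dist_f_inv_succ (k : ℕ) (z : Pl) :
    dist ((S.f k)⁻¹ z) ((S.f (k + 1))⁻¹ z) ≤ 2 * (1 / 2) ^ k := by
  have e' : (S.f k)⁻¹ z = S.G k ((S.F k)⁻¹ ((S.G k)⁻¹ z)) := by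
    have : (S.f k)⁻¹ = S.G k * (S.F k)⁻¹ * (S.G k)⁻¹ := by unfold f; group
    rw [this]
    rfl
  have e : (S.f (k + 1))⁻¹ z = S.G k ((S.h k)⁻¹ ((S.F k)⁻¹ ((S.G k)⁻¹ z))) := by
    have : (S.f (k + 1))⁻¹ = S.G k * (S.h k)⁻¹ * (S.F k)⁻¹ * (S.G k)⁻¹ := by
      rw [f_succ]; unfold f psi; group
    rw [this]
    rfl
  rw [e, e']
  set z' := (S.F k)⁻¹ ((S.G k)⁻¹ z)
  by_cases h1 : ∃ m, z' ∈ DS (Lv.lv k) m
  · obtain ⟨m, hm⟩ := h1
    have hm' := S.h_inv_mem _ hm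
    cases k with
    | zero =>
      have hq : (3 : ℝ) = (Lv.lv 0).q := by norm_num [Lv.lv, Lv.base]
      have h2 := abs_lt.1 hm.1
      have h3 := abs_lt.1 hm'.1
      have h4 := abs_lt.1 hm.2
      have h5 := abs_lt.1 hm'.2
      rw [← hq] at h2 h3
      show dist z' ((S.h 0)⁻¹ z') ≤ _
      rw [Prod.dist_eq, Real.dist_eq, Real.dist_eq]
      simp only [pow_zero, mul_one]
      refine max_le ?_ ?_ <;> rw [abs_le] <;> constructor <;> linarith
    | succ k =>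
      obtain ⟨⟨j, hj⟩, -⟩ := S.sect k m
      have := S.small k j _ (hj _ hm) _ (hj _ hm')
      refine this.trans (le_of_eq ?_)
      rw [pow_succ]
      ring
  · push Not at h1
    rw [S.h_inv_fix k h1, dist_self]
    positivity

theorem dist_of_succ {a : ℕ → Pl} (h : ∀ k, dist (a k) (a (k + 1)) ≤ 2 * (1 / 2) ^ k) (k l : ℕ)
    (hkl : k ≤ l) : dist (a k) (a l) ≤ 4 * (1 / 2) ^ k := by
  obtain ⟨n, rfl⟩ := Nat.exists_eq_add_of_le hkl
  have key : dist (a k) (a (k + n)) ≤ 4 * (1 / 2) ^ k - 4 * (1 / 2) ^ (k + n) := by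
    clear hkl
    induction n with
    | zero => simp
    | succ n ih =>
      have h1 := h (k + n)
      have h2 := dist_triangle (a k) (a (k + n)) (a (k + n + 1))
      have h3 : (4 : ℝ) * (1 / 2) ^ (k + (n + 1)) = 2 * (1 / 2) ^ (k + n) := by
        rw [← add_assoc, pow_succ]; ring
      rw [h3, ← add_assoc]
      linarith
  have : (0 : ℝ) ≤ 4 * (1 / 2) ^ (k + n) := by positivity
  linarith

theorem exists_lim : ∃ F : HH, (∀ k z, dist (S.f k z) (F z) ≤ 4 * (1 / 2) ^ k) ∧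
    ∀ k z, dist ((S.f k)⁻¹ z) (F⁻¹ z) ≤ 4 * (1 / 2) ^ k := by
  refine HH.exists_limit S.f (fun k => 4 * (1 / 2) ^ k) ?_ ?_ ?_
  · have := (tendsto_pow_atTop_nhds_zero_of_lt_one (r := (1 / 2 : ℝ)) (by norm_num)
      (by norm_num)).const_mul 4
    simpa using this
  · intro k l hkl z
    exact dist_of_succ (a := fun k => S.f k z) (fun k => S.dist_f_succ k z) k l hkl
  · intro k l hkl z
    exact dist_of_succ (a := fun k => (S.f k)⁻¹ z) (fun k => S.dist_f_inv_succ k z) k l hkl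

/-- The limit homeomorphism (in the cover). -/
noncomputable def lim : HH := S.exists_lim.choose

theorem dist_lim (k : ℕ) (z : Pl) : dist (S.f k z) (S.lim z) ≤ 4 * (1 / 2) ^ k :=
  S.exists_lim.choose_spec.1 k z

theorem dist_lim_inv (k : ℕ) (z : Pl) : dist ((S.f k)⁻¹ z) (S.lim⁻¹ z) ≤ 4 * (1 / 2) ^ k :=
  S.exists_lim.choose_spec.2 k z

theorem tendsto_bound : Tendsto (fun k : ℕ => (4 : ℝ) * (1 / 2) ^ k) atTop (𝓝 0) := by
  have := (tendsto_pow_atTop_nhds_zero_of_lt_one (r := (1 / 2 : ℝ)) (by norm_num)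
    (by norm_num)).const_mul 4
  simpa using this

theorem tendsto_f (z : Pl) : Tendsto (fun k => S.f k z) atTop (𝓝 (S.lim z)) := by
  rw [tendsto_iff_dist_tendsto_zero]
  exact squeeze_zero (fun _ => dist_nonneg) (fun k => S.dist_lim k z) tendsto_bound

theorem tendsto_f_inv (z : Pl) : Tendsto (fun k => (S.f k)⁻¹ z) atTop (𝓝 (S.lim⁻¹ z)) := by
  rw [tendsto_iff_dist_tendsto_zero]
  exact squeeze_zero (fun _ => dist_nonneg) (fun k => S.dist_lim_inv k z) tendsto_bound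

/-! ### The limit in picture `k` -/

/-- The deeper corrections, in picture `k`. -/
noncomputable def e (k : ℕ) : HH := (S.G k)⁻¹ * (S.f (k + 1))⁻¹ * S.lim * S.G k

/-- The limit in picture `k`. -/
noncomputable def phi (k : ℕ) : HH := (S.G k)⁻¹ * S.lim * S.G k

theorem phi_eq (k : ℕ) : S.phi k = S.F k * S.h k * S.e k := by
  unfold phi e
  rw [f_succ]
  unfold f psi
  group

theorem f_succ_apply (k : ℕ) (z : Pl) : S.f (k + 1) z = S.f k (S.psi k z) := by
  rw [f_succ]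
  rfl

theorem f_box {k : ℕ} {j : ℤ} (n : ℕ) {z : Pl} (hz : (S.G k)⁻¹ z ∈ rc (Lv.lv k).q (1 / 16) j) :
    (S.G k)⁻¹ ((S.f (k + 1))⁻¹ (S.f (k + 1 + n) z)) ∈ rc (Lv.lv k).q (1 / 16) j := by
  induction n generalizing z with
  | zero =>
    rw [add_zero, HH.inv_apply_self]
    exact hz
  | succ n ih =>
    rw [← add_assoc, f_succ_apply]
    exact ih (S.psi_box (by omega) hz)

theorem f_fix {k : ℕ} (n : ℕ) {z : Pl} (hz : ∀ j, (S.G k)⁻¹ z ∉ rc (Lv.lv k).q (1 / 16) j) :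
    (S.f (k + 1))⁻¹ (S.f (k + 1 + n) z) = z := by
  induction n with
  | zero => rw [add_zero, HH.inv_apply_self]
  | succ n ih =>
    rw [← add_assoc, f_succ_apply, S.psi_fix (by omega) hz]
    exact ih

theorem e_apply (k : ℕ) (z : Pl) :
    S.e k z = (S.G k)⁻¹ ((S.f (k + 1))⁻¹ (S.lim (S.G k z))) := rfl

theorem tendsto_e (k : ℕ) (z : Pl) :
    Tendsto (fun n => (S.G k)⁻¹ ((S.f (k + 1))⁻¹ (S.f (k + 1 + n) (S.G k z)))) atTop
      (𝓝 (S.e k z)) := by
  have h3 := (tendsto_add_atTop_iff_nat (k + 1)).2 (S.tendsto_f (S.G k z))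
  have h4 : Continuous fun w : Pl => (S.G k)⁻¹ ((S.f (k + 1))⁻¹ w) :=
    (S.G k)⁻¹.continuous.comp (S.f (k + 1))⁻¹.continuous
  have h5 := (h4.tendsto (S.lim (S.G k z))).comp h3
  rw [e_apply]
  refine h5.congr fun n => ?_
  rw [add_comm (k + 1) n]
  rfl

theorem e_box (k : ℕ) {j : ℤ} {z : Pl} (hz : z ∈ rc (Lv.lv k).q (1 / 16) j) :
    S.e k z ∈ rc (Lv.lv k).q (1 / 16) j := by
  have h1 : (S.G k)⁻¹ (S.G k z) ∈ rc (Lv.lv k).q (1 / 16) j := by
    rw [HH.inv_apply_self]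
    exact hz
  exact (isClosed_rc _ _ _).mem_of_tendsto (S.tendsto_e k z)
    (Eventually.of_forall fun n => S.f_box n h1)

theorem e_fix (k : ℕ) {z : Pl} (hz : ∀ j, z ∉ rc (Lv.lv k).q (1 / 16) j) : S.e k z = z := by
  refine tendsto_nhds_unique (S.tendsto_e k z) ?_
  refine tendsto_const_nhds.congr fun n => ?_
  rw [S.f_fix n (by rw [HH.inv_apply_self]; exact hz), HH.inv_apply_self]

theorem e_inv_fix (k : ℕ) {z : Pl} (hz : ∀ j, z ∉ rc (Lv.lv k).q (1 / 16) j) :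
    (S.e k)⁻¹ z = z := by
  apply (S.e k).injective
  rw [HH.apply_inv_self, S.e_fix k hz]

theorem e_inv_box (k : ℕ) {j : ℤ} {z : Pl} (hz : z ∈ rc (Lv.lv k).q (1 / 16) j) :
    (S.e k)⁻¹ z ∈ rc (Lv.lv k).q (1 / 16) j := by
  by_cases h1 : ∃ m, (S.e k)⁻¹ z ∈ rc (Lv.lv k).q (1 / 16) m
  · obtain ⟨m, hm⟩ := h1
    have h2 := S.e_box k hm
    rw [HH.apply_inv_self] at h2
    rwa [rc_disj hz h2]
  · push Not at h1
    have h2 := S.e_fix k h1
    rw [HH.apply_inv_self] at h2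
    rwa [← h2]

end Sys

end Pool.Agent.RAY
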