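import Pool.Agent.RAY.Dyn1

/-!
# RAY, block D, part 2: the limit in picture `k`, columns, and the Cantor set in the cover
-/

set_option autoImplicit false

open Topology Filter

namespace Pool.Agent.RAY

/-- A homeomorphism whose inverse preserves the strip maps the upper region to itself. -/
theorem HH.top_of_strip (f : HH) (h : ∀ z : Pl, |z.2| ≤ 1 → |(f⁻¹ z).2| ≤ 1) {z : Pl}
    (hz : 1 < z.2) : 1 < (f z).2 := by
  by_contra h1
  push Not at h1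
  obtain ⟨B, hB0, hB⟩ := f.exists_bound
  let φ : ℝ → ℝ := fun t => (f (z.1, t)).2
  have hφ : Continuous φ := continuous_snd.comp (f.continuous.comp (by fun_prop))
  have h2 : φ z.2 ≤ 1 := h1
  have h3 : 1 ≤ φ (z.2 + B + 1) := by
    have := (abs_le.1 (hB (z.1, z.2 + B + 1))).1
    simp only [φ]
    simp only at this
    linarith
  obtain ⟨t, ht, hts⟩ := intermediate_value_Icc (by linarith : z.2 ≤ z.2 + B + 1)
    hφ.continuousOn ⟨h2, h3⟩
  have h4 := h (f (z.1, t)) (by rw [show (f (z.1, t)).2 = 1 from hts]; simp)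
  rw [HH.inv_apply_self] at h4
  have h5 := (abs_le.1 h4).2
  have h6 := ht.1
  simp only at h5
  linarith

/-- The column above the box `π_i`. -/
def Col (q : ℤ) (i : ℤ) : Set Pl := {z | |q * z.1 - i| ≤ 1 / 16 ∧ -(1 / 16) ≤ z.2 ∧ z.2 ≤ 1}

theorem Col_strip {q i : ℤ} {z : Pl} (hz : z ∈ Col q i) : |z.2| ≤ 1 := by
  rw [abs_le]
  constructor <;> linarith [hz.2.1, hz.2.2]

theorem Col_rot {q : ℤ} (hq : 0 < q) {i p : ℤ} {z : Pl} (h : z ∈ Col q i) :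
    HH.rot (p / q) z ∈ Col q (i + p) := by
  have hq' : (q : ℝ) ≠ 0 := by exact_mod_cast hq.ne'
  refine ⟨?_, h.2⟩
  have h1 : (q : ℝ) * (HH.rot (p / q) z).1 - ((i + p : ℤ) : ℝ) = q * z.1 - i := by
    rw [HH.rot_apply]
    push_cast
    field_simp
    ring
  rw [h1]
  exact h.1

theorem Col_of_rc {q i : ℤ} {z : Pl} (h : z ∈ rc q (1 / 16) (2 * i)) : z ∈ Col q i := by
  have h1 := h.1
  have h2 := abs_le.1 h.2
  push_cast at h1
  rw [mul_div_cancel_left₀ _ (two_ne_zero' ℝ)] at h1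
  exact ⟨h1, h2.1, by linarith⟩

theorem Col_cases {q i : ℤ} {z : Pl} (h : z ∈ Col q i) :
    z ∈ rc q (1 / 16) (2 * i) ∨ (1 / 16 < z.2 ∧ ∀ j, z ∉ rc q (1 / 16) j) := by
  by_cases h1 : z.2 ≤ 1 / 16
  · left
    refine ⟨?_, abs_le.2 ⟨h.2.1, h1⟩⟩
    push_cast
    rw [mul_div_cancel_left₀ _ (two_ne_zero' ℝ)]
    exact h.1
  · right
    push Not at h1
    refine ⟨h1, fun j hj => ?_⟩
    have := (abs_le.1 hj.2).2
    linarith

/-- The slot `i` is not exceptional. -/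
def Reg (L : Lv) (i : ℤ) : Prop := ∀ c : ℤ, i ≠ L.ex + c * L.q ∧ i ≠ L.ex - 1 + c * L.q

theorem Reg.not_DS {L : Lv} {i : ℤ} (hi : Reg L i) {z : Pl} (hz : z ∈ Col L.q i) (n : ℤ) :
    z ∉ DS L n := by
  intro h1
  have h2 := abs_le.1 hz.1
  have h3 := abs_lt.1 h1.1
  obtain ⟨h4, h5⟩ := hi n
  have h6 : ((i - L.ex - n * L.q : ℤ) : ℝ) < 1 := by
    push_cast
    linarith
  have h7 : (-2 : ℝ) < ((i - L.ex - n * L.q : ℤ) : ℝ) := by
    push_cast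
    linarith
  have h8 : i - L.ex - n * L.q < 1 := by exact_mod_cast h6
  have h9 : -2 < i - L.ex - n * L.q := by exact_mod_cast h7
  omega

namespace Sys

variable (S : Sys)

theorem F_strip (k : ℕ) {z : Pl} (hz : |z.2| ≤ 1) : |(S.F k z).2| ≤ 1 := by
  rw [S.F_rot k z hz]
  exact hz

theorem F_inv_strip (k : ℕ) {z : Pl} (hz : |z.2| ≤ 1) : |((S.F k)⁻¹ z).2| ≤ 1 := by
  rw [S.F_inv_rot k z hz]
  exact hz

theorem h_strip (k : ℕ) {z : Pl} (hz : |z.2| ≤ 1) : |(S.h k z).2| ≤ 1 := by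
  by_cases h1 : ∃ n, z ∈ DS (Lv.lv k) n
  · obtain ⟨n, hn⟩ := h1
    exact (S.h_mem k hn).2.le.trans (by norm_num)
  · push Not at h1
    rwa [S.h_fix k h1]

theorem h_inv_strip (k : ℕ) {z : Pl} (hz : |z.2| ≤ 1) : |((S.h k)⁻¹ z).2| ≤ 1 := by
  by_cases h1 : ∃ n, z ∈ DS (Lv.lv k) n
  · obtain ⟨n, hn⟩ := h1
    exact (S.h_inv_mem k hn).2.le.trans (by norm_num)
  · push Not at h1
    rwa [S.h_inv_fix k h1]

theorem e_strip (k : ℕ) {z : Pl} (hz : |z.2| ≤ 1) : |(S.e k z).2| ≤ 1 := by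
  by_cases h1 : ∃ j, z ∈ rc (Lv.lv k).q (1 / 16) j
  · obtain ⟨j, hj⟩ := h1
    exact (S.e_box k hj).2.trans (by norm_num)
  · push Not at h1
    rwa [S.e_fix k h1]

theorem e_inv_strip (k : ℕ) {z : Pl} (hz : |z.2| ≤ 1) : |((S.e k)⁻¹ z).2| ≤ 1 := by
  by_cases h1 : ∃ j, z ∈ rc (Lv.lv k).q (1 / 16) j
  · obtain ⟨j, hj⟩ := h1
    exact (S.e_inv_box k hj).2.trans (by norm_num)
  · push Not at h1
    rwa [S.e_inv_fix k h1]

theorem phi_apply (k : ℕ) (z : Pl) : S.phi k z = S.F k (S.h k (S.e k z)) := by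
  rw [phi_eq]
  rfl

theorem phi_inv_apply (k : ℕ) (z : Pl) :
    (S.phi k)⁻¹ z = (S.e k)⁻¹ ((S.h k)⁻¹ ((S.F k)⁻¹ z)) := by
  rw [phi_eq, mul_inv_rev, mul_inv_rev]
  rfl

theorem phi_strip (k : ℕ) {z : Pl} (hz : |z.2| ≤ 1) : |(S.phi k z).2| ≤ 1 := by
  rw [phi_apply]
  exact S.F_strip k (S.h_strip k (S.e_strip k hz))

theorem phi_inv_strip (k : ℕ) {z : Pl} (hz : |z.2| ≤ 1) : |((S.phi k)⁻¹ z).2| ≤ 1 := by
  rw [phi_inv_apply]
  exact S.e_inv_strip k (S.h_inv_strip k (S.F_inv_strip k hz))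

theorem phi_top (k : ℕ) {z : Pl} (hz : 1 < z.2) : 1 < (S.phi k z).2 :=
  (S.phi k).top_of_strip (fun _ h => S.phi_inv_strip k h) hz

/-- The limit maps columns over regular slots to columns. -/
theorem phi_col (k : ℕ) {i : ℤ} (hi : Reg (Lv.lv k) i) {z : Pl} (hz : z ∈ Col (Lv.lv k).q i) :
    S.phi k z ∈ Col (Lv.lv k).q (i + (Lv.lv k).p) := by
  rw [phi_apply]
  rcases Col_cases hz with h | ⟨-, h⟩
  · have h1 := S.e_box k h
    have h2 := Col_of_rc h1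
    rw [S.h_fix k (hi.not_DS h2), S.F_rot k _ (Col_strip h2)]
    exact Col_rot (Lv.lv k).q_pos h2
  · rw [S.e_fix k h, S.h_fix k (hi.not_DS hz), S.F_rot k _ (Col_strip hz)]
    exact Col_rot (Lv.lv k).q_pos hz

theorem phi_col_rot (k : ℕ) {i : ℤ} (hi : Reg (Lv.lv k) i) {z : Pl} (hz : z ∈ Col (Lv.lv k).q i)
    (hz' : 1 / 16 < z.2) :
    S.phi k z = HH.rot ((Lv.lv k).p / (Lv.lv k).q) z := by
  rw [phi_apply]
  rcases Col_cases hz with h | ⟨-, h⟩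
  · have := (abs_le.1 h.2).2
    linarith
  · rw [S.e_fix k h, S.h_fix k (hi.not_DS hz), S.F_rot k _ (Col_strip hz)]

theorem pow_succ_apply (f : HH) (n : ℕ) (z : Pl) : (f ^ (n + 1)) z = f ((f ^ n) z) := by
  rw [pow_succ']
  rfl

theorem phi_pow_strip (k n : ℕ) {z : Pl} (hz : |z.2| ≤ 1) : |((S.phi k ^ n) z).2| ≤ 1 := by
  induction n with
  | zero => exact hz
  | succ n ih => rw [pow_succ_apply]; exact S.phi_strip k ih

theorem phi_pow_top (k n : ℕ) {z : Pl} (hz : 1 < z.2) : 1 < ((S.phi k ^ n) z).2 := by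
  induction n with
  | zero => exact hz
  | succ n ih => rw [pow_succ_apply]; exact S.phi_top k ih

theorem phi_pow_col (k n : ℕ) {i : ℤ} (hi : ∀ m < n, Reg (Lv.lv k) (i + m * (Lv.lv k).p)) {z : Pl}
    (hz : z ∈ Col (Lv.lv k).q i) : (S.phi k ^ n) z ∈ Col (Lv.lv k).q (i + n * (Lv.lv k).p) := by
  induction n with
  | zero => simpa using hz
  | succ n ih =>
    rw [pow_succ_apply]
    have h1 := S.phi_col k (hi n (by omega)) (ih fun m hm => hi m (by omega))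
    have h2 : i + n * (Lv.lv k).p + (Lv.lv k).p = i + ((n + 1 : ℕ) : ℤ) * (Lv.lv k).p := by
      push_cast; ring
    rwa [h2] at h1

theorem phi_pow_col_rot (k n : ℕ) {i : ℤ} (hi : ∀ m < n, Reg (Lv.lv k) (i + m * (Lv.lv k).p))
    {z : Pl} (hz : z ∈ Col (Lv.lv k).q i) (hz' : 1 / 16 < z.2) :
    (S.phi k ^ n) z = HH.rot (n * ((Lv.lv k).p / (Lv.lv k).q)) z := by
  induction n with
  | zero => simp [HH.rot_zero]
  | succ n ih =>
    rw [pow_succ_apply]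
    have h1 := ih fun m hm => hi m (by omega)
    have h2 := S.phi_pow_col k n (fun m hm => hi m (by omega)) hz
    rw [S.phi_col_rot k (hi n (by omega)) h2 (by rw [h1]; exact hz'), h1]
    rw [← HH.mul_apply, ← HH.rot_add, Nat.cast_succ, add_mul, one_mul, add_comm]

/-! ### The Cantor set in the cover -/

/-- The ring segments of the boxes. -/
def RB (L : Lv) : Set Pl := {z | z.2 = 0 ∧ ∃ j, z ∈ rc L.q (1 / 16) j}

theorem isClosed_RB (L : Lv) : IsClosed (RB L) := by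
  have h1 : RB L = {z : Pl | z.2 = 0} ∩ ⋃ j : ℤ, rc L.q (1 / 16) j := by
    ext z
    simp [RB]
  rw [h1]
  refine (isClosed_eq continuous_snd continuous_const).inter
    (LocallyFinite.isClosed_iUnion ?_ fun j => isClosed_rc _ _ _)
  intro z
  have hq1 : (1 : ℝ) ≤ L.q := by exact_mod_cast L.q_pos
  refine ⟨Metric.ball z 1, Metric.ball_mem_nhds z one_pos, ?_⟩
  refine (Set.finite_Icc (⌊2 * (L.q * z.1 - L.q) - 1⌋) (⌈2 * (L.q * z.1 + L.q) + 1⌉)).subset ?_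
  rintro j ⟨w, hw1, hw2⟩
  have h2 := abs_le.1 hw1.1
  have h3 : |w.1 - z.1| < 1 := by
    have := (max_lt_iff.1 (by rw [Metric.mem_ball, Prod.dist_eq] at hw2; exact hw2)).1
    rwa [Real.dist_eq] at this
  have h4 := abs_lt.1 h3
  have h5 : (L.q : ℝ) * w.1 ≤ L.q * z.1 + L.q := by nlinarith
  have h6 : (L.q : ℝ) * z.1 - L.q ≤ L.q * w.1 := by nlinarith
  constructor
  · have h7 : ((⌊2 * ((L.q : ℝ) * z.1 - L.q) - 1⌋ : ℤ) : ℝ) ≤ j := by
      have := Int.floor_le (2 * ((L.q : ℝ) * z.1 - L.q) - 1)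
      linarith
    exact_mod_cast h7
  · have h7 : (j : ℝ) ≤ (⌈2 * ((L.q : ℝ) * z.1 + L.q) + 1⌉ : ℤ) := by
      have := Int.le_ceil (2 * ((L.q : ℝ) * z.1 + L.q) + 1)
      linarith
    exact_mod_cast h7

theorem RB_turn {L : Lv} {z : Pl} (hz : z ∈ RB L) (n : ℤ) : (z.1 + n, z.2) ∈ RB L := by
  obtain ⟨h1, j, hj⟩ := hz
  exact ⟨h1, _, rc_turn.2 hj⟩

theorem RB_rot {L : Lv} {z : Pl} (hz : z ∈ RB L) (p : ℤ) : HH.rot (p / L.q) z ∈ RB L := by
  obtain ⟨h1, j, hj⟩ := hz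
  exact ⟨h1, _, rc_rot L.q_pos hj⟩

theorem g_RB (k : ℕ) {z : Pl} (hz : z ∈ RB (Lv.lv (k + 1))) : S.g k z ∈ RB (Lv.lv k) := by
  obtain ⟨h1, j, hj⟩ := hz
  exact ⟨(S.st k).ring j z hj h1, _, rc_mono (S.hw' k) _ (S.g_box k hj)⟩

theorem G_RB (k n : ℕ) {z : Pl} (hz : z ∈ RB (Lv.lv (k + n))) :
    (S.G k)⁻¹ (S.G (k + n) z) ∈ RB (Lv.lv k) := by
  induction n generalizing z with
  | zero => simpa using hz
  | succ n ih => exact ih (S.g_RB (k + n) hz)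

/-- The Cantor set in the cover. -/
def Cv : Set Pl := {z | ∀ m, (S.G m)⁻¹ z ∈ RB (Lv.lv m)}

theorem isClosed_Cv : IsClosed S.Cv := by
  have h1 : S.Cv = ⋂ m, (fun z => (S.G m)⁻¹ z) ⁻¹' RB (Lv.lv m) := by
    ext z
    simp [Cv]
  rw [h1]
  exact isClosed_iInter fun m => (isClosed_RB _).preimage (S.G m)⁻¹.continuous

theorem Cv_turn {z : Pl} (hz : z ∈ S.Cv) (n : ℤ) : (z.1 + n, z.2) ∈ S.Cv := by
  intro m
  rw [(S.G m)⁻¹.turn_int]
  exact RB_turn (hz m) n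

/-- It is enough to test the levels `≥ k`. -/
theorem mem_Cv (k : ℕ) {z : Pl} (h : ∀ n, (S.G (k + n))⁻¹ z ∈ RB (Lv.lv (k + n))) : z ∈ S.Cv := by
  intro m
  by_cases hm : k ≤ m
  · obtain ⟨n, rfl⟩ := Nat.exists_eq_add_of_le hm
    exact h n
  · obtain ⟨n, hn⟩ := Nat.exists_eq_add_of_le (not_le.1 hm).le
    have h1 := h 0
    rw [add_zero] at h1
    rw [hn] at h1
    have h2 := S.G_RB m n h1
    rwa [HH.apply_inv_self] at h2

theorem lim_Cv {z : Pl} (hz : z ∈ S.Cv) : S.lim z ∈ S.Cv := by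
  intro m
  have h1 : Tendsto (fun n => (S.G m)⁻¹ (S.f (m + n) z)) atTop (𝓝 ((S.G m)⁻¹ (S.lim z))) := by
    have h2 := (tendsto_add_atTop_iff_nat m).2 (S.tendsto_f z)
    refine (((S.G m)⁻¹.continuous.tendsto _).comp h2).congr fun n => ?_
    rw [add_comm m n]
    rfl
  refine (isClosed_RB _).mem_of_tendsto h1 (Eventually.of_forall fun n => ?_)
  have h3 := hz (m + n)
  have h4 : S.f (m + n) z = S.G (m + n) (S.F (m + n) ((S.G (m + n))⁻¹ z)) := rfl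
  rw [h4]
  apply S.G_RB
  rw [S.F_rot _ _ (by rw [h3.1]; simp)]
  exact RB_rot h3 _

theorem lim_inv_Cv {z : Pl} (hz : z ∈ S.Cv) : S.lim⁻¹ z ∈ S.Cv := by
  intro m
  have h1 : Tendsto (fun n => (S.G m)⁻¹ ((S.f (m + n))⁻¹ z)) atTop
      (𝓝 ((S.G m)⁻¹ (S.lim⁻¹ z))) := by
    have h2 := (tendsto_add_atTop_iff_nat m).2 (S.tendsto_f_inv z)
    refine (((S.G m)⁻¹.continuous.tendsto _).comp h2).congr fun n => ?_
    rw [add_comm m n]
    rfl
  refine (isClosed_RB _).mem_of_tendsto h1 (Eventually.of_forall fun n => ?_)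
  have h3 := hz (m + n)
  have h4 : (S.f (m + n))⁻¹ z = S.G (m + n) ((S.F (m + n))⁻¹ ((S.G (m + n))⁻¹ z)) := by
    have : (S.f (m + n))⁻¹ = S.G (m + n) * (S.F (m + n))⁻¹ * (S.G (m + n))⁻¹ := by
      unfold f; group
    rw [this]
    rfl
  rw [h4]
  apply S.G_RB
  rw [S.F_inv_rot _ _ (by rw [h3.1]; simp)]
  have h5 := RB_rot h3 (-(Lv.lv (m + n)).p)
  rwa [Int.cast_neg, neg_div] at h5

theorem lim_image_Cv : S.lim '' S.Cv = S.Cv := by
  ext z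
  constructor
  · rintro ⟨w, hw, rfl⟩
    exact S.lim_Cv hw
  · intro hz
    exact ⟨_, S.lim_inv_Cv hz, HH.apply_inv_self _ _⟩

/-- The Cantor set. -/
def C : Set ℂ := ex '' S.Cv

theorem ex_mem_C {z : Pl} : ex z ∈ S.C ↔ z ∈ S.Cv := by
  constructor
  · rintro ⟨w, hw, h⟩
    obtain ⟨n, hn⟩ := ex_eq_iff.1 h
    have h1 := S.Cv_turn hw (-n)
    have h2 : (w.1 + ((-n : ℤ) : ℝ), w.2) = z := by
      rw [hn]
      push_cast
      ext <;> simp
    rwa [h2] at h1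
  · exact fun h => ⟨z, h, rfl⟩

theorem lim_C : HH.toC S.lim '' S.C = S.C := by
  unfold C
  rw [Set.image_image]
  simp only [HH.toC_ex]
  rw [← Set.image_image ex, S.lim_image_Cv]

theorem Cv_zero {z : Pl} (hz : z ∈ S.Cv) : z.2 = 0 := by
  have h1 := hz 0
  have h2 : (S.G 0)⁻¹ z = z := by rw [G_zero, inv_one]; rfl
  rw [h2] at h1
  exact h1.1

end Sys

end Pool.Agent.RAY
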