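import Pool.Agent.RAY.DynX

/-!
# RAY, block D: the fields `armA`, `armB`, `equi` of `Tower`
-/

set_option autoImplicit false

open Topology Filter Set unitInterval

namespace Pool.Agent.RAY

theorem gt_add (q : ℕ) (j c : ℤ) : gt q (j + 2 * q * c) = gt q j := by
  ext z
  constructor
  · rintro ⟨x, h1, h2, rfl⟩
    push_cast at h1 h2
    refine ⟨x - c, by linarith, by linarith, ?_⟩
    have := ex_turn (x - c, 0) c
    simp only [sub_add_cancel] at this
    rw [pt_eq, pt_eq, this]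
  · rintro ⟨x, h1, h2, rfl⟩
    refine ⟨x + c, by push_cast; linarith, by push_cast; linarith, ?_⟩
    rw [pt_eq, pt_eq, ex_turn (x, 0) c]

theorem Itin.congr {D : Set (OnePoint ℂ)} {q : ℕ} {w w' : List ℤ} {η : I → OnePoint ℂ}
    (h : Itin D q w η) (hl : w.length = w'.length)
    (hw : ∀ i (hi : i < w.length) (hi' : i < w'.length), gt q w[i] = gt q w'[i]) :
    Itin D q w' η where
  continuous := h.continuous
  zero := h.zero
  one := h.one
  pieces := by
    obtain ⟨τ, h1, h2, h3, h4, h5⟩ := h.pieces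
    refine ⟨τ, h1, h2, hl ▸ h3, fun i hi => ?_, fun i hi => h5 i (hl ▸ hi)⟩
    rw [← hw i (hl ▸ hi) hi]
    exact h4 i (hl ▸ hi)

theorem Itin.append_two {D : Set (OnePoint ℂ)} {q : ℕ} {A : List ℤ} {a b a' b' : ℤ}
    {η : I → OnePoint ℂ} (h : Itin D q (A ++ [a, b]) η) (ha : gt q a = gt q a')
    (hb : gt q b = gt q b') : Itin D q (A ++ [a', b']) η := by
  refine h.congr (by simp) fun i hi hi' => ?_
  rcases Nat.lt_or_ge i A.length with h1 | h1
  · rw [List.getElem_append_left h1, List.getElem_append_left h1]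
  · obtain ⟨m, rfl⟩ := Nat.exists_eq_add_of_le h1
    have h2 : m < 2 := by
      simp only [List.length_append, List.length_cons, List.length_nil] at hi
      omega
    rcases m with _ | _ | m
    · simpa using ha
    · simpa using hb
    · omega

theorem HH.tendsto_height (f : HH) {T : Type} {l : Filter T} {E : T → Pl}
    (h : Tendsto (fun t => (E t).2) l atTop) : Tendsto (fun t => (f (E t)).2) l atTop := by
  obtain ⟨B, hB0, hB⟩ := f.exists_bound
  refine tendsto_atTop_mono (fun t => ?_) (tendsto_atTop_add_const_right _ (-B) h)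
  have := (abs_le.1 (hB (E t))).1
  linarith

theorem omega_length_odd (q : ℕ) (S : List ℕ) (u : ℤ) : Odd (omega q S u).length := by
  unfold omega
  rw [List.length_append, List.length_flatMap]
  simp only [List.length_cons, List.length_nil]
  rw [List.map_const', List.sum_replicate]
  exact ⟨S.length, by simp; ring⟩

namespace Sys

variable (S : Sys)

theorem pull_eq (k : ℕ) (E : ℝ → Pl) (t : I) :
    (S.GS (k + 1)).symm (S.GS k (rayOf (fun t => S.g k (E t)) t)) = rayOf E t := by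
  rcases t.2.1.eq_or_lt with ht | ht
  · have e : t = 0 := Subtype.ext ht.symm
    rw [e, rayOf_zero, rayOf_zero, GS_infty, GS_symm_infty]
  · rw [rayOf_of_pos _ ht, rayOf_of_pos _ ht, GS_ex, GS_symm_ex]
    congr 2
    have h1 : (S.G (k + 1))⁻¹ (S.G (k + 1) (E t)) = E t := HH.inv_apply_self _ _
    exact h1

/-- The box of a point of the Cantor set one level deeper. -/
theorem deeper_box {k : ℕ} {v : ℤ} {z : Pl} (hz : z ∈ rc (Lv.lv k).q (1 / 16) (2 * v))
    (hC : S.G k z ∈ S.Cv) :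
    ((ex ((S.g k)⁻¹ z) : ℂ) : OnePoint ℂ) ∈
      bx (TowerNum.q (k + 1)) (2 * TowerNum.u k v + 1) := by
  have h1 : (S.g k)⁻¹ z ∈ RB (Lv.lv (k + 1)) := by
    have h2 := hC (k + 1)
    rw [G_succ, mul_inv_rev] at h2
    have h3 : ((S.g k)⁻¹ * (S.G k)⁻¹) (S.G k z) = (S.g k)⁻¹ z := by
      show (S.g k)⁻¹ ((S.G k)⁻¹ (S.G k z)) = _
      rw [HH.inv_apply_self]
    rwa [h3] at h2
  obtain ⟨h2, j, hj⟩ := h1
  have h3 := rc_mono (S.hw' k) _ (S.g_box k hj)
  rw [HH.apply_inv_self] at h3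
  have h4 : S.par k j = 2 * v := rc_disj h3 hz
  have h5 := ((S.st k).par_pi j v).1 h4
  have h6 : ((TowerNum.q (k + 1) : ℕ) : ℤ) = (Lv.lv (k + 1)).q := TowerNum.q_cast (k + 1)
  rw [← h6] at hj
  have h7 := bx_of_rc (c := -1) hj h2
  have h8 : j + 2 * (TowerNum.q (k + 1) : ℤ) * -1 = 2 * TowerNum.u k v + 1 := by
    rw [h5, h6]
    unfold TowerNum.u
    have : (Lv.lv k).next.q = (Lv.lv (k + 1)).q := rfl
    rw [this]
    ring
  rwa [h8] at h7

/-- Both arms at once. -/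
theorem arm (hA : ArmPath) (k : ℕ) (v : ℤ) {w0 w1 : List ℤ} (h0 : Odd w0.length)
    (h1 : Odd w1.length)
    (hδ : ∃ δ : ℝ → Pl, Continuous δ ∧ (δ 0).2 = 1 ∧ (δ 1).2 = -1 ∧
      ItinP (Lv.lv k).q w0 (fun t => (S.st k).g (δ t)) ∧ ItinP (Lv.lv k).next.q w1 δ)
    {a : OnePoint ℂ} (ha : a ∈ S.D k ∩ bx (TowerNum.q k) (2 * v)) :
    ∃ η : I → OnePoint ℂ, η 1 = a ∧ Itin (S.D k) (TowerNum.q k) w0 η ∧
      (S.GS (k + 1)).symm (S.GS k a) ∈ bx (TowerNum.q (k + 1)) (2 * TowerNum.u k v + 1) ∧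
      Itin (S.D (k + 1)) (TowerNum.q (k + 1)) w1
        fun t => (S.GS (k + 1)).symm (S.GS k (η t)) := by
  obtain ⟨δ, hc, hδ0, hδ1, hI0, hI1⟩ := hδ
  obtain ⟨z, hz1, hz2, rfl⟩ := exists_of_bx ha.2
  rw [TowerNum.q_cast] at hz1
  have hzC : S.G k z ∈ S.Cv := S.mem_D.1 ha.1
  have hz3 : |(Lv.lv k).q * z.1 - v| ≤ 1 / 16 := by
    have h := hz1.1
    push_cast at h
    rwa [mul_div_cancel_left₀ _ (two_ne_zero' ℝ)] at h
  obtain ⟨E, hE, hinf, hE1, hE2, hE3⟩ :=
    hA (Lv.lv k) (S.w k) (S.st k) w0 w1 h0 h1 δ hc hδ0 hδ1 hI0 hI1 v z hz3 hz2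
  have hgE1 : S.g k (E 1) = z := by
    rw [hE1]
    exact HH.apply_inv_self _ _
  have hEq : (fun t => (S.GS (k + 1)).symm (S.GS k (rayOf (fun t => S.g k (E t)) t))) = rayOf E :=
    funext fun t => S.pull_eq k E t
  refine ⟨rayOf (fun t => S.g k (E t)), ?_, ?_, ?_, ?_⟩
  · rw [rayOf_of_pos _ (by simp)]
    simp only [Set.Icc.coe_one]
    rw [hgE1]
  · refine S.itin_rayOf k ((S.g k).continuous.comp_continuousOn hE)
      ((S.g k).tendsto_height hinf) ?_ hE2 (TowerNum.q_cast k)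
    show S.G k (S.g k (E 1)) ∈ _
    rw [hgE1]
    exact hzC
  · rw [GS_ex, GS_symm_ex]
    have h2 : (S.G (k + 1))⁻¹ (S.G k z) = (S.g k)⁻¹ z := by
      rw [G_succ, mul_inv_rev]
      show (S.g k)⁻¹ ((S.G k)⁻¹ (S.G k z)) = _
      rw [HH.inv_apply_self]
    rw [h2]
    exact S.deeper_box hz1 hzC
  · rw [hEq]
    refine S.itin_rayOf (k + 1) hE hinf ?_ hE3 (TowerNum.q_cast (k + 1))
    show S.G k (S.g k (E 1)) ∈ _
    rw [hgE1]
    exact hzC

theorem armA (hA : ArmPath) (k : ℕ) (v : ℤ) (a : OnePoint ℂ)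
    (ha : a ∈ S.D k ∩ bx (TowerNum.q k) (2 * (v - 1))) : ∃ η : I → OnePoint ℂ,
    η 1 = a ∧ Itin (S.D k) (TowerNum.q k) [2 * v] η ∧
      (S.GS (k + 1)).symm (S.GS k a) ∈
        bx (TowerNum.q (k + 1)) (2 * TowerNum.u k (v - 1) + 1) ∧
      Itin (S.D (k + 1)) (TowerNum.q (k + 1))
        (omega (TowerNum.q (k + 1)) (TowerNum.S k) (TowerNum.u k v))
        fun t => (S.GS (k + 1)).symm (S.GS k (η t)) :=
  S.arm hA k (v - 1) (by simp) (omega_length_odd _ _ _) ((S.st k).armL v) ha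

theorem armB (hA : ArmPath) (k : ℕ) (v : ℤ) (b : OnePoint ℂ)
    (hb : b ∈ S.D k ∩ bx (TowerNum.q k) (2 * (v + 1))) : ∃ η : I → OnePoint ℂ,
    η 1 = b ∧ Itin (S.D k) (TowerNum.q k) [2 * v + 1] η ∧
      (S.GS (k + 1)).symm (S.GS k b) ∈
        bx (TowerNum.q (k + 1)) (2 * TowerNum.u k (v + 1) + 1) ∧
      Itin (S.D (k + 1)) (TowerNum.q (k + 1))
        (omega (TowerNum.q (k + 1)) (TowerNum.S k) (TowerNum.u k v) ++
          [2 * TowerNum.u k v + 1, 2 * (TowerNum.u k v + 1)])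
        fun t => (S.GS (k + 1)).symm (S.GS k (η t)) := by
  have hodd : ∀ A : List ℤ, ∀ x y : ℤ, Odd A.length → Odd (A ++ [x, y]).length := by
    intro A x y h
    rw [List.length_append]
    exact h.add_even (by simp)
  obtain ⟨η, h1, h2, h3, h4⟩ := S.arm hA k (v + 1) (by simp)
    (hodd _ _ _ (omega_length_odd _ _ _)) ((S.st k).armR v) hb
  refine ⟨η, h1, h2, h3, Itin.append_two h4 ?_ ?_⟩
  · have h5 := gt_add (TowerNum.q (k + 1)) (2 * TowerNum.u k v + 1) 1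
    rw [← h5, TowerNum.q_cast]
    congr 1
    show 2 * ((Lv.lv k).u v + (Lv.lv (k + 1)).q) + 1 = 2 * (Lv.lv k).u v + 1 + _
    ring
  · have h5 := gt_add (TowerNum.q (k + 1)) (2 * (TowerNum.u k v + 1)) 1
    rw [← h5, TowerNum.q_cast]
    congr 1
    show 2 * ((Lv.lv k).u v + (Lv.lv (k + 1)).q + 1) = 2 * ((Lv.lv k).u v + 1) + _
    ring

end Sys

end Pool.Agent.RAY
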