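import Pool.Agent.RAY.DynX

/-!
# RAY, block D: the field `equi` of `Tower`
-/

set_option autoImplicit false

open Topology Filter Set unitInterval

namespace Pool.Agent.RAY

namespace Sys

variable (S : Sys)

theorem phi_pow_apply (k n : ℕ) (z : Pl) :
    (S.phi k ^ n) z = (S.G k)⁻¹ ((S.lim ^ n) (S.G k z)) := by
  induction n with
  | zero => simp
  | succ n ih =>
    rw [pow_succ_apply, pow_succ_apply, ih]
    show (S.G k)⁻¹ (S.lim (S.G k ((S.G k)⁻¹ ((S.lim ^ n) (S.G k z))))) = _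
    rw [HH.apply_inv_self]

theorem iter_ex (n : ℕ) (z : Pl) : (HH.toC S.lim).onePointCongr^[n] ((ex z : ℂ) : OnePoint ℂ) =
    ((ex ((S.lim ^ n) z) : ℂ) : OnePoint ℂ) := by
  induction n with
  | zero => rfl
  | succ n ih => rw [Function.iterate_succ_apply', ih, opc_coe, HH.toC_ex, pow_succ_apply]

theorem iter_infty (n : ℕ) : (HH.toC S.lim).onePointCongr^[n] OnePoint.infty = OnePoint.infty := by
  induction n with
  | zero => rfl
  | succ n ih => rw [Function.iterate_succ_apply', ih]; rfl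

theorem pic_ex (k n : ℕ) (z : Pl) :
    (S.GS k).symm ((HH.toC S.lim).onePointCongr^[n] (S.GS k ((ex z : ℂ) : OnePoint ℂ))) =
      ((ex ((S.phi k ^ n) z) : ℂ) : OnePoint ℂ) := by
  rw [GS_ex, iter_ex, GS_symm_ex, phi_pow_apply]

theorem pic_infty (k n : ℕ) :
    (S.GS k).symm ((HH.toC S.lim).onePointCongr^[n] (S.GS k OnePoint.infty)) =
      OnePoint.infty := by
  rw [GS_infty, iter_infty, GS_symm_infty]

theorem lim_pow_Cv (n : ℕ) {z : Pl} : (S.lim ^ n) z ∈ S.Cv ↔ z ∈ S.Cv := by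
  induction n with
  | zero => rfl
  | succ n ih =>
    rw [pow_succ_apply, ← ih]
    constructor
    · intro h
      have := S.lim_inv_Cv h
      rwa [HH.inv_apply_self] at this
    · exact fun h => S.lim_Cv h

theorem phi_pow_mem_D (k n : ℕ) {z : Pl} :
    ((ex ((S.phi k ^ n) z) : ℂ) : OnePoint ℂ) ∈ S.D k ↔ ((ex z : ℂ) : OnePoint ℂ) ∈ S.D k := by
  rw [mem_D, mem_D, phi_pow_apply, HH.apply_inv_self, lim_pow_Cv]

/-- Rotated confined slots and their neighbours are regular. -/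
theorem reg_of_J {m : ℕ} (hm : 1 ≤ m) {i : ℤ} (hi : i ∈ TowerNum.J m) {d : ℤ} (hd : |d| ≤ 3)
    {n : ℕ} (hn : n ≤ TowerNum.N m) : Reg (Lv.lv m) (i + d + n * (Lv.lv m).p) := by
  obtain ⟨k, rfl⟩ := Nat.exists_eq_add_of_le' hm
  change (Lv.lv k).next.Conf i at hi
  have h1 : |(Lv.lv k).next.tm i| ≤ (Lv.lv k).q * (Lv.lv k).q + 3 * (Lv.lv k).q := by
    unfold Lv.Conf at hi
    rw [Lv.next_r] at hi
    have := (Lv.lv k).q_pos
    linarith
  have h2 : |(n : ℤ)| ≤ (Lv.lv k).next.nn := by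
    rw [abs_of_nonneg (Int.natCast_nonneg n)]
    have h3 : n ≤ ((Lv.lv k).next.nn).toNat := hn
    have h4 : 0 ≤ (Lv.lv k).next.nn := by
      unfold Lv.nn
      have := (Lv.lv k).next.q_pos
      omega
    omega
  have hd' := abs_le.1 hd
  intro c
  constructor
  · intro h5
    refine ((Lv.lv k).not_ex h1 h2 (e := -d) (by rw [abs_neg]; linarith) c).1 ?_
    have h6 : i + d + n * (Lv.lv k).next.p = (Lv.lv k).next.ex + c * (Lv.lv k).next.q := h5
    linarith
  · intro h5
    refine ((Lv.lv k).not_ex h1 h2 (e := -1 - d) (by rw [abs_le]; constructor <;> linarith) c).1 ?_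
    have h6 : i + d + n * (Lv.lv k).next.p
        = (Lv.lv k).next.ex - 1 + c * (Lv.lv k).next.q := h5
    linarith

theorem equi (m : ℕ) (hm : 1 ≤ m) (i : ℤ) (hi : i ∈ TowerNum.J m) (d : ℤ) (hd : |d| ≤ 3)
    (a : OnePoint ℂ) (ha : a ∈ S.D m ∩ bx (TowerNum.q m) (2 * (i + d))) :
    ∃ η : I → OnePoint ℂ, η 1 = a ∧ Itin (S.D m) (TowerNum.q m) [] η ∧
      ∃ τ : I, τ ≠ 0 ∧ τ ≠ 1 ∧
        (∀ s ≤ τ, (S.GS m).symm ((HH.toC S.lim).onePointCongr^[TowerNum.t m] (S.GS m (η s))) ∈
          sideU \ S.D m) ∧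
        ∀ s ≥ τ, (s ≠ 1 →
            (S.GS m).symm ((HH.toC S.lim).onePointCongr^[TowerNum.t m] (S.GS m (η s))) ∉
              S.D m) ∧
          ∃ x y : ℝ, |TowerNum.q m * x - (i + d + TowerNum.t m * TowerNum.p m)| < 1 / 2 - 1 / 16 ∧
            (S.GS m).symm ((HH.toC S.lim).onePointCongr^[TowerNum.t m] (S.GS m (η s))) =
              (pt x y : ℂ) := by
  obtain ⟨z, hz1, hz2, rfl⟩ := exists_of_bx ha.2
  rw [TowerNum.q_cast] at hz1
  have hzC : S.G m z ∈ S.Cv := S.mem_D.1 ha.1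
  have hz : z = (z.1, 0) := Prod.ext rfl hz2
  rw [hz] at hzC ⊢
  set x := z.1 with hx
  have hx1 : |(Lv.lv m).q * x - ((i + d : ℤ) : ℝ)| ≤ 1 / 16 := by
    have h := hz1.1
    rw [Int.cast_mul, Int.cast_ofNat, mul_div_cancel_left₀ _ (two_ne_zero' ℝ)] at h
    exact h
  have hreg : ∀ n < TowerNum.t m, Reg (Lv.lv m) (i + d + n * (Lv.lv m).p) := fun n hn =>
    reg_of_J hm hi hd (hn.le.trans (TowerNum.t_le_N m hm))
  -- points of the vertical path below height one are in the column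
  have hcol : ∀ s : ℝ, 1 / 2 ≤ s → s ≤ 1 → vert x s ∈ Col (Lv.lv m).q (i + d) := by
    intro s h1 h2
    refine ⟨hx1, ?_, ?_⟩
    · have := vert_nonneg (x := x) (by linarith : 0 < s) h2
      linarith
    · simp only [vert, sub_le_iff_le_add]
      rw [div_le_iff₀ (by linarith)]
      linarith
  have hnot : ∀ s : I, 0 < (s : ℝ) → s ≠ 1 → ((ex (vert x s) : ℂ) : OnePoint ℂ) ∉ S.D m := by
    intro s h1 h2 h3
    have h4 := S.RB_of_mem_D h3
    have h5 := vert_pos (x := x) h1 (lt_of_le_of_ne s.2.2 fun h => h2 (Subtype.ext h))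
    have h6 := h4.1
    linarith
  refine ⟨rayOf (vert x), ?_, ?_, ⟨⟨1 / 2, by norm_num, by norm_num⟩, ?_, ?_, ?_, ?_⟩⟩
  · rw [rayOf_of_pos _ (by simp)]
    simp only [Set.Icc.coe_one, vert_one]
  · refine S.itin_rayOf m (continuousOn_vert x) (tendsto_vert x) ?_ (itinR_vert _ x)
      (TowerNum.q_cast m)
    rwa [vert_one]
  · intro h
    have := congrArg Subtype.val h
    norm_num at this
  · intro h
    have := congrArg Subtype.val h
    norm_num at this
  · intro s hs
    have hs' : (s : ℝ) ≤ 1 / 2 := hs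
    rcases s.2.1.eq_or_lt with h0 | h0
    · have e : s = 0 := Subtype.ext h0.symm
      rw [e, rayOf_zero, pic_infty]
      exact ⟨Or.inl rfl, S.infty_not_mem_D m⟩
    · rw [rayOf_of_pos _ h0, pic_ex]
      refine ⟨?_, ?_⟩
      · apply ex_mem_sideU
        rcases hs'.eq_or_lt with h1 | h1
        · have h2 := hcol s h1.ge (by linarith)
          have h3 : (vert x s).2 = 1 := by
            simp only [vert]
            rw [h1]
            norm_num
          rw [S.phi_pow_col_rot m _ hreg h2 (by rw [h3]; norm_num)]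
          rw [HH.rot_apply, h3]
          exact zero_le_one
        · have h3 : 1 < (vert x s).2 := by
            simp only [vert, lt_sub_iff_add_lt]
            rw [lt_div_iff₀ h0]
            linarith
          exact zero_le_one.trans (S.phi_pow_top m _ h3).le
      · rw [phi_pow_mem_D]
        refine hnot s h0 ?_
        rintro rfl
        norm_num at hs'
  · intro s hs
    have hs' : 1 / 2 ≤ (s : ℝ) := hs
    have h0 : 0 < (s : ℝ) := by linarith
    rw [rayOf_of_pos _ h0, pic_ex]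
    refine ⟨fun h1 => ?_, ?_⟩
    · rw [phi_pow_mem_D]
      exact hnot s h0 h1
    · have h1 := S.phi_pow_col m _ hreg (hcol s hs' s.2.2)
      refine ⟨_, _, ?_, rfl⟩
      have h2 := h1.1
      have h3 : ((TowerNum.q m : ℕ) : ℝ) = ((Lv.lv m).q : ℝ) := by
        rw [← TowerNum.q_cast m]
        norm_cast
      rw [h3]
      have h4 : ((i + d + (TowerNum.t m : ℤ) * (Lv.lv m).p : ℤ) : ℝ) =
          i + d + TowerNum.t m * TowerNum.p m := by
        push_cast
        rfl
      rw [← h4]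
      refine lt_of_le_of_lt h2 (by norm_num)

end Sys

end Pool.Agent.RAY
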