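import Pool.Agent.RAY.DynArms
import Pool.Agent.RAY.DynEqui
import Pool.Agent.RAY.Alex

/-!
# RAY, block D: the tower
-/

set_option autoImplicit false

open Topology Filter Set unitInterval

namespace Pool.Agent.RAY

namespace Sys

variable (S : Sys)

theorem lim_far {z : Pl} (hz : 1 / 8 ≤ z.2) :
    S.lim z = (z.1 + (Lv.lv 0).p / (Lv.lv 0).q, z.2) := by
  have h1 : S.lim = S.phi 0 := by
    unfold phi
    rw [G_zero]
    group
  have h2 : ∀ j, z ∉ rc (Lv.lv 0).q (1 / 16) j := by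
    intro j hj
    have := (abs_le.1 hj.2).2
    linarith
  have h3 : ∀ n, z ∉ DS (Lv.lv 0) n := by
    intro n hn
    have := (abs_lt.1 hn.2).2
    linarith
  rw [h1, phi_apply, S.e_fix 0 h2, S.h_fix 0 h3]
  rfl

theorem orient : OrientationPreserving (HH.toC S.lim) :=
  HH.orientationPreserving S.lim _ (1 / 8) fun _ hz => S.lim_far hz

theorem D_subset (k : ℕ) : S.D k ⊆ ⋃ j : ℤ, bx (TowerNum.q k) j := by
  intro a ha
  obtain ⟨z, rfl, -⟩ := S.exists_of_mem_D ha
  obtain ⟨h1, j, hj⟩ := S.RB_of_mem_D ha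
  rw [← TowerNum.q_cast k] at hj
  have := bx_of_rc (c := 0) hj h1
  rw [mul_zero, add_zero] at this
  exact mem_iUnion.2 ⟨j, this⟩

theorem box_inf (k : ℕ) (j : ℤ) : (S.D k ∩ bx (TowerNum.q k) j).Infinite := by
  have h1 := S.infinite_seg k j
  have h2 : Function.Injective fun y : ℂ => (S.GS k).symm (y : OnePoint ℂ) :=
    (S.GS k).symm.injective.comp OnePoint.coe_injective
  refine (h1.image h2.injOn).mono ?_
  rintro _ ⟨_, ⟨z, ⟨hz1, w, hw, rfl⟩, rfl⟩, rfl⟩
  show (S.GS k).symm _ ∈ _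
  rw [GS_symm_ex, HH.inv_apply_self]
  refine ⟨S.mem_D.2 hz1, ?_⟩
  have h3 := rc_of_seg hw
  rw [← TowerNum.q_cast k] at h3
  have := bx_of_rc (c := 0) h3 hw.2
  rwa [mul_zero, add_zero] at this

theorem D_zero : S.D 0 = (fun z : ℂ => (z : OnePoint ℂ)) '' S.C := by
  unfold D
  rw [GS_zero]
  rfl

theorem X_zero : Itin ((fun z : ℂ => (z : OnePoint ℂ)) '' S.C) (TowerNum.q 0) [] (S.X 0).1 ∧
    (S.X 0).1 1 ∈ bx (TowerNum.q 0) 0 := by
  have h1 : (S.X 0).1 = rayOf (vert (S.xk 0)) := by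
    funext t
    show S.GS 0 _ = _
    rw [GS_zero]
    rfl
  rw [h1, ← D_zero]
  refine ⟨S.itin_rayOf 0 (continuousOn_vert _) (tendsto_vert _) ?_ (itinR_vert _ _)
    (TowerNum.q_cast 0), ?_⟩
  · rw [vert_one]
    exact S.xk_mem 0
  · rw [rayOf_of_pos _ (by simp)]
    simp only [Set.Icc.coe_one, vert_one]
    have h2 : (S.xk 0, (0 : ℝ)) ∈ rc (TowerNum.q 0) (1 / 16) 0 := by
      rw [TowerNum.q_cast 0]
      refine ⟨?_, by simp⟩
      simpa only [Int.cast_zero, zero_div, sub_zero] using S.xk_le 0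
    have := bx_of_rc (c := 0) h2 rfl
    rwa [mul_zero, add_zero] at this

/-- The tower. -/
noncomputable def tower (hA : ArmPath)
    (hX : ∀ k, DisjointInteriors (S.X k).1 (S.X (k + 1)).1)
    (hO : ∀ k n, 1 ≤ n → n ≤ TowerNum.N k → ∃ Y : Ray S.C,
      Isotopic S.C (fun t => (HH.toC S.lim).onePointCongr^[n] ((S.X k).1 t)) Y.1 ∧
        DisjointInteriors (S.X k).1 Y.1) : Tower where
  C := S.C
  cantor := S.isCantor
  f := HH.toC S.lim
  map_C := S.lim_C
  orient := S.orient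
  q := TowerNum.q
  q_ge := TowerNum.q_ge
  p := TowerNum.p
  u := TowerNum.u
  u_per := TowerNum.u_per
  u_step := TowerNum.u_step
  S := TowerNum.S
  S_sorted := TowerNum.S_sorted
  S_lt := TowerNum.S_lt
  S_zero := TowerNum.S_zero
  S_two := TowerNum.S_two
  G := S.GS
  G_infty := S.GS_infty
  G_zero := S.GS_zero
  boxes := S.D_subset
  box_inf := S.box_inf
  armA := S.armA hA
  armB := S.armB hA
  J := TowerNum.J
  J_zero := TowerNum.J_zero
  J_succ := TowerNum.J_succ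
  t := TowerNum.t
  J_far := TowerNum.J_far
  equi := S.equi
  X := S.X
  X_zero := S.X_zero
  X_succ := hX
  N := TowerNum.N
  N_big := TowerNum.N_big
  X_orbit := hO

end Sys

end Pool.Agent.RAY
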