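import Pool.Agent.RAY.Step

/-!
# RAY: the numbers of the tower (MP_5d2250_gt)

The number-theoretic fields of `Tower`, from `Num` and `Conf`.
-/

set_option autoImplicit false

namespace Pool.Agent.RAY

namespace TowerNum

open Lv

/-- number of slots of level `k` -/
def q (k : ℕ) : ℕ := (lv k).q.toNat

/-- rotation number of level `k` -/
def p (k : ℕ) : ℤ := (lv k).p

/-- the slot of level `k + 1` of the arc `v` -/
def u (k : ℕ) (v : ℤ) : ℤ := (lv k).u v

/-- the semigroup below `q (k + 1)` -/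
noncomputable def S (k : ℕ) : List ℕ := SL (lv k)

/-- the confined slots -/
def J : ℕ → Set ℤ
  | 0 => Set.univ
  | k + 1 => {i | (lv (k + 1)).Conf i}

/-- the times -/
def t (k : ℕ) : ℕ := (lv k).sh.toNat

/-- the numbers of controlled rotations -/
def N (k : ℕ) : ℕ := (lv k).nn.toNat

@[simp] theorem q_cast (k : ℕ) : ((q k : ℕ) : ℤ) = (lv k).q :=
  Int.toNat_of_nonneg (lv k).q_pos.le

theorem lv_succ (k : ℕ) : lv (k + 1) = (lv k).next := rfl

theorem q_ge (k : ℕ) : 3 ≤ q k := by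
  have h1 := (lv k).odd
  have h2 := (lv k).hr
  have h3 := (lv k).hrq
  have := q_cast k
  omega

theorem u_per (k : ℕ) (v : ℤ) : u k (v + q k) = u k v + q (k + 1) := by
  have := (lv k).u_add_q v 1
  rw [one_mul, one_mul] at this
  rw [q_cast, q_cast]
  exact this

theorem u_step (k : ℕ) (v : ℤ) : u k v + 4 ≤ u k (v + 1) := by
  have h1 := (lv k).M_le_u_succ v
  have h2 := (lv k).q_pos
  unfold M at h1
  unfold u
  omega

theorem mem_SL {L : Lv} {s : ℕ} : s ∈ SL L ↔ (s : ℤ) < L.next.q ∧ L.Sg s := by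
  classical
  unfold SL
  rw [List.mem_filter, List.mem_range, decide_eq_true_eq]
  have h := Int.toNat_of_nonneg L.next.q_pos.le
  constructor
  · rintro ⟨h1, h2⟩; exact ⟨by omega, h2⟩
  · rintro ⟨h1, h2⟩; exact ⟨by omega, h2⟩

theorem S_sorted (k : ℕ) : (S k).Pairwise (· < ·) := by
  classical
  exact List.Pairwise.filter _ List.pairwise_lt_range

theorem S_lt (k : ℕ) : ∀ s ∈ S k, s < q (k + 1) := by
  intro s hs
  have h := (mem_SL.1 hs).1
  have := q_cast (k + 1)
  rw [lv_succ] at this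
  omega

theorem S_zero (k : ℕ) : 0 ∈ S k :=
  mem_SL.2 ⟨(lv k).next.q_pos, by simpa using (lv k).Sg_zero⟩

theorem S_two (k : ℕ) : ∀ s ∈ S k, s = 0 ∨ 4 ≤ s := by
  intro s hs
  obtain ⟨a, ha, h1, h2⟩ := (mem_SL.1 hs).2
  have hM : 4 ≤ (lv k).M := by have := (lv k).q_pos; unfold M; omega
  rcases ha.eq_or_lt with h | h
  · left
    rw [← h] at h2
    omega
  · right
    have : (lv k).M ≤ a * (lv k).M := by nlinarith
    omega

theorem J_zero : (0 : ℤ) ∈ J 0 := Set.mem_univ _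

theorem J_succ (k : ℕ) : ∀ v ∈ J k, ∀ s ∈ S k, ∀ c : ℤ,
    u k v + s + c * q (k + 1) ∈ J (k + 1) := by
  intro v _ s hs c
  obtain ⟨h1, h2⟩ := mem_SL.1 hs
  have h3 := (lv k).conf_u_add (j := v) h2 (by omega)
  show (lv (k + 1)).Conf _
  rw [q_cast, lv_succ]
  unfold Conf at h3 ⊢
  rw [tm_add_q]
  exact h3

theorem sh_cast (k : ℕ) : ((t k : ℕ) : ℤ) = (lv k).sh :=
  Int.toNat_of_nonneg (lv k).sh_pos.le

theorem J_far (m : ℕ) (hm : 1 ≤ m) : ∀ i ∈ J m, ∀ i' ∈ J m,
    FarMod (q m) 4 (i + t m * p m) i' := by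
  obtain ⟨k, rfl⟩ := Nat.exists_eq_add_of_le' hm
  intro i hi i' hi' c
  change (lv (k + 1)).Conf i at hi
  change (lv (k + 1)).Conf i' at hi'
  rw [sh_cast, q_cast]
  unfold p
  rw [lv_succ] at *
  set L := lv k with hL
  have h2 := L.next_q_ge
  have h3 := L.next.half
  have hr := L.hr
  have hq3 : 3 ≤ L.q := by have := L.odd; have := L.hrq; omega
  have h5 : L.next.sh = 2 * (L.q * L.q + 3 * L.q) + 1 := rfl
  have h6 : 3 * L.q ≤ L.q * L.q := by nlinarith
  unfold Conf at hi hi'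
  rw [next_r] at hi hi'
  have h1 := abs_le.1 hi
  have h4 : L.next.tm (i + L.next.sh * L.next.p) = L.next.tm i + L.next.sh :=
    L.next.tm_add_p (by omega) (by omega)
  by_contra hcon
  push Not at hcon
  set e : ℤ := i + L.next.sh * L.next.p - i' - c * L.next.q with he
  have h7 : i' = i + L.next.sh * L.next.p + (-e) + (-c) * L.next.q := by rw [he]; ring
  rw [h7, tm_add_q] at hi'
  have h8 := L.next.le_abs_tm_add_int (i + L.next.sh * L.next.p) (-e)
  rw [h4, abs_neg, next_r] at h8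
  have h9 : |e| * L.q ≤ 4 * L.q := mul_le_mul_of_nonneg_right (by exact_mod_cast hcon)
    L.q_pos.le
  have h10 := le_abs_self (L.next.tm i + L.next.sh)
  omega

theorem t_le_N (m : ℕ) (hm : 1 ≤ m) : t m ≤ N m := by
  obtain ⟨k, rfl⟩ := Nat.exists_eq_add_of_le' hm
  have := (lv k).sh_le_nn
  unfold t N
  rw [lv_succ]
  exact Int.toNat_le_toNat this

theorem N_big (k : ℕ) : k ^ 2 ≤ N k := by
  have h0 : ∀ k : ℕ, 4 * (k : ℤ) ^ 2 ≤ 15 ^ k := by
    intro k
    induction k with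
    | zero => norm_num
    | succ k ih =>
      rcases Nat.eq_zero_or_pos k with rfl | hk
      · norm_num
      · have hk' : (1 : ℤ) ≤ k := by exact_mod_cast hk
        have e : (15 : ℤ) ^ (k + 1) = 15 ^ k * 15 := pow_succ _ _
        rw [e]
        push_cast
        nlinarith
  have h1 := (h0 k).trans (pow_le_q k)
  have h2 : ((k ^ 2 : ℕ) : ℤ) ≤ (lv k).nn := by
    unfold nn
    push_cast
    omega
  unfold N
  omega

end TowerNum

end Pool.Agent.RAY
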