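import Pool.Agent.RAY.ItinR
import Pool.Agent.RAY.TowerNum
import Pool.Agent.RAY.CantorTower

/-!
# RAY, block D: the Cantor set is a Cantor set; vertical rays
-/

set_option autoImplicit false

open Topology Filter Set unitInterval

namespace Pool.Agent.RAY

/-- The vertical path. -/
noncomputable def vert (x : ℝ) : ℝ → Pl := fun t => (x, 1 / t - 1)

theorem continuousOn_vert (x : ℝ) : ContinuousOn (vert x) (Ioc 0 1) := by
  refine continuousOn_const.prodMk (ContinuousOn.sub ?_ continuousOn_const)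
  exact continuousOn_const.div continuousOn_id fun t ht => ht.1.ne'

theorem tendsto_vert (x : ℝ) : Tendsto (fun t => (vert x t).2) (𝓝[>] 0) atTop := by
  simp only [vert, one_div]
  exact tendsto_atTop_add_const_right _ _ tendsto_inv_nhdsGT_zero

theorem vert_one (x : ℝ) : vert x 1 = (x, 0) := by simp [vert]

theorem vert_pos {x t : ℝ} (h0 : 0 < t) (h1 : t < 1) : 0 < (vert x t).2 := by
  simp only [vert, sub_pos]
  rw [lt_div_iff₀ h0]
  linarith

theorem vert_nonneg {x t : ℝ} (h0 : 0 < t) (h1 : t ≤ 1) : 0 ≤ (vert x t).2 := by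
  simp only [vert, sub_nonneg]
  rw [le_div_iff₀ h0]
  linarith

/-- Vertical paths have empty itinerary. -/
theorem itinR_vert (L : Lv) (x : ℝ) : ItinR L [] (vert x) := by
  refine ⟨fun i => min i 1, ?_, by simp, by simp, by simp, ?_⟩
  · intro i j hij
    exact min_le_min_right _ (by exact_mod_cast hij)
  · intro i hi t ht h1 h2
    have hi0 : i = 0 := by simpa using hi
    subst hi0
    have h3 : t ≤ 1 := h2.trans (min_le_right _ _)
    refine ⟨fun h4 h5 => ?_, fun _ => vert_nonneg ht h3, fun h => absurd Even.zero h⟩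
    have h6 := h5.1
    have h7 := vert_pos (x := x) ht (lt_of_le_of_ne h3 h4)
    linarith

theorem Lv.three_le (L : Lv) : 3 ≤ L.q := by
  have h1 := L.hrq
  have h2 := L.hr
  have h3 := L.odd
  omega

namespace Sys

variable (S : Sys)

/-! ### Comparison with `CantorTower` -/

/-- slots of the levels -/
def qq (k : ℕ) : ℤ := (Lv.lv k).q

theorem mem_iUnion_seg {k : ℕ} {z : Pl} : z ∈ ⋃ j, seg (qq k) j ↔ z ∈ RB (Lv.lv k) := by
  simp only [mem_iUnion, seg, RB, rc, qq, mem_ofPred_eq]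
  constructor
  · rintro ⟨j, h1, h2⟩
    refine ⟨h2, j, h1, ?_⟩
    rw [h2, abs_zero]
    norm_num
  · rintro ⟨h2, j, h1, -⟩
    exact ⟨j, h1, h2⟩

theorem Cv_eq : S.Cv = RAY.Cv qq S.G := by
  ext z
  simp only [Cv, RAY.Cv, mem_ofPred_eq, mem_iUnion_seg]

theorem rc_of_seg {k : ℕ} {j : ℤ} {z : Pl} (h : z ∈ seg (qq k) j) : z ∈ rc (Lv.lv k).q (1 / 16) j :=
  ⟨h.1, by rw [h.2, abs_zero]; norm_num⟩

theorem seg_of_rc {k : ℕ} {j : ℤ} {z : Pl} {w : ℝ} (hw : w ≤ 1 / 16) (h : z ∈ rc (Lv.lv k).q w j)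
    (h0 : z.2 = 0) : z ∈ seg (qq k) j := ⟨h.1.trans hw, h0⟩

theorem hpar (m : ℕ) (j : ℤ) :
    S.G (m + 1) '' seg (qq (m + 1)) j ⊆ S.G m '' seg (qq m) (S.par m j) := by
  rintro _ ⟨z, hz, rfl⟩
  refine ⟨S.g m z, ?_, rfl⟩
  have h1 := rc_of_seg hz
  exact seg_of_rc (S.hw' m) (S.g_box m h1) ((S.st m).ring j z h1 hz.2)

/-- Every box has a child with odd index. -/
theorem child (m : ℕ) (j : ℤ) : ∃ v : ℤ, S.par m (2 * v + 1) = j := by
  rcases Int.even_or_odd' j with ⟨v, rfl | rfl⟩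
  · exact ⟨_, ((S.st m).par_pi _ v).2 rfl⟩
  · have h1 := (Lv.lv m).M_le_u_succ v
    have h2 := (Lv.lv m).q_pos
    have h3 : 2 ≤ (Lv.lv m).M := by unfold Lv.M; omega
    exact ⟨_, (S.st m).par_al ((Lv.lv m).u v + 1) v (by omega) (by omega)⟩

/-- Every box has two grandchildren. -/
theorem grand (m : ℕ) (j : ℤ) : ∃ i i', S.par m (S.par (m + 1) i) = j ∧
    S.par m (S.par (m + 1) i') = j ∧ ∀ n : ℤ, i ≠ i' + 2 * (qq (m + 2) * n) := by
  obtain ⟨v, hv⟩ := S.child m j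
  have h1 := (Lv.lv (m + 1)).M_le_u_succ v
  have h2 := (Lv.lv (m + 1)).q_pos
  have h3 : 3 ≤ (Lv.lv (m + 1)).M := by unfold Lv.M; omega
  refine ⟨2 * ((Lv.lv (m + 1)).u v + 1 + (Lv.lv (m + 1)).next.q) + 1,
    2 * ((Lv.lv (m + 1)).u v + 2 + (Lv.lv (m + 1)).next.q) + 1, ?_, ?_, ?_⟩
  · have h4 : S.par (m + 1) _ = _ :=
      (S.st (m + 1)).par_al ((Lv.lv (m + 1)).u v + 1) v (by omega) (by omega)
    rw [h4, hv]
  · have h4 : S.par (m + 1) _ = _ :=
      (S.st (m + 1)).par_al ((Lv.lv (m + 1)).u v + 2) v (by omega) (by omega)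
    rw [h4, hv]
  · intro n hn
    have h5 := (Lv.lv (m + 2)).three_le
    have h6 : qq (m + 2) * n = -1 := by linarith
    have h7 : (3 : ℤ) ≤ qq (m + 2) := h5
    have h8 : qq (m + 2) ∣ 1 := ⟨-n, by linarith⟩
    have h9 := Int.le_of_dvd one_pos h8
    omega

/-- The even levels. -/
noncomputable def G2 (m : ℕ) : HH := S.G (2 * m)

/-- slots of the even levels -/
def q2 (m : ℕ) : ℤ := qq (2 * m)

/-- parents for the even levels -/
def par2 (m : ℕ) (j : ℤ) : ℤ := S.par (2 * m) (S.par (2 * m + 1) j)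

theorem hpar2 (m : ℕ) (j : ℤ) :
    S.G2 (m + 1) '' seg (q2 (m + 1)) j ⊆ S.G2 m '' seg (q2 m) (S.par2 m j) :=
  (S.hpar (2 * m + 1) j).trans (S.hpar (2 * m) _)

theorem htwo2 (m : ℕ) (j : ℤ) : ∃ i i', S.par2 m i = j ∧ S.par2 m i' = j ∧
    ∀ n : ℤ, i ≠ i' + 2 * (q2 (m + 1) * n) := S.grand (2 * m) j

theorem Cv_eq2 : S.Cv = RAY.Cv q2 S.G2 := by
  ext z
  constructor
  · intro hz m
    exact mem_iUnion_seg.2 (hz (2 * m))
  · intro hz m
    have h1 : (S.G (2 * m))⁻¹ z ∈ RB (Lv.lv (2 * m)) := mem_iUnion_seg.1 (hz m)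
    have h2 : 2 * m = m + m := by omega
    rw [h2] at h1
    have h3 := S.G_RB m m h1
    rwa [HH.apply_inv_self] at h3

theorem dist_seg (m : ℕ) (j : ℤ) {z w : Pl} (hz : z ∈ seg (qq m) j) (hw : w ∈ seg (qq m) j) :
    dist (S.G m z) (S.G m w) ≤ 2 * (1 / 2) ^ m := by
  cases m with
  | zero =>
    have h1 := abs_le.1 hz.1
    have h2 := abs_le.1 hw.1
    have e : (qq 0 : ℝ) = 3 := by norm_num [qq, Lv.lv, Lv.base]
    rw [e] at h1 h2
    rw [G_zero, HH.one_apply, HH.one_apply, Prod.dist_eq, Real.dist_eq, Real.dist_eq, hz.2, hw.2]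
    refine max_le ?_ (by norm_num)
    rw [abs_le]
    constructor <;> norm_num <;> linarith
  | succ m =>
    have h1 := S.g_box m (rc_of_seg hz)
    have h2 := S.g_box m (rc_of_seg hw)
    refine (S.small m _ _ h1 _ h2).trans (le_of_eq ?_)
    rw [pow_succ]
    ring

theorem isCantor : IsCantor S.C := by
  have h1 := isCantor_tower (q := q2) (fun m => (Lv.lv (2 * m)).q_pos) S.hpar2 S.htwo2
    (fun m => 2 * (1 / 2) ^ (2 * m)) ?_ (fun m j z hz w hw => S.dist_seg (2 * m) j hz hw)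
  · rwa [← S.Cv_eq2] at h1
  · have h2 := (tendsto_pow_atTop_nhds_zero_of_lt_one (r := (1 / 2 : ℝ)) (by norm_num)
      (by norm_num)).const_mul 2
    rw [mul_zero] at h2
    exact h2.comp (tendsto_id.const_mul_atTop' two_pos)

/-- Every box contains infinitely many points of the Cantor set. -/
theorem infinite_seg (k : ℕ) (j : ℤ) : (ex '' (S.Cv ∩ S.G k '' seg (qq k) j)).Infinite := by
  -- an even level below
  obtain ⟨m, hm⟩ : ∃ m, k ≤ 2 * m ∧ 2 * m ≤ k + 1 := ⟨(k + 1) / 2, by omega, by omega⟩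
  obtain ⟨j', hj'⟩ : ∃ j', S.G (2 * m) '' seg (qq (2 * m)) j' ⊆ S.G k '' seg (qq k) j := by
    rcases Nat.lt_or_ge k (2 * m) with h | h
    · have h1 : 2 * m = k + 1 := by omega
      rw [h1]
      obtain ⟨v, hv⟩ := S.child k j
      refine ⟨2 * v + 1, ?_⟩
      have := S.hpar k (2 * v + 1)
      rwa [hv] at this
    · have h1 : 2 * m = k := by omega
      rw [h1]
      exact ⟨j, subset_rfl⟩
  have h2 := infinite_Cv (q := q2) (fun m => (Lv.lv (2 * m)).q_pos) S.hpar2 S.htwo2 m j'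
  rw [← S.Cv_eq2] at h2
  refine h2.mono (image_mono (inter_subset_inter_right _ ?_))
  exact hj'

theorem exists_pt (k : ℕ) (j : ℤ) : ∃ x : ℝ, |(Lv.lv k).q * x - j / 2| ≤ 1 / 16 ∧
    S.G k (x, 0) ∈ S.Cv := by
  obtain ⟨_, z, ⟨h1, w, hw, rfl⟩, -⟩ := (S.infinite_seg k j).nonempty
  have e : w = (w.1, 0) := Prod.ext rfl hw.2
  rw [e] at h1
  exact ⟨w.1, hw.1, h1⟩

/-- The first coordinate of a point of the Cantor set in the box `π_0` of picture `k`. -/
noncomputable def xk (k : ℕ) : ℝ := (S.exists_pt k 0).choose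

theorem xk_le (k : ℕ) : |(Lv.lv k).q * S.xk k| ≤ 1 / 16 := by
  have h : |(Lv.lv k).q * S.xk k - ((0 : ℤ) : ℝ) / 2| ≤ 1 / 16 := (S.exists_pt k 0).choose_spec.1
  rwa [Int.cast_zero, zero_div, sub_zero] at h

theorem xk_mem (k : ℕ) : S.G k (S.xk k, 0) ∈ S.Cv := (S.exists_pt k 0).choose_spec.2

theorem isRay_vert (k : ℕ) {x : ℝ} (hx : S.G k (x, 0) ∈ S.Cv) :
    IsRay S.C fun t => S.GS k (rayOf (vert x) t) where
  continuous := (S.GS k).continuous.comp
    (continuous_rayOf (continuousOn_vert x) (tendsto_vert x))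
  injective := by
    refine (S.GS k).injective.comp ?_
    intro s t h
    rcases s.2.1.eq_or_lt with hs | hs <;> rcases t.2.1.eq_or_lt with ht | ht
    · exact Subtype.ext (hs.symm.trans ht)
    · have e : s = 0 := Subtype.ext hs.symm
      rw [e, rayOf_zero, rayOf_of_pos _ ht] at h
      exact absurd h (OnePoint.infty_ne_coe _)
    · have e : t = 0 := Subtype.ext ht.symm
      rw [e, rayOf_zero, rayOf_of_pos _ hs] at h
      exact absurd h (OnePoint.coe_ne_infty _)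
    · rw [rayOf_of_pos _ hs, rayOf_of_pos _ ht] at h
      obtain ⟨n, hn⟩ := ex_eq_iff.1 (OnePoint.coe_injective h)
      have h2 := congrArg Prod.snd hn
      simp only [vert, sub_left_inj, one_div, inv_inj] at h2
      exact Subtype.ext h2
  zero := by rw [rayOf_zero, GS_infty]
  one := by
    refine ⟨ex (S.G k (x, 0)), S.ex_mem_C.2 hx, ?_⟩
    rw [rayOf_of_pos _ (by simp)]
    simp only [Set.Icc.coe_one, vert_one]
    exact S.GS_ex k _
  interior t h0 h1 := by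
    have ht0 : 0 < (t : ℝ) := lt_of_le_of_ne t.2.1 fun h => h0 (Subtype.ext h.symm)
    have ht1 : (t : ℝ) < 1 := lt_of_le_of_ne t.2.2 fun h => h1 (Subtype.ext h)
    refine ⟨ex (S.G k (vert x t)), ?_, ?_⟩
    · intro h2
      have h3 := S.ex_mem_C.1 h2 k
      rw [HH.inv_apply_self] at h3
      have h4 := vert_pos (x := x) ht0 ht1
      have h5 := h3.1
      linarith
    · rw [rayOf_of_pos _ ht0]
      exact S.GS_ex k _

/-- The centres. -/
noncomputable def X (k : ℕ) : Ray S.C :=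
  ⟨fun t => S.GS k (rayOf (vert (S.xk k)) t), S.isRay_vert k (S.xk_mem k)⟩

end Sys

end Pool.Agent.RAY
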