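import Pool.Agent.RAY.Graph

/-!
# The interface between the construction and the lower bound (MP_5d2250_gt)

`Tower` collects everything that the construction (homeomorphisms `g_k`, limit `f`, numbers)
has to deliver; the parabolicity of `f` is deduced from it.

Conventions.  The sphere is `OnePoint ℂ`.  Picture `k` has `q k` slots on the unit circle, the
point of the circle with coordinate `x` is `pt x 0`, `pt x y = exp (2 π (y + i x))`; `∞` is the end
`y = +∞`.  The circle carries `2 q` boxes `bx q j` (`j : ℤ`, period `2 q`), centred at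
`x = j / (2 q)`: the box `bx q (2 i)` is `π_i`, the box `bx q (2 i + 1)` is `α_i`.  Between the boxes
`bx q (j - 1)` and `bx q j` is the open gate `gt q j`; so `L_i = gt q (2 i)`, `R_i = gt q (2 i + 1)`.
-/

namespace Pool.Agent.RAY

open Set Topology Filter unitInterval

/-- Logarithmic coordinates: `pt x y = exp (2 π (y + i x))`. -/
noncomputable def pt (x y : ℝ) : ℂ := Complex.exp (2 * Real.pi * (y + x * Complex.I))

/-- The box `j` of the picture with `q` slots (an arc of the unit circle). -/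
def bx (q : ℕ) (j : ℤ) : Set (OnePoint ℂ) :=
  {z | ∃ x : ℝ, |q * x - j / 2| ≤ 1 / 16 ∧ z = (pt x 0 : ℂ)}

/-- The gate `j` (open arc between the boxes `j - 1` and `j`). -/
def gt (q : ℕ) (j : ℤ) : Set (OnePoint ℂ) :=
  {z | ∃ x : ℝ, (j - 1) / 2 + 1 / 16 < q * x ∧ q * x < j / 2 - 1 / 16 ∧ z = (pt x 0 : ℂ)}

/-- The closed outside of the unit disc (with `∞`). -/
def sideU : Set (OnePoint ℂ) := {z | z = OnePoint.infty ∨ ∃ w : ℂ, 1 ≤ ‖w‖ ∧ z = w}

/-- The closed unit disc. -/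
def sideV : Set (OnePoint ℂ) := {z | ∃ w : ℂ, ‖w‖ ≤ 1 ∧ z = w}

/-- The sides are passed alternately, beginning with `U`. -/
def side (n : ℕ) : Set (OnePoint ℂ) := if Even n then sideU else sideV

/-- The path `η` from `∞` to a point of `D` has itinerary `w`: it is the concatenation of
`w.length + 1` paths in the closed sides `U, V, U, …` minus `D` (except for the end), and passes
from one side to the other in the gates of the list `w`. -/
structure Itin (D : Set (OnePoint ℂ)) (q : ℕ) (w : List ℤ) (η : I → OnePoint ℂ) : Prop where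
  continuous : Continuous η
  zero : η 0 = OnePoint.infty
  one : η 1 ∈ D
  pieces : ∃ τ : ℕ → I, Monotone τ ∧ τ 0 = 0 ∧ τ (w.length + 1) = 1 ∧
    (∀ i (hi : i < w.length), τ (i + 1) ≠ 1 ∧ η (τ (i + 1)) ∈ gt q (w[i])) ∧
    ∀ i ≤ w.length, ∀ t, τ i ≤ t → t ≤ τ (i + 1) → (t ≠ 1 → η t ∉ D) ∧ η t ∈ side i

/-- The word of `ω_u`: gates `L_{u+s}, R_{u+s}` for the elements `s` of the list `S`, then
`L_{u + q}`. -/
def omega (q : ℕ) (S : List ℕ) (u : ℤ) : List ℤ :=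
  (S.flatMap fun s => [2 * (u + s), 2 * (u + s) + 1]) ++ [2 * (u + q)]

/-- Distance `> n` modulo `q`. -/
def FarMod (q : ℕ) (n : ℕ) (i j : ℤ) : Prop := ∀ c : ℤ, (n : ℤ) < |i - j - c * q|

/-- What the construction delivers. -/
structure Tower where
  /-- the Cantor set -/
  C : Set ℂ
  cantor : IsCantor C
  /-- the homeomorphism -/
  f : ℂ ≃ₜ ℂ
  map_C : f '' C = C
  orient : OrientationPreserving f
  /-- number of slots -/
  q : ℕ → ℕ
  q_ge : ∀ k, 3 ≤ q k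
  /-- rotation by `p k` slots -/
  p : ℕ → ℤ
  /-- `u k v` is the slot of picture `k + 1` in which the arc `ω_{u k v}` starts, which is mapped by
  `g_{k+1}` to the line left of slot `v` -/
  u : ℕ → ℤ → ℤ
  u_per : ∀ k v, u k (v + q k) = u k v + q (k + 1)
  u_step : ∀ k v, u k v + 4 ≤ u k (v + 1)
  /-- the elements `s < q (k + 1)` of the semigroup, in increasing order -/
  S : ℕ → List ℕ
  S_sorted : ∀ k, (S k).Pairwise (· < ·)
  S_lt : ∀ k, ∀ s ∈ S k, s < q (k + 1)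
  S_zero : ∀ k, 0 ∈ S k
  S_two : ∀ k, ∀ s ∈ S k, s = 0 ∨ 4 ≤ s
  /-- `G k` maps picture `k` to the sphere -/
  G : ℕ → OnePoint ℂ ≃ₜ OnePoint ℂ
  G_infty : ∀ k, G k OnePoint.infty = OnePoint.infty
  G_zero : G 0 = Homeomorph.refl _
  /-- the Cantor set lies in the boxes of every picture -/
  boxes : ∀ k, G k ⁻¹' ((↑) '' C) ⊆ ⋃ j : ℤ, bx (q k) j
  box_inf : ∀ k j, (G k ⁻¹' ((↑) '' C) ∩ bx (q k) j).Infinite
  /-- the ray (down through `L_v`, then to a point `a` of `π_{v-1}` from below) -/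
  armA : ∀ k v, ∀ a ∈ G k ⁻¹' ((↑) '' C) ∩ bx (q k) (2 * (v - 1)), ∃ η : I → OnePoint ℂ,
    η 1 = a ∧ Itin (G k ⁻¹' ((↑) '' C)) (q k) [2 * v] η ∧
      (G (k + 1)).symm (G k a) ∈ bx (q (k + 1)) (2 * u k (v - 1) + 1) ∧
      Itin (G (k + 1) ⁻¹' ((↑) '' C)) (q (k + 1)) (omega (q (k + 1)) (S k) (u k v))
        fun t => (G (k + 1)).symm (G k (η t))
  /-- the ray (down through `R_v`, then to a point `b` of `π_{v+1}` from below) -/
  armB : ∀ k v, ∀ b ∈ G k ⁻¹' ((↑) '' C) ∩ bx (q k) (2 * (v + 1)), ∃ η : I → OnePoint ℂ,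
    η 1 = b ∧ Itin (G k ⁻¹' ((↑) '' C)) (q k) [2 * v + 1] η ∧
      (G (k + 1)).symm (G k b) ∈ bx (q (k + 1)) (2 * u k (v + 1) + 1) ∧
      Itin (G (k + 1) ⁻¹' ((↑) '' C)) (q (k + 1))
        (omega (q (k + 1)) (S k) (u k v) ++ [2 * u k v + 1, 2 * (u k v + 1)])
        fun t => (G (k + 1)).symm (G k (η t))
  /-- the slots to which the balls are confined -/
  J : ℕ → Set ℤ
  J_zero : (0 : ℤ) ∈ J 0
  J_succ : ∀ k, ∀ v ∈ J k, ∀ s ∈ S k, ∀ c : ℤ, u k v + s + c * q (k + 1) ∈ J (k + 1)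
  /-- the times -/
  t : ℕ → ℕ
  J_far : ∀ m, 1 ≤ m → ∀ i ∈ J m, ∀ i' ∈ J m, FarMod (q m) 4 (i + t m * p m) i'
  /-- `f ^ t` in picture `m`, seen up to what happens inside the boxes -/
  equi : ∀ m, 1 ≤ m → ∀ i ∈ J m, ∀ d : ℤ, |d| ≤ 3 →
    ∀ a ∈ G m ⁻¹' ((↑) '' C) ∩ bx (q m) (2 * (i + d)),
    ∃ η : I → OnePoint ℂ, η 1 = a ∧ Itin (G m ⁻¹' ((↑) '' C)) (q m) [] η ∧
      ∃ τ : I, τ ≠ 0 ∧ τ ≠ 1 ∧
        (∀ s ≤ τ, (G m).symm (f.onePointCongr^[t m] (G m (η s))) ∈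
          sideU \ G m ⁻¹' ((↑) '' C)) ∧
        ∀ s ≥ τ, (s ≠ 1 → (G m).symm (f.onePointCongr^[t m] (G m (η s))) ∉
            G m ⁻¹' ((↑) '' C)) ∧
          ∃ x y : ℝ, |q m * x - (i + d + t m * p m)| < 1 / 2 - 1 / 16 ∧
            (G m).symm (f.onePointCongr^[t m] (G m (η s))) = (pt x y : ℂ)
  /-- upper bound: the centres -/
  X : ℕ → Ray C
  /-- the first centre is a straight ray to a point of `π_0` -/
  X_zero : Itin ((↑) '' C) (q 0) [] (X 0).1 ∧ (X 0).1 1 ∈ bx (q 0) 0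
  X_succ : ∀ k, DisjointInteriors (X k).1 (X (k + 1)).1
  N : ℕ → ℕ
  N_big : ∀ k, k ^ 2 ≤ N k
  X_orbit : ∀ k n, 1 ≤ n → n ≤ N k → ∃ Y : Ray C,
    Isotopic C (fun t => f.onePointCongr^[n] ((X k).1 t)) Y.1 ∧ DisjointInteriors (X k).1 Y.1

end Pool.Agent.RAY
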