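import Pool.Agent.RAY.Act
import Pool.Agent.RAY.Tower

/-!
# End points of vertices; finite sets of punctures
-/

namespace Pool.Agent.RAY

open Set Topology Filter unitInterval

/-- The end point does not move during an isotopy. -/
theorem isotopy_end {C : Set ℂ} (hC : IsTotallyDisconnected C) {H : I × I → OnePoint ℂ}
    (hc : Continuous H) (hr : ∀ s, IsRay C fun t => H (s, t)) (s s' : I) : H (s, 1) = H (s', 1) := by
  have h1 : IsTotallyDisconnected ((↑) '' C : Set (OnePoint ℂ)) :=
    (OnePoint.isOpenEmbedding_coe.isEmbedding.isTotallyDisconnected_image).2 hC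
  have h2 : IsPreconnected (range fun s : I => H (s, 1)) :=
    isPreconnected_range (hc.comp (continuous_id.prodMk continuous_const))
  refine h1 _ ?_ h2 (mem_range_self s) (mem_range_self s')
  rintro _ ⟨s, rfl⟩
  obtain ⟨c, hc, h⟩ := (hr s).one
  exact ⟨c, hc, h.symm⟩

theorem Isotopic.one_eq {C : Set ℂ} (hC : IsTotallyDisconnected C) {γ γ' : I → OnePoint ℂ}
    (h : Isotopic C γ γ') : γ 1 = γ' 1 := by
  obtain ⟨H, hc, hr, h0, h1⟩ := h
  rw [← h0, ← h1]
  exact isotopy_end hC hc hr 0 1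

namespace Tower

variable (T : Tower)

/-- The end point of a vertex. -/
def vend : Vertex T.C → OnePoint ℂ :=
  Quotient.lift (fun γ : Ray T.C => γ.1 1) fun _ _ h => Isotopic.one_eq T.cantor.totDisc h

theorem vend_mk (γ : Ray T.C) : T.vend (Quotient.mk _ γ) = γ.1 1 := rfl

theorem vend_mem (a : Vertex T.C) : T.vend a ∈ ((↑) '' T.C : Set (OnePoint ℂ)) := by
  induction a using Quotient.inductionOn with
  | h γ =>
    obtain ⟨c, hc, h⟩ := γ.2.one
    exact ⟨c, hc, h.symm⟩

/-- The action. -/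
noncomputable def φ : Vertex T.C → Vertex T.C := act T.f T.map_C

theorem vend_φ (a : Vertex T.C) : T.vend (T.φ a) = T.f.onePointCongr (T.vend a) := by
  induction a using Quotient.inductionOn with
  | h γ => rfl

theorem vend_φ_iterate (n : ℕ) (a : Vertex T.C) :
    T.vend (T.φ^[n] a) = T.f.onePointCongr^[n] (T.vend a) := by
  induction n with
  | zero => rfl
  | succ n ih => rw [Function.iterate_succ_apply', Function.iterate_succ_apply', vend_φ, ih]

theorem φ_surjective : Function.Surjective T.φ := by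
  intro a
  refine ⟨act T.f.symm (symm_image T.map_C) a, ?_⟩
  exact act_symm T.f.symm (symm_image T.map_C) a

theorem image_iterate (n : ℕ) :
    T.f.onePointCongr^[n] '' ((↑) '' T.C) = ((↑) '' T.C : Set (OnePoint ℂ)) := by
  induction n with
  | zero => simp
  | succ n ih =>
    rw [Function.iterate_succ, Set.image_comp]
    have : T.f.onePointCongr '' ((↑) '' T.C) = ((↑) '' T.C : Set (OnePoint ℂ)) := by
      conv_rhs => rw [← T.map_C]
      rw [Set.image_image, Set.image_image]
      rfl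
    rw [this, ih]

/-- Finite sets of punctures which see all boxes of the levels `≤ m`. -/
structure Good (m : ℕ) (P : Set (OnePoint ℂ)) : Prop where
  sub : P ⊆ (↑) '' T.C
  fin : P.Finite
  box : ∀ k ≤ m, ∀ j, (T.G k ⁻¹' P ∩ bx (T.q k) j).Nontrivial

theorem bx_add (q : ℕ) (j c : ℤ) : bx q (j + 2 * q * c) = bx q j := by
  have key : ∀ j c : ℤ, bx q j ⊆ bx q (j + 2 * q * c) := by
    rintro j c _ ⟨x, hx, rfl⟩
    refine ⟨x + c, ?_, ?_⟩
    · have : (q : ℝ) * (x + c) - ((j + 2 * q * c : ℤ) : ℝ) / 2 = q * x - j / 2 := by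
        push_cast
        ring
      rwa [this]
    · congr 1
      unfold pt
      rw [Complex.exp_eq_exp_iff_exists_int]
      refine ⟨-c, ?_⟩
      push_cast
      ring
  refine Subset.antisymm ?_ (key j c)
  have := key (j + 2 * q * c) (-c)
  have e : j + 2 * q * c + 2 * q * -c = j := by ring
  rwa [e] at this

theorem exists_base (m : ℕ) : ∃ P, T.Good m P := by
  have h : ∀ k j, ∃ z w, z ∈ T.G k ⁻¹' ((↑) '' T.C) ∩ bx (T.q k) j ∧
      w ∈ T.G k ⁻¹' ((↑) '' T.C) ∩ bx (T.q k) j ∧ z ≠ w := by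
    intro k j
    obtain ⟨z, hz, w, hw, hne⟩ := (T.box_inf k j).nontrivial
    exact ⟨z, w, hz, hw, hne⟩
  choose z w hz hw hne using h
  refine ⟨⋃ k ∈ Finset.range (m + 1), ⋃ j ∈ Finset.range (2 * T.q k),
    {T.G k (z k j), T.G k (w k j)}, ?_, ?_, ?_⟩
  · refine iUnion₂_subset fun k _ => iUnion₂_subset fun j _ => ?_
    rintro x (rfl | rfl)
    · exact (hz k j).1
    · exact (hw k j).1
  · refine Set.Finite.biUnion (Finset.finite_toSet _) fun k _ => ?_
    refine Set.Finite.biUnion (Finset.finite_toSet _) fun j _ => ?_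
    exact Set.toFinite _
  · intro k hk j
    have hq : 0 < 2 * T.q k := by have := T.q_ge k; omega
    have hq' : (0 : ℤ) < 2 * T.q k := by exact_mod_cast hq
    have h1 := Int.emod_nonneg j hq'.ne'
    have h2 := Int.emod_lt_of_pos j hq'
    obtain ⟨i, hi⟩ := Int.eq_ofNat_of_zero_le h1
    have h3 : j = i + 2 * T.q k * (j / (2 * T.q k)) := by
      rw [← hi, Int.emod_add_mul_ediv]
    rw [h3, bx_add]
    have hi2 : i < 2 * T.q k := by
      have : (i : ℤ) < 2 * T.q k := by rw [← hi]; exact h2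
      exact_mod_cast this
    refine ⟨z k i, ⟨?_, (hz k i).2⟩, w k i, ⟨?_, (hw k i).2⟩, hne k i⟩
    · refine mem_iUnion₂.2 ⟨k, Finset.mem_range.2 (by omega), ?_⟩
      exact mem_iUnion₂.2 ⟨i, Finset.mem_range.2 hi2, Or.inl rfl⟩
    · refine mem_iUnion₂.2 ⟨k, Finset.mem_range.2 (by omega), ?_⟩
      exact mem_iUnion₂.2 ⟨i, Finset.mem_range.2 hi2, Or.inr rfl⟩

variable {T} in
theorem Good.mono {m : ℕ} {P P' : Set (OnePoint ℂ)} (h : T.Good m P) (hPP : P ⊆ P')
    (hsub : P' ⊆ (↑) '' T.C) (hfin : P'.Finite) : T.Good m P' where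
  sub := hsub
  fin := hfin
  box k hk j := (h.box k hk j).mono (inter_subset_inter_left _ (preimage_mono hPP))

end Tower

end Pool.Agent.RAY
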