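import Pool.Agent.RAY.Tower

/-!
# Enumeration of a finite set of points of the unit circle which lies in the boxes
-/

namespace Pool.Agent.RAY

open Set Topology Filter unitInterval

theorem pt_eq_iff {x y x' y' : ℝ} : pt x y = pt x' y' ↔ y = y' ∧ ∃ n : ℤ, x = x' + n := by
  unfold pt
  rw [Complex.exp_eq_exp_iff_exists_int]
  have hpi : (Real.pi : ℂ) ≠ 0 := by exact_mod_cast Real.pi_ne_zero
  constructor
  · rintro ⟨n, hn⟩
    have h1 : (y : ℂ) + x * Complex.I = (y' : ℂ) + (x' + n) * Complex.I := by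
      have h2 : (2 * (Real.pi : ℂ)) * ((y : ℂ) + x * Complex.I)
          = (2 * (Real.pi : ℂ)) * ((y' : ℂ) + (x' + n) * Complex.I) := by
        rw [hn]; ring
      exact mul_left_cancel₀ (by simp) h2
    have h3 := congrArg Complex.re h1
    have h4 := congrArg Complex.im h1
    simp at h3 h4
    exact ⟨h3, n, h4⟩
  · rintro ⟨h, n, hn⟩
    refine ⟨n, ?_⟩
    rw [h, hn]
    push_cast
    ring

theorem pt_add_int (x y : ℝ) (n : ℤ) : pt (x + n) y = pt x y :=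
  pt_eq_iff.2 ⟨rfl, n, rfl⟩

theorem pt_add_one (x y : ℝ) : pt (x + 1) y = pt x y := by
  have := pt_add_int x y 1
  simpa using this

theorem mem_bx_pt {q : ℕ} {j : ℤ} {x : ℝ} (h : ((pt x 0 : ℂ) : OnePoint ℂ) ∈ bx q j) :
    ∃ n : ℤ, |q * (x + n) - j / 2| ≤ 1 / 16 := by
  obtain ⟨x', h1, h2⟩ := h
  have h3 : pt x 0 = pt x' 0 := OnePoint.coe_injective h2
  obtain ⟨-, n, hn⟩ := pt_eq_iff.1 h3
  refine ⟨-n, ?_⟩
  rw [hn]
  push_cast
  rwa [add_neg_cancel_right]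

/-- A finite set of points in the boxes, at least two in every box, enumerated around the
circle. -/
structure Enum (q : ℕ) (P : Set (OnePoint ℂ)) where
  N : ℕ
  N_pos : 0 < N
  θ : ℤ → ℝ
  mono : StrictMono θ
  per : ∀ n, θ (n + N) = θ n + 1
  mem : ∀ z, z ∈ P ↔ ∃ n, z = (pt (θ n) 0 : ℂ)
  gap : ∀ n, θ (n + 1) - θ n < 1 / 2
  /-- index of the gap in which the gate `j` lies -/
  γ : ℤ → ℤ
  γ_per : ∀ j, γ (j + 2 * q) = γ j + N
  γ_step : ∀ j, γ j + 2 ≤ γ (j + 1)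
  box : ∀ j n, (γ j < n ∧ n ≤ γ (j + 1)) ↔ |q * θ n - j / 2| ≤ 1 / 16
  gate : ∀ (j : ℤ) (x : ℝ), (j - 1) / 2 + 1 / 16 < q * x → q * x < j / 2 - 1 / 16 →
    θ (γ j) < x ∧ x < θ (γ j + 1)

theorem exists_enum_aux {N : ℕ} (hN : 0 < N) (s : Fin N → ℝ) (hs : StrictMono s)
    (hs0 : ∀ i, 0 ≤ s i) (hs1 : ∀ i, s i < 1) :
    ∃ θ : ℤ → ℝ, StrictMono θ ∧ (∀ n, θ (n + N) = θ n + 1) ∧
      (∀ n, ∃ (i : Fin N) (m : ℤ), θ n = s i + m) ∧ ∀ (i : Fin N) (m : ℤ), ∃ n, θ n = s i + m := by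
  have hN' : (0 : ℤ) < N := by exact_mod_cast hN
  have hlt : ∀ n : ℤ, (n % N).toNat < N := by
    intro n
    have h1 := Int.emod_nonneg n hN'.ne'
    have h2 := Int.emod_lt_of_pos n hN'
    omega
  let θ : ℤ → ℝ := fun n => s ⟨(n % N).toNat, hlt n⟩ + (n / N : ℤ)
  have hθ : ∀ (n : ℤ) (i : Fin N) (m : ℤ), n = i + m * N → θ n = s i + m := by
    intro n i m h
    have hi : ((i : ℕ) : ℤ) < N := by exact_mod_cast i.2
    have h1 : n % N = (i : ℕ) := by
      rw [h, Int.add_mul_emod_self_right, Int.emod_eq_of_lt (by positivity) hi]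
    have h2 : n / N = m := by
      rw [h, Int.add_mul_ediv_right _ _ hN'.ne', Int.ediv_eq_zero_of_lt (by positivity) hi, zero_add]
    show s ⟨(n % N).toNat, hlt n⟩ + (n / N : ℤ) = _
    rw [h2]
    congr 2
    apply Fin.ext
    show (n % N).toNat = i
    rw [h1]
    simp
  have hex : ∀ n : ℤ, ∃ (i : Fin N) (m : ℤ), n = i + m * N := by
    intro n
    refine ⟨⟨(n % N).toNat, hlt n⟩, n / N, ?_⟩
    have h1 := Int.emod_nonneg n hN'.ne'
    have h2 := Int.emod_add_ediv_mul n N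
    show n = (((n % N).toNat : ℕ) : ℤ) + n / N * N
    rw [Int.toNat_of_nonneg h1]
    exact h2.symm
  refine ⟨θ, ?_, ?_, ?_, ?_⟩
  · refine strictMono_int_of_lt_succ fun n => ?_
    obtain ⟨i, m, hn⟩ := hex n
    rw [hθ n i m hn]
    by_cases hi : (i : ℕ) + 1 < N
    · rw [hθ (n + 1) ⟨i + 1, hi⟩ m (by rw [hn]; push_cast; ring)]
      have : s i < s ⟨i + 1, hi⟩ := hs (by
        rw [Fin.lt_def]
        show (i : ℕ) < i + 1
        omega)
      linarith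
    · have hi' : ((i : ℕ) : ℤ) + 1 = N := by
        have := i.2
        omega
      rw [hθ (n + 1) ⟨0, hN⟩ (m + 1) (by
        rw [hn]
        show _ = ((0 : ℕ) : ℤ) + _
        push_cast
        linear_combination hi')]
      have h1 := hs1 i
      have h2 := hs0 ⟨0, hN⟩
      push_cast
      linarith
  · intro n
    obtain ⟨i, m, hn⟩ := hex n
    rw [hθ n i m hn, hθ (n + N) i (m + 1) (by rw [hn]; ring)]
    push_cast
    ring
  · intro n
    obtain ⟨i, m, hn⟩ := hex n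
    exact ⟨i, m, hθ n i m hn⟩
  · intro i m
    exact ⟨i + m * N, hθ _ i m rfl⟩

theorem exists_enum {q : ℕ} (hq : 2 ≤ q) {P : Set (OnePoint ℂ)} (hfin : P.Finite)
    (hbox : P ⊆ ⋃ j : ℤ, bx q j) (hne : ∀ j, (P ∩ bx q j).Nontrivial) : Nonempty (Enum q P) := by
  classical
  have hq0 : (0 : ℝ) < q := by
    have : 0 < q := by omega
    exact_mod_cast this
  have hq2 : (2 : ℝ) ≤ q := by exact_mod_cast hq
  let X : Set ℝ := {x | ((pt x 0 : ℂ) : OnePoint ℂ) ∈ P}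
  have hXint : ∀ x (n : ℤ), x ∈ X ↔ x + n ∈ X := by
    intro x n
    show _ ∈ P ↔ _ ∈ P
    rw [pt_add_int]
  have hXbox : ∀ x ∈ X, ∃ j : ℤ, |q * x - j / 2| ≤ 1 / 16 := by
    intro x hx
    obtain ⟨j, hj⟩ := mem_iUnion.1 (hbox hx)
    obtain ⟨n, hn⟩ := mem_bx_pt hj
    refine ⟨j - 2 * q * n, ?_⟩
    have : (q : ℝ) * (x + n) - j / 2 = q * x - ((j - 2 * q * n : ℤ) : ℝ) / 2 := by
      push_cast
      ring
    rwa [← this]
  have hXtwo : ∀ j : ℤ, ∃ x ∈ X, ∃ y ∈ X, x < y ∧ |q * x - j / 2| ≤ 1 / 16 ∧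
      |q * y - j / 2| ≤ 1 / 16 := by
    intro j
    obtain ⟨z, ⟨hz, x, hx, hzx⟩, w, ⟨hw, y, hy, hwy⟩, hne⟩ := hne j
    have hxy : x ≠ y := by
      rintro rfl
      exact hne (hzx.trans hwy.symm)
    have hxX : x ∈ X := by
      show ((pt x 0 : ℂ) : OnePoint ℂ) ∈ P
      rw [← hzx]; exact hz
    have hyX : y ∈ X := by
      show ((pt y 0 : ℂ) : OnePoint ℂ) ∈ P
      rw [← hwy]; exact hw
    rcases lt_or_gt_of_ne hxy with h | h
    · exact ⟨x, hxX, y, hyX, h, hx, hy⟩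
    · exact ⟨y, hyX, x, hxX, h, hy, hx⟩
  have hfin' : (X ∩ Ico 0 1).Finite := by
    refine Set.Finite.of_finite_image (f := fun x => ((pt x 0 : ℂ) : OnePoint ℂ)) ?_ ?_
    · exact hfin.subset (by rintro _ ⟨x, ⟨hx, -⟩, rfl⟩; exact hx)
    · rintro x ⟨-, hx⟩ y ⟨-, hy⟩ hxy
      have h3 : pt x 0 = pt y 0 := OnePoint.coe_injective hxy
      obtain ⟨-, n, hn⟩ := pt_eq_iff.1 h3
      have h4 : (n : ℝ) < 1 := by linarith [hx.2, hy.1]
      have h5 : (-1 : ℝ) < n := by linarith [hx.1, hy.2]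
      have h6 : n < 1 := by exact_mod_cast h4
      have h7 : -1 < n := by exact_mod_cast h5
      have h8 : n = 0 := by omega
      rw [hn, h8]
      simp
  set F := hfin'.toFinset with hF
  have hFmem : ∀ x, x ∈ F ↔ x ∈ X ∧ 0 ≤ x ∧ x < 1 := by
    intro x
    rw [hF, Set.Finite.mem_toFinset]
    rfl
  have hNpos : 0 < F.card := by
    obtain ⟨x, hx, -⟩ := hXtwo 0
    rw [Finset.card_pos]
    refine ⟨Int.fract x, (hFmem _).2 ⟨?_, Int.fract_nonneg x, Int.fract_lt_one x⟩⟩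
    rw [hXint _ ⌊x⌋, Int.fract_add_floor]
    exact hx
  obtain ⟨θ, hmono, hper, hθ1, hθ2⟩ := exists_enum_aux hNpos (F.orderEmbOfFin rfl)
    (F.orderEmbOfFin rfl).strictMono
    (fun i => ((hFmem _).1 (F.orderEmbOfFin_mem rfl i)).2.1)
    (fun i => ((hFmem _).1 (F.orderEmbOfFin_mem rfl i)).2.2)
  have hθX : ∀ n, θ n ∈ X := by
    intro n
    obtain ⟨i, m, h⟩ := hθ1 n
    rw [h, ← hXint]
    exact ((hFmem _).1 (F.orderEmbOfFin_mem rfl i)).1
  have hXθ : ∀ x ∈ X, ∃ n, θ n = x := by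
    intro x hx
    have h1 : Int.fract x ∈ F := (hFmem _).2 ⟨by
      rw [hXint _ ⌊x⌋, Int.fract_add_floor]
      exact hx, Int.fract_nonneg x, Int.fract_lt_one x⟩
    have h2 : Int.fract x ∈ Set.range (F.orderEmbOfFin rfl) := by
      rw [Finset.range_orderEmbOfFin]
      exact h1
    obtain ⟨i, hi⟩ := h2
    obtain ⟨n, hn⟩ := hθ2 i ⌊x⌋
    exact ⟨n, by rw [hn, hi, Int.fract_add_floor]⟩
  -- the gates
  have hγ : ∀ j : ℤ, ∃ m : ℤ, ∀ n : ℤ, n ≤ m ↔ q * θ n ≤ (j - 1) / 2 + 1 / 16 := by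
    intro j
    obtain ⟨x, hx, -, -, -, hxj, -⟩ := hXtwo (j - 1)
    obtain ⟨n₀, hn₀⟩ := hXθ x hx
    obtain ⟨y, hy, -, -, -, hyj, -⟩ := hXtwo j
    obtain ⟨n₁, hn₁⟩ := hXθ y hy
    have hx0 := abs_le.1 hxj
    have hy0 := abs_le.1 hyj
    push_cast at hx0 hy0
    have hP0 : q * θ n₀ ≤ ((j : ℝ) - 1) / 2 + 1 / 16 := by rw [hn₀]; linarith
    obtain ⟨m, hm, hmax⟩ := Int.exists_greatest_of_bdd
      (P := fun n => q * θ n ≤ ((j : ℝ) - 1) / 2 + 1 / 16) ⟨n₁, fun z hz => by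
        by_contra h
        push Not at h
        have h1 := hmono h
        have h2 : (q : ℝ) * θ n₁ < q * θ z := by gcongr
        rw [hn₁] at h2
        linarith⟩ ⟨n₀, hP0⟩
    refine ⟨m, fun n => ⟨fun h => ?_, hmax n⟩⟩
    have h1 := hmono.monotone h
    have h2 : (q : ℝ) * θ n ≤ q * θ m := by gcongr
    exact h2.trans hm
  choose γ hγ using hγ
  have hγ' : ∀ j n : ℤ, γ j < n ↔ (j : ℝ) / 2 - 1 / 16 ≤ q * θ n := by
    intro j n
    rw [← not_le, hγ j n, not_le]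
    constructor
    · intro h
      obtain ⟨i, hi⟩ := hXbox _ (hθX n)
      have hi' := abs_le.1 hi
      have h1 : (j : ℝ) - 1 < i := by linarith
      have h2 : j - 1 < i := by exact_mod_cast h1
      have h3 : (j : ℝ) ≤ i := by
        have : j ≤ i := by omega
        exact_mod_cast this
      linarith
    · intro h
      linarith
  have hbox' : ∀ j n, (γ j < n ∧ n ≤ γ (j + 1)) ↔ |q * θ n - j / 2| ≤ 1 / 16 := by
    intro j n
    rw [hγ' j n, hγ (j + 1) n, abs_le]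
    push_cast
    constructor
    · rintro ⟨h1, h2⟩
      constructor <;> linarith
    · rintro ⟨h1, h2⟩
      constructor <;> linarith
  refine ⟨⟨F.card, hNpos, θ, hmono, hper, ?_, ?_, γ, ?_, ?_, hbox', ?_⟩⟩
  · intro z
    constructor
    · intro hz
      obtain ⟨j, x, hx, hzx⟩ := mem_iUnion.1 (hbox hz)
      obtain ⟨n, hn⟩ := hXθ x (by
        show ((pt x 0 : ℂ) : OnePoint ℂ) ∈ P
        rw [← hzx]; exact hz)
      exact ⟨n, by rw [hn, hzx]⟩
    · rintro ⟨n, rfl⟩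
      exact hθX n
  · intro n
    obtain ⟨j, hj⟩ := hXbox _ (hθX n)
    obtain ⟨y, hy, -, -, -, hyj, -⟩ := hXtwo (j + 1)
    obtain ⟨m, hm⟩ := hXθ y hy
    have hj' := abs_le.1 hj
    have hy' := abs_le.1 hyj
    push_cast at hy'
    have h1 : (q : ℝ) * θ n < q * θ m := by rw [hm]; linarith
    have h2 : θ n < θ m := lt_of_mul_lt_mul_left h1 hq0.le
    have h3 : n < m := hmono.lt_iff_lt.1 h2
    have h4 : θ (n + 1) ≤ θ m := hmono.monotone (by omega)
    have h5 : (q : ℝ) * (θ (n + 1) - θ n) ≤ q * θ m - q * θ n := by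
      have : (q : ℝ) * θ (n + 1) ≤ q * θ m := by gcongr
      linarith
    rw [hm] at h5
    have h6 : (q : ℝ) * (θ (n + 1) - θ n) ≤ 5 / 8 := by linarith
    by_contra h7
    push Not at h7
    have h8 : (2 : ℝ) * (1 / 2) ≤ q * (θ (n + 1) - θ n) :=
      mul_le_mul hq2 h7 (by norm_num) hq0.le
    linarith
  · intro j
    have key : ∀ n, n ≤ γ (j + 2 * q) ↔ n ≤ γ j + F.card := by
      intro n
      rw [hγ (j + 2 * q) n, ← sub_le_iff_le_add (a := n), hγ j]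
      have h1 := hper (n - F.card)
      rw [sub_add_cancel] at h1
      push_cast
      rw [h1]
      constructor
      · intro h; linarith
      · intro h; linarith
    exact le_antisymm ((key _).1 le_rfl) ((key _).2 le_rfl)
  · intro j
    obtain ⟨x, hx, y, hy, hxy, hxj, hyj⟩ := hXtwo j
    obtain ⟨m, hm⟩ := hXθ x hx
    obtain ⟨n, hn⟩ := hXθ y hy
    have h1 : m < n := hmono.lt_iff_lt.1 (by rw [hm, hn]; exact hxy)
    have h2 := (hbox' j m).2 (by rw [hm]; exact hxj)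
    have h3 := (hbox' j n).2 (by rw [hn]; exact hyj)
    omega
  · intro j x h1 h2
    have h3 := (hγ j (γ j)).1 le_rfl
    have h4 := (hγ' j (γ j + 1)).1 (by omega)
    exact ⟨lt_of_mul_lt_mul_left (h3.trans_lt h1) hq0.le,
      lt_of_mul_lt_mul_left (h2.trans_le h4) hq0.le⟩

end Pool.Agent.RAY
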