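import Pool.Agent.RAY.HH

/-!
# Fibred members of `HH`

`HH.vert V` is `(x, y) ↦ (x, V x y)`, `HH.horz h` is `(x, y) ↦ (h y x, y)`.
-/

set_option autoImplicit false

open Topology Filter Set

namespace Pool.Agent.RAY

/-- A jointly continuous family of increasing homeomorphisms of the line has a jointly continuous
family of inverses. -/
theorem exists_fib_inverse {X : Type*} [TopologicalSpace X] (V : X → ℝ → ℝ)
    (hc : Continuous fun p : X × ℝ => V p.1 p.2) (hm : ∀ x, StrictMono (V x))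
    (hs : ∀ x, Function.Surjective (V x)) :
    ∃ W : X → ℝ → ℝ, (Continuous fun p : X × ℝ => W p.1 p.2) ∧ (∀ x y, V x (W x y) = y) ∧
      (∀ x y, W x (V x y) = y) ∧ ∀ x, StrictMono (W x) := by
  choose W hW using hs
  have hWV : ∀ x y, W x (V x y) = y := fun x y => (hm x).injective (hW x _)
  refine ⟨W, ?_, hW, hWV, fun x a b hab => ?_⟩
  · rw [continuous_iff_continuousAt]
    rintro ⟨x₀, y₀⟩
    rw [ContinuousAt, Metric.tendsto_nhds]
    intro ε hε
    have h1 : V x₀ (W x₀ y₀ - ε) < y₀ := by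
      conv_rhs => rw [← hW x₀ y₀]
      exact hm x₀ (by linarith)
    have h2 : y₀ < V x₀ (W x₀ y₀ + ε) := by
      conv_lhs => rw [← hW x₀ y₀]
      exact hm x₀ (by linarith)
    have hc1 : Continuous fun p : X × ℝ => V p.1 (W x₀ y₀ - ε) - p.2 :=
      (hc.comp (continuous_fst.prodMk continuous_const)).sub continuous_snd
    have hc2 : Continuous fun p : X × ℝ => V p.1 (W x₀ y₀ + ε) - p.2 :=
      (hc.comp (continuous_fst.prodMk continuous_const)).sub continuous_snd
    have e1 : ∀ᶠ p : X × ℝ in 𝓝 (x₀, y₀), V p.1 (W x₀ y₀ - ε) - p.2 < 0 :=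
      hc1.continuousAt.eventually (gt_mem_nhds (by simpa using h1))
    have e2 : ∀ᶠ p : X × ℝ in 𝓝 (x₀, y₀), 0 < V p.1 (W x₀ y₀ + ε) - p.2 :=
      hc2.continuousAt.eventually (lt_mem_nhds (by simpa using h2))
    filter_upwards [e1, e2] with p h3 h4
    rw [Real.dist_eq, abs_lt]
    constructor
    · by_contra hcon
      have : W p.1 p.2 ≤ W x₀ y₀ - ε := by linarith
      have := (hm p.1).monotone this
      rw [hW] at this
      linarith
    · by_contra hcon
      have : W x₀ y₀ + ε ≤ W p.1 p.2 := by linarith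
      have := (hm p.1).monotone this
      rw [hW] at this
      linarith
  · by_contra hcon
    have := (hm x).monotone (not_lt.1 hcon)
    rw [hW, hW] at this
    linarith

/-- A continuous function at bounded distance from the identity is surjective. -/
theorem surjective_of_bound {g : ℝ → ℝ} (hg : Continuous g) {B : ℝ} (hB : ∀ y, |g y - y| ≤ B) :
    Function.Surjective g := by
  intro y
  have h1 : g (y - B) ≤ y := by have := (abs_le.1 (hB (y - B))).2; linarith
  have h2 : y ≤ g (y + B) := by have := (abs_le.1 (hB (y + B))).1; linarith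
  have hB0 : 0 ≤ B := (abs_nonneg _).trans (hB 0)
  obtain ⟨x, -, hx⟩ := intermediate_value_Icc (by linarith : y - B ≤ y + B)
    hg.continuousOn ⟨h1, h2⟩
  exact ⟨x, hx⟩

/-- A continuous function with `g (x + 1) = g x + 1` has bounded distance from the identity. -/
theorem exists_bound_of_turn {g : ℝ → ℝ} (hg : Continuous g) (ht : ∀ x, g (x + 1) = g x + 1) :
    ∃ B : ℝ, ∀ x, |g x - x| ≤ B := by
  have hper : Function.Periodic (fun x => g x - x) 1 := fun x => by simp only [ht]; ring
  obtain ⟨B, hB⟩ := (isCompact_Icc (a := (0 : ℝ)) (b := 1)).exists_bound_of_continuousOn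
    (f := fun x => g x - x) (hg.sub continuous_id).continuousOn
  refine ⟨B, fun x => ?_⟩
  obtain ⟨y, hy, hxy⟩ := hper.exists_mem_Ico₀ one_pos x
  rw [hxy]
  exact hB y ⟨hy.1, hy.2.le⟩

namespace HH

/-- Data of a fibred vertical homeomorphism. -/
structure Vert where
  /-- the height -/
  V : ℝ → ℝ → ℝ
  cont : Continuous fun z : Pl => V z.1 z.2
  mono : ∀ x, StrictMono (V x)
  per : ∀ x y, V (x + 1) y = V x y
  bound : ∃ B : ℝ, ∀ x y, |V x y - y| ≤ B

namespace Vert

variable (D : Vert)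

theorem cont' (x : ℝ) : Continuous (D.V x) :=
  D.cont.comp (by fun_prop : Continuous fun y : ℝ => (x, y))

theorem exists_inv : ∃ W : ℝ → ℝ → ℝ, (Continuous fun p : ℝ × ℝ => W p.1 p.2) ∧
    (∀ x y, D.V x (W x y) = y) ∧ (∀ x y, W x (D.V x y) = y) ∧ ∀ x, StrictMono (W x) := by
  obtain ⟨B, hB⟩ := D.bound
  exact exists_fib_inverse D.V D.cont D.mono fun x => surjective_of_bound (D.cont' x) (hB x)

/-- The inverse heights. -/
noncomputable def W : ℝ → ℝ → ℝ := D.exists_inv.choose

theorem W_cont : Continuous fun p : ℝ × ℝ => D.W p.1 p.2 := D.exists_inv.choose_spec.1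

@[simp] theorem V_W (x y : ℝ) : D.V x (D.W x y) = y := D.exists_inv.choose_spec.2.1 x y

@[simp] theorem W_V (x y : ℝ) : D.W x (D.V x y) = y := D.exists_inv.choose_spec.2.2.1 x y

theorem W_mono (x : ℝ) : StrictMono (D.W x) := D.exists_inv.choose_spec.2.2.2 x

theorem W_eq_iff {x y w : ℝ} : D.W x y = w ↔ y = D.V x w :=
  ⟨fun h => by rw [← h, D.V_W], fun h => by rw [h, D.W_V]⟩

/-- `(x, y) ↦ (x, V x y)`. -/
noncomputable def toHH : HH :=
  mk' (fun z => (z.1, D.V z.1 z.2)) (fun z => (z.1, D.W z.1 z.2))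
    (continuous_fst.prodMk D.cont) (continuous_fst.prodMk D.W_cont)
    (fun z => by simp) (fun z => by simp) (fun z => by simp [D.per]) (by
      obtain ⟨B, hB⟩ := D.bound
      exact ⟨B, fun z => hB z.1 z.2⟩)

@[simp] theorem toHH_apply (z : Pl) : D.toHH z = (z.1, D.V z.1 z.2) := rfl

@[simp] theorem toHH_inv_apply (z : Pl) : D.toHH⁻¹ z = (z.1, D.W z.1 z.2) := rfl

end Vert

/-- Data of a fibred horizontal homeomorphism. -/
structure Horz where
  /-- the angle: `h y x` is the new `x` on the height `y` -/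
  h : ℝ → ℝ → ℝ
  cont : Continuous fun z : Pl => h z.2 z.1
  mono : ∀ y, StrictMono (h y)
  turn : ∀ y x, h y (x + 1) = h y x + 1

namespace Horz

variable (D : Horz)

theorem cont' (y : ℝ) : Continuous (D.h y) :=
  D.cont.comp (by fun_prop : Continuous fun x : ℝ => ((x, y) : Pl))

theorem exists_inv : ∃ W : ℝ → ℝ → ℝ, (Continuous fun p : ℝ × ℝ => W p.1 p.2) ∧
    (∀ y x, D.h y (W y x) = x) ∧ (∀ y x, W y (D.h y x) = x) ∧ ∀ y, StrictMono (W y) := by
  have hc : Continuous fun p : ℝ × ℝ => D.h p.1 p.2 :=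
    D.cont.comp (by fun_prop : Continuous fun p : ℝ × ℝ => ((p.2, p.1) : Pl))
  refine exists_fib_inverse D.h hc D.mono fun y => ?_
  obtain ⟨B, hB⟩ := exists_bound_of_turn (D.cont' y) (D.turn y)
  exact surjective_of_bound (D.cont' y) hB

/-- The inverse angles. -/
noncomputable def W : ℝ → ℝ → ℝ := D.exists_inv.choose

theorem W_cont : Continuous fun p : ℝ × ℝ => D.W p.1 p.2 := D.exists_inv.choose_spec.1

@[simp] theorem h_W (y x : ℝ) : D.h y (D.W y x) = x := D.exists_inv.choose_spec.2.1 y x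

@[simp] theorem W_h (y x : ℝ) : D.W y (D.h y x) = x := D.exists_inv.choose_spec.2.2.1 y x

theorem W_mono (y : ℝ) : StrictMono (D.W y) := D.exists_inv.choose_spec.2.2.2 y

theorem W_eq_iff {y x w : ℝ} : D.W y x = w ↔ x = D.h y w :=
  ⟨fun h => by rw [← h, D.h_W], fun h => by rw [h, D.W_h]⟩

/-- `(x, y) ↦ (h y x, y)`. -/
noncomputable def toHH : HH :=
  mk' (fun z => (D.h z.2 z.1, z.2)) (fun z => (D.W z.2 z.1, z.2))
    (D.cont.prodMk continuous_snd)
    ((D.W_cont.comp (by fun_prop : Continuous fun z : Pl => ((z.2, z.1) : ℝ × ℝ))).prodMk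
      continuous_snd)
    (fun z => by simp) (fun z => by simp) (fun z => by simp [D.turn]) ⟨0, fun z => by simp⟩

@[simp] theorem toHH_apply (z : Pl) : D.toHH z = (D.h z.2 z.1, z.2) := rfl

@[simp] theorem toHH_inv_apply (z : Pl) : D.toHH⁻¹ z = (D.W z.2 z.1, z.2) := rfl

end Horz

end HH

end Pool.Agent.RAY
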