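import Pool.Agent.RAY.Defs

/-!
# Graph part: parabolicity from approximations, walks of rays
-/

namespace Pool.Agent.RAY

open Set Topology Filter unitInterval

section abstract_graph

variable {V : Type} (G : SimpleGraph V) (φ : V → V)

theorem edist_iterate (hφ : ∀ a b, G.edist (φ a) (φ b) = G.edist a b) (n : ℕ) (a b : V) :
    G.edist (φ^[n] a) (φ^[n] b) = G.edist a b := by
  induction n with
  | zero => rfl
  | succ n ih => rw [Function.iterate_succ_apply', Function.iterate_succ_apply', hφ, ih]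

theorem edist_orbit_le (hφ : ∀ a b, G.edist (φ a) (φ b) = G.edist a b) (x y : V) (k n : ℕ)
    (hX : G.edist x y ≤ k) (hN : G.edist y (φ^[n] y) ≤ 1) :
    G.edist x (φ^[n] x) ≤ (2 * k + 1 : ℕ) := by
  calc G.edist x (φ^[n] x) ≤ G.edist x y + G.edist y (φ^[n] x) := G.edist_triangle
    _ ≤ G.edist x y + (G.edist y (φ^[n] y) + G.edist (φ^[n] y) (φ^[n] x)) := by
        gcongr
        exact G.edist_triangle
    _ = G.edist x y + (G.edist y (φ^[n] y) + G.edist y x) := by
        rw [edist_iterate G φ hφ]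
    _ ≤ (k : ℕ∞) + (1 + k) := by
        gcongr
        rwa [G.edist_comm]
    _ = (2 * k + 1 : ℕ) := by
        push_cast
        ring

/-- Orbits which are slowly displaced along a sequence of vertices `X k` at distance `≤ k`. -/
theorem tau_zero (hφ : ∀ a b, G.edist (φ a) (φ b) = G.edist a b) (x : V) (X : ℕ → V) (N : ℕ → ℕ)
    (hX : ∀ k, G.edist x (X k) ≤ k)
    (hN : ∀ k, ∀ n ≤ N k, G.edist (X k) (φ^[n] (X k)) ≤ 1)
    (htop : Tendsto N atTop atTop)
    (hlim : Tendsto (fun k : ℕ => (2 * k + 3 : ℝ) / N k) atTop (𝓝 0)) :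
    (∀ n : ℕ, G.edist x (φ^[n] x) ≠ ⊤) ∧
      Tendsto (fun n : ℕ => ((G.edist x (φ^[n] x)).toNat : ℝ) / n) atTop (𝓝 0) := by
  have hex : ∀ n : ℕ, ∃ k, n ≤ N k := fun n => (htop.eventually_ge_atTop n).exists
  have hle : ∀ n k : ℕ, n ≤ N k → G.edist x (φ^[n] x) ≤ (2 * k + 1 : ℕ) := fun n k h =>
    edist_orbit_le G φ hφ x (X k) k n (hX k) (hN k n h)
  have hne : ∀ n : ℕ, G.edist x (φ^[n] x) ≠ ⊤ := by
    intro n
    obtain ⟨k, hk⟩ := hex n
    exact ne_top_of_le_ne_top (ENat.natCast_ne_top _) (hle n k hk)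
  have hnat : ∀ n k : ℕ, n ≤ N k → (G.edist x (φ^[n] x)).toNat ≤ 2 * k + 1 := by
    intro n k h
    exact ENat.toNat_le_of_le_natCast (hle n k h)
  refine ⟨hne, ?_⟩
  classical
  rw [Metric.tendsto_atTop]
  intro ε hε
  rw [Metric.tendsto_atTop] at hlim
  obtain ⟨K₀, hK₀⟩ := hlim ε hε
  obtain ⟨K₁, hK₁⟩ := (htop.eventually_ge_atTop 1).exists_forall_of_atTop
  set K := max K₀ K₁ with hKdef
  have hK : ∀ k ≥ K, dist ((2 * k + 3 : ℝ) / N k) 0 < ε := fun k hk =>
    hK₀ k ((le_max_left _ _).trans hk)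
  -- beyond all `N k`, `k ≤ K`
  let B : ℕ := (Finset.range (K + 1)).sup N
  refine ⟨B + 1, fun n hn => ?_⟩
  have hk := Nat.find_spec (hex n)
  set k := Nat.find (hex n) with hkdef
  have hkK : K < k := by
    by_contra hlt
    have h1 : N k ≤ B := Finset.le_sup (f := N) (Finset.mem_range.2 (by omega))
    omega
  have hk1 : N (k - 1) < n := by
    have := Nat.find_min (hex n) (m := k - 1) (by omega)
    omega
  have hd := hnat n k hk
  have hKk := hK (k - 1) (by omega)
  rw [Real.dist_eq, sub_zero] at hKk ⊢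
  have hn0 : (0 : ℝ) < n := by
    have : 0 < n := by omega
    exact_mod_cast this
  rw [abs_of_nonneg (by positivity)]
  have hN0 : 1 ≤ N (k - 1) := hK₁ (k - 1) ((le_max_right K₀ K₁).trans (by omega))
  have hN1 : (0 : ℝ) < N (k - 1) := by
    have : 0 < N (k - 1) := hN0
    exact_mod_cast this
  have h1 : (((G.edist x (φ^[n] x)).toNat : ℝ)) ≤ 2 * ((k - 1 : ℕ) : ℝ) + 3 := by
    have : (G.edist x (φ^[n] x)).toNat ≤ 2 * (k - 1) + 3 := by omega
    exact_mod_cast this
  calc ((G.edist x (φ^[n] x)).toNat : ℝ) / n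
      ≤ (2 * ((k - 1 : ℕ) : ℝ) + 3) / n := by gcongr
    _ ≤ (2 * ((k - 1 : ℕ) : ℝ) + 3) / N (k - 1) := by
        apply div_le_div_of_nonneg_left (by positivity) hN1
        exact_mod_cast hk1.le
    _ ≤ |(2 * ((k - 1 : ℕ) : ℝ) + 3) / N (k - 1)| := le_abs_self _
    _ < ε := hKk

/-- A vertex at distance `≤ 2 m` has a midpoint. -/
theorem exists_mid {x y : V} {m : ℕ} (h : G.edist x y ≤ (2 * m : ℕ)) :
    ∃ (z : V) (p : G.Walk x z) (q : G.Walk y z), p.length ≤ m ∧ q.length ≤ m := by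
  have hr : G.Reachable x y := by
    rw [← G.edist_ne_top_iff_reachable]
    exact ne_top_of_le_ne_top (ENat.natCast_ne_top _) h
  obtain ⟨p, hp⟩ := hr.exists_walk_length_eq_edist
  have hlen : p.length ≤ 2 * m := by
    rw [← hp] at h
    exact_mod_cast h
  refine ⟨p.getVert m, p.take m, (p.drop m).reverse, ?_, ?_⟩
  · rw [SimpleGraph.Walk.take_length]
    exact min_le_left _ _
  · rw [SimpleGraph.Walk.length_reverse, SimpleGraph.Walk.drop_length]
    omega

end abstract_graph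

end Pool.Agent.RAY
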