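import Pool.Agent.RAY.Dyn2

/-!
# RAY, block D: itineraries of rays given in the cover
-/

set_option autoImplicit false

open Topology Filter Set unitInterval

namespace Pool.Agent.RAY

/-- The path `E` on `(0, 1]` (coming from `y = +∞` at `0`) has itinerary `w`; before its end it
avoids the ring segments of the boxes. -/
def ItinR (L : Lv) (w : List ℤ) (E : ℝ → Pl) : Prop :=
  ∃ τ : ℕ → ℝ, Monotone τ ∧ τ 0 = 0 ∧ τ (w.length + 1) = 1 ∧
    (∀ i (hi : i < w.length), 0 < τ (i + 1) ∧ τ (i + 1) < 1 ∧ E (τ (i + 1)) ∈ gtP L.q (w[i])) ∧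
    ∀ i ≤ w.length, ∀ t, 0 < t → τ i ≤ t → t ≤ τ (i + 1) →
      (t ≠ 1 → E t ∉ Sys.RB L) ∧ (Even i → 0 ≤ (E t).2) ∧ (¬ Even i → (E t).2 ≤ 0)

/-- PACKAGE D-ARM (to be proved in `Pool/Agent/RAY/DynArm.lean`). -/
def ArmPath : Prop := ∀ (L : Lv) (w : ℝ) (H : HStep L w) (w0 w1 : List ℤ), Odd w0.length →
  Odd w1.length → ∀ δ : ℝ → Pl, Continuous δ → (δ 0).2 = 1 → (δ 1).2 = -1 →
  ItinP L.q w0 (fun t => H.g (δ t)) → ItinP L.next.q w1 δ → ∀ (v : ℤ) (a : Pl),
  |L.q * a.1 - v| ≤ 1 / 16 → a.2 = 0 →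
  ∃ E : ℝ → Pl, ContinuousOn E (Ioc 0 1) ∧ Tendsto (fun t => (E t).2) (𝓝[>] 0) atTop ∧
    E 1 = H.g⁻¹ a ∧ ItinR L w0 (fun t => H.g (E t)) ∧ ItinR L.next w1 E

/-- The ray in the sphere given by a path in the cover. -/
noncomputable def rayOf (E : ℝ → Pl) : I → OnePoint ℂ :=
  fun t => if (t : ℝ) = 0 then OnePoint.infty else ((ex (E t) : ℂ) : OnePoint ℂ)

theorem rayOf_zero (E : ℝ → Pl) : rayOf E 0 = OnePoint.infty := if_pos rfl

theorem rayOf_of_pos (E : ℝ → Pl) {t : I} (ht : 0 < (t : ℝ)) :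
    rayOf E t = ((ex (E t) : ℂ) : OnePoint ℂ) := if_neg ht.ne'

/-- Convergence to infinity in terms of the height. -/
theorem tendsto_infty {T : Type} {l : Filter T} {F : T → Pl}
    (h : Tendsto (fun t => (F t).2) l atTop) :
    Tendsto (fun t => ((ex (F t) : ℂ) : OnePoint ℂ)) l (𝓝 OnePoint.infty) := by
  refine OnePoint.tendsto_coe_infty.comp ?_
  rw [coclosedCompact_eq_cocompact, ← Metric.cobounded_eq_cocompact,
    ← tendsto_norm_atTop_iff_cobounded]
  simp only [norm_ex]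
  exact Real.tendsto_exp_atTop.comp (h.const_mul_atTop (by positivity))

/-- The continuity lemma: `H` is infinity on the closed set `Z`, and off `Z` it is given by a
continuous map to the cover whose height tends to infinity at `Z`. -/
theorem continuous_of_cover {T : Type} [TopologicalSpace T] {Z : Set T} (hZ : IsClosed Z)
    {F : T → Pl} (hF : ContinuousOn F Zᶜ) (hinf : ∀ z ∈ Z, Tendsto (fun t => (F t).2) (𝓝[Zᶜ] z) atTop)
    {H : T → OnePoint ℂ} (h1 : ∀ z ∈ Z, H z = OnePoint.infty)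
    (h2 : ∀ z ∉ Z, H z = ((ex (F z) : ℂ) : OnePoint ℂ)) : Continuous H := by
  rw [continuous_iff_continuousAt]
  intro z
  by_cases hz : z ∈ Z
  · rw [ContinuousAt, h1 z hz, ← nhdsWithin_univ, ← union_compl_self Z, nhdsWithin_union]
    refine Tendsto.sup ?_ ?_
    · refine tendsto_const_nhds.congr' ?_
      filter_upwards [self_mem_nhdsWithin] with w hw using (h1 w hw).symm
    · refine (tendsto_infty (hinf z hz)).congr' ?_
      filter_upwards [self_mem_nhdsWithin] with w hw using (h2 w hw).symm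
  · have h3 : ContinuousAt F z := hF.continuousAt (hZ.isOpen_compl.mem_nhds hz)
    have h4 : ContinuousAt (fun t => ((ex (F t) : ℂ) : OnePoint ℂ)) z :=
      OnePoint.continuous_coe.continuousAt.comp (continuous_ex.continuousAt.comp h3)
    refine h4.congr ?_
    filter_upwards [hZ.isOpen_compl.mem_nhds hz] with w hw using (h2 w hw).symm

theorem continuous_rayOf {E : ℝ → Pl} (hE : ContinuousOn E (Ioc 0 1))
    (hinf : Tendsto (fun t => (E t).2) (𝓝[>] 0) atTop) : Continuous (rayOf E) := by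
  have hmaps : MapsTo (fun t : I => (t : ℝ)) ({t : I | (t : ℝ) = 0}ᶜ) (Ioc 0 1) := by
    intro t ht
    exact ⟨lt_of_le_of_ne t.2.1 (Ne.symm ht), t.2.2⟩
  refine continuous_of_cover (Z := {t : I | (t : ℝ) = 0}) (F := fun t : I => E t)
    (isClosed_eq continuous_subtype_val continuous_const) ?_ ?_ ?_ ?_
  · exact hE.comp continuous_subtype_val.continuousOn hmaps
  · intro z hz
    have h1 : Tendsto (fun t : I => (t : ℝ)) (𝓝[{t : I | (t : ℝ) = 0}ᶜ] z) (𝓝[>] 0) := by
      refine tendsto_nhdsWithin_iff.2 ⟨?_, ?_⟩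
      · have h2 : (0 : ℝ) = (z : ℝ) := hz.symm
        rw [h2]
        exact (continuous_subtype_val.tendsto z).mono_left nhdsWithin_le_nhds
      · filter_upwards [self_mem_nhdsWithin] with w hw using (hmaps hw).1
    exact hinf.comp h1
  · intro z hz
    exact if_pos hz
  · intro z hz
    exact if_neg hz

theorem ex_mem_sideU {z : Pl} (h : 0 ≤ z.2) : ((ex z : ℂ) : OnePoint ℂ) ∈ sideU := by
  refine Or.inr ⟨ex z, ?_, rfl⟩
  rw [norm_ex]
  have := Real.pi_pos
  exact Real.one_le_exp (by positivity)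

theorem ex_mem_sideV {z : Pl} (h : z.2 ≤ 0) : ((ex z : ℂ) : OnePoint ℂ) ∈ sideV := by
  refine ⟨ex z, ?_, rfl⟩
  rw [norm_ex, Real.exp_le_one_iff]
  have := Real.pi_pos
  nlinarith

theorem pt_eq (x y : ℝ) : pt x y = ex (x, y) := rfl

/-- Gates in the cover and in the sphere; the index only matters modulo `2 q`. -/
theorem gt_of_gtP {q : ℕ} {j c : ℤ} {z : Pl} (h : z ∈ gtP q j) :
    ((ex z : ℂ) : OnePoint ℂ) ∈ gt q (j + 2 * q * c) := by
  obtain ⟨h1, h2, h3⟩ := h
  simp only [Int.cast_natCast] at h1 h2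
  refine ⟨z.1 + c, ?_, ?_, ?_⟩
  · push_cast
    linarith
  · push_cast
    linarith
  · rw [pt_eq, ex_turn (z.1, 0) c, ← h3]

theorem bx_of_rc {q : ℕ} {j c : ℤ} {z : Pl} (h : z ∈ rc q (1 / 16) j) (h0 : z.2 = 0) :
    ((ex z : ℂ) : OnePoint ℂ) ∈ bx q (j + 2 * q * c) := by
  have h1 := h.1
  simp only [Int.cast_natCast] at h1
  refine ⟨z.1 + c, ?_, ?_⟩
  · have h2 : (q : ℝ) * (z.1 + c) - ((j + 2 * q * c : ℤ) : ℝ) / 2 = q * z.1 - j / 2 := by
      push_cast
      ring
    rw [h2]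
    exact h1
  · rw [pt_eq, ex_turn (z.1, 0) c, ← h0]

theorem exists_of_bx {q : ℕ} {j : ℤ} {a : OnePoint ℂ} (h : a ∈ bx q j) :
    ∃ z : Pl, z ∈ rc q (1 / 16) j ∧ z.2 = 0 ∧ a = ((ex z : ℂ) : OnePoint ℂ) := by
  obtain ⟨x, h1, h2⟩ := h
  refine ⟨(x, 0), ⟨?_, ?_⟩, rfl, h2⟩
  · simpa using h1
  · simp

namespace Sys

variable (S : Sys)

/-- picture `k` to the sphere -/
noncomputable def GS (k : ℕ) : OnePoint ℂ ≃ₜ OnePoint ℂ := (HH.toC (S.G k)).onePointCongr

/-- the Cantor set of picture `k` -/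
def D (k : ℕ) : Set (OnePoint ℂ) := S.GS k ⁻¹' ((↑) '' S.C)

theorem opc_coe (f : ℂ ≃ₜ ℂ) (z : ℂ) :
    f.onePointCongr (z : OnePoint ℂ) = ((f z : ℂ) : OnePoint ℂ) := rfl

theorem opc_symm_coe (f : ℂ ≃ₜ ℂ) (z : ℂ) :
    f.onePointCongr.symm (z : OnePoint ℂ) = ((f.symm z : ℂ) : OnePoint ℂ) := rfl

@[simp] theorem GS_infty (k : ℕ) : S.GS k OnePoint.infty = OnePoint.infty := rfl

@[simp] theorem GS_symm_infty (k : ℕ) : (S.GS k).symm OnePoint.infty = OnePoint.infty := rfl

theorem GS_ex (k : ℕ) (z : Pl) :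
    S.GS k ((ex z : ℂ) : OnePoint ℂ) = ((ex (S.G k z) : ℂ) : OnePoint ℂ) := by
  unfold GS
  rw [opc_coe, HH.toC_ex]

theorem GS_symm_ex (k : ℕ) (z : Pl) :
    (S.GS k).symm ((ex z : ℂ) : OnePoint ℂ) = ((ex ((S.G k)⁻¹ z) : ℂ) : OnePoint ℂ) := by
  rw [Homeomorph.symm_apply_eq, GS_ex, HH.apply_inv_self]

theorem GS_zero : S.GS 0 = Homeomorph.refl _ := by
  unfold GS
  rw [G_zero, map_one]
  ext z
  induction z using OnePoint.rec with
  | infty => rfl
  | coe z => rfl

theorem mem_D {k : ℕ} {z : Pl} : ((ex z : ℂ) : OnePoint ℂ) ∈ S.D k ↔ S.G k z ∈ S.Cv := by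
  show S.GS k ((ex z : ℂ) : OnePoint ℂ) ∈ (fun w : ℂ => (w : OnePoint ℂ)) '' S.C ↔ _
  rw [GS_ex, ← S.ex_mem_C]
  constructor
  · rintro ⟨w, hw, h⟩
    rwa [← OnePoint.coe_injective h]
  · exact fun h => ⟨_, h, rfl⟩

theorem infty_not_mem_D (k : ℕ) : OnePoint.infty ∉ S.D k := by
  rintro ⟨w, -, h⟩
  rw [GS_infty] at h
  exact OnePoint.coe_ne_infty _ h

/-- Points of the Cantor set of picture `k` lie in the ring segments of the boxes. -/
theorem RB_of_mem_D {k : ℕ} {z : Pl} (h : ((ex z : ℂ) : OnePoint ℂ) ∈ S.D k) :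
    z ∈ RB (Lv.lv k) := by
  have h1 := S.mem_D.1 h k
  rwa [HH.inv_apply_self] at h1

theorem exists_of_mem_D {k : ℕ} {a : OnePoint ℂ} (h : a ∈ S.D k) :
    ∃ z : Pl, a = ((ex z : ℂ) : OnePoint ℂ) ∧ S.G k z ∈ S.Cv := by
  obtain ⟨w, ⟨z, hz, rfl⟩, h2⟩ := h
  refine ⟨(S.G k)⁻¹ z, ?_, by rwa [HH.apply_inv_self]⟩
  rw [← S.GS_symm_ex, h2, Homeomorph.symm_apply_apply]

/-- Itineraries of rays given in the cover. -/
theorem itin_rayOf (k : ℕ) {w : List ℤ} {E : ℝ → Pl} (hE : ContinuousOn E (Ioc 0 1))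
    (hinf : Tendsto (fun t => (E t).2) (𝓝[>] 0) atTop) (h1 : S.G k (E 1) ∈ S.Cv)
    (hI : ItinR (Lv.lv k) w E) {q : ℕ} (hq : (q : ℤ) = (Lv.lv k).q) :
    Itin (S.D k) q w (rayOf E) where
  continuous := continuous_rayOf hE hinf
  zero := rayOf_zero E
  one := by
    rw [rayOf_of_pos E (by simp)]
    exact S.mem_D.2 (by simpa using h1)
  pieces := by
    obtain ⟨τ, hmono, h0, hlast, hg, hp⟩ := hI
    -- the times as elements of `I`
    have hmem : ∀ i, min (τ i) 1 ∈ Icc (0 : ℝ) 1 := by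
      intro i
      have : τ 0 ≤ τ i := hmono (Nat.zero_le i)
      rw [h0] at this
      exact ⟨le_min this zero_le_one, min_le_right _ _⟩
    have hle : ∀ i ≤ w.length + 1, τ i ≤ 1 := fun i hi => hlast ▸ hmono hi
    refine ⟨fun i => ⟨min (τ i) 1, hmem i⟩, ?_, ?_, ?_, ?_, ?_⟩
    · intro i j hij
      exact min_le_min_right _ (hmono hij)
    · apply Subtype.ext
      simp [h0]
    · apply Subtype.ext
      simp [hlast]
    · intro i hi
      obtain ⟨h2, h3, h4⟩ := hg i hi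
      have e : min (τ (i + 1)) 1 = τ (i + 1) := min_eq_left h3.le
      constructor
      · intro h5
        have := congrArg Subtype.val h5
        simp only [e, Set.Icc.coe_one] at this
        exact h3.ne this
      · rw [rayOf_of_pos E (by simp only [e]; exact h2)]
        simp only [e]
        rw [← hq] at h4
        have := gt_of_gtP (c := 0) h4
        rwa [mul_zero, add_zero] at this
    · intro i hi t ht1 ht2
      rcases t.2.1.eq_or_lt with ht | ht
      · -- `t = 0`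
        have ht' : t = 0 := Subtype.ext ht.symm
        subst ht'
        rw [rayOf_zero]
        refine ⟨fun _ => S.infty_not_mem_D k, ?_⟩
        have hi0 : i = 0 := by
          by_contra h6
          have h7 := (hg (i - 1) (by omega)).1
          rw [Nat.sub_add_cancel (Nat.one_le_iff_ne_zero.2 h6)] at h7
          have h8 : min (τ i) 1 ≤ 0 := by
            have := ht1
            rw [← Subtype.coe_le_coe] at this
            simpa using this
          rcases min_le_iff.1 h8 with h9 | h9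
          · linarith
          · linarith
        rw [hi0]
        simp [side, sideU]
      · have h2 : τ i ≤ t := by
          have h3 : min (τ i) 1 ≤ (t : ℝ) := ht1
          rwa [min_eq_left (hle i (by omega))] at h3
        have h3 : (t : ℝ) ≤ τ (i + 1) := by
          have h4 : (t : ℝ) ≤ min (τ (i + 1)) 1 := ht2
          exact h4.trans (min_le_left _ _)
        obtain ⟨h4, h5, h6⟩ := hp i hi t ht h2 h3
        rw [rayOf_of_pos E ht]
        refine ⟨fun h7 h8 => h4 ?_ (S.RB_of_mem_D h8), ?_⟩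
        · intro h9
          exact h7 (Subtype.ext h9)
        · unfold side
          split_ifs with h7
          · exact ex_mem_sideU (h5 h7)
          · exact ex_mem_sideV (h6 h7)

end Sys

end Pool.Agent.RAY
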