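import Pool.Agent.RAY.Ends

/-!
# Lower bound: from windows to the unboundedness of the orbit
-/

namespace Pool.Agent.RAY

open Set Topology Filter unitInterval

namespace Tower

variable (T : Tower)

/-- The properties of the windows which are used: `W P k v a` says that, with the punctures `P`, the vertex `a`
passes through the window `v` of picture `k`. -/
structure WinSys (W : Set (OnePoint ℂ) → ℕ → ℤ → Vertex T.C → Prop) : Prop where
  start : ∀ m P, T.Good m P → T.vend (Quotient.mk _ (T.X 0)) ∈ P →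
    W P 0 0 (Quotient.mk _ (T.X 0))
  stay : ∀ m P, T.Good m P → ∀ k < m, ∀ v a, T.vend a ∈ P → W P k v a →
    W P (k + 1) (T.u k v) a
  step : ∀ m P, T.Good m P → ∀ k < m, ∀ v a b, T.vend a ∈ P → T.vend b ∈ P →
    (rayGraph T.C).Adj a b → W P k v a → ∃ s ∈ T.S k, W P (k + 1) (T.u k v + s) b
  final : ∀ m P P', T.Good m P → T.Good m P' → P' = T.f.onePointCongr^[T.t m] ⁻¹' P → 1 ≤ m →
    ∀ i ∈ T.J m, ∀ i' ∈ T.J m, ∀ a, T.vend a ∈ P' → W P' m i a → ¬ W P m i' (T.φ^[T.t m] a)

variable {T} {W : Set (OnePoint ℂ) → ℕ → ℤ → Vertex T.C → Prop}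

theorem WinSys.stay_iterate (hW : T.WinSys W) {m : ℕ} {P : Set (OnePoint ℂ)} (hP : T.Good m P)
    {a : Vertex T.C} (ha : T.vend a ∈ P) {k : ℕ} {v : ℤ} (hv : v ∈ T.J k) (h : W P k v a) {l : ℕ}
    (hkl : k ≤ l) (hl : l ≤ m) : ∃ v' ∈ T.J l, W P l v' a := by
  induction l, hkl using Nat.le_induction with
  | base => exact ⟨v, hv, h⟩
  | succ l hkl ih =>
    obtain ⟨v', hv', h'⟩ := ih (by omega)
    refine ⟨T.u l v', ?_, hW.stay m P hP l (by omega) v' a ha h'⟩
    have := T.J_succ l v' hv' 0 (T.S_zero l) 0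
    simpa using this

theorem WinSys.walk (hW : T.WinSys W) {m : ℕ} {P : Set (OnePoint ℂ)} (hP : T.Good m P)
    {a b : Vertex T.C} (p : (rayGraph T.C).Walk a b) (hp : ∀ c ∈ p.support, T.vend c ∈ P) :
    ∀ {k : ℕ} {v : ℤ}, v ∈ T.J k → W P k v a → k + p.length ≤ m →
      ∃ v' ∈ T.J (k + p.length), W P (k + p.length) v' b := by
  induction p with
  | nil => intro k v hv h _; exact ⟨v, hv, h⟩
  | @cons a c b hadj p ih =>
    intro k v hv h hk
    rw [SimpleGraph.Walk.length_cons] at hk ⊢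
    have hc : T.vend c ∈ P := hp c (by
      rw [SimpleGraph.Walk.support_cons]
      exact List.mem_cons_of_mem _ p.start_mem_support)
    have ha : T.vend a ∈ P := hp a (by simp)
    obtain ⟨s, hs, h'⟩ := hW.step m P hP k (by omega) v a c ha hc hadj h
    have hv' : T.u k v + s ∈ T.J (k + 1) := by
      have := T.J_succ k v hv s hs 0
      simpa using this
    obtain ⟨v', h1, h2⟩ := ih (fun d hd => hp d (by
      rw [SimpleGraph.Walk.support_cons]
      exact List.mem_cons_of_mem _ hd)) hv' h' (by omega)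
    have e : k + 1 + p.length = k + (p.length + 1) := by ring
    rw [e] at h1 h2
    exact ⟨v', h1, h2⟩

theorem WinSys.reach (hW : T.WinSys W) {m : ℕ} {P : Set (OnePoint ℂ)} (hP : T.Good m P)
    {b : Vertex T.C} (p : (rayGraph T.C).Walk (Quotient.mk _ (T.X 0)) b)
    (hp : ∀ c ∈ p.support, T.vend c ∈ P) (hlen : p.length ≤ m) : ∃ v' ∈ T.J m, W P m v' b := by
  obtain ⟨v, hv, h⟩ := hW.walk hP p hp T.J_zero (hW.start m P hP (hp _ p.start_mem_support))
    (by omega)
  exact hW.stay_iterate hP (hp _ p.end_mem_support) hv h (by omega) le_rfl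

theorem f_inj : Function.Injective (T.f.onePointCongr) := T.f.onePointCongr.injective

theorem WinSys.lower (hW : T.WinSys W) {m : ℕ} (hm : 1 ≤ m) :
    ¬ (rayGraph T.C).edist (Quotient.mk _ (T.X 0)) (T.φ^[T.t m] (Quotient.mk _ (T.X 0))) ≤
      (2 * m : ℕ) := by
  intro h
  set t := T.t m with ht
  obtain ⟨z, p, q, hp, hq⟩ := exists_mid (rayGraph T.C) h
  -- pull back the second walk
  let ψ : Vertex T.C → Vertex T.C := act T.f.symm (symm_image T.map_C)
  have hψφ : ∀ a, ψ (T.φ a) = a := act_symm T.f T.map_C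
  have hφψ : ∀ a, T.φ (ψ a) = a := act_symm T.f.symm (symm_image T.map_C)
  have hψφt : ∀ n a, ψ^[n] (T.φ^[n] a) = a := by
    intro n
    induction n with
    | zero => intro a; rfl
    | succ n ih => intro a; rw [Function.iterate_succ_apply, Function.iterate_succ_apply' T.φ, hψφ, ih]
  have hφψt : ∀ n a, T.φ^[n] (ψ^[n] a) = a := by
    intro n
    induction n with
    | zero => intro a; rfl
    | succ n ih => intro a; rw [Function.iterate_succ_apply, Function.iterate_succ_apply' ψ, hφψ, ih]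
  have hhom : ∀ n, ∃ F : rayGraph T.C →g rayGraph T.C, ∀ a, F a = ψ^[n] a := by
    intro n
    induction n with
    | zero => exact ⟨SimpleGraph.Hom.id, fun a => rfl⟩
    | succ n ih =>
      obtain ⟨F, hF⟩ := ih
      refine ⟨(actHom T.f.symm (symm_image T.map_C)).comp F, fun a => ?_⟩
      rw [Function.iterate_succ_apply', ← hF]
      rfl
  obtain ⟨F, hF⟩ := hhom t
  let q' := (q.map F).copy (show F (T.φ^[t] (Quotient.mk _ (T.X 0))) = Quotient.mk _ (T.X 0) by
    rw [hF, hψφt]) rfl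
  have hq' : q'.length ≤ m := by
    simpa [q'] using hq
  -- the punctures
  obtain ⟨P₁, hP₁⟩ := T.exists_base m
  let f' : OnePoint ℂ → OnePoint ℂ := T.f.onePointCongr^[t]
  have hf' : Function.Injective f' := T.f.onePointCongr.injective.iterate t
  let E₁ : Set (OnePoint ℂ) := {x | ∃ c ∈ p.support, T.vend c = x}
  let E₂ : Set (OnePoint ℂ) := {x | ∃ c ∈ q'.support, T.vend c = x}
  have hE₁ : E₁.Finite := by
    have : E₁ = T.vend '' {c | c ∈ p.support} := rfl
    rw [this]
    exact (List.finite_toSet _).image _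
  have hE₂ : E₂.Finite := by
    have : E₂ = T.vend '' {c | c ∈ q'.support} := rfl
    rw [this]
    exact (List.finite_toSet _).image _
  have hE₁' : E₁ ⊆ (↑) '' T.C := by
    rintro _ ⟨c, -, rfl⟩
    exact T.vend_mem c
  have hE₂' : E₂ ⊆ (↑) '' T.C := by
    rintro _ ⟨c, -, rfl⟩
    exact T.vend_mem c
  let P : Set (OnePoint ℂ) := P₁ ∪ E₁ ∪ f' '' (P₁ ∪ E₂)
  have himg : f' '' ((↑) '' T.C) = (↑) '' T.C := T.image_iterate t
  have hPsub : P ⊆ (↑) '' T.C := by
    refine union_subset (union_subset hP₁.sub hE₁') ?_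
    rw [← himg]
    exact image_mono (union_subset hP₁.sub hE₂')
  have hPfin : P.Finite := (hP₁.fin.union hE₁).union ((hP₁.fin.union hE₂).image _)
  have hgood : T.Good m P := hP₁.mono (subset_union_left.trans subset_union_left) hPsub hPfin
  have hP'sub : f' ⁻¹' P ⊆ (↑) '' T.C := by
    intro x hx
    have := hPsub hx
    rw [← himg] at this
    obtain ⟨y, hy, hyx⟩ := this
    rwa [← hf' hyx]
  have hP'fin : (f' ⁻¹' P).Finite := hPfin.preimage hf'.injOn
  have hgood' : T.Good m (f' ⁻¹' P) := by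
    refine hP₁.mono (fun x hx => ?_) hP'sub hP'fin
    exact Or.inr ⟨x, Or.inl hx, rfl⟩
  obtain ⟨i', hi', hw'⟩ := hW.reach hgood p (fun c hc => Or.inl (Or.inr ⟨c, hc, rfl⟩)) hp
  obtain ⟨i, hi, hw⟩ := hW.reach hgood' q' (fun c hc => Or.inr ⟨T.vend c, Or.inr ⟨c, hc, rfl⟩, rfl⟩)
    hq'
  have hzend : T.vend (F z) ∈ f' ⁻¹' P :=
    Or.inr ⟨T.vend (F z), Or.inr ⟨F z, q'.end_mem_support, rfl⟩, rfl⟩
  refine hW.final m P (f' ⁻¹' P) hgood hgood' rfl hm i hi i' hi' (F z) hzend hw ?_
  have : T.φ^[t] (F z) = z := by rw [hF, hφψt]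
  rw [← ht, this]
  exact hw'

end Tower

end Pool.Agent.RAY
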