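import Mathlib

/-!
# RAY: the numbers of the construction (problem MP_5d2250_gt)

Level `k` has `q_k` slots and the rotation by `p_k` slots; `r = q_{k-1}`, `s = p_{k-1}`.
`p_{k+1} q_k - q_{k+1} p_k = 1`, `q_{k+1} = (M_k + 1) q_k - q_{k-1}`.
The time of the slot `i` of level `k` is the number `tm i` with `i = tm i * p_k` modulo `q_k`
and `|tm i| <= (q_k - 1) / 2` (all `q_k` are odd).
`u j` is the slot of level `k + 1` of the arc which separates the sectors `j - 1` and `j`.
-/

set_option autoImplicit false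

namespace Pool.Agent.RAY

/-- The numbers of one level. -/
structure Lv where
  /-- number of slots -/
  q : ℤ
  /-- number of slots of the level before -/
  r : ℤ
  /-- rotation number -/
  p : ℤ
  /-- rotation number of the level before -/
  s : ℤ
  hr : 0 < r
  hrq : r < q
  det : p * r - q * s = 1
  odd : q % 2 = 1
  oddr : r % 2 = 1

namespace Lv

variable (L : Lv)

/-- The number `M_k`. -/
def M : ℤ := 16 * L.q + 15

theorem q_pos : 0 < L.q := L.hr.trans L.hrq

theorem M_pos : 0 < L.M := by have := L.q_pos; unfold M; omega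

/-- The next level. -/
def next : Lv where
  q := (L.M + 1) * L.q - L.r
  r := L.q
  p := (L.M + 1) * L.p - L.s
  s := L.p
  hr := L.q_pos
  hrq := by
    have h1 := L.hrq
    have h2 := L.q_pos
    unfold M
    nlinarith
  det := by
    have h1 := L.det
    unfold M
    linear_combination h1
  odd := by
    have h1 := L.oddr
    have h2 : (L.M + 1) * L.q = 2 * ((8 * L.q + 8) * L.q) := by unfold M; ring
    rw [h2]
    omega
  oddr := L.odd

/-- The first level: three slots, rotation by one slot. -/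
def base : Lv where
  q := 3
  r := 1
  p := 1
  s := 0
  hr := by norm_num
  hrq := by norm_num
  det := by norm_num
  odd := by norm_num
  oddr := by norm_num

/-- Level `k`. -/
def lv : ℕ → Lv
  | 0 => base
  | k + 1 => (lv k).next

@[simp] theorem next_r : L.next.r = L.q := rfl

@[simp] theorem next_s : L.next.s = L.p := rfl

theorem next_q : L.next.q = (L.M + 1) * L.q - L.r := rfl

theorem next_p : L.next.p = (L.M + 1) * L.p - L.s := rfl

/-- `p_{k+1} q_k - q_{k+1} p_k = 1`. -/
theorem det_next : L.next.p * L.q - L.next.q * L.p = 1 := L.next.det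

/-- `q_{k+1} = M q_k + (q_k - q_{k-1})`. -/
theorem next_q' : L.next.q = L.M * L.q + (L.q - L.r) := by rw [next_q]; ring

/-- The time of a slot. -/
def tm (i : ℤ) : ℤ := (i * L.r + (L.q - 1) / 2) % L.q - (L.q - 1) / 2

theorem half : 2 * ((L.q - 1) / 2) = L.q - 1 := by have := L.odd; omega

theorem tm_le (i : ℤ) : L.tm i ≤ (L.q - 1) / 2 := by
  have h1 := Int.emod_lt_of_pos (i * L.r + (L.q - 1) / 2) L.q_pos
  have h2 := L.half
  unfold tm
  omega

theorem le_tm (i : ℤ) : -((L.q - 1) / 2) ≤ L.tm i := by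
  have h1 := Int.emod_nonneg (i * L.r + (L.q - 1) / 2) L.q_pos.ne'
  unfold tm
  omega

/-- The time in a multiple of `q`. -/
theorem exists_tm (i : ℤ) : ∃ c : ℤ, L.tm i = i * L.r + c * L.q := by
  refine ⟨-((i * L.r + (L.q - 1) / 2) / L.q), ?_⟩
  have h := Int.emod_add_mul_ediv (i * L.r + (L.q - 1) / 2) L.q
  unfold tm
  linear_combination h

/-- Uniqueness of the time. -/
theorem tm_eq {i t c : ℤ} (h : t = i * L.r + c * L.q) (h1 : -((L.q - 1) / 2) ≤ t)
    (h2 : t ≤ (L.q - 1) / 2) : L.tm i = t := by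
  obtain ⟨d, hd⟩ := L.exists_tm i
  have h3 := L.tm_le i
  have h4 := L.le_tm i
  have h5 := L.half
  have h6 : L.tm i - t = (d - c) * L.q := by rw [hd, h]; ring
  have h7 : d - c < 1 := by
    by_contra h8
    push Not at h8
    nlinarith [L.q_pos]
  have h8 : -1 < d - c := by
    by_contra h9
    push Not at h9
    nlinarith [L.q_pos]
  have h9 : d - c = 0 := by omega
  rw [h9, zero_mul] at h6
  omega

theorem tm_add_q (i c : ℤ) : L.tm (i + c * L.q) = L.tm i := by
  obtain ⟨d, hd⟩ := L.exists_tm i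
  refine L.tm_eq (c := d - c * L.r) ?_ (L.le_tm i) (L.tm_le i)
  rw [hd]; ring

/-- The slot with time `t`: `t * p`. -/
theorem exists_slot (i : ℤ) : ∃ c : ℤ, i = L.tm i * L.p + c * L.q := by
  obtain ⟨d, hd⟩ := L.exists_tm i
  refine ⟨-(i * L.s) - d * L.p, ?_⟩
  rw [hd]
  linear_combination (-i) * L.det

theorem tm_mul_p {t : ℤ} (h1 : -((L.q - 1) / 2) ≤ t) (h2 : t ≤ (L.q - 1) / 2) :
    L.tm (t * L.p) = t := by
  refine L.tm_eq (c := -(t * L.s)) ?_ h1 h2
  linear_combination (-t) * L.det

/-- Rotation adds one to the time. -/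
theorem tm_add_p {i n : ℤ} (h1 : -((L.q - 1) / 2) ≤ L.tm i + n)
    (h2 : L.tm i + n ≤ (L.q - 1) / 2) : L.tm (i + n * L.p) = L.tm i + n := by
  obtain ⟨d, hd⟩ := L.exists_tm i
  refine L.tm_eq (c := d - n * L.s) ?_ h1 h2
  rw [hd]
  linear_combination (-n) * L.det

/-- The slot of level `k + 1` of the arc number `j`. -/
def u (j : ℤ) : ℤ := (L.next.q * j + L.tm j) / L.q

/-- The defining property of `u`. -/
theorem q_mul_u (j : ℤ) : L.q * L.u j = L.next.q * j + L.tm j := by
  obtain ⟨d, hd⟩ := L.exists_tm j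
  have h : L.next.q * j + L.tm j = L.q * ((L.M + 1) * j + d) := by
    rw [hd, next_q]; ring
  unfold u
  rw [h, Int.mul_ediv_cancel_left _ L.q_pos.ne']

theorem u_add_q (j c : ℤ) : L.u (j + c * L.q) = L.u j + c * L.next.q := by
  have h1 := L.q_mul_u (j + c * L.q)
  have h2 := L.q_mul_u j
  rw [tm_add_q] at h1
  have h3 : L.q * (L.u (j + c * L.q) - (L.u j + c * L.next.q)) = 0 := by
    linear_combination h1 - h2
  have h4 := (mul_eq_zero.1 h3).resolve_left L.q_pos.ne'
  omega

/-- The arcs are `M` or `M + 1` slots apart. -/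
theorem u_succ (j : ℤ) : L.u (j + 1) - L.u j = L.M ∨ L.u (j + 1) - L.u j = L.M + 1 := by
  obtain ⟨d, hd⟩ := L.exists_tm j
  obtain ⟨e, he⟩ := L.exists_tm (j + 1)
  have h1 := L.q_mul_u (j + 1)
  have h2 := L.q_mul_u j
  have h3 : L.u (j + 1) - L.u j = L.M + 1 + (e - d) := by
    have : L.q * (L.u (j + 1) - L.u j - (L.M + 1 + (e - d))) = 0 := by
      rw [he] at h1
      rw [hd] at h2
      rw [next_q] at h1 h2
      linear_combination h1 - h2
    have := (mul_eq_zero.1 this).resolve_left L.q_pos.ne'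
    omega
  have h4 := L.tm_le j
  have h5 := L.le_tm j
  have h6 := L.tm_le (j + 1)
  have h7 := L.le_tm (j + 1)
  have h8 := L.half
  have h9 : L.tm (j + 1) - L.tm j = L.r + (e - d) * L.q := by rw [he, hd]; ring
  have hr := L.hr
  have hrq := L.hrq
  have h10 : e - d < 1 := by
    by_contra h11
    push Not at h11
    nlinarith
  have h11 : -2 < e - d := by
    by_contra h12
    push Not at h12
    nlinarith
  omega

theorem M_le_u_succ (j : ℤ) : L.M ≤ L.u (j + 1) - L.u j := by
  rcases L.u_succ j with h | h <;> omega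

theorem u_succ_le (j : ℤ) : L.u (j + 1) - L.u j ≤ L.M + 1 := by
  rcases L.u_succ j with h | h <;> omega

theorem u_diff (j : ℤ) (n : ℕ) :
    n * L.M ≤ L.u (j + n) - L.u j ∧ L.u (j + n) - L.u j ≤ n * (L.M + 1) := by
  induction n with
  | zero => simp
  | succ n ih =>
    have h1 := L.M_le_u_succ (j + n)
    have h2 := L.u_succ_le (j + n)
    have e : j + ((n + 1 : ℕ) : ℤ) = j + n + 1 := by push_cast; ring
    rw [e]
    push_cast
    constructor <;> linarith [ih.1, ih.2]

theorem u_strictMono : StrictMono L.u := by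
  refine strictMono_int_of_lt_succ fun j => ?_
  have := L.M_le_u_succ j
  have := L.M_pos
  omega

/-- The semigroup generated by `M` and `M + 1`. -/
def Sg (s : ℤ) : Prop := ∃ a : ℤ, 0 ≤ a ∧ a * L.M ≤ s ∧ s ≤ a * (L.M + 1)

theorem Sg.add {L : Lv} {s t : ℤ} (hs : L.Sg s) (ht : L.Sg t) : L.Sg (s + t) := by
  obtain ⟨a, h1, h2, h3⟩ := hs
  obtain ⟨b, h4, h5, h6⟩ := ht
  exact ⟨a + b, by omega, by linarith, by linarith⟩

theorem Sg_zero : L.Sg 0 := ⟨0, le_rfl, by simp, by simp⟩

theorem Sg.nonneg {L : Lv} {s : ℤ} (hs : L.Sg s) : 0 ≤ s := by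
  obtain ⟨a, h1, h2, -⟩ := hs
  have := L.M_pos
  exact le_trans (by positivity) h2

/-- Differences of arcs are in the semigroup. -/
theorem Sg_u {i j : ℤ} (h : i ≤ j) : L.Sg (L.u j - L.u i) := by
  obtain ⟨n, hn⟩ := Int.eq_ofNat_of_zero_le (sub_nonneg.2 h)
  have h1 := L.u_diff i n
  have e : i + (n : ℤ) = j := by omega
  rw [e] at h1
  exact ⟨n, by omega, h1.1, h1.2⟩

/-- `q_{k+1}` and its neighbours are in the semigroup. -/
theorem Sg_next_q : L.Sg L.next.q :=
  ⟨L.q, L.q_pos.le, by rw [next_q']; nlinarith [L.hrq], by rw [next_q]; nlinarith [L.hr]⟩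

theorem Sg_next_q_sub : L.Sg (L.next.q - 1) := by
  have := L.hrq
  refine ⟨L.q, L.q_pos.le, by rw [next_q']; nlinarith, by rw [next_q]; nlinarith [L.hr]⟩

theorem Sg_next_q_add : L.Sg (L.next.q + 1) := by
  have h1 := L.hr
  have h2 := L.hrq
  refine ⟨L.q, L.q_pos.le, by rw [next_q']; nlinarith, by rw [next_q]; nlinarith⟩

/-- The time of an arc is the time of its sector. -/
theorem tm_u (j : ℤ) : L.next.tm (L.u j) = L.tm j := by
  have h1 := L.q_mul_u j
  have h2 := L.tm_le j
  have h3 := L.le_tm j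
  have h4 : L.q < L.next.q := L.next.hrq
  refine L.next.tm_eq (c := -j) ?_ ?_ ?_
  · rw [next_r]; linear_combination -h1
  · omega
  · omega

/-- Off the exceptional index the arcs are permuted by the rotation. -/
theorem u_add_p {j : ℤ} (h : L.tm j < (L.q - 1) / 2) : L.u (j + L.p) = L.u j + L.next.p := by
  have h1 := L.q_mul_u (j + L.p)
  have h2 := L.q_mul_u j
  have h3 : L.tm (j + L.p) = L.tm j + 1 := by
    have := L.tm_add_p (i := j) (n := 1) (by have := L.le_tm j; omega) (by omega)
    rwa [one_mul] at this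
  rw [h3] at h1
  have h4 : L.q * (L.u (j + L.p) - (L.u j + L.next.p)) = 0 := by
    linear_combination h1 - h2 - L.det_next
  have h5 := (mul_eq_zero.1 h4).resolve_left L.q_pos.ne'
  omega

/-- The exceptional arc. -/
theorem u_add_p' {j : ℤ} (h : L.tm j = (L.q - 1) / 2) :
    L.u (j + L.p) = L.u j + L.next.p - 1 ∧ L.tm (j + L.p) = -((L.q - 1) / 2) := by
  have h1 := L.q_mul_u (j + L.p)
  have h2 := L.q_mul_u j
  have h0 := L.half
  have h3 : L.tm (j + L.p) = -((L.q - 1) / 2) := by
    obtain ⟨d, hd⟩ := L.exists_tm j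
    refine L.tm_eq (c := d - L.s - 1) ?_ le_rfl (by have := L.q_pos; omega)
    have h5 : (j + L.p) * L.r + (d - L.s - 1) * L.q = L.tm j + 1 - L.q := by
      rw [hd]; linear_combination L.det
    rw [h5, h]
    omega
  refine ⟨?_, h3⟩
  rw [h3] at h1
  have h4 : L.q * (L.u (j + L.p) - (L.u j + L.next.p - 1)) = 0 := by
    linear_combination h1 - h2 - L.det_next - h - h0
  have h5 := (mul_eq_zero.1 h4).resolve_left L.q_pos.ne'
  omega

/-- The time of `u j + s` for `s` in the semigroup, `s <= q_{k+1} + 1`. -/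
theorem tm_u_add {j s : ℤ} (hs : L.Sg s) (hs' : s ≤ L.next.q + 1) :
    |L.next.tm (L.u j + s) - L.tm j| ≤ L.q * L.q := by
  obtain ⟨a, ha, h1, h2⟩ := hs
  have hr := L.hr
  have hrq := L.hrq
  have hq := L.q_pos
  have haq : a ≤ L.q := by
    by_contra h
    push Not at h
    have h3 : (L.q + 1) * L.M ≤ a * L.M := mul_le_mul_of_nonneg_right h L.M_pos.le
    rw [next_q'] at hs'
    have h4 : L.M = 16 * L.q + 15 := rfl
    nlinarith
  -- the time is `tm j + c q - a (q - r)`, where `c = s - a M`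
  have hc0 : 0 ≤ s - a * L.M := by omega
  have hc1 : s - a * L.M ≤ a := by linarith
  have h3 := L.q_mul_u j
  have hx : |(s - a * L.M) * L.q - a * (L.q - L.r)| ≤ L.q * L.q := by
    rw [abs_le]
    constructor
    · nlinarith
    · nlinarith
  have h4 : L.next.tm (L.u j + s) = L.tm j + ((s - a * L.M) * L.q - a * (L.q - L.r)) := by
    have hh := L.half
    have hh' := L.next.half
    have h5 := L.tm_le j
    have h6 := L.le_tm j
    have h7 := abs_le.1 hx
    have h8 : 4 * (L.q * L.q) ≤ L.next.q - 1 := by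
      rw [next_q']
      have h4 : L.M = 16 * L.q + 15 := rfl
      nlinarith
    have h9 : L.q ≤ L.q * L.q := by nlinarith
    refine L.next.tm_eq (c := -j - a) ?_ ?_ ?_
    · rw [next_r]
      have h10 := L.next_q'
      linear_combination a * h10 - h3
    · omega
    · omega
  rw [h4, add_sub_cancel_left]
  exact hx

end Lv

end Pool.Agent.RAY
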