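import Pool.Agent.RAY.Upper
import Pool.Agent.RAY.Lower

/-!
# Parabolicity from a tower and its windows
-/

namespace Pool.Agent.RAY

open Set Topology Filter unitInterval

theorem Tower.parabolic (T : Tower) {W : Set (OnePoint ℂ) → ℕ → ℤ → Vertex T.C → Prop}
    (hW : T.WinSys W) : ActsParabolically T.f T.map_C := by
  obtain ⟨h1, h2⟩ := T.upper
  refine ⟨T.vX 0, h1, fun B => ?_, h2⟩
  refine ⟨T.t (B + 1), ?_⟩
  have h := hW.lower (m := B + 1) (by omega)
  rw [not_le] at h
  refine lt_trans ?_ h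
  exact_mod_cast (by omega : B < 2 * (B + 1))

end Pool.Agent.RAY
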