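import Pool.Agent.RAY.TopSys
import Pool.Agent.RAY.CircLem
import Pool.Agent.RAY.Ends

/-!
# Pictures of rays; transport of windows
-/

namespace Pool.Agent.RAY

open Set Topology Filter unitInterval

/-- every time belongs to a piece -/
theorem exists_piece {n : ℕ} {τ : ℕ → I} (h0 : τ 0 = 0) (h1 : τ (n + 1) = 1) (t : I) :
    ∃ i ≤ n, τ i ≤ t ∧ t ≤ τ (i + 1) := by
  by_contra h
  push Not at h
  have key : ∀ i ≤ n + 1, τ i ≤ t := by
    intro i
    induction i with
    | zero => intro _; rw [h0]; exact unitInterval.nonneg t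
    | succ i ih =>
      intro hi
      exact (h i (by omega) (ih (by omega))).le
  have h2 := h n le_rfl (key n (by omega))
  rw [h1] at h2
  exact absurd h2 (not_lt.2 (unitInterval.le_one t))

theorem Itin.pathTo {D P : Set (OnePoint ℂ)} {q : ℕ} {w : List ℤ} {η : I → OnePoint ℂ}
    (h : Itin D q w η) (hPD : P ⊆ D) (h1 : η 1 ∈ P) : PathTo P η where
  continuous := h.continuous
  zero := h.zero
  one := h1
  avoid t ht hP := by
    obtain ⟨τ, -, h0, h1, -, h2⟩ := h.pieces
    obtain ⟨i, hi, hit, hit'⟩ := exists_piece h0 h1 t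
    exact (h2 i hi t hit hit').1 ht (hPD hP)

theorem PathTo.map {P P' : Set (OnePoint ℂ)} {η : I → OnePoint ℂ} (hη : PathTo P η)
    (h : OnePoint ℂ ≃ₜ OnePoint ℂ) (h0 : h OnePoint.infty = OnePoint.infty) (hP : h ⁻¹' P' = P) :
    PathTo P' fun t => h (η t) where
  continuous := h.continuous.comp hη.continuous
  zero := by
    show h (η 0) = _
    rw [hη.zero, h0]
  one := by
    have := hη.one
    rw [← hP] at this
    exact this
  avoid t ht hP' := hη.avoid t ht (by rw [← hP]; exact hP')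

theorem IsRay.pathTo {C : Set ℂ} {γ : I → OnePoint ℂ} (hγ : IsRay C γ) {P : Set (OnePoint ℂ)}
    (hP : P ⊆ (↑) '' C) (h1 : γ 1 ∈ P) : PathTo P γ where
  continuous := hγ.continuous
  zero := hγ.zero
  one := h1
  avoid t ht hPt := by
    obtain ⟨c, hc, hct⟩ := hP hPt
    by_cases h0 : t = 0
    · rw [h0, hγ.zero] at hct
      exact OnePoint.coe_ne_infty c hct
    · obtain ⟨z, hz, hzt⟩ := hγ.interior t h0 ht
      rw [hzt] at hct
      exact hz (OnePoint.coe_injective hct ▸ hc)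

namespace Tower

variable (T : Tower)

theorem G_symm_infty (k : ℕ) : (T.G k).symm OnePoint.infty = OnePoint.infty := by
  rw [Homeomorph.symm_apply_eq, T.G_infty]

/-- A ray in picture `k`. -/
noncomputable def pic (k : ℕ) (γ : Ray T.C) : I → OnePoint ℂ := fun s => (T.G k).symm (γ.1 s)

theorem pathTo_pic {P : Set (OnePoint ℂ)} (hP : P ⊆ (↑) '' T.C) (k : ℕ) (γ : Ray T.C)
    (h1 : γ.1 1 ∈ P) : PathTo (T.G k ⁻¹' P) (T.pic k γ) :=
  (γ.2.pathTo hP h1).map (T.G k).symm (T.G_symm_infty k) (by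
    ext z
    show T.G k ((T.G k).symm z) ∈ P ↔ z ∈ P
    rw [Homeomorph.apply_symm_apply])

/-- from picture `k` to picture `k + 1` -/
noncomputable def tr (k : ℕ) : OnePoint ℂ ≃ₜ OnePoint ℂ := (T.G k).trans (T.G (k + 1)).symm

theorem tr_apply (k : ℕ) (z : OnePoint ℂ) : T.tr k z = (T.G (k + 1)).symm (T.G k z) := rfl

theorem tr_infty (k : ℕ) : T.tr k OnePoint.infty = OnePoint.infty := by
  rw [tr_apply, T.G_infty, T.G_symm_infty]

theorem tr_preimage (k : ℕ) (P : Set (OnePoint ℂ)) :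
    T.tr k ⁻¹' (T.G (k + 1) ⁻¹' P) = T.G k ⁻¹' P := by
  ext z
  show T.G (k + 1) ((T.G (k + 1)).symm (T.G k z)) ∈ P ↔ T.G k z ∈ P
  rw [Homeomorph.apply_symm_apply]

theorem tr_pic (k : ℕ) (γ : Ray T.C) (s : I) : T.tr k (T.pic k γ s) = T.pic (k + 1) γ s := by
  show (T.G (k + 1)).symm (T.G k ((T.G k).symm (γ.1 s))) = _
  rw [Homeomorph.apply_symm_apply]
  rfl

variable {T} in
theorem Good.enum {m : ℕ} {P : Set (OnePoint ℂ)} (h : T.Good m P) {k : ℕ} (hk : k ≤ m) :
    Nonempty (Enum (T.q k) (T.G k ⁻¹' P)) := by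
  refine exists_enum (by have := T.q_ge k; omega) ?_ ?_ (h.box k hk)
  · exact h.fin.preimage (T.G k).injective.injOn
  · exact (preimage_mono h.sub).trans (T.boxes k)

/-- points of a box in the enumeration -/
theorem Enum.exists_of_mem {q : ℕ} {P : Set (OnePoint ℂ)} (e : Enum q P) {j : ℤ} {z : OnePoint ℂ}
    (hz : z ∈ P) (hj : z ∈ bx q j) : ∃ n, z = (pt (e.θ n) 0 : ℂ) ∧ e.γ j < n ∧ n ≤ e.γ (j + 1) := by
  obtain ⟨n, hn⟩ := (e.mem z).1 hz
  rw [hn] at hj
  obtain ⟨m, hm⟩ := mem_bx_pt hj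
  have hper : ∀ (c : ℕ) (n : ℤ), e.θ (n + c * e.N) = e.θ n + c := by
    intro c
    induction c with
    | zero => intro n; simp
    | succ c ih =>
      intro n
      have : n + ((c + 1 : ℕ) : ℤ) * e.N = n + c * e.N + e.N := by push_cast; ring
      rw [this, e.per, ih]
      push_cast
      ring
  have hper' : ∀ (c : ℤ) (n : ℤ), e.θ (n + c * e.N) = e.θ n + c := by
    intro c n
    rcases Int.eq_nat_or_neg c with ⟨l, rfl | rfl⟩
    · exact_mod_cast hper l n
    · have h := hper l (n + -(l : ℤ) * e.N)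
      have e1 : n + -(l : ℤ) * e.N + l * e.N = n := by ring
      rw [e1] at h
      push_cast
      linarith
  refine ⟨n + m * e.N, ?_, (e.box j _).2 ?_⟩
  · rw [hn, hper', pt_add_int]
  · rw [hper']
    exact hm

end Tower

end Pool.Agent.RAY
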