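import Mathlib

/-!
# The reflection in a gap, on the circle at infinity (MP_5d2250_gt)

For a gap `(a, b)` of the circle (angles, `a < b < a + 2 π`), `m = (a + b) / 2`, `h = (b - a) / 2`, the
Lorentz reflection `v ↦ v - 2 ⟨v, n⟩ / ⟨n, n⟩ n`, `n = (exp (i m), cos h)`, of `ℂ × ℝ` maps the point
`(exp (i x), 1)` to a positive multiple of `(exp (i ρ x), 1)`, where `ρ = rho a b` maps the
complement `[b, a + 2 π]` of the gap onto `[a, b]` and is strictly decreasing.
-/

set_option autoImplicit false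

namespace Pool.Agent.RAY

open Real

/-- The reflection in the gap `(a, b)`, in angles. -/
noncomputable def rho (a b x : ℝ) : ℝ :=
  (a + b) / 2 + 2 * arctan (tan ((b - a) / 4) ^ 2 * tan (π / 2 - (x - (a + b) / 2) / 2))

variable {a b : ℝ}

theorem tan_quarter_pos (hab : a < b) (hb : b < a + 2 * π) : 0 < tan ((b - a) / 4) :=
  tan_pos_of_pos_of_lt_pi_div_two (by linarith) (by linarith)

/-- strictly decreasing on the complement -/
theorem rho_anti (hab : a < b) (hb : b < a + 2 * π) {x y : ℝ} (hx : b ≤ x) (hxy : x < y)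
    (hy : y ≤ a + 2 * π) : rho a b y < rho a b x := by
  have hT := tan_quarter_pos hab hb
  have h1 : tan (π / 2 - (y - (a + b) / 2) / 2) < tan (π / 2 - (x - (a + b) / 2) / 2) := by
    refine tan_lt_tan_of_lt_of_lt_pi_div_two ?_ ?_ ?_ <;> linarith
  have h2 : tan ((b - a) / 4) ^ 2 * tan (π / 2 - (y - (a + b) / 2) / 2) <
      tan ((b - a) / 4) ^ 2 * tan (π / 2 - (x - (a + b) / 2) / 2) :=
    mul_lt_mul_of_pos_left h1 (by positivity)
  have h3 := arctan_strictMono h2
  unfold rho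
  linarith

theorem tan_sub_quarter : tan (π / 2 - (b - a) / 4) = (tan ((b - a) / 4))⁻¹ :=
  tan_pi_div_two_sub _

/-- the end points are fixed -/
theorem rho_left (hab : a < b) (hb : b < a + 2 * π) : rho a b b = b := by
  have hT := tan_quarter_pos hab hb
  unfold rho
  have e : (b - (a + b) / 2) / 2 = (b - a) / 4 := by ring
  rw [e, tan_sub_quarter, sq, mul_assoc, mul_inv_cancel₀ hT.ne', mul_one,
    arctan_tan (by linarith) (by linarith)]
  ring

theorem rho_right (hab : a < b) (hb : b < a + 2 * π) : rho a b (a + 2 * π) = a := by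
  have hT := tan_quarter_pos hab hb
  unfold rho
  have e : π / 2 - (a + 2 * π - (a + b) / 2) / 2 = -(π / 2 - (b - a) / 4) := by ring
  rw [e, tan_neg, tan_sub_quarter, mul_neg, sq, mul_assoc, mul_inv_cancel₀ hT.ne',
    mul_one, arctan_neg, arctan_tan (by linarith) (by linarith)]
  ring

theorem rho_mem (hab : a < b) (hb : b < a + 2 * π) {x : ℝ} (hx : b ≤ x) (hx' : x ≤ a + 2 * π) :
    a ≤ rho a b x ∧ rho a b x ≤ b := by
  constructor
  · rcases hx'.eq_or_lt with h | h
    · rw [h, rho_right hab hb]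
    · have := rho_anti hab hb hx h le_rfl
      rw [rho_right hab hb] at this
      exact this.le
  · rcases hx.eq_or_lt with h | h
    · rw [← h, rho_left hab hb]
    · have := rho_anti hab hb le_rfl h hx'
      rw [rho_left hab hb] at this
      exact this.le

theorem rho_continuousOn (hab : a < b) :
    ContinuousOn (rho a b) (Set.Icc b (a + 2 * π)) := by
  have h1 : ContinuousOn (fun x : ℝ => tan (π / 2 - (x - (a + b) / 2) / 2))
      (Set.Icc b (a + 2 * π)) := by
    refine continuousOn_tan_Ioo.comp (by fun_prop) ?_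
    rintro x ⟨hx1, hx2⟩
    constructor <;> linarith
  unfold rho
  fun_prop

/-- onto -/
theorem rho_surj (hab : a < b) (hb : b < a + 2 * π) {y : ℝ} (hy : a ≤ y) (hy' : y ≤ b) :
    ∃ x, b ≤ x ∧ x ≤ a + 2 * π ∧ rho a b x = y := by
  have h := intermediate_value_Icc' hb.le (rho_continuousOn hab)
  rw [rho_left hab hb, rho_right hab hb] at h
  obtain ⟨x, hx, hxy⟩ := h ⟨hy, hy'⟩
  exact ⟨x, hx.1, hx.2, hxy⟩

/-- the reflection of `ℂ × ℝ` in the gap `(a, b)` -/
noncomputable def lref (a b : ℝ) (v : ℂ × ℝ) : ℂ × ℝ :=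
  (v.1 - ((2 * (v.1.re * cos ((a + b) / 2) + v.1.im * sin ((a + b) / 2)
      - v.2 * cos ((b - a) / 2)) / sin ((b - a) / 2) ^ 2 : ℝ) : ℂ) *
      Complex.exp (((a + b) / 2 : ℝ) * Complex.I),
    v.2 - 2 * (v.1.re * cos ((a + b) / 2) + v.1.im * sin ((a + b) / 2)
      - v.2 * cos ((b - a) / 2)) / sin ((b - a) / 2) ^ 2 * cos ((b - a) / 2))

/-- the factor -/
noncomputable def lam (a b x : ℝ) : ℝ :=
  (1 + cos ((b - a) / 2) ^ 2 - 2 * cos ((b - a) / 2) * cos (x - (a + b) / 2)) /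
    sin ((b - a) / 2) ^ 2

theorem sin_half_pos (hab : a < b) (hb : b < a + 2 * π) : 0 < sin ((b - a) / 2) :=
  sin_pos_of_pos_of_lt_pi (by linarith) (by linarith)

/-- the trigonometric identities behind `lref_circle` -/
theorem rho_trig (hab : a < b) (hb : b < a + 2 * π) {x : ℝ} (hx : b ≤ x)
    (hx' : x ≤ a + 2 * π) :
    0 < lam a b x ∧
    sin (x - (a + b) / 2) = lam a b x * sin (rho a b x - (a + b) / 2) ∧
    cos (x - (a + b) / 2) - 2 * (cos (x - (a + b) / 2) - cos ((b - a) / 2)) /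
      sin ((b - a) / 2) ^ 2 = lam a b x * cos (rho a b x - (a + b) / 2) := by
  set f : ℝ := (x - (a + b) / 2) / 2 with hf
  set g : ℝ := (b - a) / 4 with hg
  have e1 : x - (a + b) / 2 = 2 * f := by rw [hf]; ring
  have e2 : (b - a) / 2 = 2 * g := by rw [hg]; ring
  have e3 : rho a b x - (a + b) / 2 = 2 * arctan (tan g ^ 2 * tan (π / 2 - f)) := by
    unfold rho; ring
  have hs : 0 < sin f := sin_pos_of_pos_of_lt_pi (by linarith) (by linarith)
  have hS : 0 < sin g := sin_pos_of_pos_of_lt_pi (by linarith) (by linarith)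
  have hC : 0 < cos g := cos_pos_of_mem_Ioo ⟨by linarith, by linarith⟩
  have h1 : sin f ^ 2 + cos f ^ 2 = 1 := sin_sq_add_cos_sq f
  have h2 : sin g ^ 2 + cos g ^ 2 = 1 := sin_sq_add_cos_sq g
  set s := sin f
  set c := cos f with hcdef
  set S := sin g
  set C := cos g
  set D : ℝ := C ^ 4 * s ^ 2 + S ^ 4 * c ^ 2 with hD
  have hDpos : 0 < D := by positivity
  have hw : tan g ^ 2 * tan (π / 2 - f) = S ^ 2 * c / (C ^ 2 * s) := by
    rw [tan_pi_div_two_sub, tan_eq_sin_div_cos, tan_eq_sin_div_cos, inv_div, div_pow,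
      div_mul_div_comm]
  have hw1 : 1 + (S ^ 2 * c / (C ^ 2 * s)) ^ 2 = D / (C ^ 4 * s ^ 2) := by
    rw [hD]; field_simp
  have hcos2 : cos (2 * arctan (S ^ 2 * c / (C ^ 2 * s))) =
      (C ^ 4 * s ^ 2 - S ^ 4 * c ^ 2) / D := by
    rw [cos_two_mul, cos_sq_arctan, hw1, hD]
    field_simp
    ring
  have hsin2 : sin (2 * arctan (S ^ 2 * c / (C ^ 2 * s))) = 2 * S ^ 2 * C ^ 2 * c * s / D := by
    rw [sin_two_mul, sin_arctan]
    have h3 : sqrt (1 + (S ^ 2 * c / (C ^ 2 * s)) ^ 2) ^ 2 = D / (C ^ 4 * s ^ 2) := by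
      rw [sq_sqrt (by positivity), hw1]
    have h4 : cos (arctan (S ^ 2 * c / (C ^ 2 * s))) =
        1 / sqrt (1 + (S ^ 2 * c / (C ^ 2 * s)) ^ 2) := cos_arctan _
    rw [h4]
    have h5 : 2 * (S ^ 2 * c / (C ^ 2 * s) / sqrt (1 + (S ^ 2 * c / (C ^ 2 * s)) ^ 2)) *
        (1 / sqrt (1 + (S ^ 2 * c / (C ^ 2 * s)) ^ 2)) =
        2 * (S ^ 2 * c / (C ^ 2 * s)) / sqrt (1 + (S ^ 2 * c / (C ^ 2 * s)) ^ 2) ^ 2 := by
      field_simp
    rw [h5, h3]
    field_simp
  have hl : lam a b x = D / (S ^ 2 * C ^ 2) := by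
    unfold lam
    rw [e1, e2, cos_two_mul, sin_two_mul, cos_two_mul, hD]
    have h6 : (2 * sin g * cos g) ^ 2 = 4 * (S ^ 2 * C ^ 2) := by ring
    rw [h6, div_eq_div_iff (by positivity) (by positivity)]
    have h7 : S ^ 2 = 1 - C ^ 2 := by linarith
    have h8 : s ^ 2 = 1 - c ^ 2 := by linarith
    have h9 : S ^ 4 = (1 - C ^ 2) ^ 2 := by rw [← h7]; ring
    rw [h9, h8, h7]
    ring
  refine ⟨?_, ?_, ?_⟩
  · rw [hl]; positivity
  · rw [e3, hw, hsin2, hl, e1, sin_two_mul]
    have h12 : cos f = c := rfl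
    have h13 : sin f = s := rfl
    rw [h12, h13]
    field_simp
  · rw [e3, hw, hcos2, hl, e1, e2, cos_two_mul, cos_two_mul, sin_two_mul]
    have h7 : S ^ 2 = 1 - C ^ 2 := by linarith
    have h8 : s ^ 2 = 1 - c ^ 2 := by linarith
    have h9 : S ^ 4 = (1 - C ^ 2) ^ 2 := by rw [← h7]; ring
    have h6 : (2 * sin g * cos g) ^ 2 = 4 * (S ^ 2 * C ^ 2) := by ring
    rw [h6]
    have h10 : D / (S ^ 2 * C ^ 2) * ((C ^ 4 * s ^ 2 - S ^ 4 * c ^ 2) / D) =
        (C ^ 4 * s ^ 2 - S ^ 4 * c ^ 2) / (S ^ 2 * C ^ 2) := by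
      field_simp
    rw [h10]
    have h11 : (2 * c ^ 2 - 1) - 2 * ((2 * c ^ 2 - 1) - (2 * C ^ 2 - 1)) / (4 * (S ^ 2 * C ^ 2)) =
        ((2 * c ^ 2 - 1) * (4 * (S ^ 2 * C ^ 2)) - 2 * ((2 * c ^ 2 - 1) - (2 * C ^ 2 - 1))) /
          (4 * (S ^ 2 * C ^ 2)) := by
      field_simp
    have h12 : cos f = c := rfl
    have h13 : cos g = C := rfl
    rw [h12, h13, h11, div_eq_div_iff (by positivity) (by positivity), h9, h8, h7]
    ring

/-- **The reflection on the circle at infinity.** -/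
theorem lref_circle (hab : a < b) (hb : b < a + 2 * π) {x : ℝ} (hx : b ≤ x)
    (hx' : x ≤ a + 2 * π) :
    lref a b (Complex.exp (x * Complex.I), 1) =
      (lam a b x * Complex.exp (rho a b x * Complex.I), lam a b x) := by
  obtain ⟨h0, h1, h2⟩ := rho_trig hab hb hx hx'
  have hS := sin_half_pos hab hb
  have e1 : (Complex.exp (x * Complex.I)).re * cos ((a + b) / 2) +
      (Complex.exp (x * Complex.I)).im * sin ((a + b) / 2) = cos (x - (a + b) / 2) := by
    rw [Complex.exp_ofReal_mul_I_re, Complex.exp_ofReal_mul_I_im, cos_sub]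
  unfold lref
  ext1
  · simp only
    rw [e1, one_mul]
    have e2 : Complex.exp (x * Complex.I) =
        Complex.exp (((a + b) / 2 : ℝ) * Complex.I) *
          Complex.exp ((x - (a + b) / 2 : ℝ) * Complex.I) := by
      rw [← Complex.exp_add]; congr 1; push_cast; ring
    have e3 : Complex.exp (rho a b x * Complex.I) =
        Complex.exp (((a + b) / 2 : ℝ) * Complex.I) *
          Complex.exp ((rho a b x - (a + b) / 2 : ℝ) * Complex.I) := by
      rw [← Complex.exp_add]; congr 1; push_cast; ring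
    have e4 : Complex.exp ((x - (a + b) / 2 : ℝ) * Complex.I) -
        ((2 * (cos (x - (a + b) / 2) - cos ((b - a) / 2)) / sin ((b - a) / 2) ^ 2 : ℝ) : ℂ) =
        (lam a b x : ℂ) * Complex.exp ((rho a b x - (a + b) / 2 : ℝ) * Complex.I) := by
      apply Complex.ext
      · rw [Complex.sub_re, Complex.exp_ofReal_mul_I_re, Complex.ofReal_re,
          Complex.re_ofReal_mul, Complex.exp_ofReal_mul_I_re, h2]
      · rw [Complex.sub_im, Complex.exp_ofReal_mul_I_im, Complex.ofReal_im,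
          Complex.im_ofReal_mul, Complex.exp_ofReal_mul_I_im, ← h1, sub_zero]
    rw [e2, e3]
    linear_combination Complex.exp (((a + b) / 2 : ℝ) * Complex.I) * e4
  · simp only
    rw [e1, one_mul]
    unfold lam
    have h3 : sin ((b - a) / 2) ^ 2 + cos ((b - a) / 2) ^ 2 = 1 := sin_sq_add_cos_sq _
    field_simp
    linear_combination h3

/-- The reflection is an involution. -/
theorem lref_lref (hab : a < b) (hb : b < a + 2 * π) (v : ℂ × ℝ) :
    lref a b (lref a b v) = v := by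
  have hS := sin_half_pos hab hb
  have h3 : sin ((b - a) / 2) ^ 2 + cos ((b - a) / 2) ^ 2 = 1 := sin_sq_add_cos_sq _
  have h4 : sin ((a + b) / 2) ^ 2 + cos ((a + b) / 2) ^ 2 = 1 := sin_sq_add_cos_sq _
  set S := sin ((b - a) / 2)
  set C := cos ((b - a) / 2)
  set s := sin ((a + b) / 2) with hs
  set c := cos ((a + b) / 2) with hc
  have key : ∀ v : ℂ × ℝ, (lref a b v).1.re * c + (lref a b v).1.im * s - (lref a b v).2 * C =
      -(v.1.re * c + v.1.im * s - v.2 * C) := by
    intro v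
    have e1 : (lref a b v).1.re = v.1.re - 2 * (v.1.re * c + v.1.im * s - v.2 * C) / S ^ 2 * c := by
      unfold lref
      simp only
      rw [Complex.sub_re, Complex.re_ofReal_mul, Complex.exp_ofReal_mul_I_re]
    have e2 : (lref a b v).1.im = v.1.im - 2 * (v.1.re * c + v.1.im * s - v.2 * C) / S ^ 2 * s := by
      unfold lref
      simp only
      rw [Complex.sub_im, Complex.im_ofReal_mul, Complex.exp_ofReal_mul_I_im]
    have e3 : (lref a b v).2 = v.2 - 2 * (v.1.re * c + v.1.im * s - v.2 * C) / S ^ 2 * C := rfl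
    rw [e1, e2, e3]
    have h5 : c ^ 2 + s ^ 2 - C ^ 2 = S ^ 2 := by linarith
    field_simp
    linear_combination (-2) * (v.1.re * c + v.1.im * s - v.2 * C) * h5
  ext1
  · have h6 := key v
    show (lref a b v).1 - ((2 * ((lref a b v).1.re * c + (lref a b v).1.im * s
      - (lref a b v).2 * C) / S ^ 2 : ℝ) : ℂ) *
      Complex.exp (((a + b) / 2 : ℝ) * Complex.I) = v.1
    rw [h6]
    show v.1 - ((2 * (v.1.re * c + v.1.im * s - v.2 * C) / S ^ 2 : ℝ) : ℂ) *
      Complex.exp (((a + b) / 2 : ℝ) * Complex.I) - _ = v.1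
    push_cast
    ring
  · have h6 := key v
    show (lref a b v).2 - 2 * ((lref a b v).1.re * c + (lref a b v).1.im * s
      - (lref a b v).2 * C) / S ^ 2 * C = v.2
    rw [h6]
    show v.2 - 2 * (v.1.re * c + v.1.im * s - v.2 * C) / S ^ 2 * C - _ = v.2
    ring

end Pool.Agent.RAY
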