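import Pool.Agent.RAY.HH
import Pool.Agent.RAY.Conf
import Pool.Agent.RAY.Tower

/-!
# RAY: interface between the explicit geometry (block H) and the dynamics (block D)

Everything in the cover `Pl = ℝ × ℝ` of the cylinder, all pictures normalised (one turn = 1).
The picture with `q` slots: the rectangle `rc q w j` (`j : ℤ`, half slots) is centred at
`x = j / (2 q)`, `y = 0`; `rc q w (2 i)` is `π_i`, `rc q w (2 i + 1)` is `α_i`; `gtP q j` is the gate
between the boxes `j - 1` and `j`.  The line of the arc `v` is `x = (v - 1/4) / q`.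
`g` maps picture `k + 1` to picture `k`; the strip `|y| ≤ 1` of picture `k + 1` goes into the strip
`|y| ≤ 1/16` of picture `k`.  The arc `ω_{u v}` of picture `k + 1` starts (for `y ≥ 1`) at
`x = (u v - 1/4) / q'`, ends (for `y ≤ -1`) one turn later, at `x = (u v + q' - 1/4) / q'`, and is
mapped to the vertical line `x = (v - 1/4) / q`; so `g` turns the lower end by one full turn
backwards, and it maps the box `α_{u v + q'}` into `π_v`.
-/

set_option autoImplicit false

namespace Pool.Agent.RAY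

/-- The closed rectangle number `j` of size `w`. -/
def rc (q : ℤ) (w : ℝ) (j : ℤ) : Set Pl := {z | |q * z.1 - j / 2| ≤ w ∧ |z.2| ≤ w}

/-- The gate between the boxes `j - 1` and `j`. -/
def gtP (q : ℤ) (j : ℤ) : Set Pl :=
  {z | ((j : ℝ) - 1) / 2 + 1 / 16 < q * z.1 ∧ q * z.1 < (j : ℝ) / 2 - 1 / 16 ∧ z.2 = 0}

/-- The path `δ` on `[0, 1]` has itinerary `w`: it passes alternately from the upper closed side to
the lower closed side, in the gates of the list `w`, beginning above, and avoids the boxes. -/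
def ItinP (q : ℤ) (w : List ℤ) (δ : ℝ → Pl) : Prop :=
  ∃ τ : ℕ → ℝ, Monotone τ ∧ τ 0 = 0 ∧ τ (w.length + 1) = 1 ∧
    (∀ i (hi : i < w.length), δ (τ (i + 1)) ∈ gtP q (w[i])) ∧
    ∀ i ≤ w.length, ∀ t, τ i ≤ t → t ≤ τ (i + 1) →
      (∀ j, δ t ∉ rc q (1 / 16) j) ∧ (Even i → 0 ≤ (δ t).2) ∧ (¬ Even i → (δ t).2 ≤ 0)

open Classical in
/-- The elements of the semigroup below `q_{k+1}`, in increasing order. -/
noncomputable def SL (L : Lv) : List ℕ :=
  (List.range L.next.q.toNat).filter fun s => L.Sg (s : ℤ)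

/-- What one step of the explicit geometry delivers: level `L`, next level `L.next`; `w` is the size
of the boxes of level `L` into which `g` maps the boxes of the next level. -/
structure HStep (L : Lv) (w : ℝ) where
  /-- picture `k + 1` to picture `k` -/
  g : HH
  /-- the correction in the double sector, in picture `k` -/
  h : HH
  /-- `par j` is the box of level `k` which contains the box `j` of level `k + 1` -/
  par : ℤ → ℤ
  top : ∀ z : Pl, 1 ≤ z.2 → (g z).2 = z.2 - 15 / 16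
  bot : ∀ z : Pl, z.2 ≤ -1 → (g z).2 = z.2 + 15 / 16
  mid : ∀ z : Pl, |z.2| ≤ 1 → |(g z).2| ≤ 1 / 16
  /-- `h` is supported in the double sector around the exceptional arc (and its translates) -/
  supp : ∀ z : Pl, (∀ n : ℤ, |L.q * z.1 - (L.ex - 1 / 4) - n * L.q| < 1 → 1 / 8 ≤ |z.2|) → h z = z
  /-- exact equivariance -/
  conj : ∀ z : Pl, |z.2| ≤ 1 →
    HH.rot (L.p / L.q) (h (g z)) = g (HH.rot (L.next.p / L.next.q) z)
  par_pi : ∀ j v : ℤ, par j = 2 * v ↔ j = 2 * (L.u v + L.next.q) + 1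
  par_al : ∀ i v : ℤ, L.u v < i → i < L.u (v + 1) → par (2 * (i + L.next.q) + 1) = 2 * v + 1
  box : ∀ j : ℤ, ∀ z ∈ rc L.next.q (1 / 16) j, g z ∈ rc L.q w (par j)
  ring : ∀ j : ℤ, ∀ z ∈ rc L.next.q (1 / 16) j, z.2 = 0 → (g z).2 = 0
  /-- the double sector of the next level, and its image under the rotation, lie in one `α` box -/
  sect : ∀ c : ℤ, c = L.next.ex ∨ c = L.next.ex + L.next.p → ∃ v : ℤ, ∀ z : Pl,
    |L.next.q * z.1 - (c - 1 / 4)| ≤ 1 → |z.2| ≤ 1 / 8 → g z ∈ rc L.q w (2 * v + 1)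
  /-- the arc `ω_{u v}`: it starts above the gate `L_{u v}` and ends, one turn later, below the gate
  `L_{u v + q}` -/
  armL : ∀ v : ℤ, ∃ δ : ℝ → Pl, Continuous δ ∧ (δ 0).2 = 1 ∧ (δ 1).2 = -1 ∧
    ItinP L.q [2 * v] (fun t => g (δ t)) ∧
    ItinP L.next.q (omega L.next.q.toNat (SL L) (L.u v)) δ
  /-- the arc on the other side of `π_v`, i.e. of the box `α_{u v + q}` -/
  armR : ∀ v : ℤ, ∃ δ : ℝ → Pl, Continuous δ ∧ (δ 0).2 = 1 ∧ (δ 1).2 = -1 ∧
    ItinP L.q [2 * v + 1] (fun t => g (δ t)) ∧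
    ItinP L.next.q (omega L.next.q.toNat (SL L) (L.u v) ++
      [2 * (L.u v + L.next.q) + 1, 2 * (L.u v + L.next.q + 1)]) δ
  /-- below the box `π_v` of level `k` everything comes from below the ring -/
  below : ∀ v : ℤ, ∀ z : Pl, |L.q * z.1 - v| ≤ 1 / 16 → z.2 < 0 → (g⁻¹ z).2 < 0
  /-- the column above `π_0` of level `k + 1` goes into sector `0`, to the right of the column above
  `π_0` of level `k` -/
  above : ∀ z : Pl, |L.next.q * z.1| ≤ 1 / 16 → 0 ≤ z.2 →
    1 / 16 < L.q * (g z).1 ∧ L.q * (g z).1 < 3 / 4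

end Pool.Agent.RAY
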