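import Pool.Agent.RAY.Act
import Pool.Agent.RAY.Tower

/-!
# Upper bound: the stable translation length is zero
-/

namespace Pool.Agent.RAY

open Set Topology Filter unitInterval

theorem edist_le_one_of_disjoint {C : Set ℂ} {a b : Vertex C} {γ γ' : Ray C}
    (ha : Quotient.mk _ γ = a) (hb : Quotient.mk _ γ' = b) (h : DisjointInteriors γ.1 γ'.1) :
    (rayGraph C).edist a b ≤ 1 := by
  by_cases hab : a = b
  · rw [hab, SimpleGraph.edist_self]
    exact zero_le
  · have hadj : (rayGraph C).Adj a b := ⟨hab, γ, γ', ha, hb, h⟩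
    have := SimpleGraph.edist_le hadj.toWalk
    simpa using this

namespace Tower

variable (T : Tower)

/-- the class of `X k`. -/
def vX (k : ℕ) : Vertex T.C := Quotient.mk _ (T.X k)

theorem edist_vX (k : ℕ) : (rayGraph T.C).edist (T.vX 0) (T.vX k) ≤ k := by
  induction k with
  | zero => simp
  | succ k ih =>
    calc (rayGraph T.C).edist (T.vX 0) (T.vX (k + 1))
        ≤ (rayGraph T.C).edist (T.vX 0) (T.vX k) + (rayGraph T.C).edist (T.vX k) (T.vX (k + 1)) :=
          SimpleGraph.edist_triangle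
      _ ≤ k + 1 := add_le_add ih (edist_le_one_of_disjoint rfl rfl (T.X_succ k))
      _ = ((k + 1 : ℕ) : ℕ∞) := by push_cast; rfl

theorem edist_vX_orbit (k n : ℕ) (hn : n ≤ T.N k) :
    (rayGraph T.C).edist (T.vX k) ((act T.f T.map_C)^[n] (T.vX k)) ≤ 1 := by
  rcases Nat.eq_zero_or_pos n with rfl | hn0
  · simp
  · obtain ⟨γ', h1, h2⟩ := act_iterate_mk T.f T.map_C (T.X k) n
    obtain ⟨Y, h3, h4⟩ := T.X_orbit k n hn0 hn
    refine edist_le_one_of_disjoint (γ := T.X k) (γ' := Y) rfl ?_ h4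
    show _ = (act T.f T.map_C)^[n] (Quotient.mk _ (T.X k))
    rw [h1]
    refine (Quotient.sound ?_).symm
    have e : γ'.1 = fun t => T.f.onePointCongr^[n] ((T.X k).1 t) := funext h2
    show Isotopic T.C γ'.1 Y.1
    rw [e]
    exact h3

theorem upper : (∀ n : ℕ, (rayGraph T.C).edist (T.vX 0) ((act T.f T.map_C)^[n] (T.vX 0)) ≠ ⊤) ∧
    Tendsto (fun n : ℕ => (((rayGraph T.C).edist (T.vX 0)
      ((act T.f T.map_C)^[n] (T.vX 0))).toNat : ℝ) / n) atTop (𝓝 0) := by
  have htop : Tendsto T.N atTop atTop := by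
    refine tendsto_atTop_mono (fun k => ?_) tendsto_id
    have := T.N_big k
    show k ≤ T.N k
    nlinarith
  refine tau_zero _ _ (edist_act T.f T.map_C) (T.vX 0) T.vX T.N T.edist_vX T.edist_vX_orbit htop ?_
  refine squeeze_zero_norm' (a := fun k : ℕ => 5 * (1 / (k : ℝ))) ?_ ?_
  · filter_upwards [eventually_ge_atTop 1] with k hk
    have h1 : ((k : ℝ)) ^ 2 ≤ (T.N k : ℝ) := by exact_mod_cast T.N_big k
    have h2 : (1 : ℝ) ≤ k := by exact_mod_cast hk
    rw [Real.norm_of_nonneg (by positivity)]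
    calc (2 * k + 3 : ℝ) / T.N k ≤ (5 * k) / (k : ℝ) ^ 2 := by
          refine div_le_div₀ (by positivity) (by linarith) (by positivity) h1
      _ = 5 * (1 / (k : ℝ)) := by field_simp
  · have := tendsto_one_div_atTop_nhds_zero_nat (𝕜 := ℝ)
    simpa using this.const_mul 5

end Tower

end Pool.Agent.RAY
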