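import Pool.Agent.RAY.Pic
import Pool.Agent.RAY.Parab

/-!
# The windows of the rays of a tower
-/

namespace Pool.Agent.RAY

open Set Topology Filter unitInterval

namespace TopSys

variable (Z : TopSys) (T : Tower)

/-- The vertex `a` passes through the window `v` of picture `k`, with the punctures `P`. -/
def Win (P : Set (OnePoint ℂ)) (k : ℕ) (v : ℤ) (a : Vertex T.C) : Prop :=
  ∃ e : Enum (T.q k) (T.G k ⁻¹' P), ∀ γ : Ray T.C, Quotient.mk _ γ = a →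
    ∃ t, (Z.K e).Acusp e.γ v ≤ t ∧ t ≤ (Z.K e).Bcusp e.γ v ∧ (Z.K e).c t = Z.E e (T.pic k γ)

variable {T}

theorem γ_per {q : ℕ} {P : Set (OnePoint ℂ)} (e : Enum q P) (j : ℤ) :
    e.γ (j + 2 * q) = e.γ j + (Z.K e).N := by
  rw [Z.K_N, e.γ_per]

/-- Isotopic rays have the same end. -/
theorem E_isotopic {P : Set (OnePoint ℂ)} (hP : P ⊆ (↑) '' T.C) {k : ℕ}
    (e : Enum (T.q k) (T.G k ⁻¹' P)) {γ γ' : Ray T.C}
    (h : (Quotient.mk _ γ : Vertex T.C) = Quotient.mk _ γ') (h1 : γ.1 1 ∈ P) :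
    Z.E e (T.pic k γ) = Z.E e (T.pic k γ') := by
  obtain ⟨H, hc, hr, h0, h1'⟩ := Quotient.exact h
  have hend : ∀ s, H (s, 1) = γ.1 1 := fun s => by
    rw [isotopy_end T.cantor.totDisc hc hr s 0, h0]
  have key := Z.htpy e (fun p => (T.G k).symm (H p)) ((T.G k).symm.continuous.comp hc) (fun s =>
    T.pathTo_pic hP k ⟨fun t => H (s, t), hr s⟩ (by
      show H (s, 1) ∈ P
      rw [hend]
      exact h1))
  have e0 : (fun t => (T.G k).symm (H (0, t))) = T.pic k γ := by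
    funext t
    show (T.G k).symm (H (0, t)) = (T.G k).symm (γ.1 t)
    rw [h0]
  have e1 : (fun t => (T.G k).symm (H (1, t))) = T.pic k γ' := by
    funext t
    show (T.G k).symm (H (1, t)) = (T.G k).symm (γ'.1 t)
    rw [h1']
  rw [← e0, ← e1]
  exact key

/-- The window only has to be checked for one ray. -/
theorem win_of_one {m : ℕ} {P : Set (OnePoint ℂ)} (hP : T.Good m P) {k : ℕ} {v : ℤ}
    (γ : Ray T.C) (h1 : γ.1 1 ∈ P) (e : Enum (T.q k) (T.G k ⁻¹' P))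
    (h : ∃ t, (Z.K e).Acusp e.γ v ≤ t ∧
      t ≤ (Z.K e).Bcusp e.γ v ∧ (Z.K e).c t = Z.E e (T.pic k γ)) :
    Z.Win T P k v (Quotient.mk _ γ) := by
  refine ⟨e, fun γ' hγ' => ?_⟩
  obtain ⟨t, h2, h3, h4⟩ := h
  exact ⟨t, h2, h3, h4.trans (Z.E_isotopic hP.sub e hγ'.symm h1)⟩

theorem u_lt (k : ℕ) {v w : ℤ} (h : v < w) : T.u k v + 4 ≤ T.u k w := by
  have hm : StrictMono (T.u k) := strictMono_int_of_lt_succ fun n => by
    have := T.u_step k n; omega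
  have h1 : T.u k (v + 1) ≤ T.u k w := hm.monotone (by omega)
  have := T.u_step k v
  omega

/-- The left arm. -/
theorem armA_ex {m : ℕ} {P : Set (OnePoint ℂ)} (hP : T.Good m P) {k : ℕ}
    (e : Enum (T.q k) (T.G k ⁻¹' P)) (e' : Enum (T.q (k + 1)) (T.G (k + 1) ⁻¹' P)) (v : ℤ) :
    ∃ η, PathTo (T.G k ⁻¹' P) η ∧ Z.E e η = (Z.K e).c ((Z.K e).Acusp e.γ v) ∧
      ∃ a, (Z.K e').θ (e'.γ (2 * T.u k v + 1) + 1) ≤ a ∧
        a ≤ (Z.K e').θ (e'.γ (2 * (T.u k v + T.q (k + 1)) - 2)) ∧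
        Z.E e' (fun t => T.tr k (η t)) =
          (Z.K e').act ((Circ.gates (T.S k) (T.u k v) ++ [2 * (T.u k v + T.q (k + 1))]).map e'.γ)
            ((Z.K e').c a) := by
  have hq : 2 ≤ T.q k := by have := T.q_ge k; omega
  have hbx : ((pt (e.θ (e.γ (2 * v - 1))) 0 : ℂ) : OnePoint ℂ) ∈ bx (T.q k) (2 * (v - 1)) := by
    refine ⟨_, ?_, rfl⟩
    have h1 := e.γ_step (2 * (v - 1))
    have e1 : 2 * (v - 1) + 1 = 2 * v - 1 := by ring
    have := (e.box (2 * (v - 1)) (e.γ (2 * v - 1))).1 ⟨by rw [← e1]; omega, by rw [e1]⟩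
    exact_mod_cast this
  have hP1 : ((pt (e.θ (e.γ (2 * v - 1))) 0 : ℂ) : OnePoint ℂ) ∈ T.G k ⁻¹' P :=
    (e.mem _).2 ⟨_, rfl⟩
  obtain ⟨η, h1, h2, h3, h4⟩ := T.armA k v _ ⟨hP.sub hP1, hbx⟩
  have hη : PathTo (T.G k ⁻¹' P) η := h2.pathTo (preimage_mono hP.sub) (h1 ▸ hP1)
  refine ⟨η, hη, ?_, ?_⟩
  · rw [Z.itin e _ (preimage_mono hP.sub) [2 * v] η h2 _ h1]
    rw [((Z.K e).Acusp_mem (T.q k) hq e.γ_step (Z.γ_per e) v).2.2]
    rfl
  · have hbx' : (T.G (k + 1)).symm (T.G k ((pt (e.θ (e.γ (2 * v - 1))) 0 : ℂ))) ∈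
        bx (T.q (k + 1)) (2 * (T.u k (v - 1) + T.q (k + 1)) + 1) := by
      have := Tower.bx_add (T.q (k + 1)) (2 * T.u k (v - 1) + 1) 1
      have e1 : 2 * T.u k (v - 1) + 1 + 2 * (T.q (k + 1) : ℤ) * 1 =
          2 * (T.u k (v - 1) + T.q (k + 1)) + 1 := by ring
      rw [e1] at this
      rw [this]
      exact h3
    have hP' : (T.G (k + 1)).symm (T.G k ((pt (e.θ (e.γ (2 * v - 1))) 0 : ℂ))) ∈
        T.G (k + 1) ⁻¹' P := by
      show T.G (k + 1) ((T.G (k + 1)).symm _) ∈ P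
      rw [Homeomorph.apply_symm_apply]
      exact hP1
    obtain ⟨n, hn, hn1, hn2⟩ := Tower.Enum.exists_of_mem e' hP' hbx'
    refine ⟨(Z.K e').θ n, ?_, ?_, ?_⟩
    · refine (Z.K e').θ_le ?_
      have h5 : T.u k v ≤ T.u k (v - 1) + T.q (k + 1) := by
        rw [← T.u_per]
        have := T.q_ge k
        have := u_lt (T := T) k (show v < v - 1 + T.q k by omega)
        omega
      have := Circ.γ_le (γ := e'.γ) e'.γ_step
        (show 2 * T.u k v + 1 ≤ 2 * (T.u k (v - 1) + T.q (k + 1)) + 1 by omega)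
      omega
    · refine (Z.K e').θ_le (hn2.trans ?_)
      refine Circ.γ_le (γ := e'.γ) e'.γ_step ?_
      have := u_lt (T := T) k (show v - 1 < v by omega)
      omega
    · exact Z.itin e' _ (preimage_mono hP.sub) _ _ h4 n (by
        show (T.G (k + 1)).symm (T.G k (η 1)) = _
        rw [h1]; exact hn)

/-- The right arm. -/
theorem armB_ex {m : ℕ} {P : Set (OnePoint ℂ)} (hP : T.Good m P) {k : ℕ}
    (e : Enum (T.q k) (T.G k ⁻¹' P)) (e' : Enum (T.q (k + 1)) (T.G (k + 1) ⁻¹' P)) (v : ℤ) :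
    ∃ η, PathTo (T.G k ⁻¹' P) η ∧ Z.E e η = (Z.K e).c ((Z.K e).Bcusp e.γ v) ∧
      ∃ b, (Z.K e').θ (e'.γ (2 * T.u k v + 2) + 1) ≤ b ∧
        b ≤ (Z.K e').θ (e'.γ (2 * T.u k v + 2)) + (Z.K e').T ∧
        Z.E e' (fun t => T.tr k (η t)) =
          (Z.K e').act ((Circ.gates (T.S k) (T.u k v) ++ [2 * (T.u k v + T.q (k + 1))] ++
            [2 * T.u k v + 1, 2 * T.u k v + 2]).map e'.γ) ((Z.K e').c b) := by
  have hq : 2 ≤ T.q k := by have := T.q_ge k; omega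
  have hbx : ((pt (e.θ (e.γ (2 * v + 2) + 1)) 0 : ℂ) : OnePoint ℂ) ∈ bx (T.q k) (2 * (v + 1)) := by
    refine ⟨_, ?_, rfl⟩
    have h1 := e.γ_step (2 * (v + 1))
    have e1 : 2 * (v + 1) = 2 * v + 2 := by ring
    have := (e.box (2 * (v + 1)) (e.γ (2 * v + 2) + 1)).1 ⟨by rw [e1]; omega, by
      rw [e1] at h1 ⊢; omega⟩
    exact_mod_cast this
  have hP1 : ((pt (e.θ (e.γ (2 * v + 2) + 1)) 0 : ℂ) : OnePoint ℂ) ∈ T.G k ⁻¹' P :=
    (e.mem _).2 ⟨_, rfl⟩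
  obtain ⟨η, h1, h2, h3, h4⟩ := T.armB k v _ ⟨hP.sub hP1, hbx⟩
  have hη : PathTo (T.G k ⁻¹' P) η := h2.pathTo (preimage_mono hP.sub) (h1 ▸ hP1)
  refine ⟨η, hη, ?_, ?_⟩
  · rw [Z.itin e _ (preimage_mono hP.sub) [2 * v + 1] η h2 _ h1]
    rw [((Z.K e).Bcusp_mem (T.q k) hq e.γ_step (Z.γ_per e) v).2.2]
    rfl
  · have hP' : (T.G (k + 1)).symm (T.G k ((pt (e.θ (e.γ (2 * v + 2) + 1)) 0 : ℂ))) ∈
        T.G (k + 1) ⁻¹' P := by
      show T.G (k + 1) ((T.G (k + 1)).symm _) ∈ P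
      rw [Homeomorph.apply_symm_apply]
      exact hP1
    obtain ⟨n, hn, hn1, hn2⟩ := Tower.Enum.exists_of_mem e' hP' h3
    have hv := u_lt (T := T) k (show v < v + 1 by omega)
    have hv' : T.u k (v + 1) + 4 ≤ T.u k v + T.q (k + 1) := by
      rw [← T.u_per]
      have := T.q_ge k
      exact u_lt (T := T) k (show v + 1 < v + T.q k by omega)
    refine ⟨(Z.K e').θ n, ?_, ?_, ?_⟩
    · refine (Z.K e').θ_le ?_
      have := Circ.γ_le (γ := e'.γ) e'.γ_step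
        (show 2 * T.u k v + 2 ≤ 2 * T.u k (v + 1) + 1 by omega)
      omega
    · rw [(Z.K e').θγ_add_T (T.q (k + 1)) (Z.γ_per e')]
      refine (Z.K e').θ_le (hn2.trans ?_)
      refine Circ.γ_le (γ := e'.γ) e'.γ_step ?_
      omega
    · have := Z.itin e' _ (preimage_mono hP.sub) _ _ h4 n (by
        show (T.G (k + 1)).symm (T.G k (η 1)) = _
        rw [h1]; exact hn)
      rw [show (2 * (T.u k v + 1) : ℤ) = 2 * T.u k v + 2 by ring] at this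
      exact this

/-- Transport of a window to the next picture. -/
theorem transport {m : ℕ} {P : Set (OnePoint ℂ)} (hP : T.Good m P) {k : ℕ}
    (e : Enum (T.q k) (T.G k ⁻¹' P)) (e' : Enum (T.q (k + 1)) (T.G (k + 1) ⁻¹' P)) (v : ℤ)
    {γ : Ray T.C} (hγ : γ.1 1 ∈ P)
    (h : ∃ t, (Z.K e).Acusp e.γ v ≤ t ∧ t ≤ (Z.K e).Bcusp e.γ v ∧
      (Z.K e).c t = Z.E e (T.pic k γ)) :
    ∃ a b t0 tA tB : ℝ, (Z.K e').θ (e'.γ (2 * T.u k v + 1) + 1) ≤ a ∧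
      a ≤ (Z.K e').θ (e'.γ (2 * (T.u k v + T.q (k + 1)) - 2)) ∧
      (Z.K e').θ (e'.γ (2 * T.u k v + 2) + 1) ≤ b ∧
      b ≤ (Z.K e').θ (e'.γ (2 * T.u k v + 2)) + (Z.K e').T ∧
      (Z.K e').θ (e'.γ (2 * T.u k v)) ≤ tA ∧ (Z.K e').Acusp e'.γ (T.u k v) < tA ∧
      tA ≤ t0 ∧ t0 ≤ tB ∧ tB ≤ (Z.K e').θ (e'.γ (2 * T.u k v) + 1) ∧
      (Z.K e').c tA = (Z.K e').act ((Circ.gates (T.S k) (T.u k v) ++
        [2 * (T.u k v + T.q (k + 1))]).map e'.γ) ((Z.K e').c a) ∧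
      (Z.K e').c tB = (Z.K e').act ((Circ.gates (T.S k) (T.u k v) ++
        [2 * (T.u k v + T.q (k + 1))] ++ [2 * T.u k v + 1, 2 * T.u k v + 2]).map e'.γ)
        ((Z.K e').c b) ∧
      (Z.K e').c t0 = Z.E e' (T.pic (k + 1) γ) := by
  have hq : 2 ≤ T.q k := by have := T.q_ge k; omega
  have hq' : 2 ≤ T.q (k + 1) := by have := T.q_ge (k + 1); omega
  obtain ⟨ηA, hA1, hA2, a, hA3, hA4, hA5⟩ := Z.armA_ex hP e e' v
  obtain ⟨ηB, hB1, hB2, b, hB3, hB4, hB5⟩ := Z.armB_ex hP e e' v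
  obtain ⟨ηZ, hZ1, hZ2, z, hZ3, hZ4, hZ5⟩ := Z.armA_ex hP e e' (v + 1)
  obtain ⟨tA, tB, c1, c2, c3, c4, c5, c6⟩ := (Z.K e').cusps (T.q (k + 1)) hq' e'.γ_step
    (Z.γ_per e') (T.S k) (T.S_sorted k) (T.S_lt k) (T.S_zero k) (T.u k v) a b hA3 hA4 hB3 hB4
  obtain ⟨tZ, d1, d2, d3⟩ := (Z.K e').cusp_mem (T.q (k + 1)) hq' e'.γ_step
    (Z.γ_per e') (T.S k) (T.S_sorted k) (T.S_lt k) (T.S_zero k) (T.u k (v + 1)) z hZ3 hZ4
  have hpic : PathTo (T.G k ⁻¹' P) (T.pic k γ) := T.pathTo_pic hP.sub k γ hγ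
  have htr : (fun s => T.tr k (T.pic k γ s)) = T.pic (k + 1) γ := funext (T.tr_pic k γ)
  suffices hs : ∃ t0, tA ≤ t0 ∧ t0 ≤ tB ∧ (Z.K e').c t0 = Z.E e' (T.pic (k + 1) γ) by
    obtain ⟨t0, h1, h2, h3⟩ := hs
    exact ⟨a, b, t0, tA, tB, hA3, hA4, hB3, hB4, c1, c2, h1, h2, c4, c5, c6, h3⟩
  obtain ⟨t, ht1, ht2, ht3⟩ := h
  rcases ht1.eq_or_lt with h1 | h1
  · -- the left end
    refine ⟨tA, le_rfl, c3, ?_⟩
    rw [c5, ← hA5, ← htr]
    refine Z.transEq e e' (T.tr k) (T.tr_infty k) (T.tr_preimage k P) ηA _ hA1 hpic ?_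
    rw [hA2, h1, ht3]
  rcases ht2.eq_or_lt with h2 | h2
  · -- the right end
    refine ⟨tB, c3, le_rfl, ?_⟩
    rw [c6, ← hB5, ← htr]
    refine Z.transEq e e' (T.tr k) (T.tr_infty k) (T.tr_preimage k P) ηB _ hB1 hpic ?_
    rw [hB2, ← h2, ht3]
  · have o1 : (Z.K e).Bcusp e.γ v < (Z.K e).Acusp e.γ (v + 1) := by
      have h3 := ((Z.K e).Bcusp_mem (T.q k) hq e.γ_step (Z.γ_per e) v).2.1
      have h4 := ((Z.K e).Acusp_mem (T.q k) hq e.γ_step (Z.γ_per e) (v + 1)).1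
      have h5 : (Z.K e).θ (e.γ (2 * v + 1) + 1) < (Z.K e).θ (e.γ (2 * (v + 1))) := by
        refine (Z.K e).θ_lt ?_
        have := Circ.γ_lt (γ := e.γ) e.γ_step (show 2 * v + 1 < 2 * (v + 1) by omega)
        omega
      linarith
    have o2 : (Z.K e).Acusp e.γ (v + 1) < (Z.K e).Acusp e.γ v + (Z.K e).T := by
      have h3 := ((Z.K e).Acusp_mem (T.q k) hq e.γ_step (Z.γ_per e) (v + 1)).2.1
      have h4 := ((Z.K e).Acusp_mem (T.q k) hq e.γ_step (Z.γ_per e) v).1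
      have h5 : (Z.K e).θ (e.γ (2 * (v + 1)) + 1) < (Z.K e).θ (e.γ (2 * v)) + (Z.K e).T := by
        rw [(Z.K e).θγ_add_T (T.q k) (Z.γ_per e)]
        refine (Z.K e).θ_lt ?_
        have := Circ.γ_lt (γ := e.γ) e.γ_step (show 2 * (v + 1) < 2 * v + 2 * (T.q k : ℤ) by omega)
        omega
      linarith
    obtain ⟨t', ht', hlk⟩ := Z.transLk e e' (T.tr k) (T.tr_infty k) (T.tr_preimage k P)
      ![ηA, T.pic k γ, ηB, ηZ] (by
        intro i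
        fin_cases i
        · exact hA1
        · exact hpic
        · exact hB1
        · exact hZ1)
      ![(Z.K e).Acusp e.γ v, t, (Z.K e).Bcusp e.γ v, (Z.K e).Acusp e.γ (v + 1)] (by
        intro i
        fin_cases i
        · exact hA2.symm
        · exact ht3
        · exact hB2.symm
        · exact hZ2.symm) h1 h2 o1 o2
    have hu := u_lt (T := T) k (show v < v + 1 by omega)
    have hu' : T.u k (v + 1) + 4 ≤ T.u k v + T.q (k + 1) := by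
      rw [← T.u_per]
      have := T.q_ge k
      exact u_lt (T := T) k (show v + 1 < v + T.q k by omega)
    obtain ⟨t0, f1, f2, f3⟩ := (Z.K e').between_of_link (Z.K_T e') hlk (tA := tA) (tB := tB)
      (tZ := tZ) (a0 := (Z.K e').θ (e'.γ (2 * T.u k v)))
      (a1 := (Z.K e').θ (e'.γ (2 * T.u k v) + 1))
      ((ht' 0).trans (hA5.trans c5.symm)) ((ht' 2).trans (hB5.trans c6.symm))
      ((ht' 3).trans (hZ5.trans d3.symm)) c1 c3 c4 (by
        refine lt_of_lt_of_le ((Z.K e').θ_lt ?_) d1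
        have := Circ.γ_lt (γ := e'.γ) e'.γ_step
          (show 2 * T.u k v < 2 * T.u k (v + 1) by omega)
        omega) (by
        refine lt_of_le_of_lt d2 ?_
        rw [(Z.K e').θγ_add_T (T.q (k + 1)) (Z.γ_per e')]
        refine (Z.K e').θ_lt ?_
        have := Circ.γ_lt (γ := e'.γ) e'.γ_step
          (show 2 * T.u k (v + 1) < 2 * T.u k v + 2 * (T.q (k + 1) : ℤ) by omega)
        omega)
    refine ⟨t0, f1.le, f2.le, f3.trans ((ht' 1).trans ?_)⟩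
    show Z.E e' (fun s => T.tr k (T.pic k γ s)) = _
    rw [htr]

theorem stay {m : ℕ} {P : Set (OnePoint ℂ)} (hP : T.Good m P) {k : ℕ} (hk : k < m) (v : ℤ)
    (a : Vertex T.C) (ha : T.vend a ∈ P) (h : Z.Win T P k v a) :
    Z.Win T P (k + 1) (T.u k v) a := by
  induction a using Quotient.inductionOn with
  | h γ =>
    obtain ⟨e, he⟩ := h
    obtain ⟨e'⟩ := hP.enum (show k + 1 ≤ m by omega)
    refine Z.win_of_one hP γ ha e' ?_
    obtain ⟨a, b, t0, tA, tB, -, -, -, -, -, h1, h2, h3, h4, -, -, h5⟩ :=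
      Z.transport hP e e' v (γ := γ) ha (he γ rfl)
    refine ⟨t0, h1.le.trans h2, (h3.trans h4).trans ?_, h5⟩
    have hq' : 2 ≤ T.q (k + 1) := by have := T.q_ge (k + 1); omega
    refine le_trans ((Z.K e').θ_le ?_)
      ((Z.K e').Bcusp_mem (T.q (k + 1)) hq' e'.γ_step (Z.γ_per e') _).1
    have := Circ.γ_lt (γ := e'.γ) e'.γ_step (show 2 * T.u k v < 2 * T.u k v + 1 by omega)
    omega

theorem step {m : ℕ} {P : Set (OnePoint ℂ)} (hP : T.Good m P) {k : ℕ} (hk : k < m) (v : ℤ)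
    (a b : Vertex T.C) (ha : T.vend a ∈ P) (hb : T.vend b ∈ P) (hadj : (rayGraph T.C).Adj a b)
    (h : Z.Win T P k v a) : ∃ s ∈ T.S k, Z.Win T P (k + 1) (T.u k v + s) b := by
  obtain ⟨-, y, z, rfl, rfl, hd⟩ := hadj
  obtain ⟨e, he⟩ := h
  obtain ⟨e'⟩ := hP.enum (show k + 1 ≤ m by omega)
  have hq' : 2 ≤ T.q (k + 1) := by have := T.q_ge (k + 1); omega
  obtain ⟨a, b, t0, tA, tB, h1, h2, h3, h4, h5, h6, h7, h8, h9, h10, h11, h12⟩ :=
    Z.transport hP e e' v (γ := y) ha (he y rfl)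
  have hinj : ∀ γ : Ray T.C, Function.Injective (T.pic (k + 1) γ) := fun γ =>
    (T.G (k + 1)).symm.injective.comp γ.2.injective
  have hd' : DisjointInteriors (T.pic (k + 1) y) (T.pic (k + 1) z) := fun s t hs hs' ht ht' e =>
    hd s t hs hs' ht ht' ((T.G (k + 1)).symm.injective e)
  obtain ⟨s, hs, t, ht1, ht2, ht3⟩ := (Z.K e').window_chord (T.q (k + 1)) hq' e'.γ_step
    (Z.γ_per e') (T.S k) (T.S_sorted k) (T.S_lt k) (T.S_zero k) (fun s hs => by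
      rcases T.S_two k s hs with h | h
      · exact Or.inl h
      · exact Or.inr (by omega)) (T.u k v) (Z.E e' (T.pic (k + 1) z)) a b t0 tA tB h1 h2 h3 h4
    h5 h7 h8 h9 h10 h11 (by
      intro w hw t1 t2 t3 t4 o1 o2 o3 o4 g1 g2 g3 g4
      refine Z.disj e' (T.pic (k + 1) y) (T.pic (k + 1) z) (T.pathTo_pic hP.sub _ y ha)
        (T.pathTo_pic hP.sub _ z hb) (hinj y) (hinj z) hd' w hw t1 t2 t3 t4 o1 o2 o3 o4
        (g1.trans h12) g2 g3 (g4.trans ?_)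
      rw [h12])
  exact ⟨s, hs, Z.win_of_one hP z hb e' ⟨t, ht1, ht2, ht3⟩⟩

theorem start {m : ℕ} {P : Set (OnePoint ℂ)} (hP : T.Good m P)
    (h : T.vend (Quotient.mk _ (T.X 0)) ∈ P) : Z.Win T P 0 0 (Quotient.mk _ (T.X 0)) := by
  obtain ⟨e⟩ := hP.enum (Nat.zero_le m)
  refine Z.win_of_one hP (T.X 0) h e ?_
  obtain ⟨h1, h2⟩ := T.X_zero
  have hG : T.G 0 = Homeomorph.refl _ := T.G_zero
  have hpic : T.pic 0 (T.X 0) = (T.X 0).1 := by
    funext s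
    show (T.G 0).symm _ = _
    rw [hG]
    rfl
  have hpre : T.G 0 ⁻¹' P = P := by
    rw [hG]
    rfl
  have hmem : (T.X 0).1 1 ∈ T.G 0 ⁻¹' P := by rw [hpre]; exact h
  obtain ⟨n, hn, hn1, hn2⟩ := Tower.Enum.exists_of_mem e hmem h2
  have hsub : T.G 0 ⁻¹' P ⊆ (↑) '' T.C := by rw [hpre]; exact hP.sub
  have hE := Z.itin e _ hsub [] (T.X 0).1 h1 n hn
  have hq : 2 ≤ T.q 0 := by have := T.q_ge 0; omega
  have hA := ((Z.K e).Acusp_mem (T.q 0) hq e.γ_step (Z.γ_per e) 0).2.1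
  have hB := ((Z.K e).Bcusp_mem (T.q 0) hq e.γ_step (Z.γ_per e) 0).1
  refine ⟨(Z.K e).θ n, hA.trans ((Z.K e).θ_le ?_), le_trans ((Z.K e).θ_le ?_) hB, ?_⟩
  · simpa using hn1
  · simpa using hn2
  · rw [hpic, hE]
    rfl

end TopSys

end Pool.Agent.RAY
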